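import Mathlib
import Pool.Agent.Helper62.OB.Defs

/-!
# Twisted torus knots: definitions

Closed braids, Markov moves, Burau matrices and the Alexander polynomial are those of
`Pool.Agent.Helper62.OB.Defs`.
-/

set_option autoImplicit false

namespace Pool.Agent.Helper27.TT

open Polynomial LaurentPolynomial
open Pool.Agent.Helper62.OB

/-- The braid on `m + 1` strands whose closure is the twisted torus knot `T(m + 1, q; r, s)`: the
torus braid `(σ_{m-1} ⋯ σ_0)^q` with `s` full twists `(σ_{r-2} ⋯ σ_0)^r` on the first `r` strands. -/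
def tt (m q r s : ℕ) : BraidGroup m := rn m 0 (r - 1) ^ (r * s) * rn m 0 m ^ q

/-- The closure of the braid is a torus knot `T(n + 1, t)`: it is Markov equivalent to
`(σ_{n-1} ⋯ σ_0)^t` on `n + 1` strands, `t` prime to `n + 1`. -/
def IsTorusKnot (x : Σ m : ℕ, BraidGroup m) : Prop :=
  ∃ n t : ℕ, Nat.Coprime (n + 1) t ∧ SameClosure x ⟨n, rn n 0 n ^ t⟩

/-- The sum `∑_{i < n} cos ((n - 1 - 2 i) y φ)`; `sin (y φ)` times it is `sin (n y φ)`. -/
noncomputable def S (n : ℕ) (y φ : ℝ) : ℝ :=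
  ∑ i ∈ Finset.range n, Real.cos (((n : ℝ) - 1 - 2 * i) * y * φ)

/-- The product of the cyclotomic polynomials `Φ_N`, `N ∈ M`, at the point `exp (2 φ I)`. -/
noncomputable def cyP (M : Multiset ℕ) (φ : ℝ) : ℂ :=
  ((M.map (fun N => cyclotomic N ℂ)).prod).eval (Complex.exp (2 * φ * Complex.I))

/-- The real function whose zeros are the zeros of `(1 + x + ... + x^m) Δ(x)` at `x = exp (2 φ I)`,
`Δ` the Alexander polynomial of `T(m + 1, k (m + 1) + 1; m, t + 1)`, `A = k (m + 1) + m (t + 1)`. -/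
noncomputable def EE (m t A : ℕ) (φ : ℝ) : ℝ :=
  Real.sin (m * (t + 1) * φ) * Real.sin ((m + 1) * A * φ) * Real.sin ((A + 1) * φ) -
    Real.sin (m * t * φ) * Real.sin ((m + 1) * (A + 1) * φ) * Real.sin (A * φ)

/-- The conditions on the base angle: `φ = π / N`, `h = m φ`, `x = m (t + 1) φ`, `y = A φ`,
`e = (m + 1) A φ - π`. -/
structure Win (φ h x y e : ℝ) : Prop where
  hφ : 0 < φ
  hh : 3 * φ ≤ h
  hx : 2 * h ≤ x
  hy : x + h + φ ≤ y
  he : 0 < e
  hey : e ≤ y - 2 * h
  hyu : 3 * (y + 2 * φ) ≤ Real.pi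

end Pool.Agent.Helper27.TT
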