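import Mathlib
import Pool.Agent.Helper27.TT.Defs
import Pool.Agent.Helper62.OB.St.BurauRn

/-!
# TT-B1: the Burau matrix of the full twists on the first `r` strands

`burau_rn m (r - 1)` (in `BurauRn.lean`) gives the matrix `C` of `rn m 0 (r - 1)`: row `i < r - 1`: `(1 - x) [j = 0] + x [j = i + 1]`,
row `i = r - 1`: `[j = 0]`, row `i ≥ r`: `[j = i]` (`x = T 1`).  As in `burau_pow` (same file) show by induction on `t`:
there is `g : Fin (m + 1) → _` with `g j = 0` for `j ≥ r` and
`(C ^ t) i j = if i < r then (if j < r and j = (i + t) % r then T t else 0) + g j else [i = j]`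
(for the step: `C ^ (t + 1) = C ^ t * C`, `g' j = T t * (1 - x) * [j = 0] + (g * C) j`, and `C i j = (1 - x) [j = 0] + x [j = (i + 1) % r]` for all `i < r`).
For `t = r * s` the first term is `T (r s) [i = j]`.  Then `g` is found from the left null vector: `burauRn_null m (r - 1)` says
`(T 0, ..., T m) * C = (T 0, ..., T m)`, so also for `C ^ (r s)`: for `j < r`: `T j * T (r s) + (∑_{i < r} T i) * g j = T j`; multiply by `1 - T 1`:
`(1 - T 1) * ∑_{i < r} T i = 1 - T r`.
-/

set_option autoImplicit false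

namespace Pool.Agent.Helper27.TT

open Polynomial LaurentPolynomial
open Pool.Agent.Helper62.OB

theorem b1_row (m r : ℕ) (hr : 1 ≤ r) (hrm : r ≤ m) (k j : Fin (m + 1)) :
    (burau m (rn m 0 (r - 1)) : Matrix (Fin (m + 1)) (Fin (m + 1)) ℤ[T;T⁻¹]) k j =
      if k.val < r then (1 - T 1) * (if j = 0 then 1 else 0) + T 1 *
        (if j.val = (k.val + 1) % r then 1 else 0) else (if k = j then 1 else 0) := by
  rw [burau_rn m (r - 1) (by omega)]
  by_cases h : k.val < r - 1
  · rw [if_pos h, if_pos (show k.val < r by omega), Nat.mod_eq_of_lt (by omega)]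
  · rw [if_neg h]
    by_cases h1 : k.val = r - 1
    · rw [if_pos h1, if_pos (show k.val < r by omega), h1, Nat.sub_add_cancel hr, Nat.mod_self]
      have h2 : (j.val = 0) ↔ j = 0 := by
        rw [Fin.ext_iff]; rfl
      simp only [h2]
      ring
    · rw [if_neg h1, if_neg (show ¬ k.val < r by omega)]

theorem b1_pow (m r t : ℕ) (hr : 1 ≤ r) (hrm : r ≤ m) :
    ∃ g : Fin (m + 1) → ℤ[T;T⁻¹], (∀ j : Fin (m + 1), r ≤ j.val → g j = 0) ∧
      ∀ i j : Fin (m + 1),
        (burau m (rn m 0 (r - 1) ^ t) : Matrix (Fin (m + 1)) (Fin (m + 1)) ℤ[T;T⁻¹]) i j =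
          if i.val < r then (if j.val = (i.val + t) % r then T (t : ℤ) else 0) + g j
          else (if i = j then 1 else 0) := by
  induction t with
  | zero =>
    refine ⟨fun _ => 0, fun _ _ => rfl, ?_⟩
    intro i j
    rw [pow_zero, map_one, Units.val_one, Matrix.one_apply, add_zero, add_zero]
    by_cases h : i.val < r
    · rw [if_pos h, Nat.mod_eq_of_lt h, Nat.cast_zero, T_zero]
      have h : (j.val = i.val) ↔ i = j := by
        rw [Fin.ext_iff]; exact eq_comm
      simp only [h]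
    · rw [if_neg h]
  | succ t ih =>
    obtain ⟨g, hg, hM⟩ := ih
    refine ⟨fun j => T (t : ℤ) * ((1 - T 1) * (if j = 0 then 1 else 0)) +
      ∑ k, g k * (burau m (rn m 0 (r - 1)) :
        Matrix (Fin (m + 1)) (Fin (m + 1)) ℤ[T;T⁻¹]) k j, ?_, ?_⟩
    · intro j hj
      have hj0 : j ≠ 0 := by
        intro h
        rw [h] at hj
        have : (0 : Fin (m + 1)).val = 0 := rfl
        omega
      change T (t : ℤ) * ((1 - T 1) * (if j = 0 then 1 else 0)) + ∑ k, g k * (burau m (rn m 0 (r - 1)) :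
        Matrix (Fin (m + 1)) (Fin (m + 1)) ℤ[T;T⁻¹]) k j = 0
      rw [if_neg hj0, mul_zero, mul_zero, zero_add]
      apply Finset.sum_eq_zero
      intro k _
      by_cases hk : k.val < r
      · rw [b1_row m r hr hrm, if_pos hk, if_neg hj0, if_neg, mul_zero, mul_zero, add_zero,
          mul_zero]
        have := Nat.mod_lt (k.val + 1) (show 0 < r by omega)
        omega
      · rw [hg k (by omega), zero_mul]
    · intro i j
      rw [pow_succ, map_mul, Units.val_mul, Matrix.mul_apply]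
      by_cases hi : i.val < r
      · rw [if_pos hi]
        simp only [hM, if_pos hi, add_mul]
        rw [Finset.sum_add_distrib, ← add_assoc]
        congr 1
        have hlt' : (i.val + t) % r < r := Nat.mod_lt _ (by omega)
        have hlt : (i.val + t) % r < m + 1 := by omega
        rw [Finset.sum_eq_single (⟨(i.val + t) % r, hlt⟩ : Fin (m + 1))]
        · rw [if_pos rfl, b1_row m r hr hrm, if_pos hlt']
          have h2 : ((i.val + t) % r + 1) % r = (i.val + (t + 1)) % r := by
            rw [← add_assoc, Nat.mod_add_mod]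
          change T (t : ℤ) * ((1 - T 1) * (if j = 0 then 1 else 0) + T 1 *
            (if j.val = ((i.val + t) % r + 1) % r then 1 else 0)) = _
          rw [h2]
          have h3 : (T ((t + 1 : ℕ) : ℤ) : ℤ[T;T⁻¹]) = T (t : ℤ) * T 1 := by
            rw [← T_add]; push_cast; rfl
          rw [h3]
          split_ifs <;> ring
        · intro k _ hk
          rw [if_neg, zero_mul]
          intro h
          exact hk (Fin.ext h)
        · intro h; exact absurd (Finset.mem_univ _) h
      · rw [if_neg hi]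
        simp only [hM, if_neg hi, ite_mul, one_mul, zero_mul]
        rw [Finset.sum_ite_eq, if_pos (Finset.mem_univ _), b1_row m r hr hrm, if_neg hi]

theorem b1_null (m r t : ℕ) (hrm : r ≤ m) :
    Matrix.vecMul (fun i : Fin (m + 1) => T (i.val : ℤ))
      (burau m (rn m 0 (r - 1) ^ t) : Matrix (Fin (m + 1)) (Fin (m + 1)) ℤ[T;T⁻¹]) =
      fun i : Fin (m + 1) => T (i.val : ℤ) := by
  induction t with
  | zero => rw [pow_zero, map_one, Units.val_one, Matrix.vecMul_one]
  | succ t ih =>
    rw [pow_succ, map_mul, Units.val_mul, ← Matrix.vecMul_vecMul, ih,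
      burauRn_null m (r - 1) (by omega)]

theorem b1_geom (r : ℕ) :
    (1 - T 1) * ∑ i ∈ Finset.range r, (T (i : ℤ) : ℤ[T;T⁻¹]) = 1 - T (r : ℤ) := by
  induction r with
  | zero => rw [Finset.sum_range_zero, mul_zero, Nat.cast_zero, T_zero, sub_self]
  | succ r ih =>
    rw [Finset.sum_range_succ, mul_add, ih]
    have h3 : (T ((r + 1 : ℕ) : ℤ) : ℤ[T;T⁻¹]) = T (r : ℤ) * T 1 := by
      rw [← T_add]; push_cast; rfl
    rw [h3]
    ring

theorem b1_geom' (m r : ℕ) (hrm : r ≤ m) :
    ∑ i : Fin (m + 1), (if i.val < r then (T (i.val : ℤ) : ℤ[T;T⁻¹]) else 0) =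
      ∑ i ∈ Finset.range r, (T (i : ℤ) : ℤ[T;T⁻¹]) := by
  rw [Fin.sum_univ_eq_sum_range (fun i => if i < r then (T (i : ℤ) : ℤ[T;T⁻¹]) else 0) (m + 1),
    ← Finset.sum_filter]
  apply Finset.sum_congr _ (fun _ _ => rfl)
  ext a
  simp only [Finset.mem_filter, Finset.mem_range]
  omega

theorem burau_twist (m r s : ℕ) (hr : 1 ≤ r) (hrm : r ≤ m) :
    ∃ g : Fin (m + 1) → ℤ[T;T⁻¹], (∀ j : Fin (m + 1), r ≤ j.val → g j = 0) ∧
      (∀ j : Fin (m + 1), j.val < r →
        (1 - T (r : ℤ)) * g j = (1 - T 1) * (1 - T ((r * s : ℕ) : ℤ)) * T (j.val : ℤ)) ∧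
      ∀ i j : Fin (m + 1),
        (burau m (rn m 0 (r - 1) ^ (r * s)) : Matrix (Fin (m + 1)) (Fin (m + 1)) ℤ[T;T⁻¹]) i j =
          if i.val < r then (if i = j then T ((r * s : ℕ) : ℤ) else 0) + g j
          else (if i = j then 1 else 0) := by
  obtain ⟨g, hg, hM⟩ := b1_pow m r (r * s) hr hrm
  have hM' : ∀ i j : Fin (m + 1),
      (burau m (rn m 0 (r - 1) ^ (r * s)) : Matrix (Fin (m + 1)) (Fin (m + 1)) ℤ[T;T⁻¹]) i j =
        if i.val < r then (if i = j then T ((r * s : ℕ) : ℤ) else 0) + g j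
        else (if i = j then 1 else 0) := by
    intro i j
    rw [hM]
    by_cases hi : i.val < r
    · rw [if_pos hi, if_pos hi, Nat.add_mul_mod_self_left, Nat.mod_eq_of_lt hi]
      have h : (j.val = i.val) ↔ i = j := by
        rw [Fin.ext_iff]; exact eq_comm
      simp only [h]
    · rw [if_neg hi, if_neg hi]
  refine ⟨g, hg, ?_, hM'⟩
  intro j hj
  have h1 := congrFun (b1_null m r (r * s) hrm) j
  change ∑ i : Fin (m + 1), T (i.val : ℤ) *
      (burau m (rn m 0 (r - 1) ^ (r * s)) : Matrix (Fin (m + 1)) (Fin (m + 1)) ℤ[T;T⁻¹]) i j =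
        T (j.val : ℤ) at h1
  have h2 : ∀ i : Fin (m + 1), T (i.val : ℤ) *
      (burau m (rn m 0 (r - 1) ^ (r * s)) : Matrix (Fin (m + 1)) (Fin (m + 1)) ℤ[T;T⁻¹]) i j =
      (if i = j then T (i.val : ℤ) * T ((r * s : ℕ) : ℤ) else 0) +
        (if i.val < r then T (i.val : ℤ) else 0) * g j := by
    intro i
    rw [hM']
    by_cases hi : i.val < r
    · rw [if_pos hi, if_pos hi]
      by_cases hij : i = j
      · rw [if_pos hij, if_pos hij]; ring
      · rw [if_neg hij, if_neg hij]; ring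
    · have hij : i ≠ j := by
        intro h
        rw [h] at hi
        exact hi hj
      rw [if_neg hi, if_neg hi, if_neg hij, if_neg hij]
      ring
  rw [Finset.sum_congr rfl (fun i _ => h2 i), Finset.sum_add_distrib, Finset.sum_ite_eq',
    if_pos (Finset.mem_univ _), ← Finset.sum_mul, b1_geom' m r hrm] at h1
  have h3 := b1_geom r
  have h4 : (1 - T (r : ℤ)) * g j = (1 - T 1) *
      ((∑ i ∈ Finset.range r, (T (i : ℤ) : ℤ[T;T⁻¹])) * g j) := by
    rw [← h3]; ring
  rw [h4]
  have h5 : (∑ i ∈ Finset.range r, (T (i : ℤ) : ℤ[T;T⁻¹])) * g j =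
      T (j.val : ℤ) - T (j.val : ℤ) * T ((r * s : ℕ) : ℤ) := by
    linear_combination h1
  rw [h5]
  ring

end Pool.Agent.Helper27.TT
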