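import Mathlib
import Pool.Agent.Helper62.OB.St.LinAlg

/-!
# TT-B2: the determinant of a weighted cycle plus a matrix of rank one

Let `n + 1` be the size, `M0 i j = [i = j] - [j = i + 1] w i` (cyclic addition in `Fin (n + 1)`; for `n = 0` this is `1 - w 0`), `W = ∏ w`.
`det_cycle`: `det M0 = 1 - W`: `Pool.Agent.Helper62.OB.det_cyclic` with `a k = w k`, `c k = if k = n then w n else 0`.
`det_up`: `B = M0 - e ⊗ c`.  Let `λ = 1 - W` and `M0 * u = λ e`.  Choose `i₀` with `u i₀ ≠ 0`.  Cramer (`Matrix.det_updateCol_sum` or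
`Matrix.cramer_apply`, ...: `det (M.updateCol i₀ (M.mulVec u)) = u i₀ * det M`):
`u i₀ * det M0 = λ * det (M0.updateCol i₀ e)`, `u i₀ * det B = (λ - c ⬝ u) * det (B.updateCol i₀ e)` as `B * u = (λ - c ⬝ u) e`,
and `det (B.updateCol i₀ e) = det (M0.updateCol i₀ e)` as the other columns differ by multiples of `e`
(`Matrix.det_eq_of_forall_col_eq_smul_add_const` or transposes).  So `u i₀ * λ * det B = u i₀ * (λ - c ⬝ u) * det M0`, `det M0 = λ ≠ 0`; cancel.
`det_down` (with `i - 1`): the same with the opposite cycle; `det M0' = 1 - W` from `det_cycle` by transposing and reindexing the weights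
(`M0'ᵀ i j = [i = j] - [j = i + 1] w j`, i.e. the weight `w (i + 1)` in row `i`; `∏ w (i + 1) = ∏ w`, `Equiv.prod_comp (Equiv.addRight 1)`).
-/

set_option autoImplicit false

namespace Pool.Agent.Helper27.TT

theorem b2_field {K : Type*} [Field K] {ι : Type*} [Fintype ι] [DecidableEq ι]
    (M : Matrix ι ι K) (e c u : ι → K) (l : K) (hl : l ≠ 0) (hdet : M.det = l)
    (hu : M.mulVec u = l • e) :
    (M - Matrix.vecMulVec e c).det = l - ∑ i, c i * u i := by
  have h1 : M.mulVec (l⁻¹ • u) = e := by
    rw [Matrix.mulVec_smul, hu, smul_smul, inv_mul_cancel₀ hl, one_smul]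
  have h2 : M - Matrix.vecMulVec e c = M * (1 + Matrix.vecMulVec (-(l⁻¹ • u)) c) := by
    rw [mul_add, mul_one, Matrix.mul_vecMulVec, Matrix.mulVec_neg, h1, Matrix.neg_vecMulVec,
      sub_eq_add_neg]
  rw [h2, Matrix.det_mul, hdet, Matrix.vecMulVec_eq Unit,
    Matrix.det_one_add_replicateCol_mul_replicateRow, dotProduct_neg, dotProduct_smul,
    smul_eq_mul, mul_add, mul_one, mul_neg, ← mul_assoc, mul_inv_cancel₀ hl, one_mul,
    ← sub_eq_add_neg]
  rfl

theorem b2_domain {R : Type*} [CommRing R] [IsDomain R] {ι : Type*} [Fintype ι] [DecidableEq ι]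
    (M : Matrix ι ι R) (e c u : ι → R) (l : R) (hl : l ≠ 0) (hdet : M.det = l)
    (hu : M.mulVec u = l • e) :
    (M - Matrix.vecMulVec e c).det = l - ∑ i, c i * u i := by
  set f := algebraMap R (FractionRing R) with hf
  have hinj : Function.Injective f := IsFractionRing.injective R (FractionRing R)
  apply hinj
  have h := b2_field (f.mapMatrix M) (fun i => f (e i)) (fun i => f (c i)) (fun i => f (u i)) (f l)
    (fun h0 => hl (hinj (by rw [h0, map_zero]))) (by rw [← RingHom.map_det, hdet]) (by
      funext i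
      have h1 := congrArg f (congrFun hu i)
      rw [RingHom.map_mulVec] at h1
      rw [Pi.smul_apply, smul_eq_mul] at h1 ⊢
      rw [map_mul] at h1
      exact h1)
  rw [map_sub, map_sum, RingHom.map_det]
  have e1 : f.mapMatrix (M - Matrix.vecMulVec e c) =
      f.mapMatrix M - Matrix.vecMulVec (fun i => f (e i)) (fun i => f (c i)) := by
    ext i j
    simp [Matrix.vecMulVec_apply]
  rw [e1, h]
  refine congrArg _ (Finset.sum_congr rfl fun i _ => ?_)
  rw [map_mul]

theorem det_cycle {R : Type*} [CommRing R] (n : ℕ) (w : Fin (n + 1) → R) :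
    (Matrix.of fun i j : Fin (n + 1) => (if i = j then 1 else 0) -
      (if j = i + 1 then w i else 0)).det = 1 - ∏ i, w i := by
  set a : ℕ → R := fun k => if h : k < n + 1 then w ⟨k, h⟩ else 0 with ha
  set c : ℕ → R := fun k => if k = n then w (Fin.last n) else 0 with hc
  have haw : ∀ i : Fin (n + 1), a i.val = w i := fun i => by
    rw [ha]; simp only [i.isLt, dif_pos]
  have h := Pool.Agent.Helper62.OB.det_cyclic n a c
  have e1 : (Matrix.of fun i j : Fin (n + 1) => (if i = j then (1 : R) else 0) -
      (if j = i + 1 then w i else 0)) =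
      Matrix.of fun k l : Fin (n + 1) => (if k = l then 1 else 0) -
        (if l.val = k.val + 1 then a k.val else 0) - (if l = 0 then c k.val else 0) := by
    ext i j
    rw [Matrix.of_apply, Matrix.of_apply, sub_sub]
    congr 1
    rcases Fin.eq_castSucc_or_eq_last i with ⟨k, hk⟩ | hk
    · have h1 : i + 1 = k.succ := by rw [hk, Fin.coeSucc_eq_succ]
      have h2 : c i.val = 0 := by
        rw [hc]
        have : i.val ≠ n := by rw [hk, Fin.val_castSucc]; exact k.isLt.ne
        simp only [this, if_false]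
      rw [h2, ite_self, add_zero, haw, h1]
      have h3 : (j = k.succ) ↔ j.val = i.val + 1 := by
        rw [Fin.ext_iff, Fin.val_succ, hk, Fin.val_castSucc]
      simp only [h3]
    · have h1 : i + 1 = 0 := by rw [hk, Fin.last_add_one]
      have h2 : c i.val = w i := by
        rw [hc]
        have : i.val = n := by rw [hk, Fin.val_last]
        simp only [this, if_true]
        rw [hk]
      have h3 : ¬ j.val = i.val + 1 := by
        rw [hk, Fin.val_last]; exact j.isLt.ne
      rw [h1, h2, if_neg h3, zero_add]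
  rw [e1, h, Finset.sum_range_succ, Fin.prod_univ_castSucc]
  have e2 : ∑ k ∈ Finset.range n, c k * ∏ j ∈ Finset.range k, a j = 0 := by
    refine Finset.sum_eq_zero fun k hk => ?_
    have : k ≠ n := (Finset.mem_range.1 hk).ne
    rw [hc]
    simp only [this, if_false, zero_mul]
  have e3 : ∏ j ∈ Finset.range n, a j = ∏ i : Fin n, w i.castSucc := by
    rw [Finset.prod_range]
    refine Finset.prod_congr rfl fun i _ => ?_
    exact haw i.castSucc
  have e4 : c n = w (Fin.last n) := by
    rw [hc]
    simp only [if_true]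
  rw [e2, e3, e4, zero_add, mul_comm]

theorem b2_sum {R : Type*} [CommRing R] (n : ℕ) (w u : Fin (n + 1) → R)
    (s : Fin (n + 1) → Fin (n + 1)) (i : Fin (n + 1)) :
    (Matrix.of fun i j : Fin (n + 1) => (if i = j then (1 : R) else 0) -
      (if j = s i then w i else 0)).mulVec u i = u i - w i * u (s i) := by
  have h : (Matrix.of fun i j : Fin (n + 1) => (if i = j then (1 : R) else 0) -
      (if j = s i then w i else 0)).mulVec u i =
      ∑ j, ((if i = j then (1 : R) else 0) - (if j = s i then w i else 0)) * u j := rfl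
  rw [h]
  simp only [sub_mul, ite_mul, one_mul, zero_mul, Finset.sum_sub_distrib]
  rw [Finset.sum_ite_eq Finset.univ i u, Finset.sum_ite_eq' Finset.univ (s i) fun j => w i * u j]
  simp

theorem det_up {R : Type*} [CommRing R] [IsDomain R] (n : ℕ) (w e c u : Fin (n + 1) → R)
    (hne : (1 : R) - ∏ i, w i ≠ 0) (hu : ∀ i, u i - w i * u (i + 1) = (1 - ∏ i, w i) * e i)
    (hu0 : ∃ i, u i ≠ 0) :
    (Matrix.of fun i j : Fin (n + 1) => (if i = j then 1 else 0) -
      (if j = i + 1 then w i else 0) - e i * c j).det = (1 - ∏ i, w i) - ∑ i, c i * u i := by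
  have h := b2_domain _ e c u (1 - ∏ i, w i) hne (det_cycle n w) (by
    funext i
    rw [b2_sum n w u (fun i => i + 1) i, hu i]
    rfl)
  exact h

theorem det_down {R : Type*} [CommRing R] [IsDomain R] (n : ℕ) (w e c u : Fin (n + 1) → R)
    (hne : (1 : R) - ∏ i, w i ≠ 0) (hu : ∀ i, u i - w i * u (i - 1) = (1 - ∏ i, w i) * e i)
    (hu0 : ∃ i, u i ≠ 0) :
    (Matrix.of fun i j : Fin (n + 1) => (if i = j then 1 else 0) -
      (if j = i - 1 then w i else 0) - e i * c j).det = (1 - ∏ i, w i) - ∑ i, c i * u i := by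
  have hdet : (Matrix.of fun i j : Fin (n + 1) => (if i = j then (1 : R) else 0) -
      (if j = i - 1 then w i else 0)).det = 1 - ∏ i, w i := by
    rw [← Matrix.det_transpose]
    have h1 := det_cycle n fun i => w (i + 1)
    rw [Fintype.prod_equiv (Equiv.addRight (1 : Fin (n + 1))) (fun i => w (i + 1)) w
      fun i => rfl] at h1
    rw [← h1]
    congr 1
    ext i j
    rw [Matrix.transpose_apply, Matrix.of_apply, Matrix.of_apply]
    have e1 : (j = i) ↔ (i = j) := eq_comm
    have e2 : (i = j - 1) ↔ (j = i + 1) := by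
      rw [eq_sub_iff_add_eq, eq_comm]
    simp only [e1, e2]
    congr 1
    split_ifs with h2
    · rw [h2]
    · rfl
  have h := b2_domain _ e c u (1 - ∏ i, w i) hne hdet (by
    funext i
    rw [b2_sum n w u (fun i => i - 1) i, hu i]
    rfl)
  exact h

end Pool.Agent.Helper27.TT
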