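import Mathlib
import Pool.Agent.Helper27.TT.Defs
import Pool.Agent.Helper27.TT.B1
import Pool.Agent.Helper27.TT.B2
import Pool.Agent.Helper62.OB.St.AlexKey

/-!
# TT-B3: the Alexander polynomial of `T(m + 1, k (m + 1) + 1; r, s)`

Notation: `x = T 1`, `v = T q`, `q = k (m + 1) + 1`, `d = q + r s`, `D = T d`, `W = D^r v^(m + 1 - r)`.
As in `alexkey_det` (`AlexKey.lean`): `burau (tt m q r s) = N * burau (rn m 0 m ^ q)`, `N` from `burau_twist` (its row sums are `1`: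
`burauRn_row m (r - 1)` and powers), `burau_pow m q` gives `burau (rn m 0 m ^ q) i j = [j = (i + q) % (m + 1)] T q + g' j`, `∑ g' = 1 - T q`, so
`det_rank_one` with `v i = T i` (null vector: `burauRn_null` and powers) gives
`(1 - T q) * ((∑_{i ≤ m} T i) * alexander β) = det B`, `B i j = [i = j] - ∑ l, N i l * (if j = (l + q) % (m + 1) then T q else 0)`,
and `(l + q) % (m + 1) = (l + 1) % (m + 1)`, which is `l + 1` in `Fin (m + 1)`.  By `burau_twist` (with `g`):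
`B i j = [i = j] - [j = i + 1] w i - e i * c j`, `w i = D` for `i < r`, `v` for `i ≥ r`, `e i = [i < r]`, `c j = v * g (j - 1)` (`c 0 = v * g m = 0`).
`∏ w = W`.  To apply `det_up` take `u i = δ - D^(r - i) (1 - v^(m + 1 - r))` for `i ≤ r` with `δ = 1 - W`, and
`u i = v^(m + 1 - i) * (1 - D^r)` for `i ≥ r` (both agree for `i = r`), all this for the right side `(1 - D) δ e`:
`u i - D u (i + 1) = (1 - D) δ` for `i < r`, `u i - v u (i + 1) = 0` for `r ≤ i < m`, and `u m = v (1 - D^r) = v u 0`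
(`u 0 = δ - D^r (1 - v^(m + 1 - r)) = 1 - D^r`).  So use `det_up` with `e i = (1 - D) [i < r]` and `c` such that `(1 - D) c j = v g (j - 1)`, or rather
multiply: the matrix with `e = [i < r]`, `c` and `u` divided by `1 - D`: in the fraction field; simplest: work in the fraction field
`FractionRing ℤ[T;T⁻¹]`, or note that `det_up` can be used with `u' i = (δ - D^(r-i) (1 - v^(m+1-r))) / (1 - D)` which is a polynomial:
for `i ≤ r`: `u' i = δ * (1 + D + ... + D^(r-i-1)) + D^(r-i) * v^(m+1-r) * (1 + D + ... + D^(r-1))`, and for `i ≥ r`: `u' i = v^(m+1-i) (1 + D + ... + D^(r-1))`.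
Then `det B = δ - ∑_{l < r} v g l u' (l + 1)`, and `(1 - D) u' (l + 1) = δ - D^(r-l-1) (1 - v^(m+1-r))`, `(1 - T r) g l = (1 - x) (1 - T (r s)) T l`, so
`(1 - D) (1 - T r) det B = (1 - D) (1 - T r) δ - v (1 - x) (1 - T (r s)) ∑_{l < r} T l (δ - D^(r-l-1) (1 - v^(m+1-r)))`.
With `(1 - x) ∑_{l < r} T l = 1 - T r` and `D = v T (r s)` this is
`(1 - T r) δ (1 - v) + v (1 - x) (1 - T (r s)) (1 - v^(m+1-r)) ∑_{l < r} T l D^(r-l-1)`; now `1 - T (r s) = (1 - T r) ∑_{i < s} T (r i)`,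
`1 - v^(m+1-r) = (1 - v) ∑_{i < m+1-r} v^i`, `∑_{l < r} T l D^(r-1-l) = T (r - 1) ∑_{i < r} T ((d - 1) i)`; cancel `1 - T r` and `1 - v`.
-/

set_option autoImplicit false

namespace Pool.Agent.Helper27.TT

open Polynomial LaurentPolynomial
open Pool.Agent.Helper62.OB

theorem tt3_pow_row (m a : ℕ) (ha : a ≤ m) (t : ℕ) :
    (burau m (rn m 0 a ^ t) : Matrix (Fin (m + 1)) (Fin (m + 1)) ℤ[T;T⁻¹]).mulVec (fun _ => 1) =
      fun _ => 1 := by
  induction t with
  | zero => rw [pow_zero, map_one, Units.val_one, Matrix.one_mulVec]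
  | succ t ih =>
    rw [pow_succ, map_mul, Units.val_mul, ← Matrix.mulVec_mulVec, burauRn_row m a ha, ih]

theorem tt3_pow_null (m a : ℕ) (ha : a ≤ m) (t : ℕ) :
    Matrix.vecMul (fun i : Fin (m + 1) => T (i.val : ℤ))
      (burau m (rn m 0 a ^ t) : Matrix (Fin (m + 1)) (Fin (m + 1)) ℤ[T;T⁻¹]) =
      fun i : Fin (m + 1) => T (i.val : ℤ) := by
  induction t with
  | zero => rw [pow_zero, map_one, Units.val_one, Matrix.vecMul_one]
  | succ t ih =>
    rw [pow_succ, map_mul, Units.val_mul, ← Matrix.vecMul_vecMul, ih, burauRn_null m a ha]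

theorem tt3_val (m q r s : ℕ) :
    (burau m (tt m q r s) : Matrix (Fin (m + 1)) (Fin (m + 1)) ℤ[T;T⁻¹]) =
      (burau m (rn m 0 (r - 1) ^ (r * s)) : Matrix (Fin (m + 1)) (Fin (m + 1)) ℤ[T;T⁻¹]) *
        (burau m (rn m 0 m ^ q) : Matrix (Fin (m + 1)) (Fin (m + 1)) ℤ[T;T⁻¹]) := by
  unfold tt
  rw [map_mul, Units.val_mul]

theorem tt3_row (m q r s : ℕ) (hrm : r ≤ m) (i : Fin (m + 1)) :
    ∑ j, (burau m (tt m q r s) : Matrix (Fin (m + 1)) (Fin (m + 1)) ℤ[T;T⁻¹]) i j = 1 := by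
  have h : (burau m (tt m q r s) : Matrix (Fin (m + 1)) (Fin (m + 1)) ℤ[T;T⁻¹]).mulVec
      (fun _ => 1) = fun _ => 1 := by
    rw [tt3_val, ← Matrix.mulVec_mulVec, burauRn_pow_row, tt3_pow_row m (r - 1) (by omega)]
  have h1 := congrFun h i
  rw [Matrix.mulVec, dotProduct] at h1
  simpa using h1

theorem tt3_null (m q r s : ℕ) (hrm : r ≤ m) (j : Fin (m + 1)) :
    ∑ i : Fin (m + 1), T (i.val : ℤ) *
      (burau m (tt m q r s) : Matrix (Fin (m + 1)) (Fin (m + 1)) ℤ[T;T⁻¹]) i j =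
      T (j.val : ℤ) := by
  have h : Matrix.vecMul (fun i : Fin (m + 1) => T (i.val : ℤ))
      (burau m (tt m q r s) : Matrix (Fin (m + 1)) (Fin (m + 1)) ℤ[T;T⁻¹]) =
      fun i : Fin (m + 1) => T (i.val : ℤ) := by
    rw [tt3_val, ← Matrix.vecMul_vecMul, tt3_pow_null m (r - 1) (by omega), burauRn_pow_null]
  have h1 := congrFun h j
  rw [Matrix.vecMul, dotProduct] at h1
  exact h1

theorem tt3_next (m k q : ℕ) (hm : 1 ≤ m) (hq : q = k * (m + 1) + 1) (j l : Fin (m + 1)) :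
    (j.val = (l.val + q) % (m + 1)) ↔ l = j - 1 := by
  have h1 : (l.val + q) % (m + 1) = (l.val + 1) % (m + 1) := by
    rw [hq]
    have : l.val + (k * (m + 1) + 1) = l.val + 1 + k * (m + 1) := by ring
    rw [this, Nat.add_mul_mod_self_right]
  have h2 : (l + 1 : Fin (m + 1)).val = (l.val + 1) % (m + 1) := by
    rw [Fin.val_add]
    congr 2
    rw [Fin.val_one', Nat.mod_eq_of_lt (by omega)]
  rw [h1, ← h2, eq_sub_iff_add_eq, eq_comm, Fin.val_inj]

/-- the determinant -/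
theorem tt3_det (m k r s q : ℕ) (hr : 1 ≤ r) (hrm : r ≤ m) (hq : q = k * (m + 1) + 1)
    (g : Fin (m + 1) → ℤ[T;T⁻¹])
    (hg : ∀ i j : Fin (m + 1),
        (burau m (rn m 0 (r - 1) ^ (r * s)) : Matrix (Fin (m + 1)) (Fin (m + 1)) ℤ[T;T⁻¹]) i j =
          if i.val < r then (if i = j then T ((r * s : ℕ) : ℤ) else 0) + g j
          else (if i = j then 1 else 0)) :
    (1 - T (q : ℤ)) * ((∑ i ∈ Finset.range (m + 1), (T (i : ℤ) : ℤ[T;T⁻¹])) *
      alexander (tt m q r s)) =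
      (Matrix.of fun i j : Fin (m + 1) => (if i = j then 1 else 0) -
        (if j = i + 1 then (if i.val < r then T ((r * s : ℕ) : ℤ) * T (q : ℤ) else T (q : ℤ))
          else 0) - (if i.val < r then 1 else 0) * (T (q : ℤ) * g (j - 1))).det := by
  obtain ⟨g', hg1, hg2⟩ := burau_pow m q
  have h := det_rank_one m
    (1 - (burau m (tt m q r s) : Matrix (Fin (m + 1)) (Fin (m + 1)) ℤ[T;T⁻¹])) g'
    (fun i => T (i.val : ℤ)) (by
      intro i
      simp only [Matrix.sub_apply, Finset.sum_sub_distrib, tt3_row m q r s hrm i]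
      simp [Matrix.one_apply]) (by
      intro j
      simp only [Matrix.sub_apply, mul_sub, Finset.sum_sub_distrib, tt3_null m q r s hrm j]
      simp [Matrix.one_apply]) (by simp)
  have h2 : (1 - (burau m (tt m q r s) : Matrix (Fin (m + 1)) (Fin (m + 1)) ℤ[T;T⁻¹])) +
      (Matrix.of fun _ j => g' j) = Matrix.of fun i j : Fin (m + 1) =>
        (if i = j then 1 else 0) -
        (if j = i + 1 then (if i.val < r then T ((r * s : ℕ) : ℤ) * T (q : ℤ) else T (q : ℤ))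
          else 0) - (if i.val < r then 1 else 0) * (T (q : ℤ) * g (j - 1)) := by
    ext1 i j
    have h3 : (burau m (tt m q r s) : Matrix (Fin (m + 1)) (Fin (m + 1)) ℤ[T;T⁻¹]) i j =
        (burau m (rn m 0 (r - 1) ^ (r * s)) : Matrix (Fin (m + 1)) (Fin (m + 1)) ℤ[T;T⁻¹]) i
          (j - 1) * T (q : ℤ) + g' j := by
      have h4 := congrFun (tt3_pow_row m (r - 1) (by omega) (r * s)) i
      rw [Matrix.mulVec, dotProduct] at h4
      simp only [mul_one] at h4
      rw [tt3_val, Matrix.mul_apply]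
      simp only [hg2, mul_add, Finset.sum_add_distrib, ← Finset.sum_mul, h4, one_mul,
        tt3_next m k q (by omega) hq, mul_ite, mul_zero, Finset.sum_ite_eq', Finset.mem_univ,
        if_true]
    have h5 : (i = j - 1) ↔ (j = i + 1) := by
      rw [eq_sub_iff_add_eq, eq_comm]
    simp only [Matrix.add_apply, Matrix.sub_apply, Matrix.of_apply, Matrix.one_apply, h3, hg, h5]
    split_ifs <;> ring
  rw [h2, hg1] at h
  rw [h]
  unfold alexander
  rw [Finset.sum_range, mul_assoc]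

theorem tt3_pow (a n : ℕ) : (T (a : ℤ) : ℤ[T;T⁻¹]) ^ n = T ((a * n : ℕ) : ℤ) := by
  rw [T_pow]
  congr 1
  push_cast
  ring

theorem tt3_geom (a n : ℕ) :
    (1 - T (a : ℤ) : ℤ[T;T⁻¹]) * ∑ i ∈ Finset.range n, T ((a * i : ℕ) : ℤ) =
      1 - T ((a * n : ℕ) : ℤ) := by
  have h : ∑ i ∈ Finset.range n, (T ((a * i : ℕ) : ℤ) : ℤ[T;T⁻¹]) =
      ∑ i ∈ Finset.range n, (T (a : ℤ) : ℤ[T;T⁻¹]) ^ i := by
    apply Finset.sum_congr rfl
    intro i _
    rw [tt3_pow]
  rw [h, ← tt3_pow]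
  exact mul_neg_geom_sum _ _

/-- the solution of the linear system -/
def tt3_u {R : Type*} [CommRing R] (m r : ℕ) (D v : R) (i : ℕ) : R :=
  (1 - D ^ r * v ^ (m + 1 - r)) * ∑ k ∈ Finset.range (r - i), D ^ k +
    D ^ (r - i) * v ^ (m + 1 - max i r) * ∑ k ∈ Finset.range r, D ^ k

theorem tt3_u_step {R : Type*} [CommRing R] (m r : ℕ) (D v : R) (i : ℕ)
    (hi : i < m) :
    tt3_u m r D v i - (if i < r then D else v) * tt3_u m r D v (i + 1) =
      (1 - D ^ r * v ^ (m + 1 - r)) * (if i < r then 1 else 0) := by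
  unfold tt3_u
  by_cases h : i < r
  · rw [if_pos h, if_pos h]
    obtain ⟨a, ha⟩ : ∃ a, r = i + 1 + a := ⟨r - (i + 1), by omega⟩
    have h1 : r - i = a + 1 := by omega
    have h2 : r - (i + 1) = a := by omega
    rw [h1, h2, max_eq_right (by omega : i ≤ r), max_eq_right (by omega : i + 1 ≤ r),
      geom_sum_succ, pow_succ]
    ring
  · rw [if_neg h, if_neg h]
    have h1 : r - i = 0 := by omega
    have h2 : r - (i + 1) = 0 := by omega
    have h3 : m + 1 - i = (m + 1 - (i + 1)) + 1 := by omega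
    rw [h1, h2, max_eq_left (by omega : r ≤ i), max_eq_left (by omega : r ≤ i + 1), h3, pow_succ]
    simp only [Finset.range_zero, Finset.sum_empty, pow_zero]
    ring

theorem tt3_u_last {R : Type*} [CommRing R] (m r : ℕ) (hrm : r ≤ m) (D v : R) :
    tt3_u m r D v m - v * tt3_u m r D v 0 = 0 := by
  unfold tt3_u
  have h1 : r - m = 0 := by omega
  have h3 : m + 1 - m = 1 := by omega
  rw [h1, max_eq_left hrm, max_eq_right (Nat.zero_le r), h3, Nat.sub_zero]
  simp only [Finset.range_zero, Finset.sum_empty, pow_zero]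
  ring

theorem tt3_u_mul {R : Type*} [CommRing R] (m r : ℕ) (D v : R) (l : ℕ) (hl : l < r) :
    (1 - D) * tt3_u m r D v (l + 1) =
      (1 - D ^ r * v ^ (m + 1 - r)) - D ^ (r - 1 - l) * (1 - v ^ (m + 1 - r)) := by
  unfold tt3_u
  have h1 : r - (l + 1) = r - 1 - l := by omega
  rw [h1, max_eq_right (by omega : l + 1 ≤ r)]
  have h2 := mul_neg_geom_sum D (r - 1 - l)
  have h3 := mul_neg_geom_sum D r
  linear_combination (1 - D ^ r * v ^ (m + 1 - r)) * h2 +
    (D ^ (r - 1 - l) * v ^ (m + 1 - r)) * h3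

theorem tt3_prod {R : Type*} [CommRing R] (m r : ℕ) (hrm : r ≤ m) (D v : R) :
    ∏ i : Fin (m + 1), (if i.val < r then D else v) = D ^ r * v ^ (m + 1 - r) := by
  rw [Fin.prod_univ_eq_prod_range (fun i => if i < r then D else v) (m + 1)]
  obtain ⟨a, ha⟩ : ∃ a, m + 1 = r + a := ⟨m + 1 - r, by omega⟩
  have h1 : m + 1 - r = a := by omega
  rw [h1, ha, Finset.prod_range_add]
  congr 1
  · rw [Finset.prod_congr rfl (g := fun _ => D), Finset.prod_const, Finset.card_range]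
    intro i hi
    rw [if_pos (Finset.mem_range.1 hi)]
  · rw [Finset.prod_congr rfl (g := fun _ => v), Finset.prod_const, Finset.card_range]
    intro i _
    rw [if_neg (by omega)]

/-- the determinant in the fraction-free form -/
theorem tt3_detval (m r : ℕ) (hr : 1 ≤ r) (hrm : r ≤ m) (D v y z : ℤ[T;T⁻¹])
    (g : Fin (m + 1) → ℤ[T;T⁻¹]) (hz : ∀ j : Fin (m + 1), r ≤ j.val → g j = 0)
    (hgj : ∀ j : Fin (m + 1), j.val < r → y * g j = z * T (j.val : ℤ))
    (hne : 1 - D ^ r * v ^ (m + 1 - r) ≠ 0) (hD : 1 - D ^ r ≠ 0) :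
    (1 - D) * y * (Matrix.of fun i j : Fin (m + 1) => (if i = j then 1 else 0) -
        (if j = i + 1 then (if i.val < r then D else v)
          else 0) - (if i.val < r then 1 else 0) * (v * g (j - 1))).det =
      (1 - D) * y * (1 - D ^ r * v ^ (m + 1 - r)) -
        v * z * ((1 - D ^ r * v ^ (m + 1 - r)) * ∑ l ∈ Finset.range r, T (l : ℤ) -
          (1 - v ^ (m + 1 - r)) * ∑ l ∈ Finset.range r, T (l : ℤ) * D ^ (r - 1 - l)) := by
  have hval : ∀ i : Fin (m + 1), i.val < m → (i + 1 : Fin (m + 1)).val = i.val + 1 := by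
    intro i hi
    rw [Fin.val_add, Fin.val_one', Nat.mod_eq_of_lt (show 1 < m + 1 by omega),
      Nat.mod_eq_of_lt (by omega)]
  have h := det_up m (fun i : Fin (m + 1) => if i.val < r then D else v)
    (fun i => if i.val < r then 1 else 0) (fun j => v * g (j - 1))
    (fun i => tt3_u m r D v i.val) (by rw [tt3_prod m r hrm]; exact hne) (by
      intro i
      rw [tt3_prod m r hrm]
      rcases Nat.lt_or_ge i.val m with hi | hi
      · rw [hval i hi]
        exact tt3_u_step m r D v i.val hi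
      · have hi' : i.val = m := by omega
        have h1 : (i + 1 : Fin (m + 1)).val = 0 := by
          rw [Fin.val_add, Fin.val_one', Nat.mod_eq_of_lt (show 1 < m + 1 by omega), hi',
            Nat.mod_self]
        rw [h1, hi', if_neg (by omega), if_neg (by omega), mul_zero]
        exact tt3_u_last m r hrm D v) (by
      refine ⟨0, ?_⟩
      intro h0
      apply hD
      rw [← mul_neg_geom_sum]
      have h1 : tt3_u m r D v 0 = ∑ k ∈ Finset.range r, D ^ k := by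
        unfold tt3_u
        rw [max_eq_right (Nat.zero_le r), Nat.sub_zero]
        ring
      have h2 : tt3_u m r D v 0 = 0 := h0
      rw [← h1, h2, mul_zero])
  rw [tt3_prod m r hrm] at h
  rw [h, mul_sub]
  congr 1
  -- the sum
  have h1 : ∑ i : Fin (m + 1), v * g (i - 1) * tt3_u m r D v i.val =
      ∑ l : Fin (m + 1), v * g l * tt3_u m r D v (l + 1 : Fin (m + 1)).val := by
    rw [← Equiv.sum_comp (Equiv.addRight (1 : Fin (m + 1)))]
    apply Finset.sum_congr rfl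
    intro l _
    simp only [Equiv.coe_addRight, add_sub_cancel_right]
  have h2 : (1 - D) * y * ∑ i : Fin (m + 1), v * g (i - 1) * tt3_u m r D v i.val =
      ∑ l : Fin (m + 1), (fun l : ℕ => if l < r then v * z * (T (l : ℤ) *
        ((1 - D ^ r * v ^ (m + 1 - r)) - D ^ (r - 1 - l) * (1 - v ^ (m + 1 - r)))) else 0)
          l.val := by
    rw [h1, Finset.mul_sum]
    apply Finset.sum_congr rfl
    intro l _
    by_cases hl : l.val < r
    · simp only [if_pos hl]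
      rw [hval l (by omega), ← tt3_u_mul m r D v l.val hl]
      linear_combination v * (1 - D) * tt3_u m r D v (l.val + 1) * hgj l hl
    · simp only [if_neg hl]
      rw [hz l (by omega)]
      ring
  have h3 : ∀ F : ℕ → ℤ[T;T⁻¹], ∑ l : Fin (m + 1), (fun l : ℕ => if l < r then F l else 0) l.val =
      ∑ l ∈ Finset.range r, F l := by
    intro F
    rw [Fin.sum_univ_eq_sum_range (fun l : ℕ => if l < r then F l else 0) (m + 1)]
    obtain ⟨a, ha⟩ : ∃ a, m + 1 = r + a := ⟨m + 1 - r, by omega⟩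
    rw [ha, Finset.sum_range_add]
    have h4 : ∑ x ∈ Finset.range a, (if r + x < r then F (r + x) else 0) = 0 := by
      apply Finset.sum_eq_zero
      intro x _
      rw [if_neg (by omega)]
    rw [h4, add_zero]
    apply Finset.sum_congr rfl
    intro x hx
    rw [if_pos (Finset.mem_range.1 hx)]
  rw [h2]
  refine (h3 (fun l : ℕ => v * z * (T (l : ℤ) *
        ((1 - D ^ r * v ^ (m + 1 - r)) - D ^ (r - 1 - l) * (1 - v ^ (m + 1 - r)))))).trans ?_
  rw [Finset.mul_sum, Finset.mul_sum, ← Finset.sum_sub_distrib, Finset.mul_sum]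
  apply Finset.sum_congr rfl
  intro l _
  ring

/-- `q = k (m + 1) + 1`, `d = q + r s` -/
theorem alex_plus (m k r s q d : ℕ) (hr : 1 ≤ r) (hrm : r ≤ m) (hq : q = k * (m + 1) + 1)
    (hd : d = q + r * s) :
    (1 - T (d : ℤ)) *
      ((∑ i ∈ Finset.range (m + 1), (T (i : ℤ) : ℤ[T;T⁻¹])) * alexander (tt m q r s)) =
      1 - T ((r * d + (m + 1 - r) * q : ℕ) : ℤ) +
        T ((q + (r - 1) : ℕ) : ℤ) * (1 - T 1) * (∑ i ∈ Finset.range s, T ((r * i : ℕ) : ℤ)) *
          (∑ i ∈ Finset.range r, T (((d - 1) * i : ℕ) : ℤ)) *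
          (∑ i ∈ Finset.range (m + 1 - r), T ((q * i : ℕ) : ℤ)) := by
  obtain ⟨g, hz, hgj, hg⟩ := burau_twist m r s hr hrm
  have hX := tt3_det m k r s q hr hrm hq g hg
  have hq1 : 1 ≤ q := by omega
  have hd1 : 1 ≤ d := by omega
  have hDv : (T ((r * s : ℕ) : ℤ) * T (q : ℤ) : ℤ[T;T⁻¹]) = T (d : ℤ) := by
    rw [← T_add, hd]
    congr 1
    push_cast
    ring
  have hDr : (T (d : ℤ) : ℤ[T;T⁻¹]) ^ r = T ((d * r : ℕ) : ℤ) := tt3_pow d r
  have hvr : (T (q : ℤ) : ℤ[T;T⁻¹]) ^ (m + 1 - r) = T ((q * (m + 1 - r) : ℕ) : ℤ) :=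
    tt3_pow q (m + 1 - r)
  have hW : (T (d : ℤ) : ℤ[T;T⁻¹]) ^ r * T (q : ℤ) ^ (m + 1 - r) =
      T ((r * d + (m + 1 - r) * q : ℕ) : ℤ) := by
    rw [hDr, hvr, ← T_add]
    congr 1
    push_cast
    ring
  have hpos : 1 ≤ r * d := Nat.mul_pos hr hd1
  have hpos2 : 1 ≤ d * r := Nat.mul_pos hd1 hr
  have hV := tt3_detval m r hr hrm (T (d : ℤ)) (T (q : ℤ)) (1 - T (r : ℤ))
    ((1 - T 1) * (1 - T ((r * s : ℕ) : ℤ))) g hz hgj
    (by rw [hW]; exact alexkey_T_ne _ (by omega)) (by rw [hDr]; exact alexkey_T_ne _ hpos2)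
  rw [hDv] at hX
  rw [← hX, hW] at hV
  -- the sums
  have hA : (1 - T 1 : ℤ[T;T⁻¹]) * ∑ l ∈ Finset.range r, T (l : ℤ) = 1 - T (r : ℤ) := by
    have h := tt3_geom 1 r
    simpa using h
  have hS1 := tt3_geom r s
  have hS2 := tt3_geom q (m + 1 - r)
  rw [← hvr] at hS2
  have hH : ∑ l ∈ Finset.range r, (T (l : ℤ) : ℤ[T;T⁻¹]) * T (d : ℤ) ^ (r - 1 - l) =
      T ((r - 1 : ℕ) : ℤ) * ∑ i ∈ Finset.range r, T (((d - 1) * i : ℕ) : ℤ) := by
    rw [Finset.mul_sum, ← Finset.sum_range_reflect]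
    apply Finset.sum_congr rfl
    intro l hl
    have hl' := Finset.mem_range.1 hl
    have h1 : r - 1 - (r - 1 - l) = l := by omega
    rw [h1, tt3_pow, ← T_add, ← T_add]
    congr 1
    have h2 : ((r - 1 - l : ℕ) : ℤ) = ((r - 1 : ℕ) : ℤ) - l := by omega
    have h3 : ((d - 1 : ℕ) : ℤ) = (d : ℤ) - 1 := by omega
    push_cast
    rw [h2, h3]
    ring
  have hTq : (T ((q + (r - 1) : ℕ) : ℤ) : ℤ[T;T⁻¹]) = T (q : ℤ) * T ((r - 1 : ℕ) : ℤ) := by
    rw [← T_add]
    congr 1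
  rw [hH] at hV
  have hne : (1 - T (q : ℤ) : ℤ[T;T⁻¹]) * (1 - T (r : ℤ)) ≠ 0 :=
    mul_ne_zero (alexkey_T_ne q hq1) (alexkey_T_ne r hr)
  apply mul_left_cancel₀ hne
  rw [hTq]
  generalize (∑ i ∈ Finset.range (m + 1), (T (i : ℤ) : ℤ[T;T⁻¹])) * alexander (tt m q r s) = X
    at hV ⊢
  generalize (∑ i ∈ Finset.range r, (T (((d - 1) * i : ℕ) : ℤ) : ℤ[T;T⁻¹])) = S3 at hV ⊢
  generalize (∑ i ∈ Finset.range s, (T ((r * i : ℕ) : ℤ) : ℤ[T;T⁻¹])) = S1 at hS1 ⊢
  generalize (∑ i ∈ Finset.range (m + 1 - r), (T ((q * i : ℕ) : ℤ) : ℤ[T;T⁻¹])) = S2 at hS2 ⊢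
  generalize (∑ l ∈ Finset.range r, (T (l : ℤ) : ℤ[T;T⁻¹])) = A at hV hA
  generalize (T (q : ℤ) : ℤ[T;T⁻¹]) ^ (m + 1 - r) = V at hV hS2
  generalize (T ((r * d + (m + 1 - r) * q : ℕ) : ℤ) : ℤ[T;T⁻¹]) = W at hV ⊢
  generalize (T ((r - 1 : ℕ) : ℤ) : ℤ[T;T⁻¹]) = y at hV ⊢
  generalize (T ((r * s : ℕ) : ℤ) : ℤ[T;T⁻¹]) = z at hV hS1 hDv
  generalize (T (d : ℤ) : ℤ[T;T⁻¹]) = D at hV hDv ⊢
  generalize (T (q : ℤ) : ℤ[T;T⁻¹]) = v at hV hDv hS2 ⊢
  generalize (T (r : ℤ) : ℤ[T;T⁻¹]) = ρ at hV hS1 hA ⊢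
  generalize (T 1 : ℤ[T;T⁻¹]) = x at hV hA ⊢
  subst hDv
  linear_combination hV - v * (1 - z) * (1 - W) * hA -
    v * (1 - x) * y * S3 * (1 - v) * S2 * hS1 - v * (1 - x) * y * S3 * (1 - z) * hS2

end Pool.Agent.Helper27.TT
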