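import Mathlib
import Pool.Agent.Helper27.TT.Defs
import Pool.Agent.Helper27.TT.B1
import Pool.Agent.Helper27.TT.B2
import Pool.Agent.Helper62.OB.St.AlexKey

/-!
# TT-B4: the Alexander polynomial of `T(m + 1, k (m + 1) - 1; r, s)`

Notation: `x = T 1`, `v = T q`, `q + 1 = k (m + 1)`, `k ≥ 1`, `d = q + r s`, `D = T d`, `δ = 1 - D^r v^(m + 1 - r)`.
As in TT-B3: `(1 - T q) * ((∑_{i ≤ m} T i) * alexander β) = det B`,
`B i j = [i = j] - ∑ l, N i l * (if j = (l + q) % (m + 1) then T q else 0)`, now `(l + q) % (m + 1) = l - 1` in `Fin (m + 1)` (cyclic).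
`B i j = [i = j] - [j = i - 1] w i - e i * c j`, `w i = D` for `i < r`, `v` for `i ≥ r`, `e i = [i < r]`, `c j = v * g (j + 1)`.
`det_down` with `u i = (1 + D + ... + D^i) δ + D^(i+1) v^(m+1-r) (1 + ... + D^(r-1))` for `i < r`, `u i = v^(i - r + 1) (1 + D + ... + D^(r-1))` for `i ≥ r`
(check: `u (r - 1) = 1 + ... + D^(r-1)`, `u m = v^(m+1-r) (1 + ... + D^(r-1))`, `u 0 - D u m = δ`).
`det B = δ - ∑_{l < r} v g l u (l - 1)` where `(1 - D) u (l - 1) = δ - D^l (1 - v^(m+1-r))` for `0 ≤ l < r` (also for `l = 0`, `u (-1) = u m`).  So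
`(1 - D) (1 - T r) det B = (1 - D) (1 - T r) δ - v (1 - x) (1 - T (r s)) ∑_{l < r} T l (δ - D^l (1 - v^(m+1-r)))
  = (1 - T r) δ (1 - v) + v (1 - x) (1 - T (r s)) (1 - v^(m+1-r)) ∑_{l < r} T ((d + 1) l)`; cancel `1 - T r` and `1 - v`.
-/

set_option autoImplicit false

namespace Pool.Agent.Helper27.TT

open Polynomial LaurentPolynomial
open Pool.Agent.Helper62.OB

theorem b4_pow_row (m a n : ℕ) (ha : a ≤ m) :
    (burau m (rn m 0 a ^ n) : Matrix (Fin (m + 1)) (Fin (m + 1)) ℤ[T;T⁻¹]).mulVec (fun _ => 1) =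
      fun _ => 1 := by
  induction n with
  | zero => rw [pow_zero, map_one, Units.val_one, Matrix.one_mulVec]
  | succ t ih =>
    rw [pow_succ, map_mul, Units.val_mul, ← Matrix.mulVec_mulVec, burauRn_row m a ha, ih]

theorem b4_pow_null (m a n : ℕ) (ha : a ≤ m) :
    Matrix.vecMul (fun i : Fin (m + 1) => T (i.val : ℤ))
      (burau m (rn m 0 a ^ n) : Matrix (Fin (m + 1)) (Fin (m + 1)) ℤ[T;T⁻¹]) =
      fun i : Fin (m + 1) => T (i.val : ℤ) := by
  induction n with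
  | zero => rw [pow_zero, map_one, Units.val_one, Matrix.vecMul_one]
  | succ t ih =>
    rw [pow_succ, map_mul, Units.val_mul, ← Matrix.vecMul_vecMul, ih, burauRn_null m a ha]

theorem b4_row (m q r s : ℕ) (hrm : r ≤ m) (i : Fin (m + 1)) :
    ∑ j, (burau m (tt m q r s) : Matrix (Fin (m + 1)) (Fin (m + 1)) ℤ[T;T⁻¹]) i j = 1 := by
  have h : (burau m (tt m q r s) : Matrix (Fin (m + 1)) (Fin (m + 1)) ℤ[T;T⁻¹]).mulVec
      (fun _ => 1) = fun _ => 1 := by
    unfold tt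
    rw [map_mul, Units.val_mul, ← Matrix.mulVec_mulVec, burauRn_pow_row,
      b4_pow_row m (r - 1) (r * s) (by omega)]
  have h1 := congrFun h i
  rw [Matrix.mulVec, dotProduct] at h1
  simpa using h1

theorem b4_null (m q r s : ℕ) (hrm : r ≤ m) (j : Fin (m + 1)) :
    ∑ i : Fin (m + 1), T (i.val : ℤ) *
      (burau m (tt m q r s) : Matrix (Fin (m + 1)) (Fin (m + 1)) ℤ[T;T⁻¹]) i j =
        T (j.val : ℤ) := by
  have h : Matrix.vecMul (fun i : Fin (m + 1) => T (i.val : ℤ))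
      (burau m (tt m q r s) : Matrix (Fin (m + 1)) (Fin (m + 1)) ℤ[T;T⁻¹]) =
      fun i : Fin (m + 1) => T (i.val : ℤ) := by
    unfold tt
    rw [map_mul, Units.val_mul, ← Matrix.vecMul_vecMul,
      b4_pow_null m (r - 1) (r * s) (by omega), burauRn_pow_null]
  exact congrFun h j

/-- predecessor in the cyclic order -/
theorem b4_pred_val (m : ℕ) (i : Fin (m + 1)) :
    (i - 1).val = if i.val = 0 then m else i.val - 1 := by
  rw [Fin.coe_sub_one]
  by_cases h : i = 0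
  · rw [if_pos h, if_pos (by rw [h]; rfl)]
  · rw [if_neg h, if_neg (show ¬ i.val = 0 from fun h1 => h (Fin.ext h1))]

/-- the vector `u` -/
noncomputable def b4_u {R : Type*} [CommRing R] (m r : ℕ) (D v : R) (i : ℕ) : R :=
  if i < r then (∑ a ∈ Finset.range (i + 1), D ^ a) * (1 - D ^ r * v ^ (m + 1 - r)) +
      D ^ (i + 1) * v ^ (m + 1 - r) * ∑ a ∈ Finset.range r, D ^ a
    else v ^ (i - r + 1) * ∑ a ∈ Finset.range r, D ^ a

theorem b4_hu {R : Type*} [CommRing R] (m r : ℕ) (hr : 1 ≤ r) (hrm : r ≤ m) (D v : R)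
    (i : Fin (m + 1)) :
    b4_u m r D v i.val - (if i.val < r then D else v) * b4_u m r D v (i - 1).val =
      (1 - D ^ r * v ^ (m + 1 - r)) * (if i.val < r then 1 else 0) := by
  rw [b4_pred_val]
  have hG : (1 - D) * ∑ a ∈ Finset.range r, D ^ a = 1 - D ^ r := by
    have := mul_neg_geom_sum D r
    exact this
  by_cases h0 : i.val = 0
  · rw [if_pos h0, h0, if_pos (by omega : 0 < r), if_pos (by omega : 0 < r)]
    unfold b4_u
    rw [if_pos (by omega : 0 < r), if_neg (by omega : ¬ m < r)]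
    have h1 : m - r + 1 = m + 1 - r := by omega
    rw [h1]
    simp only [zero_add, Finset.sum_range_one, pow_zero, pow_one, one_mul]
    ring
  · rw [if_neg h0]
    by_cases h1 : i.val < r
    · rw [if_pos h1, if_pos h1]
      unfold b4_u
      rw [if_pos h1, if_pos (by omega : i.val - 1 < r)]
      have h2 : i.val - 1 + 1 = i.val := by omega
      rw [h2, Finset.sum_range_succ']
      have h3 : ∑ a ∈ Finset.range i.val, D ^ (a + 1) = D * ∑ a ∈ Finset.range i.val, D ^ a := by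
        rw [Finset.mul_sum]
        exact Finset.sum_congr rfl fun a _ => by ring
      rw [h3]
      ring
    · rw [if_neg h1, if_neg h1, mul_zero]
      by_cases h2 : i.val = r
      · unfold b4_u
        rw [if_neg h1, if_pos (by omega : i.val - 1 < r)]
        have h3 : i.val - 1 + 1 = r := by omega
        have h4 : i.val - r + 1 = 1 := by omega
        rw [h3, h4, pow_one]
        ring
      · unfold b4_u
        rw [if_neg h1, if_neg (by omega : ¬ i.val - 1 < r)]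
        have h3 : i.val - r + 1 = (i.val - 1 - r + 1) + 1 := by omega
        rw [h3]
        ring

theorem b4_du {R : Type*} [CommRing R] (m r : ℕ) (hrm : r ≤ m) (D v : R)
    (l : Fin (m + 1)) (hl : l.val < r) :
    (1 - D) * b4_u m r D v (l - 1).val =
      (1 - D ^ r * v ^ (m + 1 - r)) - D ^ l.val * (1 - v ^ (m + 1 - r)) := by
  rw [b4_pred_val]
  have hG : (1 - D) * ∑ a ∈ Finset.range r, D ^ a = 1 - D ^ r := mul_neg_geom_sum D r
  by_cases h0 : l.val = 0
  · rw [if_pos h0, h0]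
    unfold b4_u
    rw [if_neg (by omega : ¬ m < r)]
    have h1 : m - r + 1 = m + 1 - r := by omega
    rw [h1]
    linear_combination v ^ (m + 1 - r) * hG
  · rw [if_neg h0]
    unfold b4_u
    rw [if_pos (by omega : l.val - 1 < r)]
    have h2 : l.val - 1 + 1 = l.val := by omega
    rw [h2]
    have hL : (1 - D) * ∑ a ∈ Finset.range l.val, D ^ a = 1 - D ^ l.val :=
      mul_neg_geom_sum D l.val
    linear_combination (1 - D ^ r * v ^ (m + 1 - r)) * hL + D ^ l.val * v ^ (m + 1 - r) * hG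

theorem b4_prod {R : Type*} [CommRing R] (m r : ℕ) (hrm : r ≤ m) (D v : R) :
    ∏ i : Fin (m + 1), (if i.val < r then D else v) = D ^ r * v ^ (m + 1 - r) := by
  rw [Fin.prod_univ_eq_prod_range (fun i => if i < r then D else v) (m + 1)]
  have h : m + 1 = r + (m + 1 - r) := by omega
  conv_lhs => rw [h]
  rw [Finset.prod_range_add]
  congr 1
  · rw [Finset.prod_congr rfl fun i hi => if_pos (Finset.mem_range.1 hi), Finset.prod_const,
      Finset.card_range]
  · rw [Finset.prod_congr rfl fun i _ => if_neg (by omega : ¬ r + i < r), Finset.prod_const,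
      Finset.card_range]

theorem b4_abs {R : Type*} [CommRing R] [IsDomain R] (m r : ℕ) (hr : 1 ≤ r) (hrm : r ≤ m)
    (D v : R) (g : Fin (m + 1) → R) (hg : ∀ j : Fin (m + 1), r ≤ j.val → g j = 0)
    (hne : 1 - D ^ r * v ^ (m + 1 - r) ≠ 0) :
    (1 - D) * (Matrix.of fun i j : Fin (m + 1) => (if i = j then 1 else 0) -
      (if j = i - 1 then (if i.val < r then D else v) else 0) -
        (if i.val < r then 1 else 0) * (v * g (j + 1))).det =
      (1 - D) * (1 - D ^ r * v ^ (m + 1 - r)) - v * ∑ j : Fin (m + 1), g j *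
        ((1 - D ^ r * v ^ (m + 1 - r)) - D ^ j.val * (1 - v ^ (m + 1 - r))) := by
  have hu := b4_hu m r hr hrm D v
  have hprod := b4_prod m r hrm D v
  have h := det_down m (fun i : Fin (m + 1) => if i.val < r then D else v)
    (fun i : Fin (m + 1) => if i.val < r then 1 else 0) (fun j => v * g (j + 1))
    (fun i => b4_u m r D v i.val) (by rw [hprod]; exact hne) (by
      intro i
      rw [hprod]
      exact hu i) (by
      by_contra hall
      push Not at hall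
      have h1 := hu 0
      rw [hall 0, hall (0 - 1), mul_zero, sub_zero, if_pos (by
        change 0 < r
        omega), mul_one] at h1
      exact hne h1.symm)
  rw [h, hprod, mul_sub]
  congr 1
  rw [Finset.mul_sum, Finset.mul_sum]
  refine Finset.sum_bij' (fun j _ => j + 1) (fun j _ => j - 1) (fun _ _ => Finset.mem_univ _)
    (fun _ _ => Finset.mem_univ _) (fun j _ => by simp) (fun j _ => by simp) ?_
  intro j _
  by_cases hj : (j + 1).val < r
  · have h1 := b4_du m r hrm D v (j + 1) hj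
    have h2 : j + 1 - 1 = j := by simp
    rw [h2] at h1
    rw [← h1]
    ring
  · rw [hg (j + 1) (by omega)]
    ring

/-- the determinant -/
theorem b4_det (m k r s q : ℕ) (hk : 1 ≤ k) (hr : 1 ≤ r) (hrm : r ≤ m)
    (hq : q + 1 = k * (m + 1)) (g : Fin (m + 1) → ℤ[T;T⁻¹])
    (hN : ∀ i j : Fin (m + 1),
        (burau m (rn m 0 (r - 1) ^ (r * s)) : Matrix (Fin (m + 1)) (Fin (m + 1)) ℤ[T;T⁻¹]) i j =
          if i.val < r then (if i = j then T ((r * s : ℕ) : ℤ) else 0) + g j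
          else (if i = j then 1 else 0)) :
    (1 - T (q : ℤ)) * ((∑ i ∈ Finset.range (m + 1), (T (i : ℤ) : ℤ[T;T⁻¹])) *
      alexander (tt m q r s)) =
      (Matrix.of fun i j : Fin (m + 1) => (if i = j then 1 else 0) -
      (if j = i - 1 then (if i.val < r then T ((q + r * s : ℕ) : ℤ) else T (q : ℤ)) else 0) -
        (if i.val < r then 1 else 0) * (T (q : ℤ) * g (j + 1))).det := by
  obtain ⟨g', hg1, hg2⟩ := burau_pow m q
  have h := det_rank_one m
    (1 - (burau m (tt m q r s) : Matrix (Fin (m + 1)) (Fin (m + 1)) ℤ[T;T⁻¹])) g'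
    (fun i => T (i.val : ℤ)) (by
      intro i
      simp only [Matrix.sub_apply, Finset.sum_sub_distrib, b4_row m q r s hrm i]
      simp [Matrix.one_apply]) (by
      intro j
      simp only [Matrix.sub_apply, mul_sub, Finset.sum_sub_distrib, b4_null m q r s hrm j]
      simp [Matrix.one_apply]) (by simp)
  have hmod : ∀ l j : Fin (m + 1), (j.val = (l.val + q) % (m + 1)) ↔ l = j + 1 := by
    intro l j
    have h1 : j = (j + 1) - 1 := by simp
    have hl := l.isLt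
    have hj := j.isLt
    have hk' : ∃ k', k = k' + 1 := ⟨k - 1, by omega⟩
    obtain ⟨k', rfl⟩ := hk'
    have hq' : q = m + (m + 1) * k' := by
      have : q + 1 = (m + 1) * k' + (m + 1) := by rw [hq]; ring
      omega
    have h2 : (l.val + q) % (m + 1) = (l - 1).val := by
      rw [b4_pred_val, hq', ← add_assoc, Nat.add_mul_mod_self_left]
      by_cases h0 : l.val = 0
      · rw [if_pos h0, h0, zero_add, Nat.mod_eq_of_lt (by omega)]
      · rw [if_neg h0]
        have h3 : l.val + m = (l.val - 1) + (m + 1) := by omega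
        rw [h3, Nat.add_mod_right, Nat.mod_eq_of_lt (by omega)]
    rw [h2]
    constructor
    · intro h3
      have h4 : j = l - 1 := Fin.ext h3
      rw [h4]
      simp
    · intro h3
      rw [h3]
      simp
  have h2 : (1 - (burau m (tt m q r s) : Matrix (Fin (m + 1)) (Fin (m + 1)) ℤ[T;T⁻¹])) +
      (Matrix.of fun _ j => g' j) =
      (Matrix.of fun i j : Fin (m + 1) => (if i = j then 1 else 0) -
      (if j = i - 1 then (if i.val < r then T ((q + r * s : ℕ) : ℤ) else T (q : ℤ)) else 0) -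
        (if i.val < r then 1 else 0) * (T (q : ℤ) * g (j + 1))) := by
    ext1 i j
    have h3 : (burau m (tt m q r s) : Matrix (Fin (m + 1)) (Fin (m + 1)) ℤ[T;T⁻¹]) =
        (burau m (rn m 0 (r - 1) ^ (r * s)) : Matrix (Fin (m + 1)) (Fin (m + 1)) ℤ[T;T⁻¹]) *
        (burau m (rn m 0 m ^ q) : Matrix (Fin (m + 1)) (Fin (m + 1)) ℤ[T;T⁻¹]) := by
      unfold tt
      rw [map_mul]
      rfl
    have hNrow : ∑ l, (burau m (rn m 0 (r - 1) ^ (r * s)) :
        Matrix (Fin (m + 1)) (Fin (m + 1)) ℤ[T;T⁻¹]) i l = 1 := by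
      have h4 := congrFun (b4_pow_row m (r - 1) (r * s) (by omega)) i
      rw [Matrix.mulVec, dotProduct] at h4
      simpa using h4
    have h5 : (burau m (tt m q r s) : Matrix (Fin (m + 1)) (Fin (m + 1)) ℤ[T;T⁻¹]) i j =
        (burau m (rn m 0 (r - 1) ^ (r * s)) : Matrix (Fin (m + 1)) (Fin (m + 1)) ℤ[T;T⁻¹])
          i (j + 1) * T (q : ℤ) + g' j := by
      rw [h3, Matrix.mul_apply]
      simp only [hg2, mul_add, Finset.sum_add_distrib, ← Finset.sum_mul, hNrow, one_mul, hmod]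
      simp only [mul_ite, mul_zero, Finset.sum_ite_eq', Finset.mem_univ, if_true]
    have h6 : (i = j + 1) ↔ (j = i - 1) := by
      constructor
      · intro h7
        rw [h7]
        simp
      · intro h7
        rw [h7]
        simp
    have h8 : (T ((q + r * s : ℕ) : ℤ) : ℤ[T;T⁻¹]) = T ((r * s : ℕ) : ℤ) * T (q : ℤ) := by
      rw [← T_add]
      congr 1
      push_cast
      ring
    simp only [Matrix.add_apply, Matrix.sub_apply, Matrix.of_apply, Matrix.one_apply, h5, hN,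
      h6, h8]
    split_ifs <;> ring
  rw [h2, hg1] at h
  rw [h]
  unfold alexander
  rw [Finset.sum_range, mul_assoc]

theorem b4_T_pow (a n : ℕ) : (T (a : ℤ) : ℤ[T;T⁻¹]) ^ n = T ((a * n : ℕ) : ℤ) := by
  rw [T_pow]
  congr 1
  push_cast
  ring

/-- `q = k (m + 1) - 1`, `d = q + r s` -/
theorem alex_minus (m k r s q d : ℕ) (hk : 1 ≤ k) (hr : 1 ≤ r) (hrm : r ≤ m)
    (hq : q + 1 = k * (m + 1)) (hd : d = q + r * s) :
    (1 - T (d : ℤ)) *
      ((∑ i ∈ Finset.range (m + 1), (T (i : ℤ) : ℤ[T;T⁻¹])) * alexander (tt m q r s)) =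
      1 - T ((r * d + (m + 1 - r) * q : ℕ) : ℤ) +
        T (q : ℤ) * (1 - T 1) * (∑ i ∈ Finset.range s, T ((r * i : ℕ) : ℤ)) *
          (∑ i ∈ Finset.range r, T (((d + 1) * i : ℕ) : ℤ)) *
          (∑ i ∈ Finset.range (m + 1 - r), T ((q * i : ℕ) : ℤ)) := by
  obtain ⟨g, hg0, hg1, hN⟩ := burau_twist m r s hr hrm
  have hdet := b4_det m k r s q hk hr hrm hq g hN
  have hq1 : 1 ≤ q := by
    have h1 : 1 * (m + 1) ≤ k * (m + 1) := Nat.mul_le_mul_right _ hk
    omega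
  have hrd : 1 ≤ r * d + (m + 1 - r) * q := by
    have h1 : 1 * 1 ≤ r * d := Nat.mul_le_mul hr (by omega)
    omega
  have hDv : (T (d : ℤ) : ℤ[T;T⁻¹]) ^ r * T (q : ℤ) ^ (m + 1 - r) =
      T ((r * d + (m + 1 - r) * q : ℕ) : ℤ) := by
    rw [b4_T_pow, b4_T_pow, ← T_add]
    congr 1
    push_cast
    ring
  have habs := b4_abs m r hr hrm (T (d : ℤ)) (T (q : ℤ)) g hg0 (by
    rw [hDv]
    exact alexkey_T_ne _ hrd)
  rw [← hd] at hdet
  rw [← hdet] at habs
  have hr1 : (1 - T (r : ℤ) : ℤ[T;T⁻¹]) ≠ 0 := alexkey_T_ne r hr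
  have hq2 : (1 - T (q : ℤ) : ℤ[T;T⁻¹]) ≠ 0 := alexkey_T_ne q hq1
  -- the sum
  have hsum : (1 - T (r : ℤ)) * ∑ j : Fin (m + 1), g j *
        ((1 - T (d : ℤ) ^ r * T (q : ℤ) ^ (m + 1 - r)) -
          T (d : ℤ) ^ j.val * (1 - T (q : ℤ) ^ (m + 1 - r))) =
      (1 - T 1) * (1 - T ((r * s : ℕ) : ℤ)) * ∑ j ∈ Finset.range r, (T (j : ℤ) *
        ((1 - T (d : ℤ) ^ r * T (q : ℤ) ^ (m + 1 - r)) -
          T (d : ℤ) ^ j * (1 - T (q : ℤ) ^ (m + 1 - r))) : ℤ[T;T⁻¹]) := by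
    rw [Finset.mul_sum, Finset.mul_sum]
    have h1 : ∀ j : Fin (m + 1), (1 - T (r : ℤ)) * (g j *
        ((1 - T (d : ℤ) ^ r * T (q : ℤ) ^ (m + 1 - r)) -
          T (d : ℤ) ^ j.val * (1 - T (q : ℤ) ^ (m + 1 - r)))) =
        (fun j : ℕ => if j < r then (1 - T 1) * (1 - T ((r * s : ℕ) : ℤ)) * (T (j : ℤ) *
        ((1 - T (d : ℤ) ^ r * T (q : ℤ) ^ (m + 1 - r)) -
          T (d : ℤ) ^ j * (1 - T (q : ℤ) ^ (m + 1 - r)))) else 0) j.val := by
      intro j
      by_cases hj : j.val < r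
      · change _ = if j.val < r then _ else _
        rw [if_pos hj, ← mul_assoc, hg1 j hj]
        ring
      · change _ = if j.val < r then _ else _
        rw [if_neg hj, hg0 j (by omega)]
        ring
    rw [Finset.sum_congr rfl fun j _ => h1 j, Fin.sum_univ_eq_sum_range (fun j : ℕ =>
        if j < r then (1 - T 1) * (1 - T ((r * s : ℕ) : ℤ)) * (T (j : ℤ) *
        ((1 - T (d : ℤ) ^ r * T (q : ℤ) ^ (m + 1 - r)) -
          T (d : ℤ) ^ j * (1 - T (q : ℤ) ^ (m + 1 - r)))) else 0) (m + 1)]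
    rw [← Finset.sum_filter]
    refine Finset.sum_congr ?_ fun _ _ => rfl
    ext j
    rw [Finset.mem_filter, Finset.mem_range, Finset.mem_range]
    omega
  -- geometric sums
  have hx : ((1 - T 1) * ∑ j ∈ Finset.range r, T (j : ℤ) : ℤ[T;T⁻¹]) = 1 - T (r : ℤ) := by
    have h1 := mul_neg_geom_sum (T 1 : ℤ[T;T⁻¹]) r
    have h2 : ∀ j : ℕ, (T 1 : ℤ[T;T⁻¹]) ^ j = T (j : ℤ) := by
      intro j
      rw [T_pow, mul_one]
    simpa only [h2] using h1
  have hs : ((1 - T (r : ℤ)) * ∑ i ∈ Finset.range s, T ((r * i : ℕ) : ℤ) : ℤ[T;T⁻¹]) =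
      1 - T ((r * s : ℕ) : ℤ) := by
    have h1 := mul_neg_geom_sum (T (r : ℤ) : ℤ[T;T⁻¹]) s
    simpa only [b4_T_pow] using h1
  have hv : ((1 - T (q : ℤ)) * ∑ i ∈ Finset.range (m + 1 - r), T ((q * i : ℕ) : ℤ) : ℤ[T;T⁻¹]) =
      1 - T (q : ℤ) ^ (m + 1 - r) := by
    have h1 := mul_neg_geom_sum (T (q : ℤ) : ℤ[T;T⁻¹]) (m + 1 - r)
    simpa only [b4_T_pow] using h1
  have hD : (T (d : ℤ) : ℤ[T;T⁻¹]) = T (q : ℤ) * T ((r * s : ℕ) : ℤ) := by
    rw [← T_add, hd]
    congr 1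
  have hlast : (∑ j ∈ Finset.range r, T (((d + 1) * j : ℕ) : ℤ) : ℤ[T;T⁻¹]) =
      ∑ j ∈ Finset.range r, T (j : ℤ) * T (d : ℤ) ^ j := by
    refine Finset.sum_congr rfl fun j _ => ?_
    rw [b4_T_pow, ← T_add]
    congr 1
    push_cast
    ring
  have hsplit : (∑ j ∈ Finset.range r, (T (j : ℤ) *
        ((1 - T (d : ℤ) ^ r * T (q : ℤ) ^ (m + 1 - r)) -
          T (d : ℤ) ^ j * (1 - T (q : ℤ) ^ (m + 1 - r)))) : ℤ[T;T⁻¹]) =
      (∑ j ∈ Finset.range r, T (j : ℤ)) * (1 - T (d : ℤ) ^ r * T (q : ℤ) ^ (m + 1 - r)) -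
        (∑ j ∈ Finset.range r, T (j : ℤ) * T (d : ℤ) ^ j) * (1 - T (q : ℤ) ^ (m + 1 - r)) := by
    rw [Finset.sum_mul, Finset.sum_mul, ← Finset.sum_sub_distrib]
    exact Finset.sum_congr rfl fun j _ => by ring
  apply mul_left_cancel₀ hr1
  apply mul_left_cancel₀ hq2
  rw [hsplit] at hsum
  rw [← hDv, hlast]
  generalize (∑ j ∈ Finset.range r, (T (j : ℤ) * T (d : ℤ) ^ j : ℤ[T;T⁻¹])) = L at *
  generalize (∑ j : Fin (m + 1), g j *
        ((1 - T (d : ℤ) ^ r * T (q : ℤ) ^ (m + 1 - r)) -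
          T (d : ℤ) ^ j.val * (1 - T (q : ℤ) ^ (m + 1 - r)))) = U at *
  generalize ((∑ i ∈ Finset.range (m + 1), (T (i : ℤ) : ℤ[T;T⁻¹])) *
    alexander (tt m q r s)) = A at *
  generalize (∑ j ∈ Finset.range r, (T (j : ℤ) : ℤ[T;T⁻¹])) = X at *
  generalize (∑ i ∈ Finset.range s, (T ((r * i : ℕ) : ℤ) : ℤ[T;T⁻¹])) = Sg at *
  generalize (∑ i ∈ Finset.range (m + 1 - r), (T ((q * i : ℕ) : ℤ) : ℤ[T;T⁻¹])) = V at *
  generalize hvp : (T (q : ℤ) : ℤ[T;T⁻¹]) ^ (m + 1 - r) = vp at *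
  generalize hDp : (T (d : ℤ) : ℤ[T;T⁻¹]) ^ r = Dp at *
  generalize (T ((r * s : ℕ) : ℤ) : ℤ[T;T⁻¹]) = Trs at *
  rw [hD] at habs ⊢
  generalize (T (q : ℤ) : ℤ[T;T⁻¹]) = v at *
  generalize (T (r : ℤ) : ℤ[T;T⁻¹]) = ρ at *
  generalize (T 1 : ℤ[T;T⁻¹]) = x at *
  linear_combination (1 - ρ) * habs - v * hsum - v * (1 - Trs) * (1 - Dp * vp) * hx -
    v * (1 - x) * L * (1 - ρ) * Sg * hv - v * (1 - x) * L * (1 - vp) * hs

end Pool.Agent.Helper27.TT
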