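import Mathlib
import Pool.Agent.Helper27.TT.Defs
import Pool.Agent.Helper62.OB.Poly

/-!
# TT-C1: from the Laurent polynomial to polynomials

As in `P_of_cyc` (`Pool.Agent.Helper62.OB.Poly`): `M = (m + 1).divisors.erase 1 + M₀`, where `M₀` is the multiset of `hc`
(`prod_cyclotomic_eq_geom_sum`), `UpToUnit.mul_left`, and `upToUnit_poly` for the polynomials `(∏ Φ_N) * (1 - X ^ d)` and `H`, whose
constant coefficients are not zero (`multisetZ_coeff_zero_ne`).
-/

set_option autoImplicit false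

namespace Pool.Agent.Helper27.TT

open Polynomial LaurentPolynomial
open Pool.Agent.Helper62.OB

theorem poly_of_cyc (m : ℕ) (Δ : ℤ[T;T⁻¹]) (d : ℕ) (hd : 1 ≤ d) (H : ℤ[X]) (hH : H.coeff 0 = 1)
    (hΔ : (1 - T (d : ℤ)) * ((∑ i ∈ Finset.range (m + 1), (T (i : ℤ) : ℤ[T;T⁻¹])) * Δ) =
      toLaurent H) (hc : IsCyclotomicProduct Δ) :
    ∃ M : Multiset ℕ, (∀ N ∈ M, 0 < N) ∧
      ((M.map (fun N => cyclotomic N ℤ)).prod * (1 - X ^ d) = H ∨
        (M.map (fun N => cyclotomic N ℤ)).prod * (1 - X ^ d) = -H) := by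
  obtain ⟨M, hM, hU⟩ := hc
  refine ⟨((m + 1).divisors.erase 1).val + M, ?_, ?_⟩
  · intro N hN
    rcases Multiset.mem_add.1 hN with h1 | h1
    · exact Nat.pos_of_mem_divisors (Finset.mem_of_mem_erase h1)
    · exact hM N h1
  · have hG : (∑ i ∈ Finset.range (m + 1), (T (i : ℤ) : ℤ[T;T⁻¹])) =
        toLaurent (((((m + 1).divisors.erase 1).val).map (fun N => cyclotomic N ℤ)).prod) := by
      have h1 := prod_cyclotomic_eq_geom_sum (Nat.succ_pos m) ℤ
      have h2 : ((((m + 1).divisors.erase 1).val).map (fun N => cyclotomic N ℤ)).prod =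
          ∑ i ∈ Finset.range (m + 1), (X : ℤ[X]) ^ i := by
        rw [← h1]
        rfl
      rw [h2, map_sum]
      exact Finset.sum_congr rfl fun i _ => by rw [toLaurent_X_pow]
    have hD : (1 - T (d : ℤ) : ℤ[T;T⁻¹]) = toLaurent (1 - X ^ d : ℤ[X]) := by
      rw [map_sub, map_one, toLaurent_X_pow]
    have h4 := UpToUnit.mul_left (1 - T (d : ℤ)) (UpToUnit.mul_left
      (∑ i ∈ Finset.range (m + 1), (T (i : ℤ) : ℤ[T;T⁻¹])) hU)
    rw [hΔ, hG, hD, ← map_mul, ← Multiset.prod_add, ← Multiset.map_add, ← map_mul] at h4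
    have hH0 : H.coeff 0 ≠ 0 := by
      rw [hH]
      exact one_ne_zero
    have hQ0 : ((1 - X ^ d : ℤ[X]) * ((((m + 1).divisors.erase 1).val + M).map
        (fun N => cyclotomic N ℤ)).prod).coeff 0 ≠ 0 := by
      rw [mul_coeff_zero]
      refine mul_ne_zero ?_ (multisetZ_coeff_zero_ne _)
      rw [coeff_sub, coeff_one_zero, coeff_X_pow, if_neg (by omega)]
      norm_num
    rcases upToUnit_poly hH0 hQ0 h4 with h5 | h5
    · left
      rw [h5, mul_comm]
    · right
      rw [h5, neg_neg, mul_comm]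

end Pool.Agent.Helper27.TT
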