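import Mathlib
import Pool.Agent.Helper27.TT.Defs

/-!
# TT-C2: values on the unit circle

With `z = exp (φ I)`, `x = z²`: `1 - x^n = -2 I z^n sin (n φ)` and `∑_{i < n} x^(y i) = z^((n - 1) y) S n y φ` (pair `i`: `z^(2 y i) = z^((n-1) y) z^(y (2 i - n + 1))`,
the imaginary parts cancel by the symmetry `i ↦ n - 1 - i`, `Finset.sum_range_reflect`).
`eval_H`: both terms have the factor `-2 I z^M`: `2 a + 1 + (s - 1) r + (r' - 1) e + (n - 1) q = M`.
`sin_S`: induction on `n` or telescoping: `2 sin (y φ) cos (j y φ) = sin ((j + 1) y φ) - sin ((j - 1) y φ)`.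
-/

set_option autoImplicit false

namespace Pool.Agent.Helper27.TT

open Polynomial

theorem exp_pow_two (n : ℕ) (φ : ℝ) :
    Complex.exp (2 * φ * Complex.I) ^ n = Complex.exp (2 * n * φ * Complex.I) := by
  rw [← Complex.exp_nat_mul]
  congr 1
  ring

theorem eval_one_sub (n : ℕ) (φ : ℝ) :
    (1 : ℂ) - Complex.exp (2 * φ * Complex.I) ^ n =
      -2 * Complex.I * Complex.exp (n * φ * Complex.I) * (Real.sin (n * φ) : ℝ) := by
  rw [exp_pow_two, Complex.ofReal_sin, Complex.sin]
  push_cast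
  have h1 : Complex.exp (2 * n * φ * Complex.I) =
      Complex.exp (n * φ * Complex.I) * Complex.exp (n * φ * Complex.I) := by
    rw [← Complex.exp_add]
    congr 1
    ring
  have h2 : Complex.exp (n * φ * Complex.I) * Complex.exp (-(n * φ) * Complex.I) = 1 := by
    rw [← Complex.exp_add, show (n * φ * Complex.I + -(n * φ) * Complex.I : ℂ) = 0 by ring,
      Complex.exp_zero]
  rw [h1]
  set w := Complex.exp (n * φ * Complex.I)
  set v := Complex.exp (-(n * φ) * Complex.I)
  have h3 : -2 * Complex.I * w * ((v - w) * Complex.I / 2) =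
      -(Complex.I * Complex.I) * (w * v - w * w) := by ring
  rw [h3, Complex.I_mul_I, h2]
  ring

theorem eval_sum (n y : ℕ) (φ : ℝ) :
    ∑ i ∈ Finset.range n, Complex.exp (2 * φ * Complex.I) ^ (y * i) =
      Complex.exp (((n - 1) * y : ℕ) * φ * Complex.I) * (S n y φ : ℝ) := by
  set F : ℕ → ℂ := fun i => Complex.exp (2 * i * y * φ * Complex.I) with hF
  have h1 : ∑ i ∈ Finset.range n, Complex.exp (2 * φ * Complex.I) ^ (y * i) =
      ∑ i ∈ Finset.range n, F i := by
    apply Finset.sum_congr rfl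
    intro i _
    rw [exp_pow_two, hF]
    congr 1
    push_cast
    ring
  have h2 := Finset.sum_range_reflect F n
  have h3 : Complex.exp (((n - 1) * y : ℕ) * φ * Complex.I) * (S n y φ : ℝ) =
      (∑ i ∈ Finset.range n, F (n - 1 - i) + ∑ i ∈ Finset.range n, F i) / 2 := by
    unfold S
    push_cast
    rw [Finset.mul_sum, ← Finset.sum_add_distrib, Finset.sum_div]
    apply Finset.sum_congr rfl
    intro i hi
    have hi' := Finset.mem_range.mp hi
    have e1 : ((n - 1 : ℕ) : ℂ) = n - 1 := by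
      rw [Nat.cast_sub (by omega)]
      simp
    have e2 : ((n - 1 - i : ℕ) : ℂ) = n - 1 - i := by
      rw [Nat.cast_sub (by omega), e1]
    rw [Complex.cos, hF]
    simp only [e1, e2]
    rw [mul_div_assoc', mul_add, ← Complex.exp_add, ← Complex.exp_add]
    congr 2
    · congr 1
      ring
    · congr 1
      ring
  rw [h1, h3, h2]
  ring

theorem sin_S (n : ℕ) (y φ : ℝ) : Real.sin (y * φ) * S n y φ = Real.sin (n * y * φ) := by
  have h1 : 2 * (Real.sin (y * φ) * S n y φ) = ∑ i ∈ Finset.range n,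
      ((fun i : ℕ => Real.sin (((n : ℝ) - 2 * i) * y * φ)) i -
        (fun i : ℕ => Real.sin (((n : ℝ) - 2 * i) * y * φ)) (i + 1)) := by
    unfold S
    rw [Finset.mul_sum, Finset.mul_sum]
    apply Finset.sum_congr rfl
    intro i _
    simp only
    have e1 : ((n : ℝ) - 2 * i) * y * φ = ((n : ℝ) - 1 - 2 * i) * y * φ + y * φ := by ring
    have e2 : ((n : ℝ) - 2 * ((i + 1 : ℕ) : ℝ)) * y * φ =
        ((n : ℝ) - 1 - 2 * i) * y * φ - y * φ := by
      push_cast
      ring
    rw [e1, e2, Real.sin_add, Real.sin_sub]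
    ring
  rw [Finset.sum_range_sub'] at h1
  simp only [Nat.cast_zero, mul_zero, sub_zero] at h1
  have e3 : ((n : ℝ) - 2 * n) * y * φ = -(n * y * φ) := by ring
  rw [e3, Real.sin_neg] at h1
  linarith

/-- the value of `1 - X^M + X^a (1 - X) (∑_{i < s} X^(r i)) (∑_{i < r'} X^(e i)) (∑_{i < n} X^(q i))` -/
theorem eval_H (M a s r r' e n q : ℕ) (hr' : 1 ≤ r') (hn : 1 ≤ n)
    (hM : 1 ≤ s → M = 2 * a + 1 + (s - 1) * r + (r' - 1) * e + (n - 1) * q) (φ : ℝ) :
    (1 - X ^ M + X ^ a * (1 - X) * (∑ i ∈ Finset.range s, X ^ (r * i)) *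
      (∑ i ∈ Finset.range r', X ^ (e * i)) * (∑ i ∈ Finset.range n, X ^ (q * i)) : ℂ[X]).eval
        (Complex.exp (2 * φ * Complex.I)) =
      -2 * Complex.I * Complex.exp (M * φ * Complex.I) *
        ((Real.sin (M * φ) + Real.sin φ * S s r φ * S r' e φ * S n q φ : ℝ) : ℂ) := by
  simp only [eval_add, eval_sub, eval_mul, eval_pow, eval_X, eval_one, eval_finset_sum]
  have h1 := eval_one_sub 1 φ
  rw [pow_one, Nat.cast_one, Nat.cast_one, one_mul, one_mul] at h1
  rw [eval_one_sub M φ, h1, eval_sum s r φ, eval_sum r' e φ, eval_sum n q φ, exp_pow_two a φ]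
  rcases Nat.eq_zero_or_pos s with hs | hs
  · subst hs
    have h0 : S 0 r φ = 0 := by simp [S]
    rw [h0]
    push_cast
    ring
  · have hM' := hM hs
    have h2 : Complex.exp (M * φ * Complex.I) = Complex.exp (2 * a * φ * Complex.I) *
        Complex.exp (φ * Complex.I) * Complex.exp (((s - 1) * r : ℕ) * φ * Complex.I) *
        Complex.exp (((r' - 1) * e : ℕ) * φ * Complex.I) *
        Complex.exp (((n - 1) * q : ℕ) * φ * Complex.I) := by
      rw [← Complex.exp_add, ← Complex.exp_add, ← Complex.exp_add, ← Complex.exp_add]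
      congr 1
      have h3 : (M : ℂ) = 2 * a + 1 + ((s - 1) * r : ℕ) + ((r' - 1) * e : ℕ) +
          ((n - 1) * q : ℕ) := by
        rw [hM']
        push_cast
        ring
      rw [h3]
      ring
    rw [h2]
    push_cast
    ring

end Pool.Agent.Helper27.TT
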