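import Mathlib
import Pool.Agent.Helper27.TT.Defs
import Pool.Agent.Helper27.TT.B3
import Pool.Agent.Helper27.TT.B4
import Pool.Agent.Helper27.TT.C1
import Pool.Agent.Helper27.TT.C2

/-!
# TT-C3: the zeros of the Alexander polynomial on the unit circle

`alex_plus` / `alex_minus` + `poly_of_cyc` (with `H` the right side as a polynomial, `map_sum`, `toLaurent_X_pow`, `T_add`) + `eval_H`
(exponents: `a = q + (r - 1)`, `e = d - 1`, resp. `a = q`, `e = d + 1`; both times `2 a + 1 + (s - 1) r + (r - 1) e + (m - r) q = r d + (m + 1 - r) q`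
as `d = q + r s`), `eval_one_sub` for `1 - X ^ d`.  Map from `ℤ[X]` to `ℂ[X]` with `Polynomial.map` (`map_cyclotomic`, `Polynomial.map_multiset_prod`).
`c = ± exp ((M - d) φ I)`.
-/

set_option autoImplicit false

namespace Pool.Agent.Helper27.TT

open Polynomial LaurentPolynomial
open Pool.Agent.Helper62.OB

/-- The polynomial on the right side of `alex_plus` and `alex_minus`. -/
noncomputable def ttH (R : Type*) [CommRing R] (M a s r r' e n q : ℕ) : R[X] :=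
  1 - X ^ M + X ^ a * (1 - X) * (∑ i ∈ Finset.range s, X ^ (r * i)) *
      (∑ i ∈ Finset.range r', X ^ (e * i)) * (∑ i ∈ Finset.range n, X ^ (q * i))

theorem ttH_coeff_zero (M a s r r' e n q : ℕ) (hM : 1 ≤ M) (ha : 1 ≤ a) :
    (ttH ℤ M a s r r' e n q).coeff 0 = 1 := by
  unfold ttH
  rw [coeff_add, coeff_sub, mul_coeff_zero, mul_coeff_zero, mul_coeff_zero, mul_coeff_zero,
    coeff_X_pow, coeff_X_pow, if_neg (by omega), if_neg (by omega), coeff_one_zero]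
  ring

theorem ttH_toLaurent (M a s r r' e n q : ℕ) :
    toLaurent (ttH ℤ M a s r r' e n q) =
      1 - T (M : ℤ) + T (a : ℤ) * (1 - T 1) * (∑ i ∈ Finset.range s, T ((r * i : ℕ) : ℤ)) *
          (∑ i ∈ Finset.range r', T ((e * i : ℕ) : ℤ)) *
          (∑ i ∈ Finset.range n, T ((q * i : ℕ) : ℤ)) := by
  unfold ttH
  simp only [map_add, map_sub, map_mul, map_sum, map_one, toLaurent_X_pow, toLaurent_X]

theorem ttH_map (M a s r r' e n q : ℕ) :
    (ttH ℤ M a s r r' e n q).map (Int.castRingHom ℂ) = ttH ℂ M a s r r' e n q := by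
  unfold ttH
  simp only [Polynomial.map_add, Polynomial.map_sub, Polynomial.map_mul, Polynomial.map_sum,
    Polynomial.map_one, Polynomial.map_pow, Polynomial.map_X]

theorem tt_cyc_map (M : Multiset ℕ) :
    ((M.map (fun N => cyclotomic N ℤ)).prod).map (Int.castRingHom ℂ) =
      (M.map (fun N => cyclotomic N ℂ)).prod := by
  rw [Polynomial.map_multiset_prod, Multiset.map_map]
  congr 1
  apply Multiset.map_congr rfl
  intro N _
  simp only [Function.comp_apply, map_cyclotomic]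

theorem cyc_general (m : ℕ) (Δ : ℤ[T;T⁻¹]) (d W a s r r' e n q : ℕ) (hd : 1 ≤ d) (hW : 1 ≤ W)
    (ha : 1 ≤ a) (hr' : 1 ≤ r') (hn : 1 ≤ n)
    (hWa : 1 ≤ s → W = 2 * a + 1 + (s - 1) * r + (r' - 1) * e + (n - 1) * q)
    (hΔ : (1 - T (d : ℤ)) * ((∑ i ∈ Finset.range (m + 1), (T (i : ℤ) : ℤ[T;T⁻¹])) * Δ) =
      1 - T (W : ℤ) + T (a : ℤ) * (1 - T 1) * (∑ i ∈ Finset.range s, T ((r * i : ℕ) : ℤ)) *
          (∑ i ∈ Finset.range r', T ((e * i : ℕ) : ℤ)) *
          (∑ i ∈ Finset.range n, T ((q * i : ℕ) : ℤ)))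
    (hc : IsCyclotomicProduct Δ) :
    ∃ M : Multiset ℕ, (∀ N ∈ M, 0 < N) ∧ ∀ φ : ℝ, ∃ c : ℂ, c ≠ 0 ∧
      cyP M φ * (Real.sin (d * φ) : ℝ) =
        c * ((Real.sin ((W : ℕ) * φ) +
          Real.sin φ * S s r φ * S r' (e : ℝ) φ * S n q φ : ℝ) : ℂ) := by
  obtain ⟨M, hM, hor⟩ := poly_of_cyc m Δ d hd (ttH ℤ W a s r r' e n q)
    (ttH_coeff_zero W a s r r' e n q hW ha) (by rw [hΔ, ttH_toLaurent]) hc
  refine ⟨M, hM, fun φ => ?_⟩
  have hE := eval_H W a s r r' e n q hr' hn hWa φ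
  have h1 := eval_one_sub d φ
  have hexp : Complex.exp (d * φ * Complex.I) ≠ 0 := Complex.exp_ne_zero _
  have hexp' : Complex.exp (W * φ * Complex.I) ≠ 0 := Complex.exp_ne_zero _
  have hL : (((M.map (fun N => cyclotomic N ℤ)).prod * (1 - X ^ d)).map
      (Int.castRingHom ℂ)).eval (Complex.exp (2 * φ * Complex.I)) =
      cyP M φ * (-2 * Complex.I * Complex.exp (d * φ * Complex.I) * (Real.sin (d * φ) : ℝ)) := by
    rw [Polynomial.map_mul, eval_mul, tt_cyc_map, ← h1]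
    simp only [cyP, Polynomial.map_sub, Polynomial.map_one, Polynomial.map_pow, Polynomial.map_X,
      eval_sub, eval_one, eval_pow, eval_X]
  have hR : ((ttH ℤ W a s r r' e n q).map (Int.castRingHom ℂ)).eval
      (Complex.exp (2 * φ * Complex.I)) =
      -2 * Complex.I * Complex.exp (W * φ * Complex.I) *
        ((Real.sin (W * φ) + Real.sin φ * S s r φ * S r' e φ * S n q φ : ℝ) : ℂ) := by
    rw [ttH_map, ttH]
    exact hE
  have hI : (-2 * Complex.I : ℂ) ≠ 0 := by simp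
  rcases hor with h | h
  · refine ⟨Complex.exp (W * φ * Complex.I) / Complex.exp (d * φ * Complex.I),
      div_ne_zero hexp' hexp, ?_⟩
    rw [h, hR] at hL
    rw [div_mul_eq_mul_div, eq_div_iff hexp]
    apply mul_left_cancel₀ hI
    linear_combination -hL
  · refine ⟨-(Complex.exp (W * φ * Complex.I) / Complex.exp (d * φ * Complex.I)),
      neg_ne_zero.2 (div_ne_zero hexp' hexp), ?_⟩
    rw [h, Polynomial.map_neg, eval_neg, hR] at hL
    rw [neg_mul, div_mul_eq_mul_div, eq_neg_iff_add_eq_zero, ← mul_left_inj' hexp, zero_mul,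
      add_mul, div_mul_cancel₀ _ hexp]
    apply mul_left_cancel₀ hI
    linear_combination -hL

theorem cyc_plus (m k r s q d : ℕ) (hr : 1 ≤ r) (hrm : r ≤ m) (hq : q = k * (m + 1) + 1)
    (hd : d = q + r * s) (hc : IsCyclotomicProduct (alexander (tt m q r s))) :
    ∃ M : Multiset ℕ, (∀ N ∈ M, 0 < N) ∧ ∀ φ : ℝ, ∃ c : ℂ, c ≠ 0 ∧
      cyP M φ * (Real.sin (d * φ) : ℝ) =
        c * ((Real.sin ((r * d + (m + 1 - r) * q : ℕ) * φ) +
          Real.sin φ * S s r φ * S r ((d - 1 : ℕ) : ℝ) φ * S (m + 1 - r) q φ : ℝ) : ℂ) := by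
  have hq1 : 1 ≤ q := by omega
  have hd1 : 1 ≤ d := by omega
  refine cyc_general m _ d (r * d + (m + 1 - r) * q) (q + (r - 1)) s r r (d - 1) (m + 1 - r) q
    hd1 ?_ (by omega) hr (by omega) ?_ (alex_plus m k r s q d hr hrm hq hd) hc
  · have := Nat.mul_pos hr hd1
    omega
  · intro hs
    obtain ⟨r, rfl⟩ : ∃ r', r = r' + 1 := ⟨r - 1, by omega⟩
    obtain ⟨s, rfl⟩ : ∃ s', s = s' + 1 := ⟨s - 1, by omega⟩
    obtain ⟨q, rfl⟩ : ∃ q', q = q' + 1 := ⟨q - 1, by omega⟩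
    obtain ⟨n, hn⟩ : ∃ n, m + 1 - (r + 1) = n + 1 := ⟨m + 1 - (r + 1) - 1, by omega⟩
    have h1 : d - 1 = q + (r + 1) * (s + 1) := by omega
    rw [hn, h1, hd]
    simp only [Nat.add_sub_cancel]
    ring

theorem cyc_minus (m k r s q d : ℕ) (hk : 1 ≤ k) (hr : 1 ≤ r) (hrm : r ≤ m)
    (hq : q + 1 = k * (m + 1)) (hd : d = q + r * s)
    (hc : IsCyclotomicProduct (alexander (tt m q r s))) :
    ∃ M : Multiset ℕ, (∀ N ∈ M, 0 < N) ∧ ∀ φ : ℝ, ∃ c : ℂ, c ≠ 0 ∧
      cyP M φ * (Real.sin (d * φ) : ℝ) =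
        c * ((Real.sin ((r * d + (m + 1 - r) * q : ℕ) * φ) +
          Real.sin φ * S s r φ * S r ((d + 1 : ℕ) : ℝ) φ * S (m + 1 - r) q φ : ℝ) : ℂ) := by
  have hq1 : 1 ≤ q := by
    have h1 : 1 * (m + 1) ≤ k * (m + 1) := Nat.mul_le_mul_right _ hk
    omega
  have hd1 : 1 ≤ d := by omega
  refine cyc_general m _ d (r * d + (m + 1 - r) * q) q s r r (d + 1) (m + 1 - r) q
    hd1 ?_ hq1 hr (by omega) ?_ (alex_minus m k r s q d hk hr hrm hq hd) hc
  · have := Nat.mul_pos hr hd1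
    omega
  · intro hs
    obtain ⟨r, rfl⟩ : ∃ r', r = r' + 1 := ⟨r - 1, by omega⟩
    obtain ⟨s, rfl⟩ : ∃ s', s = s' + 1 := ⟨s - 1, by omega⟩
    obtain ⟨n, hn⟩ : ∃ n, m + 1 - (r + 1) = n + 1 := ⟨m + 1 - (r + 1) - 1, by omega⟩
    rw [hn, hd]
    simp only [Nat.add_sub_cancel]
    ring

end Pool.Agent.Helper27.TT
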