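import Mathlib
import Pool.Agent.Helper27.TT.Defs

/-!
# TT-C4: a first zero which is a root of unity, and three conjugates

`cyP M φ = 0` iff `exp (2 φ I)` is a primitive `N`-th root of unity for some `N ∈ M` (`Polynomial.eval_multiset_prod`, `Multiset.prod_eq_zero_iff`,
`isRoot_cyclotomic_iff`, `N ≠ 0` as a complex number).
* `root_exists`: intermediate value theorem for `f` on `[a, b]`: `f θ = 0`, `a ≤ θ ≤ b`; so `cyP M θ = 0` and `exp (2 θ I)` is a primitive `N`-th root,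
  `= exp (2 π I (i / N))` with `i < N` prime to `N` (`Complex.isPrimitiveRoot_iff`), so `θ = π i / N + π l`, and `0 < θ < π` gives `l = 0`, `i ≥ 1`
  (`Complex.exp_eq_exp_iff_exists_int`).  So `π / N ≤ θ ≤ b`.
* conjugates: `exp (2 (π/N) I)` is primitive (`Complex.isPrimitiveRoot_exp`), so `cyP M (π / N) = 0`, `f (π / N) = 0` and `a < π / N` by `h3`.
  `ζ = exp (2 π I / N)`.  `4 ∣ N`: `exp (2 (π/2 + π/N) I) = - ζ = ζ^(1 + N/2)`, `1 + N/2` is prime to `N` (`IsPrimitiveRoot.pow_of_coprime`).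
  `N` odd: `exp (2 (π/2 + π/(2N)) I) = exp (π I + π I / N) = ζ^((N + 1)/2)`.  `N % 4 = 2`: `exp (2 (π/2 + 2π/N) I) = - ζ² = ζ^(2 + N/2)`.
-/

set_option autoImplicit false

namespace Pool.Agent.Helper27.TT

open Polynomial

theorem cyP_eq_zero (M : Multiset ℕ) (hM : ∀ N ∈ M, 0 < N) (φ : ℝ) (h : cyP M φ = 0) :
    ∃ N ∈ M, IsPrimitiveRoot (Complex.exp (2 * φ * Complex.I)) N := by
  unfold cyP at h
  rw [Polynomial.eval_multiset_prod, Multiset.prod_eq_zero_iff, Multiset.map_map,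
    Multiset.mem_map] at h
  obtain ⟨N, hN, h0⟩ := h
  refine ⟨N, hN, ?_⟩
  have hN0 : (N : ℂ) ≠ 0 := by exact_mod_cast (hM N hN).ne'
  have : NeZero (N : ℂ) := ⟨hN0⟩
  exact isRoot_cyclotomic_iff.1 h0

theorem cyP_of_primitive (M : Multiset ℕ) (N : ℕ) (hN : N ∈ M) (hN0 : 0 < N) (φ : ℝ)
    (h : IsPrimitiveRoot (Complex.exp (2 * φ * Complex.I)) N) : cyP M φ = 0 := by
  unfold cyP
  rw [Polynomial.eval_multiset_prod, Multiset.prod_eq_zero_iff, Multiset.map_map,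
    Multiset.mem_map]
  refine ⟨N, hN, ?_⟩
  have hN0' : (N : ℂ) ≠ 0 := by exact_mod_cast hN0.ne'
  have : NeZero (N : ℂ) := ⟨hN0'⟩
  exact isRoot_cyclotomic_iff.2 h

/-- A primitive root of unity `exp (2 θ I)` with `0 < θ < π` has `π / N ≤ θ`. -/
theorem le_of_primitive (N : ℕ) (hN : 0 < N) (θ : ℝ) (h0 : 0 < θ) (h1 : θ < Real.pi)
    (h : IsPrimitiveRoot (Complex.exp (2 * θ * Complex.I)) N) : Real.pi / N ≤ θ := by
  have hpow := h.pow_eq_one
  rw [← Complex.exp_nat_mul, Complex.exp_eq_one_iff] at hpow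
  obtain ⟨n, hn⟩ := hpow
  have hI : (N : ℂ) * (2 * θ) = n * (2 * Real.pi) := by
    have : (N : ℂ) * (2 * θ) * Complex.I = n * (2 * Real.pi) * Complex.I := by
      rw [← mul_assoc] at hn
      rw [hn]; ring
    exact mul_right_cancel₀ Complex.I_ne_zero this
  have hR : (N : ℝ) * (2 * θ) = n * (2 * Real.pi) := by exact_mod_cast hI
  have hNr : (0 : ℝ) < N := by exact_mod_cast hN
  have hpi := Real.pi_pos
  have hn1 : 1 ≤ n := by
    by_contra hcon
    have hn0 : n ≤ 0 := by omega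
    have : (n : ℝ) ≤ 0 := by exact_mod_cast hn0
    have h2 : (0 : ℝ) < N * (2 * θ) := by positivity
    nlinarith
  have hn1' : (1 : ℝ) ≤ n := by exact_mod_cast hn1
  rw [div_le_iff₀ hNr]
  nlinarith

theorem prim_base (N : ℕ) (hN : 0 < N) :
    IsPrimitiveRoot (Complex.exp (2 * ((Real.pi / N : ℝ) : ℂ) * Complex.I)) N := by
  have := Complex.isPrimitiveRoot_exp N hN.ne'
  convert this using 2
  push_cast
  ring

theorem engine (M : Multiset ℕ) (hM : ∀ N ∈ M, 0 < N) (f : ℝ → ℝ) (hf : Continuous f)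
    (a b : ℝ) (ha : 0 < a) (hab : a < b) (hb : b < Real.pi)
    (h1 : ∀ φ, cyP M φ = 0 → f φ = 0) (h2 : ∀ φ, 0 < φ → φ ≤ b → f φ = 0 → cyP M φ = 0)
    (h3 : ∀ φ, 0 < φ → φ ≤ a → 0 < f φ) (h4 : f b ≤ 0) :
    ∃ N : ℕ, 0 < N ∧ a < Real.pi / N ∧ Real.pi / N ≤ b ∧ f (Real.pi / N) = 0 ∧
      (4 ∣ N → f (Real.pi / 2 + Real.pi / N) = 0) ∧
      (N % 2 = 1 → f (Real.pi / 2 + Real.pi / N / 2) = 0) ∧
      (N % 4 = 2 → f (Real.pi / 2 + 2 * (Real.pi / N)) = 0) := by
  have hpi := Real.pi_pos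
  obtain ⟨θ, hθ, hfθ⟩ : ∃ θ ∈ Set.Icc a b, f θ = 0 := by
    have := intermediate_value_Icc' hab.le (f := f) hf.continuousOn
    have hz : (0 : ℝ) ∈ Set.Icc (f b) (f a) := ⟨h4, (h3 a ha le_rfl).le⟩
    obtain ⟨θ, hθ, h⟩ := this hz
    exact ⟨θ, hθ, h⟩
  have hθ0 : 0 < θ := lt_of_lt_of_le ha hθ.1
  have hθp : θ < Real.pi := lt_of_le_of_lt hθ.2 hb
  obtain ⟨N, hNM, hprim⟩ := cyP_eq_zero M hM θ (h2 θ hθ0 hθ.2 hfθ)
  have hN := hM N hNM
  have hNr : (0 : ℝ) < N := by exact_mod_cast hN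
  have hNc : (N : ℂ) ≠ 0 := by exact_mod_cast hN.ne'
  have hle := le_of_primitive N hN θ hθ0 hθp hprim
  have hz : IsPrimitiveRoot (Complex.exp (2 * ((Real.pi / N : ℝ) : ℂ) * Complex.I)) N :=
    prim_base N hN
  have hf0 : f (Real.pi / N) = 0 := h1 _ (cyP_of_primitive M N hNM hN _ hz)
  have key : ∀ (k : ℕ) (φ : ℝ), k.Coprime N →
      Complex.exp (2 * (φ : ℂ) * Complex.I) =
        Complex.exp (2 * ((Real.pi / N : ℝ) : ℂ) * Complex.I) ^ k → f φ = 0 := by
    intro k φ hk he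
    apply h1 _ (cyP_of_primitive M N hNM hN _ ?_)
    rw [he]
    exact hz.pow_of_coprime k hk
  refine ⟨N, hN, ?_, hle.trans hθ.2, hf0, ?_, ?_, ?_⟩
  · by_contra hcon
    have := h3 (Real.pi / N) (by positivity) (not_lt.1 hcon)
    rw [hf0] at this
    exact lt_irrefl _ this
  · rintro ⟨c, rfl⟩
    have hc : 0 < c := by omega
    apply key (1 + 2 * c)
    · have h1 : Nat.Coprime (1 + 2 * c) 2 := by
        rw [Nat.coprime_two_right]
        exact ⟨c, by ring⟩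
      have h2 : Nat.Coprime (1 + 2 * c) c := by
        simp
      have h4 : Nat.Coprime (1 + 2 * c) 4 := by
        have := h1.pow_right 2
        norm_num at this
        exact this
      exact h4.mul_right h2
    · rw [← Complex.exp_nat_mul]
      have hcc : (c : ℂ) ≠ 0 := by exact_mod_cast hc.ne'
      congr 1
      push_cast
      field_simp
      ring
  · intro hodd
    obtain ⟨c, rfl⟩ : ∃ c, N = 2 * c + 1 := ⟨N / 2, by omega⟩
    apply key (c + 1)
    · have : Nat.Coprime (c + 1) (2 * (c + 1) - 1) := by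
        rw [Nat.coprime_iff_gcd_eq_one]
        have hd1 := Nat.gcd_dvd_left (c + 1) (2 * (c + 1) - 1)
        have hd2 := Nat.gcd_dvd_right (c + 1) (2 * (c + 1) - 1)
        have hd3 : Nat.gcd (c + 1) (2 * (c + 1) - 1) ∣ 2 * (c + 1) := hd1.mul_left 2
        have := (Nat.dvd_sub hd3 hd2)
        have he : 2 * (c + 1) - (2 * (c + 1) - 1) = 1 := by omega
        rw [he] at this
        exact Nat.dvd_one.1 this
      have he : 2 * (c + 1) - 1 = 2 * c + 1 := by omega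
      rwa [he] at this
    · rw [← Complex.exp_nat_mul]
      have hcc : ((2 * c + 1 : ℕ) : ℂ) ≠ 0 := hNc
      congr 1
      push_cast at hcc ⊢
      field_simp
      ring
  · intro h42
    obtain ⟨c, rfl⟩ : ∃ c, N = 4 * c + 2 := ⟨N / 4, by omega⟩
    apply key (2 * c + 3)
    · rw [Nat.coprime_iff_gcd_eq_one]
      have hd1 := Nat.gcd_dvd_left (2 * c + 3) (4 * c + 2)
      have hd2 := Nat.gcd_dvd_right (2 * c + 3) (4 * c + 2)
      have hd3 : Nat.gcd (2 * c + 3) (4 * c + 2) ∣ 2 * (2 * c + 3) := hd1.mul_left 2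
      have h4 := (Nat.dvd_sub hd3 hd2)
      have he : 2 * (2 * c + 3) - (4 * c + 2) = 4 := by omega
      rw [he] at h4
      have hodd : Odd (Nat.gcd (2 * c + 3) (4 * c + 2)) :=
        Odd.of_dvd_nat ⟨c + 1, by ring⟩ hd1
      have hcop : Nat.Coprime (Nat.gcd (2 * c + 3) (4 * c + 2)) 4 := by
        have h2 : Nat.Coprime (Nat.gcd (2 * c + 3) (4 * c + 2)) 2 :=
          Nat.coprime_two_right.2 hodd
        have := h2.pow_right 2
        norm_num at this
        exact this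
      exact Nat.Coprime.eq_one_of_dvd hcop h4
    · rw [← Complex.exp_nat_mul]
      have hcc : ((4 * c + 2 : ℕ) : ℂ) ≠ 0 := hNc
      have h1 : Complex.exp (((2 * c + 3 : ℕ) : ℂ) *
          (2 * ((Real.pi / ((4 * c + 2 : ℕ) : ℝ) : ℝ) : ℂ) * Complex.I)) =
          Complex.exp (2 * ((Real.pi / 2 + 2 * (Real.pi / ((4 * c + 2 : ℕ) : ℝ)) : ℝ) : ℂ) *
            Complex.I) := by
        congr 1
        push_cast at hcc ⊢
        have hx : (4 * (c : ℂ) + 2) * (4 * (c : ℂ) + 2)⁻¹ = 1 := mul_inv_cancel₀ hcc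
        rw [div_eq_mul_inv (Real.pi : ℂ) (4 * (c : ℂ) + 2)]
        linear_combination (Real.pi : ℂ) * Complex.I * hx
      exact h1.symm

end Pool.Agent.Helper27.TT
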