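import Mathlib
import Pool.Agent.Helper27.TT.Defs
import Pool.Agent.Helper62.OB.Iter

/-!
# TT-D1: the torus knots among the twisted torus knots `T(m + 1, q; m, s)`

`D = rn m 0 m`, `F = rn m 0 (m - 1) ^ m`, `C = up m m = σ_0 ⋯ σ_{m-1}`.
* `up_conj`: induction on `n`: `up m (n+1) = up m n * σ_n`, `rn m 0 (n+1) = σ_n * rn m 0 n`; if `g (up m n) g⁻¹ = rn m 0 n` with `g` a product of the `σ_i`, `i + 1 < n`
  (they commute with `σ_n`), then `(rn m 0 n)⁻¹ g` does it for `n + 1`: `g (up m n σ_n) g⁻¹ = rn m 0 n σ_n`, and conjugating by `(rn m 0 n)⁻¹` gives `σ_n rn m 0 n`.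
  (`sg_comm` for the commutation; `rn m 0 n` is a product of `σ_i`, `i < n`.)
* `pow_up`: `D ^ m = C * F`: `braidalg_pow_aux m m` with `k = m` (`rn m j 1 = σ_j`).
* `tt_conj`: `F = C⁻¹ D^m`, so `F^(s+1) D^(k(m+1)+1) = F^s C⁻¹ D^((k+1)(m+1))`; `D^(m+1)` is central (`central`); conjugate by `g` of `up_conj m m`
  (`g` commutes with `F`: `F` is central in the subgroup generated by `σ_i`, `i + 1 < m`: transport `central (m - 1)` by `addStrand (m - 1)`, or prove the
  commutation of `sg m i`, `i + 1 < m`, with `rn m 0 (m - 1) ^ m` as in `braidalg_central_sg`): `F^s D⁻¹ D^((k+1)(m+1)) = F^s D^(k(m+1)+m)`.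
* `torus_plus`: `tt_conj` with `s = 0`.
* `torus_minus`: `tt_conj` with `k = 0`: `tt m m m s` is conjugate to `F^(s+1) D`, `D = σ_{m-1} rn m 0 (m-1)`, conjugate to `rn m 0 (m-1)^(m (s+1) + 1) σ_{m-1}`
  `= addStrand (m-1) (rn (m-1) 0 (m-1) ^ (m (s+1) + 1)) * sigma (last)`: `MarkovMove.stabPos`; so the closure is `T(m, m (s+1) + 1)`.
-/

set_option autoImplicit false

namespace Pool.Agent.Helper27.TT

open Pool.Agent.Helper62.OB

/-- `σ_0 σ_1 ⋯ σ_{n-1}` -/
def up (m : ℕ) : ℕ → BraidGroup m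
  | 0 => 1
  | n + 1 => up m n * sg m n

theorem d1_closure_mono {m a b : ℕ} (h : a ≤ b) {x : BraidGroup m}
    (hx : x ∈ Subgroup.closure {x : BraidGroup m | ∃ i, i + 1 < a ∧ x = sg m i}) :
    x ∈ Subgroup.closure {x : BraidGroup m | ∃ i, i + 1 < b ∧ x = sg m i} := by
  refine Subgroup.closure_mono ?_ hx
  rintro y ⟨i, hi, rfl⟩
  exact ⟨i, by omega, rfl⟩

theorem d1_rn_mem (m n b : ℕ) (h : n < b) :
    rn m 0 n ∈ Subgroup.closure {x : BraidGroup m | ∃ i, i + 1 < b ∧ x = sg m i} := by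
  induction n with
  | zero => exact Subgroup.one_mem _
  | succ n ih =>
    rw [braidalg_rn_succ, zero_add]
    exact Subgroup.mul_mem _ (Subgroup.subset_closure ⟨n, h, rfl⟩) (ih (by omega))

theorem d1_comm_sg (m n : ℕ) {g : BraidGroup m}
    (hg : g ∈ Subgroup.closure {x : BraidGroup m | ∃ i, i + 1 < n ∧ x = sg m i}) :
    Commute g (sg m n) := by
  induction hg using Subgroup.closure_induction with
  | mem y hy =>
    obtain ⟨i, hi, rfl⟩ := hy
    exact sg_comm m i n (Or.inl (by omega))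
  | one => exact Commute.one_left _
  | mul y z _ _ hy hz => exact hy.mul_left hz
  | inv y _ hy => exact hy.inv_left

theorem up_conj (m n : ℕ) (hn : n ≤ m) :
    ∃ g ∈ Subgroup.closure {x : BraidGroup m | ∃ i, i + 1 < n ∧ x = sg m i},
      g * up m n * g⁻¹ = rn m 0 n := by
  induction n with
  | zero => exact ⟨1, Subgroup.one_mem _, by simp [up, rn]⟩
  | succ n ih =>
    obtain ⟨g, hg, he⟩ := ih (by omega)
    have hc := d1_comm_sg m n hg
    refine ⟨(rn m 0 n)⁻¹ * g, Subgroup.mul_mem _ (Subgroup.inv_mem _ (d1_rn_mem m n (n + 1) (by omega)))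
      (d1_closure_mono (Nat.le_succ n) hg), ?_⟩
    have h1 : up m (n + 1) = up m n * sg m n := rfl
    rw [h1, braidalg_rn_succ, zero_add]
    calc (rn m 0 n)⁻¹ * g * (up m n * sg m n) * ((rn m 0 n)⁻¹ * g)⁻¹
        = (rn m 0 n)⁻¹ * (g * up m n * g⁻¹) * (g * sg m n) * g⁻¹ * rn m 0 n := by group
      _ = (rn m 0 n)⁻¹ * rn m 0 n * (sg m n * g) * g⁻¹ * rn m 0 n := by rw [he, hc.eq]
      _ = sg m n * rn m 0 n := by group

theorem d1_up_eq (m n : ℕ) : up m n = ((List.range n).map fun j => sg m j).prod := by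
  induction n with
  | zero => rfl
  | succ n ih =>
    rw [List.range_succ, List.map_append, List.prod_append, ← ih]
    simp [up]

theorem pow_up (m : ℕ) (hm : 1 ≤ m) : rn m 0 m ^ m = up m m * rn m 0 (m - 1) ^ m := by
  rw [braidalg_pow_aux m m hm (by omega) m le_rfl, d1_up_eq]
  congr 2
  apply List.map_congr_left
  intro j _
  rw [show m - m + j = j by omega, show m + 1 - m = 1 by omega, braidalg_rn_one]

theorem d1_addStrand_sg (n i : ℕ) (h : i < n) : addStrand n (sg n i) = sg (n + 1) i := by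
  rw [braidalg_sg_lt n i h, braidalg_sg_lt (n + 1) i (by omega)]
  unfold addStrand
  rw [braidLift_sigma]
  rfl

theorem d1_addStrand_rn (n k : ℕ) (h : k ≤ n) : addStrand n (rn n 0 k) = rn (n + 1) 0 k := by
  induction k with
  | zero => exact map_one _
  | succ k ih =>
    rw [braidalg_rn_succ, map_mul, ih (by omega), zero_add, d1_addStrand_sg n k (by omega),
      braidalg_rn_succ, zero_add]

theorem d1_comm_F (m : ℕ) (hm : 1 ≤ m) {g : BraidGroup m}
    (hg : g ∈ Subgroup.closure {x : BraidGroup m | ∃ i, i + 1 < m ∧ x = sg m i}) :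
    Commute g (rn m 0 (m - 1) ^ m) := by
  obtain ⟨n, rfl⟩ : ∃ n, m = n + 1 := ⟨m - 1, by omega⟩
  rw [Nat.add_sub_cancel]
  induction hg using Subgroup.closure_induction with
  | mem y hy =>
    obtain ⟨i, hi, rfl⟩ := hy
    have h1 := braidalg_central_sg n i (by omega)
    have h2 := congrArg (addStrand n) h1
    rw [map_mul, map_mul, map_pow, d1_addStrand_rn n n le_rfl, d1_addStrand_sg n i (by omega)] at h2
    exact h2.symm
  | one => exact Commute.one_left _
  | mul y z _ _ hy hz => exact hy.mul_left hz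
  | inv y _ hy => exact hy.inv_left

theorem tt_conj (m k s : ℕ) (hm : 1 ≤ m) : ∃ g : BraidGroup m,
    g * tt m (k * (m + 1) + 1) m (s + 1) * g⁻¹ = tt m (k * (m + 1) + m) m s := by
  obtain ⟨g, hg, he⟩ := up_conj m m le_rfl
  have hF := d1_comm_F m hm hg
  have hpow := pow_up m hm
  refine ⟨g, ?_⟩
  unfold tt
  set D := rn m 0 m with hD
  set F := rn m 0 (m - 1) ^ m with hFdef
  set C := up m m with hC
  have hFC : F = C⁻¹ * D ^ m := by
    rw [hpow]
    group
  have hz : ∀ x : BraidGroup m, Commute (D ^ ((k + 1) * (m + 1))) x := by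
    intro x
    have h1 : Commute (D ^ (m + 1)) x := central m x
    have h2 := h1.pow_left (k + 1)
    rwa [← pow_mul, mul_comm (m + 1) (k + 1)] at h2
  have e1 : rn m 0 (m - 1) ^ (m * (s + 1)) * D ^ (k * (m + 1) + 1) =
      F ^ s * C⁻¹ * D ^ ((k + 1) * (m + 1)) := by
    rw [pow_mul, ← hFdef, pow_succ]
    have h3 : D ^ ((k + 1) * (m + 1)) = D ^ m * D ^ (k * (m + 1) + 1) := by
      rw [← pow_add]
      congr 1
      ring
    rw [h3]
    nth_rewrite 2 [hFC]
    simp only [mul_assoc]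
  have e2 : rn m 0 (m - 1) ^ (m * s) * D ^ (k * (m + 1) + m) =
      F ^ s * D⁻¹ * D ^ ((k + 1) * (m + 1)) := by
    rw [pow_mul, ← hFdef]
    have h3 : D ^ ((k + 1) * (m + 1)) = D * D ^ (k * (m + 1) + m) := by
      rw [← pow_succ']
      congr 1
      ring
    rw [h3]
    group
  rw [e1, e2]
  have h4 : g * F ^ s = F ^ s * g := (hF.pow_right s).eq
  have h5 : g * C⁻¹ * g⁻¹ = D⁻¹ := by
    rw [← he]
    group
  have h6 := (hz g⁻¹).eq
  calc g * (F ^ s * C⁻¹ * D ^ ((k + 1) * (m + 1))) * g⁻¹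
      = (g * F ^ s) * C⁻¹ * (D ^ ((k + 1) * (m + 1)) * g⁻¹) := by simp only [mul_assoc]
    _ = F ^ s * (g * C⁻¹ * g⁻¹) * D ^ ((k + 1) * (m + 1)) := by
      rw [h4, h6]
      simp only [mul_assoc]
    _ = F ^ s * D⁻¹ * D ^ ((k + 1) * (m + 1)) := by rw [h5]

theorem d1_torus_conj {m : ℕ} {a b g : BraidGroup m} (h : g * a * g⁻¹ = b)
    (hb : IsTorusKnot ⟨m, b⟩) : IsTorusKnot ⟨m, a⟩ := by
  obtain ⟨n, t, hc, hs⟩ := hb
  refine ⟨n, t, hc, Relation.EqvGen.trans _ _ _ ?_ hs⟩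
  subst h
  exact Relation.EqvGen.rel _ _ (MarkovMove.conj m a g)

theorem d1_torus_conj' {m : ℕ} {a b g : BraidGroup m} (h : g * a * g⁻¹ = b)
    (hb : IsTorusKnot ⟨m, a⟩) : IsTorusKnot ⟨m, b⟩ := by
  refine d1_torus_conj (g := g⁻¹) (b := a) ?_ hb
  subst h
  group

theorem torus_plus (m k : ℕ) (hm : 1 ≤ m) : IsTorusKnot ⟨m, tt m (k * (m + 1) + 1) m 1⟩ := by
  obtain ⟨g, hg⟩ := tt_conj m k 0 hm
  refine d1_torus_conj hg ?_
  refine ⟨m, k * (m + 1) + m, ?_, ?_⟩
  · rw [add_comm (k * (m + 1)) m, Nat.coprime_add_mul_right_right]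
    rw [Nat.coprime_comm]
    simp
  · unfold tt
    rw [mul_zero, pow_zero, one_mul]
    exact Relation.EqvGen.refl _

theorem torus_minus (m s : ℕ) (hm : 1 ≤ m) : IsTorusKnot ⟨m, tt m m m s⟩ := by
  obtain ⟨g, hg⟩ := tt_conj m 0 s hm
  rw [zero_mul, zero_add, zero_add] at hg
  refine d1_torus_conj' hg ?_
  obtain ⟨n, rfl⟩ : ∃ n, m = n + 1 := ⟨m - 1, by omega⟩
  have h1 : rn (n + 1) 0 n * tt (n + 1) 1 (n + 1) (s + 1) * (rn (n + 1) 0 n)⁻¹ =
      addStrand n (rn n 0 n ^ ((n + 1) * (s + 1) + 1)) * sigma (Fin.last n) := by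
    have h2 : (sigma (Fin.last n) : BraidGroup (n + 1)) = sg (n + 1) n := by
      rw [braidalg_sg_lt (n + 1) n (by omega)]
      rfl
    unfold tt
    rw [h2, map_pow, d1_addStrand_rn n n le_rfl, Nat.add_sub_cancel, pow_one, braidalg_rn_succ,
      zero_add, pow_succ']
    group
  refine d1_torus_conj h1 ?_
  refine ⟨n, (n + 1) * (s + 1) + 1, ?_, ?_⟩
  · rw [Nat.coprime_mul_left_add_right]
    exact Nat.coprime_one_right _
  · exact Relation.EqvGen.symm _ _ (Relation.EqvGen.rel _ _ (MarkovMove.stabPos n _))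

end Pool.Agent.Helper27.TT
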