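import Mathlib
import Pool.Agent.Helper27.TT.Defs
import Pool.Agent.Helper27.TT.C2
import Pool.Agent.Helper27.TT.C2

/-!
# TT-E0: the trigonometric function of `T(m + 1, q; m, s)`

Use `sin_S` (file `C2`): `sin (m φ) S s m φ = sin (s m φ)`, `sin (A φ) S m A φ = sin (m A φ)`; `S 1 q φ = cos 0 = 1`.
`EE_plus` (`s = t + 1`, `a = A φ`, `α = (m + 1) A φ`, `X = m (t + 1) φ`, `h = m φ`):
`sin (α + h + φ - X) sin h sin a + sin φ sin X sin (α - a) = sin X sin α sin (a + φ) - sin (X - h) sin (α + h + φ) sin a`;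
proof: with `β = α + h + φ`: `sin (β - X) sin h + sin (X - h) sin β = sin X sin (β - h)` and `sin (α + φ) sin a + sin φ sin (α - a) = sin α sin (a + φ)`
(expand everything with `sin_add`, `cos_add`, ... and use `linear_combination` with `sin² + cos² = 1`, or product to sum).
`EE_minus` (`A = d`, `b = (d + 1) φ`, `α = (m + 1) d φ`, `X = m s φ`):
`sin (α - X) sin h sin b + sin φ sin X sin (α + h + φ - b) = sin (X + h) sin α sin b - sin X sin (α + h + φ) sin (b - φ)`;
proof: `sin (X + h) sin α - sin h sin (α - X) = sin X sin (α + h)` and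
`sin (α + h) sin b - sin (α + h + φ) sin (b - φ) = sin φ sin (α + h + φ - b)`.
-/

set_option autoImplicit false

namespace Pool.Agent.Helper27.TT

private theorem S_one (y φ : ℝ) : S 1 y φ = 1 := by
  simp [S]

private theorem id_one (β X h : ℝ) :
    Real.sin (β - X) * Real.sin h + Real.sin (X - h) * Real.sin β =
      Real.sin X * Real.sin (β - h) := by
  rw [Real.sin_sub, Real.sin_sub, Real.sin_sub]
  ring

private theorem id_two (α φ a : ℝ) :
    Real.sin (α + φ) * Real.sin a + Real.sin φ * Real.sin (α - a) =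
      Real.sin α * Real.sin (a + φ) := by
  rw [Real.sin_add, Real.sin_sub, Real.sin_add]
  ring

theorem EE_plus (m k t q d A : ℕ) (hm : 1 ≤ m) (hq : q = k * (m + 1) + 1)
    (hd : d = q + m * (t + 1)) (hA : A = k * (m + 1) + m * (t + 1)) (φ : ℝ) :
    (Real.sin ((m * d + (m + 1 - m) * q : ℕ) * φ) +
      Real.sin φ * S (t + 1) m φ * S m ((d - 1 : ℕ) : ℝ) φ * S (m + 1 - m) q φ) *
        (Real.sin (m * φ) * Real.sin (A * φ)) = EE m t A φ := by
  have hd1 : d = A + 1 := by omega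
  have hqA : (q : ℝ) = A + 1 - m * (t + 1) := by
    have : q + m * (t + 1) = A + 1 := by omega
    have h2 : ((q + m * (t + 1) : ℕ) : ℝ) = ((A + 1 : ℕ) : ℝ) := by rw [this]
    push_cast at h2
    linarith only [h2]
  have h1 : m + 1 - m = 1 := by omega
  have hdm : d - 1 = A := by omega
  rw [h1, hdm, S_one]
  have e1 := sin_S (t + 1) (m : ℝ) φ
  have e2 := sin_S m (A : ℝ) φ
  have hM : ((m * d + 1 * q : ℕ) : ℝ) * φ =
      ((m + 1) * A * φ + m * φ + φ) - m * (t + 1) * φ := by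
    push_cast
    rw [hqA, hd1]
    push_cast
    ring
  have e3 := id_one ((m + 1) * A * φ + m * φ + φ) (m * (t + 1) * φ) (m * φ)
  have e4 := id_two ((m + 1) * A * φ) φ (A * φ)
  have f1 : ((t + 1 : ℕ) : ℝ) * m * φ = m * (t + 1) * φ := by
    push_cast
    ring
  have f2 : ((m : ℕ) : ℝ) * A * φ = (m + 1) * A * φ - A * φ := by ring
  have f3 : (m : ℝ) * (t + 1) * φ - m * φ = m * t * φ := by ring
  have f4 : ((m : ℝ) + 1) * A * φ + m * φ + φ - m * φ = (m + 1) * A * φ + φ := by ring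
  have f5 : ((m : ℝ) + 1) * A * φ + m * φ + φ = (m + 1) * (A + 1) * φ := by ring
  have f6 : (A : ℝ) * φ + φ = (A + 1) * φ := by ring
  rw [f1] at e1
  rw [f2] at e2
  rw [f3, f4, f5] at e3
  rw [f6] at e4
  rw [hM, f5]
  unfold EE
  linear_combination Real.sin φ * S m (A : ℝ) φ * Real.sin (A * φ) * e1 +
    Real.sin φ * Real.sin (m * (t + 1) * φ) * e2 + Real.sin (A * φ) * e3 +
    Real.sin (m * (t + 1) * φ) * e4

theorem EE_minus (m k s q d : ℕ) (hm : 1 ≤ m) (hk : 1 ≤ k) (hq : q + 1 = k * (m + 1))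
    (hd : d = q + m * s) (φ : ℝ) :
    (Real.sin ((m * d + (m + 1 - m) * q : ℕ) * φ) +
      Real.sin φ * S s m φ * S m ((d + 1 : ℕ) : ℝ) φ * S (m + 1 - m) q φ) *
        (Real.sin (m * φ) * Real.sin ((d + 1 : ℕ) * φ)) = EE m s d φ := by
  have hqA : (q : ℝ) = d - m * s := by
    rw [hd]
    push_cast
    ring
  have h1 : m + 1 - m = 1 := by omega
  rw [h1, S_one]
  have e1 := sin_S s (m : ℝ) φ
  have e2 := sin_S m ((d + 1 : ℕ) : ℝ) φ
  have hM : ((m * d + 1 * q : ℕ) : ℝ) * φ = (m + 1) * d * φ - m * s * φ := by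
    push_cast
    rw [hqA]
    ring
  have f1 : ((s : ℕ) : ℝ) * m * φ = m * s * φ := by ring
  rw [f1] at e1
  rw [hM]
  have f2 : ((m : ℕ) : ℝ) * ((d + 1 : ℕ) : ℝ) * φ =
      (m + 1) * (d + 1) * φ - (d + 1) * φ := by
    push_cast
    ring
  have f3 : (((d + 1 : ℕ) : ℕ) : ℝ) * φ = (d + 1) * φ := by
    push_cast
    ring
  rw [f2, f3] at e2
  rw [f3]
  -- `sin (X + h) sin α - sin h sin (α - X) = sin X sin (α + h)`
  have e3 : Real.sin (m * (s + 1) * φ) * Real.sin ((m + 1) * d * φ) -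
      Real.sin (m * φ) * Real.sin ((m + 1) * d * φ - m * s * φ) =
      Real.sin (m * s * φ) * Real.sin ((m + 1) * d * φ + m * φ) := by
    have : (m : ℝ) * (s + 1) * φ = m * s * φ + m * φ := by ring
    rw [this, Real.sin_add, Real.sin_sub, Real.sin_add]
    ring
  -- `sin (α + h) sin b - sin (α + h + φ) sin (b - φ) = sin φ sin (α + h + φ - b)`
  have e4 : Real.sin ((m + 1) * d * φ + m * φ) * Real.sin ((d + 1) * φ) -
      Real.sin ((m + 1) * (d + 1) * φ) * Real.sin (d * φ) =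
      Real.sin φ * Real.sin ((m + 1) * (d + 1) * φ - (d + 1) * φ) := by
    have g1 : ((m : ℝ) + 1) * d * φ + m * φ = (m + 1) * (d + 1) * φ - φ := by ring
    have g2 : (d : ℝ) * φ = (d + 1) * φ - φ := by ring
    rw [g1, g2, Real.sin_sub, Real.sin_sub, Real.sin_sub]
    ring
  unfold EE
  linear_combination Real.sin φ * S m ((d + 1 : ℕ) : ℝ) φ * Real.sin ((d + 1) * φ) * e1 +
    Real.sin φ * Real.sin (m * s * φ) * e2 - Real.sin ((d + 1) * φ) * e3 -
    Real.sin (m * s * φ) * e4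

end Pool.Agent.Helper27.TT
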