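import Mathlib
import Pool.Agent.Helper27.TT.Defs

/-!
# TT-E1: the cases `4 ∣ N` and `N` odd

`hb` is the equation at the base angle.  All angles `φ, h, x, x - h, y, y + φ, e, e + h + φ` are in `(0, π / 3)` by `Win`
(`x ≤ y - h - φ`, `e + h + φ ≤ y + φ - h`, `3 (y + 2 φ) ≤ π`).
Case `4 ∣ N`:
* `r4_oe`: multiply `h` by `sin (y + φ)` and `hb` by `cos (y + φ)`: `sin (x - h) sin y (sin (e + h + φ) cos (y + φ) - cos (e + h + φ) sin (y + φ)) = 0`,
  i.e. `sin (e + h - y) = 0`, but `-π < e + h - y ≤ - h < 0`.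
* `r4_oo`: the same with `cos y`, `sin y`: `sin x sin (y + φ) (cos e sin y - sin e cos y) = 0`: `sin (y - e) = 0`, but `0 < y - e < π`.
* `r4_es`: `sin (e + h + φ) sin y (cos (x - h) sin (y + φ) - sin (x - h) cos (y + φ)) = 0`: `sin (y + φ - x + h) = 0`, but the angle is in `(0, π)`.
* `r4_eo`: `sin e sin (y + φ) (cos x sin y - sin x cos y) = 0`: `sin (y - x) = 0`.
Case `N` odd:
* `ro_oe`: both terms are `> 0` resp. `≥ 0`.  `ro_oo`: both terms of `h` are negative (`x - h > 0`).
* `ro_eo`: `cos (x/2) > cos (y/2)`, `cos (e/2) > cos ((e+h+φ)/2)`, `sin ((y+φ)/2) > sin ((x-h)/2)`, so the difference is `> 0`.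
* `ro_es`: `cos ((y+φ)/2) ≤ cos ((x-h)/2)`; `sin (x/2) cos (e/2) ≤ sin ((y-h-φ)/2) cos (e/2) < cos ((e+h+φ)/2) sin (y/2)`, the last because the difference is
  `cos ((y + e)/2) sin ((h + φ)/2) > 0` (product to sum).
-/

set_option autoImplicit false

namespace Pool.Agent.Helper27.TT

open Real

theorem r4_oe (φ h x y e : ℝ) (w : Win φ h x y e)
    (hb : sin x * sin e * sin (y + φ) = sin (x - h) * sin (e + h + φ) * sin y)
    (hc : sin x * sin e * cos (y + φ) = sin (x - h) * cos (e + h + φ) * sin y) : False := by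
  obtain ⟨hφ, hh, hx, hy, he, hey, hyu⟩ := w
  have hpi := Real.pi_pos
  have h1 : 0 < sin (x - h) := sin_pos_of_pos_of_lt_pi (by linarith) (by linarith)
  have h2 : 0 < sin y := sin_pos_of_pos_of_lt_pi (by linarith) (by linarith)
  have h3 : 0 < sin (y - e - h) := sin_pos_of_pos_of_lt_pi (by linarith) (by linarith)
  have h4 : sin (y - e - h) = sin (y + φ) * cos (e + h + φ) - cos (y + φ) * sin (e + h + φ) := by
    rw [← sin_sub]; congr 1; ring
  have h5 : sin (x - h) * sin y * sin (y - e - h) = 0 := by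
    rw [h4]
    linear_combination cos (y + φ) * hb - sin (y + φ) * hc
  have h6 : 0 < sin (x - h) * sin y * sin (y - e - h) := by positivity
  linarith

theorem r4_oo (φ h x y e : ℝ) (w : Win φ h x y e)
    (hb : sin x * sin e * sin (y + φ) = sin (x - h) * sin (e + h + φ) * sin y)
    (hc : sin x * cos e * sin (y + φ) = sin (x - h) * sin (e + h + φ) * cos y) : False := by
  obtain ⟨hφ, hh, hx, hy, he, hey, hyu⟩ := w
  have hpi := Real.pi_pos
  have h1 : 0 < sin x := sin_pos_of_pos_of_lt_pi (by linarith) (by linarith)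
  have h2 : 0 < sin (y + φ) := sin_pos_of_pos_of_lt_pi (by linarith) (by linarith)
  have h3 : 0 < sin (y - e) := sin_pos_of_pos_of_lt_pi (by linarith) (by linarith)
  have h4 : sin (y - e) = sin y * cos e - cos y * sin e := sin_sub y e
  have h5 : sin x * sin (y + φ) * sin (y - e) = 0 := by
    rw [h4]
    linear_combination sin y * hc - cos y * hb
  have h6 : 0 < sin x * sin (y + φ) * sin (y - e) := by positivity
  linarith

theorem r4_es (φ h x y e : ℝ) (w : Win φ h x y e)
    (hb : sin x * sin e * sin (y + φ) = sin (x - h) * sin (e + h + φ) * sin y)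
    (hc : sin x * sin e * cos (y + φ) = cos (x - h) * sin (e + h + φ) * sin y) : False := by
  obtain ⟨hφ, hh, hx, hy, he, hey, hyu⟩ := w
  have hpi := Real.pi_pos
  have h1 : 0 < sin (e + h + φ) := sin_pos_of_pos_of_lt_pi (by linarith) (by linarith)
  have h2 : 0 < sin y := sin_pos_of_pos_of_lt_pi (by linarith) (by linarith)
  have h3 : 0 < sin (y + φ - (x - h)) := sin_pos_of_pos_of_lt_pi (by linarith) (by linarith)
  have h4 : sin (y + φ - (x - h)) = sin (y + φ) * cos (x - h) - cos (y + φ) * sin (x - h) :=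
    sin_sub (y + φ) (x - h)
  have h5 : sin (e + h + φ) * sin y * sin (y + φ - (x - h)) = 0 := by
    rw [h4]
    linear_combination cos (y + φ) * hb - sin (y + φ) * hc
  have h6 : 0 < sin (e + h + φ) * sin y * sin (y + φ - (x - h)) := by positivity
  linarith

theorem r4_eo (φ h x y e : ℝ) (w : Win φ h x y e)
    (hb : sin x * sin e * sin (y + φ) = sin (x - h) * sin (e + h + φ) * sin y)
    (hc : cos x * sin e * sin (y + φ) = sin (x - h) * sin (e + h + φ) * cos y) : False := by
  obtain ⟨hφ, hh, hx, hy, he, hey, hyu⟩ := w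
  have hpi := Real.pi_pos
  have h1 : 0 < sin e := sin_pos_of_pos_of_lt_pi (by linarith) (by linarith)
  have h2 : 0 < sin (y + φ) := sin_pos_of_pos_of_lt_pi (by linarith) (by linarith)
  have h3 : 0 < sin (y - x) := sin_pos_of_pos_of_lt_pi (by linarith) (by linarith)
  have h4 : sin (y - x) = sin y * cos x - cos y * sin x := sin_sub y x
  have h5 : sin e * sin (y + φ) * sin (y - x) = 0 := by
    rw [h4]
    linear_combination sin y * hc - cos y * hb
  have h6 : 0 < sin e * sin (y + φ) * sin (y - x) := by positivity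
  linarith

theorem ro_oe (φ h x y e : ℝ) (w : Win φ h x y e)
    (hc : sin (x / 2) * cos (e / 2) * cos ((y + φ) / 2) +
      sin ((x - h) / 2) * sin ((e + h + φ) / 2) * sin (y / 2) = 0) : False := by
  obtain ⟨hφ, hh, hx, hy, he, hey, hyu⟩ := w
  have hpi := Real.pi_pos
  have h1 : 0 < sin (x / 2) := sin_pos_of_pos_of_lt_pi (by linarith) (by linarith)
  have h2 : 0 < cos (e / 2) := cos_pos_of_mem_Ioo ⟨by linarith, by linarith⟩
  have h3 : 0 < cos ((y + φ) / 2) := cos_pos_of_mem_Ioo ⟨by linarith, by linarith⟩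
  have h4 : 0 < sin ((x - h) / 2) := sin_pos_of_pos_of_lt_pi (by linarith) (by linarith)
  have h5 : 0 < sin ((e + h + φ) / 2) := sin_pos_of_pos_of_lt_pi (by linarith) (by linarith)
  have h6 : 0 < sin (y / 2) := sin_pos_of_pos_of_lt_pi (by linarith) (by linarith)
  have h7 : 0 < sin (x / 2) * cos (e / 2) * cos ((y + φ) / 2) := by positivity
  have h8 : 0 < sin ((x - h) / 2) * sin ((e + h + φ) / 2) * sin (y / 2) := by positivity
  linarith

theorem ro_oo (φ h x y e : ℝ) (w : Win φ h x y e)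
    (hc : sin (x / 2) * sin (e / 2) * sin ((y + φ) / 2) +
      sin ((x - h) / 2) * cos ((e + h + φ) / 2) * cos (y / 2) = 0) : False := by
  obtain ⟨hφ, hh, hx, hy, he, hey, hyu⟩ := w
  have hpi := Real.pi_pos
  have h1 : 0 < sin (x / 2) := sin_pos_of_pos_of_lt_pi (by linarith) (by linarith)
  have h2 : 0 < sin (e / 2) := sin_pos_of_pos_of_lt_pi (by linarith) (by linarith)
  have h3 : 0 < sin ((y + φ) / 2) := sin_pos_of_pos_of_lt_pi (by linarith) (by linarith)
  have h4 : 0 < sin ((x - h) / 2) := sin_pos_of_pos_of_lt_pi (by linarith) (by linarith)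
  have h5 : 0 < cos ((e + h + φ) / 2) := cos_pos_of_mem_Ioo ⟨by linarith, by linarith⟩
  have h6 : 0 < cos (y / 2) := cos_pos_of_mem_Ioo ⟨by linarith, by linarith⟩
  have h7 : 0 < sin (x / 2) * sin (e / 2) * sin ((y + φ) / 2) := by positivity
  have h8 : 0 < sin ((x - h) / 2) * cos ((e + h + φ) / 2) * cos (y / 2) := by positivity
  linarith

theorem ro_es (φ h x y e : ℝ) (w : Win φ h x y e)
    (hc : sin (x / 2) * cos (e / 2) * cos ((y + φ) / 2) =
      cos ((x - h) / 2) * cos ((e + h + φ) / 2) * sin (y / 2)) : False := by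
  obtain ⟨hφ, hh, hx, hy, he, hey, hyu⟩ := w
  have hpi := Real.pi_pos
  have h1 : 0 < sin (x / 2) := sin_pos_of_pos_of_lt_pi (by linarith) (by linarith)
  have h2 : 0 < cos (e / 2) := cos_pos_of_mem_Ioo ⟨by linarith, by linarith⟩
  have h3 : 0 < cos ((y + φ) / 2) := cos_pos_of_mem_Ioo ⟨by linarith, by linarith⟩
  have h4 : cos ((y + φ) / 2) ≤ cos ((x - h) / 2) :=
    cos_le_cos_of_nonneg_of_le_pi (by linarith) (by linarith) (by linarith)
  have h5 : sin (x / 2) ≤ sin ((y - h - φ) / 2) :=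
    sin_le_sin_of_le_of_le_pi_div_two (by linarith) (by linarith) (by linarith)
  have h6 : cos ((e + h + φ) / 2) * sin (y / 2) - sin ((y - h - φ) / 2) * cos (e / 2) =
      cos ((y + e) / 2) * sin ((h + φ) / 2) := by
    have e1 : (e + h + φ) / 2 = e / 2 + (h + φ) / 2 := by ring
    have e2 : (y - h - φ) / 2 = y / 2 - (h + φ) / 2 := by ring
    have e3 : (y + e) / 2 = y / 2 + e / 2 := by ring
    rw [e1, e2, e3, cos_add, sin_sub, cos_add]
    ring
  have h7 : 0 < cos ((y + e) / 2) := cos_pos_of_mem_Ioo ⟨by linarith, by linarith⟩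
  have h8 : 0 < sin ((h + φ) / 2) := sin_pos_of_pos_of_lt_pi (by linarith) (by linarith)
  have h9 : 0 < cos ((y + e) / 2) * sin ((h + φ) / 2) := by positivity
  have h10 : sin (x / 2) * cos (e / 2) < cos ((e + h + φ) / 2) * sin (y / 2) := by
    have := mul_le_mul_of_nonneg_right h5 h2.le
    linarith
  have h11 : 0 < cos ((x - h) / 2) := lt_of_lt_of_le h3 h4
  have h12 : sin (x / 2) * cos (e / 2) * cos ((y + φ) / 2) ≤
      sin (x / 2) * cos (e / 2) * cos ((x - h) / 2) :=
    mul_le_mul_of_nonneg_left h4 (by positivity)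
  have h13 : sin (x / 2) * cos (e / 2) * cos ((x - h) / 2) <
      cos ((e + h + φ) / 2) * sin (y / 2) * cos ((x - h) / 2) :=
    mul_lt_mul_of_pos_right h10 h11
  have h14 : cos ((e + h + φ) / 2) * sin (y / 2) * cos ((x - h) / 2) =
      cos ((x - h) / 2) * cos ((e + h + φ) / 2) * sin (y / 2) := by ring
  linarith

theorem ro_eo (φ h x y e : ℝ) (w : Win φ h x y e)
    (hc : cos (x / 2) * cos (e / 2) * sin ((y + φ) / 2) =
      sin ((x - h) / 2) * cos ((e + h + φ) / 2) * cos (y / 2)) : False := by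
  obtain ⟨hφ, hh, hx, hy, he, hey, hyu⟩ := w
  have hpi := Real.pi_pos
  have h1 : 0 < cos (y / 2) := cos_pos_of_mem_Ioo ⟨by linarith, by linarith⟩
  have h2 : 0 < cos ((e + h + φ) / 2) := cos_pos_of_mem_Ioo ⟨by linarith, by linarith⟩
  have h3 : 0 < sin ((x - h) / 2) := sin_pos_of_pos_of_lt_pi (by linarith) (by linarith)
  have h4 : cos (y / 2) < cos (x / 2) :=
    cos_lt_cos_of_nonneg_of_le_pi (by linarith) (by linarith) (by linarith)
  have h5 : cos ((e + h + φ) / 2) < cos (e / 2) :=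
    cos_lt_cos_of_nonneg_of_le_pi (by linarith) (by linarith) (by linarith)
  have h6 : sin ((x - h) / 2) < sin ((y + φ) / 2) :=
    sin_lt_sin_of_lt_of_le_pi_div_two (by linarith) (by linarith) (by linarith)
  have h7 : cos (y / 2) * cos ((e + h + φ) / 2) < cos (x / 2) * cos (e / 2) :=
    mul_lt_mul'' h4 h5 h1.le h2.le
  have h8 : cos (y / 2) * cos ((e + h + φ) / 2) * sin ((x - h) / 2) <
      cos (x / 2) * cos (e / 2) * sin ((y + φ) / 2) :=
    mul_lt_mul'' h7 h6 (by positivity) h3.le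
  have h9 : cos (y / 2) * cos ((e + h + φ) / 2) * sin ((x - h) / 2) =
      sin ((x - h) / 2) * cos ((e + h + φ) / 2) * cos (y / 2) := by ring
  linarith

end Pool.Agent.Helper27.TT
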