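import Mathlib
import Pool.Agent.Helper27.TT.Defs

/-!
# TT-E2: the case `N % 4 = 2`, `m ≥ 4` even (and the easy half of `m ≥ 5` odd)

* `key`: `cos 2x sin y - cos 2y sin x = 2 sin ((y-x)/2) cos ((x+y)/2) (1 + 2 sin² ((x+y)/2) - 2 sin² ((y-x)/2)) ≥ 2 sin ((y-x)/2) cos ((x+y)/2)`
  for `0 ≤ x ≤ y`, `x + y ≤ π` (write `x = u - v`, `y = u + v`; `sin 3 v`, `cos 3 u`).
* `r2_oo` (`4 (y + 2 φ) ≤ π`, all the doubled angles are in `(0, π / 2)`): `sin 2x > sin 2(x-h) > 0`, `cos 2e > cos 2y > 0` (`e < y`),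
  `sin 2(y+φ) > sin 2(e+h+φ) > 0` (`e + h + φ ≤ y + φ - h`).
* `r2_es`: `sin 2x < sin 2y`, `sin 2e < sin 2(e+h+φ)`, `cos 2(y+φ) < cos 2(x-h)`.
* `r2_oe`: let `x' = x - h`, `e' = e + h + φ`, `y' = y + φ`.  From `hb` and `hc` (divide; `sin 2x = 2 sin x cos x`, ...):
  `cos x cos e cos 2y' sin e' = cos x' cos y cos 2e' sin y'`.  As `0 < cos x ≤ cos x'` it is enough that `cos e cos 2y' sin e' < cos y cos 2e' sin y'`.
  Let `D = y' - e' ≥ h > 0`, `μ = (y' + e')/2`.  `cos y cos 2e' sin y' - cos e cos 2y' sin e' = cos e (cos 2e' sin y' - cos 2y' sin e') - (cos e - cos y) cos 2e' sin y'`.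
  First bracket `≥ 2 sin (D/2) cos μ` by `key`.  `cos e - cos y = 2 sin ((y+e)/2) sin ((y-e)/2)`, `y - e = D + h ≤ 2 D`, `sin ((y-e)/2) ≤ sin D ≤ 2 sin (D/2)`,
  `sin ((y+e)/2) < sin μ`.  So it is enough that `cos e cos μ > 2 sin μ cos 2e' sin y'`.  Here `y' < π/4`: `2 cos 2e' sin μ ≤ cos μ`:
  with `v = π/8 + e'/2 ≥ μ`: `cos 2e' = sin 4v`, `tan μ ≤ tan v`, `sin 4v tan v = 2 (1 - cos 2v) cos 2v ≤ 1/2`; and `sin y' < cos e` as `y' + e < π/2`.
-/

set_option autoImplicit false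

namespace Pool.Agent.Helper27.TT

open Real

theorem key (x y : ℝ) (h0 : 0 ≤ x) (h1 : x ≤ y) (h2 : x + y ≤ π) :
    2 * sin ((y - x) / 2) * cos ((x + y) / 2) ≤ cos (2 * x) * sin y - cos (2 * y) * sin x := by
  set u := (x + y) / 2 with hu
  set v := (y - x) / 2 with hv
  have hxe : x = u - v := by rw [hu, hv]; ring
  have hye : y = u + v := by rw [hu, hv]; ring
  have hpi := Real.pi_pos
  have hv0 : 0 ≤ v := by rw [hv]; linarith
  have hvu : v ≤ u := by rw [hu, hv]; linarith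
  have hu2 : u ≤ π / 2 := by rw [hu]; linarith
  have e1 : cos (2 * x) * sin y - cos (2 * y) * sin x =
      2 * (sin v * cos u) * (1 + 2 * sin u ^ 2 - 2 * sin v ^ 2) := by
    rw [cos_two_mul x, cos_two_mul y, hxe, hye, cos_sub, cos_add, sin_add, sin_sub]
    have a1 := sin_sq_add_cos_sq u
    have a2 := sin_sq_add_cos_sq v
    have b1 : cos u ^ 2 = 1 - sin u ^ 2 := by linarith
    have b2 : cos v ^ 2 = 1 - sin v ^ 2 := by linarith
    have c1 : (2 * (cos u * cos v + sin u * sin v) ^ 2 - 1) * (sin u * cos v + cos u * sin v) -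
        (2 * (cos u * cos v - sin u * sin v) ^ 2 - 1) * (sin u * cos v - cos u * sin v) =
        cos u * sin v * (4 * cos u ^ 2 * cos v ^ 2 + 4 * sin u ^ 2 * sin v ^ 2 - 2 +
          8 * sin u ^ 2 * cos v ^ 2) := by ring
    rw [c1, b1, b2]
    ring
  rw [e1]
  have hsv : 0 ≤ sin v := sin_nonneg_of_nonneg_of_le_pi hv0 (by linarith)
  have hcu : 0 ≤ cos u := cos_nonneg_of_neg_pi_div_two_le_of_le (by linarith) hu2
  have hsu : sin v ≤ sin u := sin_le_sin_of_le_of_le_pi_div_two (by linarith) hu2 hvu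
  have h3 : 0 ≤ sin v * cos u := mul_nonneg hsv hcu
  have h4 : sin v ^ 2 ≤ sin u ^ 2 := by
    exact pow_le_pow_left₀ hsv hsu 2
  nlinarith [mul_nonneg h3 (sub_nonneg.mpr h4)]

theorem r2_oo (φ h x y e : ℝ) (w : Win φ h x y e) (h4 : 4 * (y + 2 * φ) ≤ π)
    (hc : sin (2 * x) * cos (2 * e) * sin (2 * (y + φ)) =
      sin (2 * (x - h)) * sin (2 * (e + h + φ)) * cos (2 * y)) : False := by
  obtain ⟨hφ, hh, hx, hy, he, hey, hyu⟩ := w
  have hpi := Real.pi_pos
  have a1 : sin (2 * (x - h)) < sin (2 * x) :=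
    sin_lt_sin_of_lt_of_le_pi_div_two (by linarith) (by linarith) (by linarith)
  have a0 : 0 < sin (2 * (x - h)) := sin_pos_of_pos_of_lt_pi (by linarith) (by linarith)
  have b1 : cos (2 * y) < cos (2 * e) :=
    cos_lt_cos_of_nonneg_of_le_pi (by linarith) (by linarith) (by linarith)
  have b0 : 0 < cos (2 * y) := cos_pos_of_mem_Ioo ⟨by linarith, by linarith⟩
  have c1 : sin (2 * (e + h + φ)) < sin (2 * (y + φ)) :=
    sin_lt_sin_of_lt_of_le_pi_div_two (by linarith) (by linarith) (by linarith)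
  have c0 : 0 < sin (2 * (e + h + φ)) := sin_pos_of_pos_of_lt_pi (by linarith) (by linarith)
  have d1 : sin (2 * (x - h)) * cos (2 * y) < sin (2 * x) * cos (2 * e) :=
    mul_lt_mul'' a1 b1 a0.le b0.le
  have d2 : sin (2 * (x - h)) * cos (2 * y) * sin (2 * (e + h + φ)) <
      sin (2 * x) * cos (2 * e) * sin (2 * (y + φ)) :=
    mul_lt_mul'' d1 c1 (mul_pos a0 b0).le c0.le
  have d3 : sin (2 * (x - h)) * sin (2 * (e + h + φ)) * cos (2 * y) =
      sin (2 * (x - h)) * cos (2 * y) * sin (2 * (e + h + φ)) := by ring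
  rw [hc, d3] at d2
  exact lt_irrefl _ d2

theorem r2_es (φ h x y e : ℝ) (w : Win φ h x y e) (h4 : 4 * (y + 2 * φ) ≤ π)
    (hc : sin (2 * x) * sin (2 * e) * cos (2 * (y + φ)) =
      cos (2 * (x - h)) * sin (2 * (e + h + φ)) * sin (2 * y)) : False := by
  obtain ⟨hφ, hh, hx, hy, he, hey, hyu⟩ := w
  have hpi := Real.pi_pos
  have a1 : sin (2 * x) < sin (2 * y) :=
    sin_lt_sin_of_lt_of_le_pi_div_two (by linarith) (by linarith) (by linarith)
  have a0 : 0 < sin (2 * x) := sin_pos_of_pos_of_lt_pi (by linarith) (by linarith)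
  have b1 : sin (2 * e) < sin (2 * (e + h + φ)) :=
    sin_lt_sin_of_lt_of_le_pi_div_two (by linarith) (by linarith) (by linarith)
  have b0 : 0 < sin (2 * e) := sin_pos_of_pos_of_lt_pi (by linarith) (by linarith)
  have c1 : cos (2 * (y + φ)) < cos (2 * (x - h)) :=
    cos_lt_cos_of_nonneg_of_le_pi (by linarith) (by linarith) (by linarith)
  have c0 : 0 < cos (2 * (y + φ)) := cos_pos_of_mem_Ioo ⟨by linarith, by linarith⟩
  have d1 : sin (2 * x) * sin (2 * e) < sin (2 * y) * sin (2 * (e + h + φ)) :=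
    mul_lt_mul'' a1 b1 a0.le b0.le
  have d2 : sin (2 * x) * sin (2 * e) * cos (2 * (y + φ)) <
      sin (2 * y) * sin (2 * (e + h + φ)) * cos (2 * (x - h)) :=
    mul_lt_mul'' d1 c1 (mul_pos a0 b0).le c0.le
  have d3 : sin (2 * y) * sin (2 * (e + h + φ)) * cos (2 * (x - h)) =
      cos (2 * (x - h)) * sin (2 * (e + h + φ)) * sin (2 * y) := by ring
  rw [hc, d3] at d2
  exact lt_irrefl _ d2

/-- `2 cos 2e' sin μ ≤ cos μ` for `μ ≤ π / 8 + e' / 2`. -/
theorem mu_bound (e' μ : ℝ) (he : 0 ≤ e') (he4 : e' ≤ π / 4) (hμ0 : 0 ≤ μ)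
    (hμ : μ ≤ π / 8 + e' / 2) : 2 * cos (2 * e') * sin μ ≤ cos μ := by
  have hpi := Real.pi_pos
  set v := π / 8 + e' / 2 with hv
  have hv1 : v ≤ π / 4 := by rw [hv]; linarith
  have hv0 : 0 < v := by rw [hv]; linarith
  have hcv : 0 < cos v := cos_pos_of_mem_Ioo ⟨by linarith, by linarith⟩
  have hsv : 0 ≤ sin v := sin_nonneg_of_nonneg_of_le_pi hv0.le (by linarith)
  have hcμ : 0 ≤ cos μ := cos_nonneg_of_neg_pi_div_two_le_of_le (by linarith) (by linarith)
  have hce : 0 ≤ cos (2 * e') :=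
    cos_nonneg_of_neg_pi_div_two_le_of_le (by linarith) (by linarith)
  have e1 : cos (2 * e') = sin (4 * v) := by
    have : 4 * v = 2 * e' + π / 2 := by rw [hv]; ring
    rw [this, sin_add_pi_div_two]
  have e2 : sin (4 * v) = 4 * sin v * cos v * cos (2 * v) := by
    have : 4 * v = 2 * (2 * v) := by ring
    rw [this, sin_two_mul, sin_two_mul]
    ring
  have e3 : 2 * sin v ^ 2 = 1 - cos (2 * v) := by
    rw [cos_two_mul]
    have := sin_sq_add_cos_sq v
    linarith
  have e4 : 2 * cos (2 * e') * sin v ≤ cos v := by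
    rw [e1, e2]
    have h1 : 2 * (4 * sin v * cos v * cos (2 * v)) * sin v =
        cos v * (4 * (2 * sin v ^ 2) * cos (2 * v)) := by ring
    rw [h1, e3]
    have h2 : 4 * (1 - cos (2 * v)) * cos (2 * v) ≤ 1 := by
      nlinarith [sq_nonneg (2 * cos (2 * v) - 1)]
    calc cos v * (4 * (1 - cos (2 * v)) * cos (2 * v)) ≤ cos v * 1 :=
          mul_le_mul_of_nonneg_left h2 hcv.le
      _ = cos v := mul_one _
  have e5 : sin μ * cos v ≤ cos μ * sin v := by
    have h1 : 0 ≤ sin (v - μ) :=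
      sin_nonneg_of_nonneg_of_le_pi (by linarith) (by linarith)
    rw [sin_sub] at h1
    linarith [mul_comm (cos v) (sin μ), mul_comm (cos μ) (sin v)]
  have e6 : (2 * cos (2 * e') * sin μ) * cos v ≤ cos μ * cos v := by
    calc (2 * cos (2 * e') * sin μ) * cos v = 2 * cos (2 * e') * (sin μ * cos v) := by ring
      _ ≤ 2 * cos (2 * e') * (cos μ * sin v) :=
          mul_le_mul_of_nonneg_left e5 (by linarith)
      _ = cos μ * (2 * cos (2 * e') * sin v) := by ring
      _ ≤ cos μ * cos v := mul_le_mul_of_nonneg_left e4 hcμ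
  exact le_of_mul_le_mul_right e6 hcv

theorem r2_oe (φ h x y e : ℝ) (w : Win φ h x y e) (h4 : 4 * (y + 2 * φ) ≤ π)
    (hb : sin x * sin e * sin (y + φ) = sin (x - h) * sin (e + h + φ) * sin y)
    (hc : sin (2 * x) * sin (2 * e) * cos (2 * (y + φ)) =
      sin (2 * (x - h)) * cos (2 * (e + h + φ)) * sin (2 * y)) : False := by
  obtain ⟨hφ, hh, hx, hy, he, hey, hyu⟩ := w
  have hpi := Real.pi_pos
  set x' := x - h with hx'
  set e' := e + h + φ with he'
  set y' := y + φ with hy'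
  have sx' : 0 < sin x' := sin_pos_of_pos_of_lt_pi (by rw [hx']; linarith) (by rw [hx']; linarith)
  have sy : 0 < sin y := sin_pos_of_pos_of_lt_pi (by linarith) (by linarith)
  have sy' : 0 < sin y' := sin_pos_of_pos_of_lt_pi (by rw [hy']; linarith) (by rw [hy']; linarith)
  have cx : 0 < cos x := cos_pos_of_mem_Ioo ⟨by linarith, by linarith⟩
  have cxx : cos x ≤ cos x' :=
    (cos_lt_cos_of_nonneg_of_le_pi (by rw [hx']; linarith) (by linarith)
      (by rw [hx']; linarith)).le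
  have cy : 0 < cos y := cos_pos_of_mem_Ioo ⟨by linarith, by linarith⟩
  have ce : 0 < cos e := cos_pos_of_mem_Ioo ⟨by linarith, by linarith⟩
  have c2e' : 0 < cos (2 * e') :=
    cos_pos_of_mem_Ioo ⟨by rw [he']; linarith, by rw [he']; linarith⟩
  -- the quotient of the two equations
  have hq : cos x * (cos e * cos (2 * y') * sin e') = cos x' * (cos y * cos (2 * e') * sin y') := by
    have h1 : (sin x' * sin y) * (cos x * (cos e * cos (2 * y') * sin e')) * 4 =
        (sin x' * sin y) * (cos x' * (cos y * cos (2 * e') * sin y')) * 4 := by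
      rw [sin_two_mul, sin_two_mul, sin_two_mul, sin_two_mul] at hc
      linear_combination (-4 * cos x * cos e * cos (2 * y')) * hb + sin y' * hc
    have h2 : sin x' * sin y ≠ 0 := (mul_pos sx' sy).ne'
    have h3 := mul_right_cancel₀ (by norm_num : (4 : ℝ) ≠ 0) h1
    exact mul_left_cancel₀ h2 h3
  have hB : 0 < cos y * cos (2 * e') * sin y' := mul_pos (mul_pos cy c2e') sy'
  suffices hAB : cos e * cos (2 * y') * sin e' < cos y * cos (2 * e') * sin y' by
    have h1 : cos x * (cos e * cos (2 * y') * sin e') <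
        cos x * (cos y * cos (2 * e') * sin y') := mul_lt_mul_of_pos_left hAB cx
    have h2 : cos x * (cos y * cos (2 * e') * sin y') ≤
        cos x' * (cos y * cos (2 * e') * sin y') := mul_le_mul_of_nonneg_right cxx hB.le
    rw [hq] at h1
    exact absurd (lt_of_lt_of_le h1 h2) (lt_irrefl _)
  have hD : h ≤ y' - e' := by rw [hy', he']; linarith
  have k1 := key e' y' (by rw [he']; linarith) (by linarith) (by rw [hy', he']; linarith)
  set μ := (e' + y') / 2 with hμ
  have sD : 0 < sin ((y' - e') / 2) :=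
    sin_pos_of_pos_of_lt_pi (by linarith) (by rw [hy', he']; linarith)
  have cμ : 0 < cos μ :=
    cos_pos_of_mem_Ioo ⟨by rw [hμ, hy', he']; linarith, by rw [hμ, hy', he']; linarith⟩
  have sμ : 0 < sin μ :=
    sin_pos_of_pos_of_lt_pi (by rw [hμ, hy', he']; linarith) (by rw [hμ, hy', he']; linarith)
  have c1 : cos e - cos y = 2 * sin ((y + e) / 2) * sin ((y - e) / 2) := by
    rw [cos_sub_cos]
    have : (e - y) / 2 = -((y - e) / 2) := by ring
    rw [this, sin_neg, add_comm e y]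
    ring
  have c2 : sin ((y - e) / 2) ≤ 2 * sin ((y' - e') / 2) := by
    have h1 : sin ((y - e) / 2) ≤ sin (y' - e') :=
      sin_le_sin_of_le_of_le_pi_div_two (by linarith) (by rw [hy', he']; linarith)
        (by rw [hy', he']; linarith)
    have h2 : sin (y' - e') = 2 * sin ((y' - e') / 2) * cos ((y' - e') / 2) := by
      rw [← sin_two_mul]; congr 1; ring
    have h3 : cos ((y' - e') / 2) ≤ 1 := cos_le_one _
    nlinarith
  have c3 : sin ((y + e) / 2) ≤ sin μ :=
    sin_le_sin_of_le_of_le_pi_div_two (by linarith) (by rw [hμ, hy', he']; linarith)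
      (by rw [hμ, hy', he']; linarith)
  have c4 : 0 ≤ sin ((y - e) / 2) :=
    sin_nonneg_of_nonneg_of_le_pi (by linarith) (by linarith)
  have c5 : cos e - cos y ≤ 2 * sin μ * (2 * sin ((y' - e') / 2)) := by
    rw [c1]
    have h1 : sin ((y + e) / 2) * sin ((y - e) / 2) ≤ sin μ * (2 * sin ((y' - e') / 2)) :=
      mul_le_mul c3 c2 c4 sμ.le
    linarith
  have c6 : (cos e - cos y) * (cos (2 * e') * sin y') ≤
      2 * sin μ * (2 * sin ((y' - e') / 2)) * (cos (2 * e') * sin y') :=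
    mul_le_mul_of_nonneg_right c5 (mul_pos c2e' sy').le
  have m1 : 2 * cos (2 * e') * sin μ ≤ cos μ :=
    mu_bound e' μ (by rw [he']; linarith) (by rw [he']; linarith)
      (by rw [hμ, hy', he']; linarith) (by rw [hμ, hy']; linarith)
  have m2 : sin y' < cos e := by
    rw [← sin_pi_div_two_sub e]
    exact sin_lt_sin_of_lt_of_le_pi_div_two (by rw [hy']; linarith) (by linarith)
      (by rw [hy']; linarith)
  have m3 : 2 * cos (2 * e') * sin μ * sin y' < cos μ * cos e := by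
    calc 2 * cos (2 * e') * sin μ * sin y' ≤ cos μ * sin y' :=
          mul_le_mul_of_nonneg_right m1 sy'.le
      _ < cos μ * cos e := mul_lt_mul_of_pos_left m2 cμ
  have m4 := mul_lt_mul_of_pos_left m3 sD
  have m5 := mul_le_mul_of_nonneg_left k1 ce.le
  nlinarith

end Pool.Agent.Helper27.TT
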