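import Mathlib
import Pool.Agent.Helper27.TT.Defs
import Pool.Agent.Helper27.TT.E2

/-!
# TT-E3: the case `N % 4 = 2`, `m ≥ 5` odd, `t` even

Let `x' = x - h`, `y' = y + φ`, `e' = e + h + φ`.  All doubled angles are in `(0, 2π/5]`.
From `hb` and `hc`: `cos 2x cos e cos y' sin y = cos 2y cos x' cos e' sin x`.  As `cos e > cos e' > 0`, it is enough that
`cos 2x sin y cos y' > cos 2y sin x cos x'`.  Let `d = y - x ≥ h + φ`, `μ = (x + y)/2`:
`cos 2x sin y cos y' - cos 2y sin x cos x' = cos y' (cos 2x sin y - cos 2y sin x) - cos 2y sin x (cos x' - cos y')`; `key` (file `E2`):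
first bracket `≥ 2 sin (d/2) cos μ`; `cos x' - cos y' = 2 sin ((x'+y')/2) sin ((y'-x')/2)`, `y' - x' = d + h + φ ≤ 2 d`, `sin ((y'-x')/2) ≤ sin d ≤ 2 sin (d/2)`.
So it is enough that `cos y' cos μ > 2 cos 2y sin x sin ((x'+y')/2)`.  `y' < π/5`: `cos y', cos μ > 4/5` (`cos (π/5) = (1 + √5)/4`, or `cos u ≥ 1 - u²/2`,
`π < 3.15`); `sin x ≤ sin y`, `cos 2y = 1 - 2 sin² y`, `s (1 - 2 s²) ≤ 3/10` for `s ≥ 0`, `sin ((x'+y')/2) < 3/5 + 1/20`: `2 * 0.3 * 0.65 = 0.39 < 0.64`.
-/

set_option autoImplicit false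

namespace Pool.Agent.Helper27.TT

open Real

theorem r2_eo (φ h x y e : ℝ) (w : Win φ h x y e) (h5 : 5 * (y + 2 * φ) ≤ π)
    (hb : sin x * sin e * sin (y + φ) = sin (x - h) * sin (e + h + φ) * sin y)
    (hc : cos (2 * x) * sin (2 * e) * sin (2 * (y + φ)) =
      sin (2 * (x - h)) * sin (2 * (e + h + φ)) * cos (2 * y)) : False := by
  obtain ⟨hφ, hh, hx, hy, he, hey, hyu⟩ := w
  have hpi : π < 3.15 := pi_lt_d2
  have hpi0 := pi_pos
  have hy0 : 0 < y := by linarith
  have hx0 : 0 < x := by linarith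
  have hxy : x < y := by linarith
  have hsx : 0 < sin x := sin_pos_of_pos_of_lt_pi hx0 (by linarith)
  have hsy : 0 < sin y := sin_pos_of_pos_of_lt_pi hy0 (by linarith)
  have hsx' : 0 < sin (x - h) := sin_pos_of_pos_of_lt_pi (by linarith) (by linarith)
  have hse' : 0 < sin (e + h + φ) := sin_pos_of_pos_of_lt_pi (by linarith) (by linarith)
  have hcx' : 0 < cos (x - h) := cos_pos_of_mem_Ioo ⟨by linarith, by linarith⟩
  have hce' : 0 < cos (e + h + φ) := cos_pos_of_mem_Ioo ⟨by linarith, by linarith⟩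
  have hc2y : 0 < cos (2 * y) := cos_pos_of_mem_Ioo ⟨by linarith, by linarith⟩
  have hcee : cos (e + h + φ) < cos e :=
    cos_lt_cos_of_nonneg_of_le_pi he.le (by linarith) (by linarith)
  -- the reduced equation
  have hred : cos (2 * x) * cos e * cos (y + φ) * sin y =
      cos (2 * y) * cos (x - h) * cos (e + h + φ) * sin x := by
    have e1 : sin (2 * e) = 2 * sin e * cos e := sin_two_mul e
    have e2 : sin (2 * (y + φ)) = 2 * sin (y + φ) * cos (y + φ) := sin_two_mul _
    have e3 : sin (2 * (x - h)) = 2 * sin (x - h) * cos (x - h) := sin_two_mul _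
    have e4 : sin (2 * (e + h + φ)) = 2 * sin (e + h + φ) * cos (e + h + φ) := sin_two_mul _
    rw [e1, e2, e3, e4] at hc
    have hne : sin (x - h) * sin (e + h + φ) ≠ 0 := (mul_pos hsx' hse').ne'
    apply mul_left_cancel₀ hne
    linear_combination (sin x / 4) * hc - (cos (2 * x) * cos e * cos (y + φ)) * hb
  -- the main inequality
  have hmain : cos (2 * y) * sin x * cos (x - h) < cos (2 * x) * sin y * cos (y + φ) := by
    have hk := key x y hx0.le hxy.le (by linarith)
    have hd0 : 0 < sin ((y - x) / 2) := sin_pos_of_pos_of_lt_pi (by linarith) (by linarith)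
    have hdiff : cos (x - h) - cos (y + φ) =
        2 * sin ((x - h + (y + φ)) / 2) * sin ((y + φ - (x - h)) / 2) := by
      rw [cos_sub_cos]
      have : (x - h - (y + φ)) / 2 = -((y + φ - (x - h)) / 2) := by ring
      rw [this, sin_neg]
      ring
    have hs1 : sin ((y + φ - (x - h)) / 2) ≤ 2 * sin ((y - x) / 2) := by
      have a1 : sin ((y + φ - (x - h)) / 2) ≤ sin (y - x) :=
        sin_le_sin_of_le_of_le_pi_div_two (by linarith) (by linarith) (by linarith)
      have a2 : sin (y - x) = 2 * sin ((y - x) / 2) * cos ((y - x) / 2) := by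
        rw [← sin_two_mul]
        congr 1
        ring
      have a3 : cos ((y - x) / 2) ≤ 1 := cos_le_one _
      nlinarith
    have hs2 : sin ((x - h + (y + φ)) / 2) ≤ 0.65 := by
      have := sin_le (x := (x - h + (y + φ)) / 2) (by linarith)
      linarith
    have hs20 : 0 ≤ sin ((x - h + (y + φ)) / 2) :=
      sin_nonneg_of_nonneg_of_le_pi (by linarith) (by linarith)
    have hc1 : 0.8 < cos (y + φ) := by
      have := one_sub_sq_div_two_le_cos (x := y + φ)
      nlinarith
    have hc2 : 0.8 < cos ((x + y) / 2) := by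
      have := one_sub_sq_div_two_le_cos (x := (x + y) / 2)
      nlinarith
    have hsxy : sin x ≤ sin y :=
      sin_le_sin_of_le_of_le_pi_div_two (by linarith) (by linarith) hxy.le
    have hc2y' : cos (2 * y) = 1 - 2 * sin y ^ 2 := by
      rw [cos_two_mul]
      have := sin_sq_add_cos_sq y
      linarith
    have hp : cos (2 * y) * sin x ≤ 0.3 := by
      have b1 : cos (2 * y) * sin x ≤ cos (2 * y) * sin y :=
        mul_le_mul_of_nonneg_left hsxy hc2y.le
      have b2 : cos (2 * y) * sin y ≤ 0.3 := by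
        rw [hc2y']
        nlinarith [mul_nonneg (by linarith : (0 : ℝ) ≤ sin y + 0.8) (sq_nonneg (sin y - 0.4))]
      exact b1.trans b2
    have hp0 : 0 ≤ cos (2 * y) * sin x := mul_nonneg hc2y.le hsx.le
    -- the last step
    have h1 : 0.64 < cos (y + φ) * cos ((x + y) / 2) := by nlinarith
    have h2 : cos (2 * y) * sin x * sin ((x - h + (y + φ)) / 2) ≤ 0.195 := by
      calc cos (2 * y) * sin x * sin ((x - h + (y + φ)) / 2) ≤ 0.3 * 0.65 :=
            mul_le_mul hp hs2 hs20 (by norm_num)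
        _ = 0.195 := by norm_num
    have h3 : cos (2 * y) * sin x * (cos (x - h) - cos (y + φ)) ≤
        4 * (cos (2 * y) * sin x * sin ((x - h + (y + φ)) / 2)) * sin ((y - x) / 2) := by
      rw [hdiff]
      have := mul_le_mul_of_nonneg_left hs1
        (mul_nonneg hp0 (mul_nonneg (by norm_num : (0 : ℝ) ≤ 2) hs20))
      nlinarith [this]
    have h4 : 4 * (cos (2 * y) * sin x * sin ((x - h + (y + φ)) / 2)) * sin ((y - x) / 2) ≤
        0.78 * sin ((y - x) / 2) := by
      nlinarith
    have h5' : 1.28 * sin ((y - x) / 2) <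
        cos (y + φ) * (2 * sin ((y - x) / 2) * cos ((x + y) / 2)) := by
      nlinarith
    have h6 : cos (y + φ) * (2 * sin ((y - x) / 2) * cos ((x + y) / 2)) ≤
        cos (y + φ) * (cos (2 * x) * sin y - cos (2 * y) * sin x) :=
      mul_le_mul_of_nonneg_left hk (by linarith)
    nlinarith [h3, h4, h5', h6]
  have hpos : 0 ≤ cos (2 * y) * sin x * cos (x - h) :=
    mul_nonneg (mul_nonneg hc2y.le hsx.le) hcx'.le
  have g1 : cos (e + h + φ) * (cos (2 * y) * sin x * cos (x - h)) ≤
      cos e * (cos (2 * y) * sin x * cos (x - h)) :=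
    mul_le_mul_of_nonneg_right hcee.le hpos
  have g2 : cos e * (cos (2 * y) * sin x * cos (x - h)) <
      cos e * (cos (2 * x) * sin y * cos (y + φ)) :=
    mul_lt_mul_of_pos_left hmain (hce'.trans hcee)
  nlinarith [g1, g2, hred]

end Pool.Agent.Helper27.TT
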