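import Mathlib
import Pool.Agent.Helper27.TT.Defs
import Pool.Agent.Helper27.TT.E2

/-!
# TT-E4: the case `N % 4 = 2`, `m = 3`

Here `h = 3 φ`, `π / 4 < y`, `y + 2 φ ≤ π / 3`.  Let `x' = x - h`, `y' = y + φ`, `e' = e + h + φ`; `0 < x' < x < y < y' < π/3`, `0 < e < e' ≤ y' - h`.
* `s_es`: `cos 2y' < 0`, so the left side of `hc` is negative, so `cos 2x' < 0` (`sin 2e' > 0`, `sin 2y > 0` as `2e', 2y < π`).
  Dividing `hc` by `hb`: `cos x cos e cos 2y' sin x' = cos 2x' cos e' cos y sin y'`, both sides negative.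
  `cos x > cos y > 0`, `cos e > cos e' > 0`, and `- cos 2y' sin x' > - cos 2x' sin y'` (`key x' y'` from `E2`, strictly positive).  So the left side is smaller.
* `s_eo`: `cos 2y < 0`, so the right side of `hc` is negative, so `cos 2x < 0`, `x > π/4`.  Dividing: `cos 2x cos e cos y' sin y = cos 2y cos x' cos e' sin x`,
  both sides negative.  Let `d = y - x`, `μ = (x + y)/2`, `Δ = cos 2x sin y - cos 2y sin x = 2 sin (d/2) cos μ (1 + 2 sin² μ - 2 sin² (d/2))`
  (`μ > π/4`: `2 sin² μ > 1`; `d < π/12`, so the last bracket is `> 1.96`; `cos μ > 1/2`; so `Δ > 1.96 sin (d/2)`), `d ≥ 4 φ`.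
  `cos x' cos e' |cos 2y| sin x - |cos 2x| cos e cos y' sin y = cos x' cos e' Δ + |cos 2x| sin y (cos x' cos e' - cos e cos y')` and
  `cos x' cos e' - cos e cos y' ≥ - cos y' (cos e - cos e') = - 2 cos y' sin ((e + e')/2) sin (2 φ)`, `cos x' ≥ cos y'`, `sin (d/2) ≥ sin (2 φ)`; so it is enough that
  `0.98 cos e' > |cos 2x| sin y sin ((e + e')/2)`: `cos e' > 1/2`, `|cos 2x| < 1/2`, `sin y, sin ((e+e')/2) < 0.87`.
-/

set_option autoImplicit false

namespace Pool.Agent.Helper27.TT

open Real

theorem E4_delta (x y : ℝ) : cos (2 * x) * sin y - cos (2 * y) * sin x =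
    2 * sin ((y - x) / 2) * cos ((x + y) / 2) *
      (1 + 2 * sin ((x + y) / 2) ^ 2 - 2 * sin ((y - x) / 2) ^ 2) := by
  obtain ⟨u, v, rfl, rfl⟩ : ∃ u v, x = u - v ∧ y = u + v := ⟨(x + y) / 2, (y - x) / 2, by ring, by ring⟩
  have e1 : (u + v - (u - v)) / 2 = v := by ring
  have e2 : (u - v + (u + v)) / 2 = u := by ring
  rw [e1, e2, cos_two_mul, cos_two_mul, cos_sub, cos_add, sin_add, sin_sub]
  have h1 := sin_sq_add_cos_sq u
  have h2 := sin_sq_add_cos_sq v
  have h3 : cos u ^ 2 = 1 - sin u ^ 2 := by linarith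
  have h4 : cos v ^ 2 = 1 - sin v ^ 2 := by linarith
  have h5 : cos u ^ 3 = (1 - sin u ^ 2) * cos u := by rw [← h3]; ring
  have h6 : cos v ^ 3 = (1 - sin v ^ 2) * cos v := by rw [← h4]; ring
  ring_nf
  simp only [h5, h4]
  ring

theorem s_es (φ h x y e : ℝ) (w : Win φ h x y e) (h3 : h = 3 * φ) (hy : π / 4 < y)
    (hb : sin x * sin e * sin (y + φ) = sin (x - h) * sin (e + h + φ) * sin y)
    (hc : sin (2 * x) * sin (2 * e) * cos (2 * (y + φ)) =
      cos (2 * (x - h)) * sin (2 * (e + h + φ)) * sin (2 * y)) : False := by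
  obtain ⟨w1, w2, w3, w4, w5, w6, w7⟩ := w
  have hpi := pi_pos
  set x' := x - h with hx'
  set y' := y + φ with hy'
  set e' := e + h + φ with he'
  have sx : 0 < sin x := sin_pos_of_pos_of_lt_pi (by linarith) (by linarith)
  have se : 0 < sin e := sin_pos_of_pos_of_lt_pi (by linarith) (by linarith)
  have sx' : 0 < sin x' := sin_pos_of_pos_of_lt_pi (by linarith) (by linarith)
  have se' : 0 < sin e' := sin_pos_of_pos_of_lt_pi (by linarith) (by linarith)
  have sy : 0 < sin y := sin_pos_of_pos_of_lt_pi (by linarith) (by linarith)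
  have sy' : 0 < sin y' := sin_pos_of_pos_of_lt_pi (by linarith) (by linarith)
  have cx : 0 < cos x := cos_pos_of_mem_Ioo ⟨by linarith, by linarith⟩
  have ce : 0 < cos e := cos_pos_of_mem_Ioo ⟨by linarith, by linarith⟩
  have ce' : 0 < cos e' := cos_pos_of_mem_Ioo ⟨by linarith, by linarith⟩
  have cy : 0 < cos y := cos_pos_of_mem_Ioo ⟨by linarith, by linarith⟩
  have c2y' : cos (2 * y') < 0 := cos_neg_of_pi_div_two_lt_of_lt (by linarith) (by linarith)
  have hc' : (4 * sin e' * sin y) * (sin x' * cos x * cos e * cos (2 * y')) =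
      (4 * sin e' * sin y) * (sin y' * cos (2 * x') * cos e' * cos y) := by
    have e1 := hc
    rw [sin_two_mul x, sin_two_mul e, sin_two_mul e', sin_two_mul y] at e1
    have e2 : 4 * (sin x * sin e * sin y') * (cos x * cos e * cos (2 * y')) =
        4 * sin e' * sin y * (sin y' * cos (2 * x') * cos e' * cos y) := by
      linear_combination sin y' * e1
    rw [hb] at e2
    linear_combination e2
  have hmain := mul_left_cancel₀ (by positivity : (4 * sin e' * sin y) ≠ 0) hc'
  have k := key x' y' (by linarith) (by linarith) (by linarith)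
  have kp : 0 < 2 * sin ((y' - x') / 2) * cos ((x' + y') / 2) := by
    have a1 : 0 < sin ((y' - x') / 2) := sin_pos_of_pos_of_lt_pi (by linarith) (by linarith)
    have a2 : 0 < cos ((x' + y') / 2) := cos_pos_of_mem_Ioo ⟨by linarith, by linarith⟩
    positivity
  have k2 : - (cos (2 * x')) * sin y' < - (cos (2 * y')) * sin x' := by linarith
  -- the sign of cos (2 x')
  have c2x' : cos (2 * x') < 0 := by
    by_contra hneg
    push Not at hneg
    have l1 : sin x' * cos x * cos e * cos (2 * y') < 0 :=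
      mul_neg_of_pos_of_neg (by positivity) c2y'
    have l2 : 0 ≤ sin y' * cos (2 * x') * cos e' * cos y := by positivity
    linarith
  have hcx : cos y ≤ cos x := cos_le_cos_of_nonneg_of_le_pi (by linarith) (by linarith) (by linarith)
  have hce : cos e' ≤ cos e := cos_le_cos_of_nonneg_of_le_pi (by linarith) (by linarith) (by linarith)
  have q1 : cos y * cos e' ≤ cos x * cos e := mul_le_mul hcx hce ce'.le cx.le
  have q2 : 0 < - (cos (2 * x')) * sin y' := mul_pos (by linarith) sy'
  have q3 : (- (cos (2 * x')) * sin y') * (cos y * cos e') < (- (cos (2 * y')) * sin x') * (cos x * cos e) :=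
    calc (- (cos (2 * x')) * sin y') * (cos y * cos e')
        ≤ (- (cos (2 * x')) * sin y') * (cos x * cos e) := mul_le_mul_of_nonneg_left q1 q2.le
      _ < (- (cos (2 * y')) * sin x') * (cos x * cos e) := mul_lt_mul_of_pos_right k2 (by positivity)
  have q4 : (- (cos (2 * x')) * sin y') * (cos y * cos e') = (- (cos (2 * y')) * sin x') * (cos x * cos e) := by
    linear_combination hmain
  linarith

theorem s_eo (φ h x y e : ℝ) (w : Win φ h x y e) (h3 : h = 3 * φ) (hy : π / 4 < y)
    (hb : sin x * sin e * sin (y + φ) = sin (x - h) * sin (e + h + φ) * sin y)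
    (hc : cos (2 * x) * sin (2 * e) * sin (2 * (y + φ)) =
      sin (2 * (x - h)) * sin (2 * (e + h + φ)) * cos (2 * y)) : False := by
  obtain ⟨w1, w2, w3, w4, w5, w6, w7⟩ := w
  have hpi := pi_pos
  have hpi2 : π < 3.1416 := pi_lt_d4
  set x' := x - h with hx'
  set y' := y + φ with hy'
  set e' := e + h + φ with he'
  have sx : 0 < sin x := sin_pos_of_pos_of_lt_pi (by linarith) (by linarith)
  have se : 0 < sin e := sin_pos_of_pos_of_lt_pi (by linarith) (by linarith)
  have sx' : 0 < sin x' := sin_pos_of_pos_of_lt_pi (by linarith) (by linarith)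
  have se' : 0 < sin e' := sin_pos_of_pos_of_lt_pi (by linarith) (by linarith)
  have sy : 0 < sin y := sin_pos_of_pos_of_lt_pi (by linarith) (by linarith)
  have sy' : 0 < sin y' := sin_pos_of_pos_of_lt_pi (by linarith) (by linarith)
  have cx' : 0 < cos x' := cos_pos_of_mem_Ioo ⟨by linarith, by linarith⟩
  have ce : 0 < cos e := cos_pos_of_mem_Ioo ⟨by linarith, by linarith⟩
  have ce' : 0 < cos e' := cos_pos_of_mem_Ioo ⟨by linarith, by linarith⟩
  have cy' : 0 < cos y' := cos_pos_of_mem_Ioo ⟨by linarith, by linarith⟩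
  have c2y : cos (2 * y) < 0 := cos_neg_of_pi_div_two_lt_of_lt (by linarith) (by linarith)
  have hc' : (4 * sin x' * sin e') * (cos (2 * x) * cos e * cos y' * sin y) =
      (4 * sin x' * sin e') * (cos x' * cos e' * cos (2 * y) * sin x) := by
    have e1 := hc
    rw [sin_two_mul e, sin_two_mul y', sin_two_mul x', sin_two_mul e'] at e1
    have e2 : 4 * (sin x * sin e * sin y') * (cos (2 * x) * cos e * cos y') =
        4 * sin x' * sin e' * (cos x' * cos e' * cos (2 * y) * sin x) := by
      linear_combination sin x * e1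
    rw [hb] at e2
    linear_combination e2
  have hmain := mul_left_cancel₀ (by positivity : (4 * sin x' * sin e') ≠ 0) hc'
  have c2x : cos (2 * x) < 0 := by
    by_contra hneg
    push Not at hneg
    have l1 : cos x' * cos e' * cos (2 * y) * sin x < 0 := by
      have : 0 < cos x' * cos e' * sin x := by positivity
      calc cos x' * cos e' * cos (2 * y) * sin x = cos x' * cos e' * sin x * cos (2 * y) := by ring
        _ < 0 := mul_neg_of_pos_of_neg this c2y
    have l2 : 0 ≤ cos (2 * x) * cos e * cos y' * sin y := by positivity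
    linarith
  have hx4 : π / 4 < x := by
    by_contra hneg
    push Not at hneg
    have : 0 ≤ cos (2 * x) := cos_nonneg_of_mem_Icc ⟨by linarith, by linarith⟩
    linarith
  -- the difference
  have hD := E4_delta x y
  set Δ := cos (2 * x) * sin y - cos (2 * y) * sin x with hΔ
  have hd0 : 0 < (y - x) / 2 := by linarith
  have hd1 : (y - x) / 2 < 0.131 := by linarith
  have s0 : 0 < sin ((y - x) / 2) := sin_pos_of_pos_of_lt_pi hd0 (by linarith)
  have s1 : sin ((y - x) / 2) < 0.131 := lt_trans (sin_lt hd0) hd1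
  have s2 : sin ((y - x) / 2) ^ 2 ≤ 0.02 :=
    le_trans (pow_le_pow_left₀ s0.le s1.le 2) (by norm_num)
  have m1 : 1 / 2 < cos ((x + y) / 2) := by
    rw [← cos_pi_div_three]
    exact cos_lt_cos_of_nonneg_of_le_pi (by linarith) (by linarith) (by linarith)
  have m2 : 1 ≤ 2 * sin ((x + y) / 2) ^ 2 := by
    have a1 : cos (2 * ((x + y) / 2)) ≤ 0 :=
      cos_nonpos_of_pi_div_two_le_of_le (by linarith) (by linarith)
    have a2 := cos_sq' ((x + y) / 2)
    rw [cos_two_mul] at a1
    linarith
  have hΔ1 : 1.96 * sin ((y - x) / 2) ≤ Δ := by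
    rw [hD]
    have b1 : (1.96 : ℝ) ≤ 1 + 2 * sin ((x + y) / 2) ^ 2 - 2 * sin ((y - x) / 2) ^ 2 := by linarith
    have b2 : sin ((y - x) / 2) ≤ 2 * sin ((y - x) / 2) * cos ((x + y) / 2) := by
      have := mul_le_mul_of_nonneg_left m1.le s0.le
      linarith
    have b3 := mul_le_mul b2 b1 (by norm_num) (le_trans s0.le b2)
    linarith
  have hΔ2 : 1.96 * sin (2 * φ) ≤ Δ := by
    have : sin (2 * φ) ≤ sin ((y - x) / 2) :=
      sin_le_sin_of_le_of_le_pi_div_two (by linarith) (by linarith) (by linarith)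
    linarith
  have sφ : 0 < sin (2 * φ) := sin_pos_of_pos_of_lt_pi (by linarith) (by linarith)
  have hcx : cos y' ≤ cos x' := cos_le_cos_of_nonneg_of_le_pi (by linarith) (by linarith) (by linarith)
  have hA : - cos (2 * x) < 1 / 2 := by
    have a1 : cos (2 * π / 3) < cos (2 * x) :=
      cos_lt_cos_of_nonneg_of_le_pi (by linarith) (by linarith) (by linarith)
    have a2 : cos (2 * π / 3) = - (1 / 2) := by
      rw [show 2 * π / 3 = π - π / 3 by ring, cos_pi_sub, cos_pi_div_three]
    linarith
  have hsq : √3 < 1.74 := by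
    rw [Real.sqrt_lt' (by norm_num)]
    norm_num
  have hs3 : sin (π / 3) < 0.87 := by
    rw [sin_pi_div_three]
    linarith
  have hsy : sin y < 0.87 :=
    lt_of_le_of_lt (sin_le_sin_of_le_of_le_pi_div_two (by linarith) (by linarith) (by linarith)) hs3
  have hse : sin ((e + e') / 2) < 0.87 :=
    lt_of_le_of_lt (sin_le_sin_of_le_of_le_pi_div_two (by linarith) (by linarith) (by linarith)) hs3
  have hse0 : 0 < sin ((e + e') / 2) := sin_pos_of_pos_of_lt_pi (by linarith) (by linarith)
  have hce2 : 1 / 2 < cos e' := by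
    rw [← cos_pi_div_three]
    exact cos_lt_cos_of_nonneg_of_le_pi (by linarith) (by linarith) (by linarith)
  have hdiff : cos e - cos e' = 2 * sin ((e + e') / 2) * sin (2 * φ) := by
    rw [cos_sub_cos]
    have : (e - e') / 2 = - (2 * φ) := by rw [he', h3]; ring
    rw [this, sin_neg]
    ring
  -- conclusion
  set A := - cos (2 * x) with hAdef
  have A0 : 0 < A := by linarith
  have f1 : A * sin y * sin ((e + e') / 2) < 0.98 * cos e' := by
    have g1 : A * sin y ≤ 1 / 2 * 0.87 := mul_le_mul hA.le hsy.le sy.le (by norm_num)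
    have g2 : A * sin y * sin ((e + e') / 2) ≤ 1 / 2 * 0.87 * 0.87 :=
      mul_le_mul g1 hse.le hse0.le (by norm_num)
    linarith
  have f2 : cos x' * cos e' * (- cos (2 * y)) * sin x - A * cos e * cos y' * sin y =
      cos x' * cos e' * Δ + A * sin y * (cos x' * cos e' - cos e * cos y') := by
    rw [hΔ, hAdef]; ring
  have f3 : cos x' * cos e' * (- cos (2 * y)) * sin x - A * cos e * cos y' * sin y = 0 := by
    rw [hAdef]; linear_combination hmain
  have f4 : cos y' * cos e' - cos e * cos y' ≤ cos x' * cos e' - cos e * cos y' := by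
    have := mul_le_mul_of_nonneg_right hcx ce'.le
    linarith
  have f5 : A * sin y * (cos y' * cos e' - cos e * cos y') ≤
      A * sin y * (cos x' * cos e' - cos e * cos y') :=
    mul_le_mul_of_nonneg_left f4 (by positivity)
  have f6 : cos y' * cos e' - cos e * cos y' = - (cos y' * (2 * sin ((e + e') / 2) * sin (2 * φ))) := by
    rw [← hdiff]; ring
  have Δ0 : 0 < Δ := by linarith
  have f7 : cos y' * cos e' * (1.96 * sin (2 * φ)) ≤ cos x' * cos e' * Δ := by
    have g1 : cos y' * cos e' ≤ cos x' * cos e' := mul_le_mul_of_nonneg_right hcx ce'.le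
    exact mul_le_mul g1 hΔ2 (by positivity) (by positivity)
  have f8 : 0 < cos y' * sin (2 * φ) * (2 * (0.98 * cos e' - A * sin y * sin ((e + e') / 2))) := by
    have : 0 < 0.98 * cos e' - A * sin y * sin ((e + e') / 2) := by linarith
    positivity
  rw [f6] at f5
  rw [f3] at f2
  have f9 : cos y' * sin (2 * φ) * (2 * (0.98 * cos e' - A * sin y * sin ((e + e') / 2))) =
      cos y' * cos e' * (1.96 * sin (2 * φ)) +
        A * sin y * -(cos y' * (2 * sin ((e + e') / 2) * sin (2 * φ))) := by ring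
  rw [f9] at f8
  linarith only [f2, f5, f7, f8]

end Pool.Agent.Helper27.TT
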