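import Mathlib
import Pool.Agent.Helper27.TT.Defs

/-!
# TT-E5: `EE` at `π / 2 + ψ`

`sin (n (π/2 + ψ)) = (-1)^l sin (n ψ)` for `n = 2 l` and `(-1)^l cos (n ψ)` for `n = 2 l + 1`.  The six numbers
`m (t+1), (m+1) A, A + 1, m t, (m+1) (A+1), A` with `A = k (m+1) + m (t+1)`; write the even ones as `2 l` and the odd ones as `2 l + 1`; the two products have the
same sign `(-1)^(l₁+l₂+l₃) = (-1)^(l₄+l₅+l₆)`: in each case `l₁+l₂+l₃` and `l₄+l₅+l₆` have the same parity (in fact they are equal in the following sense: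
`l₁ + l₂ + l₃ = l₄ + l₅ + l₆` in cases `oe`, `es`, `eo` when computed with halves; use `omega`/`ring` after substituting `m = 2 a` or `2 a + 1`, ...).
Checked numerically: the signs agree in all the cases.
-/

set_option autoImplicit false

namespace Pool.Agent.Helper27.TT

open Real

theorem sin_even_mul (N ψ : ℝ) (l : ℕ) (hN : N = 2 * l) :
    sin (N * (π / 2 + ψ)) = (-1) ^ l * sin (N * ψ) := by
  have h1 : N * (π / 2 + ψ) = N * ψ + l * π := by rw [hN]; ring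
  rw [h1, sin_add_nat_mul_pi]

theorem sin_odd_mul (N ψ : ℝ) (l : ℕ) (hN : N = 2 * l + 1) :
    sin (N * (π / 2 + ψ)) = (-1) ^ l * cos (N * ψ) := by
  have h1 : N * (π / 2 + ψ) = (N * ψ + π / 2) + l * π := by rw [hN]; ring
  rw [h1, sin_add_nat_mul_pi, sin_add_pi_div_two]

theorem cancel_signs {l₁ l₂ l₃ l₄ l₅ l₆ : ℕ} {x₁ x₂ x₃ x₄ x₅ x₆ : ℝ}
    (hl : l₁ + l₂ + l₃ = l₄ + l₅ + l₆)
    (h : (-1) ^ l₁ * x₁ * ((-1) ^ l₂ * x₂) * ((-1) ^ l₃ * x₃) -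
      (-1) ^ l₄ * x₄ * ((-1) ^ l₅ * x₅) * ((-1) ^ l₆ * x₆) = 0) :
    x₁ * x₂ * x₃ = x₄ * x₅ * x₆ := by
  have h1 : (-1 : ℝ) ^ (l₁ + l₂ + l₃) * (x₁ * x₂ * x₃) =
      (-1 : ℝ) ^ (l₁ + l₂ + l₃) * (x₄ * x₅ * x₆) := by
    conv_rhs => rw [hl]
    rw [pow_add, pow_add, pow_add, pow_add]
    linarith
  exact mul_left_cancel₀ (pow_ne_zero _ (by norm_num)) h1

theorem conj_oe (m k t A : ℕ) (hm : m % 2 = 0) (hk : k % 2 = 0)
    (hA : A = k * (m + 1) + m * (t + 1)) (ψ : ℝ) (h : EE m t A (π / 2 + ψ) = 0) :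
    sin (m * (t + 1) * ψ) * sin ((m + 1) * A * ψ) * cos ((A + 1) * ψ) =
      sin (m * t * ψ) * cos ((m + 1) * (A + 1) * ψ) * sin (A * ψ) := by
  obtain ⟨a, rfl⟩ : ∃ a, m = 2 * a := ⟨m / 2, by omega⟩
  obtain ⟨b, rfl⟩ : ∃ b, k = 2 * b := ⟨k / 2, by omega⟩
  obtain ⟨l, hl⟩ : ∃ l, l = b * (2 * a + 1) + a * (t + 1) := ⟨_, rfl⟩
  have hA2 : A = 2 * l := by rw [hA, hl]; ring
  clear hA hl
  subst hA2
  unfold EE at h
  push_cast at h ⊢
  rw [sin_even_mul _ ψ (a * (t + 1)) (by push_cast; ring),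
    sin_even_mul _ ψ ((2 * a + 1) * l) (by push_cast; ring),
    sin_odd_mul _ ψ l (by push_cast; ring),
    sin_even_mul _ ψ (a * t) (by push_cast; ring),
    sin_odd_mul _ ψ ((2 * a + 1) * l + a) (by push_cast; ring),
    sin_even_mul _ ψ l (by push_cast; ring)] at h
  exact cancel_signs (by ring) h

theorem conj_oo (m k t A : ℕ) (hm : m % 2 = 0) (hk : k % 2 = 1)
    (hA : A = k * (m + 1) + m * (t + 1)) (ψ : ℝ) (h : EE m t A (π / 2 + ψ) = 0) :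
    sin (m * (t + 1) * ψ) * cos ((m + 1) * A * ψ) * sin ((A + 1) * ψ) =
      sin (m * t * ψ) * sin ((m + 1) * (A + 1) * ψ) * cos (A * ψ) := by
  obtain ⟨a, rfl⟩ : ∃ a, m = 2 * a := ⟨m / 2, by omega⟩
  obtain ⟨b, rfl⟩ : ∃ b, k = 2 * b + 1 := ⟨k / 2, by omega⟩
  obtain ⟨l, hl⟩ : ∃ l, l = b * (2 * a + 1) + a + a * (t + 1) := ⟨_, rfl⟩
  have hA2 : A = 2 * l + 1 := by rw [hA, hl]; ring
  clear hA hl
  subst hA2
  unfold EE at h
  push_cast at h ⊢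
  rw [sin_even_mul _ ψ (a * (t + 1)) (by push_cast; ring),
    sin_odd_mul _ ψ ((2 * a + 1) * l + a) (by push_cast; ring),
    sin_even_mul _ ψ (l + 1) (by push_cast; ring),
    sin_even_mul _ ψ (a * t) (by push_cast; ring),
    sin_even_mul _ ψ ((2 * a + 1) * (l + 1)) (by push_cast; ring),
    sin_odd_mul _ ψ l (by push_cast; ring)] at h
  exact cancel_signs (by ring) h

theorem conj_es (m k t A : ℕ) (hm : m % 2 = 1) (ht : t % 2 = 1)
    (hA : A = k * (m + 1) + m * (t + 1)) (ψ : ℝ) (h : EE m t A (π / 2 + ψ) = 0) :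
    sin (m * (t + 1) * ψ) * sin ((m + 1) * A * ψ) * cos ((A + 1) * ψ) =
      cos (m * t * ψ) * sin ((m + 1) * (A + 1) * ψ) * sin (A * ψ) := by
  obtain ⟨a, rfl⟩ : ∃ a, m = 2 * a + 1 := ⟨m / 2, by omega⟩
  obtain ⟨c, rfl⟩ : ∃ c, t = 2 * c + 1 := ⟨t / 2, by omega⟩
  obtain ⟨l, hl⟩ : ∃ l, l = k * (a + 1) + (2 * a + 1) * (c + 1) := ⟨_, rfl⟩
  have hA2 : A = 2 * l := by rw [hA, hl]; ring
  clear hA hl
  subst hA2
  unfold EE at h
  push_cast at h ⊢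
  rw [sin_even_mul _ ψ ((2 * a + 1) * (c + 1)) (by push_cast; ring),
    sin_even_mul _ ψ ((2 * a + 2) * l) (by push_cast; ring),
    sin_odd_mul _ ψ l (by push_cast; ring),
    sin_odd_mul _ ψ ((2 * a + 1) * c + a) (by push_cast; ring),
    sin_even_mul _ ψ ((a + 1) * (2 * l + 1)) (by push_cast; ring),
    sin_even_mul _ ψ l (by push_cast; ring)] at h
  exact cancel_signs (by ring) h

theorem conj_eo (m k t A : ℕ) (hm : m % 2 = 1) (ht : t % 2 = 0)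
    (hA : A = k * (m + 1) + m * (t + 1)) (ψ : ℝ) (h : EE m t A (π / 2 + ψ) = 0) :
    cos (m * (t + 1) * ψ) * sin ((m + 1) * A * ψ) * sin ((A + 1) * ψ) =
      sin (m * t * ψ) * sin ((m + 1) * (A + 1) * ψ) * cos (A * ψ) := by
  obtain ⟨a, rfl⟩ : ∃ a, m = 2 * a + 1 := ⟨m / 2, by omega⟩
  obtain ⟨c, rfl⟩ : ∃ c, t = 2 * c := ⟨t / 2, by omega⟩
  obtain ⟨l, hl⟩ : ∃ l, l = k * (a + 1) + (2 * a + 1) * c + a := ⟨_, rfl⟩
  have hA2 : A = 2 * l + 1 := by rw [hA, hl]; ring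
  clear hA hl
  subst hA2
  unfold EE at h
  push_cast at h ⊢
  rw [sin_odd_mul _ ψ ((2 * a + 1) * c + a) (by push_cast; ring),
    sin_even_mul _ ψ ((a + 1) * (2 * l + 1)) (by push_cast; ring),
    sin_even_mul _ ψ (l + 1) (by push_cast; ring),
    sin_even_mul _ ψ ((2 * a + 1) * c) (by push_cast; ring),
    sin_even_mul _ ψ ((2 * a + 2) * (l + 1)) (by push_cast; ring),
    sin_odd_mul _ ψ l (by push_cast; ring)] at h
  exact cancel_signs (by ring) h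

end Pool.Agent.Helper27.TT
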