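import Mathlib
import Pool.Agent.Helper27.TT.Defs
import Pool.Agent.Helper27.TT.C2

/-!
# TT-W: signs of `EE` before and at the end of the window

* `EE_pos`: put `x = m (t + 1) φ`, `x' = m t φ`, `y = A φ`, `y' = y + φ`, `p = m + 1`; `0 < x' < x < y ≤ π / p ≤ π / 4`, `0 < p y ≤ π`.
  If `p y' ≥ π` then `sin (p y') ≤ 0` (`p y' = p y + p φ < 2 π`), and either `p y < π`: first term `> 0`, second `≤ 0`; or `p y = π`: first term `0`
  and `sin (p y') < 0` strictly.  If `p y' < π`: `sin (p y) sin y' > sin (p y') sin y > 0`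
  (`sin (p u) / sin u = S p 1 u = ∑ cos ((p - 1 - 2 i) u)` is decreasing in `u` on `(0, π / p]`, see `sin_S` in `C2`;
  each `cos (|p - 1 - 2 i| u)` is decreasing as `|p - 1 - 2 i| u ≤ π`, strictly for `i = 0`), and `sin x > sin x' > 0`.
* `W2r`: let `x' = x - h`, `w = y - 2 h - φ ≥ x'`.  `sin (x' + h) sin w - sin x' sin (w + h) = sin h sin (w - x') ≥ 0`, and
  `sin (w + h) sin (y - 2 h) sin (y + φ) - sin w sin y sin (y + φ - h) = sin φ cos (y - h) (cos φ - cos (2 h + φ)) ≥ 0` (identity: product to sum).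
  So `sin x sin w sin (y - 2 h) sin (y + φ) ≥ sin x' sin (w + h) sin (y - 2 h) sin (y + φ) ≥ sin x' sin w sin y sin (y + φ - h)`;
  divide by `sin w` (if `w = 0` then `x' = 0` and the left side of the claim is `0`).
* `EE_nonpos`: `φ = π / (m (A + 2))`, `h = m φ`, `y = A φ`: `m y + 2 h = π`, so `(m + 1) A φ = π + y - 2 h`, `(m + 1) (A + 1) φ = π + y - h + φ`;
  `W2r` with `x = m (t + 1) φ` (`x + h + φ ≤ y` as `k ≥ 1`; `y + φ ≤ π / 3`).
-/

set_option autoImplicit false

namespace Pool.Agent.Helper27.TT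

theorem S_lt (m A : ℕ) (hm : 1 ≤ m) (φ : ℝ) (h0 : 0 < φ)
    (h1 : (m : ℝ) * (A + 1) * φ ≤ Real.pi) : S (m + 1) (A + 1) φ < S (m + 1) A φ := by
  unfold S
  apply Finset.sum_lt_sum
  · intro i hi
    have hi' : i ≤ m := by
      have := Finset.mem_range.mp hi
      omega
    have hi2 : (i : ℝ) ≤ m := by exact_mod_cast hi'
    have hi0 : (0 : ℝ) ≤ i := Nat.cast_nonneg i
    have hA0 : (0 : ℝ) ≤ A := Nat.cast_nonneg A
    set c : ℝ := ((m + 1 : ℕ) : ℝ) - 1 - 2 * i with hc
    have hc' : c = m - 2 * i := by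
      rw [hc]
      push_cast
      ring
    have hcabs : |c| ≤ m := by
      rw [hc', abs_le]
      constructor <;> linarith
    have e1 : Real.cos (c * A * φ) = Real.cos (|c| * A * φ) := by
      rw [← Real.cos_abs (c * A * φ), abs_mul, abs_mul, abs_of_nonneg hA0, abs_of_pos h0]
    have e2 : Real.cos (c * (A + 1) * φ) = Real.cos (|c| * (A + 1) * φ) := by
      rw [← Real.cos_abs (c * (A + 1) * φ), abs_mul, abs_mul, abs_of_pos h0,
        abs_of_nonneg (by positivity : (0 : ℝ) ≤ A + 1)]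
    rw [e1, e2]
    apply Real.cos_le_cos_of_nonneg_of_le_pi
    · positivity
    · refine le_trans ?_ h1
      have : |c| * (A + 1) ≤ m * (A + 1) := by
        apply mul_le_mul_of_nonneg_right hcabs
        positivity
      exact mul_le_mul_of_nonneg_right this h0.le
    · have : |c| * A ≤ |c| * (A + 1) := by
        apply mul_le_mul_of_nonneg_left _ (abs_nonneg c)
        linarith
      exact mul_le_mul_of_nonneg_right this h0.le
  · refine ⟨0, Finset.mem_range.mpr (by omega), ?_⟩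
    have hA0 : (0 : ℝ) ≤ A := Nat.cast_nonneg A
    have hm0 : (0 : ℝ) < m := by exact_mod_cast hm
    have e1 : (((m + 1 : ℕ) : ℝ) - 1 - 2 * ((0 : ℕ) : ℝ)) * (A + 1) * φ = m * (A + 1) * φ := by
      push_cast
      ring
    have e2 : (((m + 1 : ℕ) : ℝ) - 1 - 2 * ((0 : ℕ) : ℝ)) * A * φ = m * A * φ := by
      push_cast
      ring
    rw [e1, e2]
    apply Real.cos_lt_cos_of_nonneg_of_le_pi
    · positivity
    · exact h1
    · have : (m : ℝ) * A < m * (A + 1) := by
        apply mul_lt_mul_of_pos_left _ hm0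
        linarith
      exact mul_lt_mul_of_pos_right this h0

theorem EE_pos (m t k A : ℕ) (hm : 3 ≤ m) (ht : 1 ≤ t) (hk : 1 ≤ k)
    (hA : A = k * (m + 1) + m * (t + 1)) (φ : ℝ) (h0 : 0 < φ)
    (h1 : φ ≤ Real.pi / ((m + 1) * A)) : 0 < EE m t A φ := by
  have hpi := Real.pi_pos
  have hA2 : m * (t + 1) + m + 1 ≤ A := by
    rw [hA]
    nlinarith
  have hmR : (3 : ℝ) ≤ m := by exact_mod_cast hm
  have htR : (1 : ℝ) ≤ t := by exact_mod_cast ht
  have hAR : (m : ℝ) * (t + 1) + m + 1 ≤ A := by exact_mod_cast hA2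
  have hmt : (m : ℝ) * 1 ≤ m * t := mul_le_mul_of_nonneg_left htR (by linarith)
  have hAm : (m : ℝ) ≤ A := by nlinarith
  have hApos : (0 : ℝ) < A := by linarith
  have h2 : ((m : ℝ) + 1) * A * φ ≤ Real.pi := by
    rw [le_div_iff₀ (by positivity)] at h1
    linarith
  have h3 : (m : ℝ) * (A + 1) * φ ≤ Real.pi := by
    refine le_trans ?_ h2
    apply mul_le_mul_of_nonneg_right _ h0.le
    nlinarith
  have hy' : ((A : ℝ) + 1) * φ < Real.pi := by
    have : ((A : ℝ) + 1) * φ < m * ((A + 1) * φ) := by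
      have h4 : 0 < ((A : ℝ) + 1) * φ := by positivity
      nlinarith
    linarith
  have hx : (m : ℝ) * (t + 1) * φ ≤ Real.pi / 2 := by
    have h5 : (m : ℝ) * (t + 1) * φ ≤ A * φ := by
      apply mul_le_mul_of_nonneg_right _ h0.le
      linarith
    have h6 : (2 : ℝ) * (A * φ) ≤ (m + 1) * (A * φ) := by
      apply mul_le_mul_of_nonneg_right
      · linarith
      · positivity
    linarith
  have hx' : (m : ℝ) * t * φ < m * (t + 1) * φ := by
    apply mul_lt_mul_of_pos_right _ h0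
    nlinarith
  have hx0 : 0 < (m : ℝ) * t * φ := by positivity
  have s1 : 0 < Real.sin (m * t * φ) :=
    Real.sin_pos_of_pos_of_lt_pi hx0 (by linarith)
  have s2 : Real.sin (m * t * φ) < Real.sin (m * (t + 1) * φ) :=
    Real.sin_lt_sin_of_lt_of_le_pi_div_two (by linarith) hx hx'
  have s3 : 0 < Real.sin ((A + 1) * φ) :=
    Real.sin_pos_of_pos_of_lt_pi (by positivity) hy'
  have s4 : 0 < Real.sin (A * φ) :=
    Real.sin_pos_of_pos_of_lt_pi (by positivity) (by nlinarith)
  have s5 : 0 ≤ Real.sin ((m + 1) * A * φ) :=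
    Real.sin_nonneg_of_nonneg_of_le_pi (by positivity) h2
  have s6 := S_lt m A (by omega) φ h0 h3
  have q1 := sin_S (m + 1) A φ
  have q2 := sin_S (m + 1) (A + 1) φ
  push_cast at q1 q2
  have s7 : 0 ≤ S (m + 1) A φ := by
    rw [← q1] at s5
    exact nonneg_of_mul_nonneg_right s5 s4
  unfold EE
  rw [← q1, ← q2]
  have e : Real.sin (m * (t + 1) * φ) * (Real.sin (A * φ) * S (m + 1) A φ) *
      Real.sin ((A + 1) * φ) - Real.sin (m * t * φ) *
      (Real.sin ((A + 1) * φ) * S (m + 1) (A + 1) φ) * Real.sin (A * φ) =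
      Real.sin (A * φ) * Real.sin ((A + 1) * φ) * (Real.sin (m * t * φ) *
        (S (m + 1) A φ - S (m + 1) (A + 1) φ) +
        (Real.sin (m * (t + 1) * φ) - Real.sin (m * t * φ)) * S (m + 1) A φ) := by ring
  rw [e]
  apply mul_pos (mul_pos s4 s3)
  apply add_pos_of_pos_of_nonneg
  · exact mul_pos s1 (by linarith)
  · exact mul_nonneg (by linarith) s7

theorem sin_mul_sin_half (a b : ℝ) :
    Real.sin a * Real.sin b = (Real.cos (a - b) - Real.cos (a + b)) / 2 := by
  rw [Real.cos_sub, Real.cos_add]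
  ring

theorem sin_mul_cos_half (a b : ℝ) :
    Real.sin a * Real.cos b = (Real.sin (a + b) + Real.sin (a - b)) / 2 := by
  rw [Real.sin_sub, Real.sin_add]
  ring

theorem W2_id1 (x w h : ℝ) :
    Real.sin (x + h) * Real.sin w - Real.sin x * Real.sin (w + h) =
      Real.sin h * Real.sin (w - x) := by
  rw [sin_mul_sin_half (x + h) w, sin_mul_sin_half x (w + h), sin_mul_sin_half h (w - x)]
  rw [show x - (w + h) = -(h + (w - x)) + (2 * x - 2 * x) + 2 * (x - x) + (2 * 0) by ring]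
  rw [show -(h + (w - x)) + (2 * x - 2 * x) + 2 * (x - x) + (2 * 0) = -(h + (w - x)) by ring,
    Real.cos_neg]
  rw [show x + h - w = h - (w - x) by ring, show x + h + w = x + (w + h) by ring]
  ring

theorem W2_id2 (u h φ : ℝ) :
    Real.sin (u - φ) * Real.sin (u - h) * Real.sin (u + h + φ) -
      Real.sin (u - h - φ) * Real.sin (u + h) * Real.sin (u + φ) =
      Real.sin φ * Real.cos u * (Real.cos φ - Real.cos (2 * h + φ)) := by
  have e1 := sin_mul_sin_half (u + h + φ) (u - h)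
  have e2 := sin_mul_sin_half (u + h) (u - h - φ)
  rw [show u + h + φ - (u - h) = 2 * h + φ by ring,
    show u + h + φ + (u - h) = 2 * u + φ by ring] at e1
  rw [show u + h - (u - h - φ) = 2 * h + φ by ring,
    show u + h + (u - h - φ) = 2 * u - φ by ring] at e2
  have e3 := sin_mul_cos_half (u + φ) (2 * u - φ)
  have e4 := sin_mul_cos_half (u - φ) (2 * u + φ)
  rw [show u + φ + (2 * u - φ) = 3 * u by ring,
    show u + φ - (2 * u - φ) = 2 * φ - u by ring, Real.sin_sub] at e3
  rw [show u - φ + (2 * u + φ) = 3 * u by ring,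
    show u - φ - (2 * u + φ) = -(2 * φ + u) by ring, Real.sin_neg, Real.sin_add (2 * φ) u] at e4
  have e5 : Real.sin (2 * φ) = 2 * Real.sin φ * Real.cos φ := Real.sin_two_mul φ
  have e6 := Real.sin_sub u φ
  have e7 := Real.sin_add u φ
  linear_combination Real.sin (u - φ) * e1 - Real.sin (u + φ) * e2 + e3 / 2 - e4 / 2 +
    Real.cos (2 * h + φ) / 2 * (e6 - e7) + Real.cos u / 2 * e5

theorem W2r (φ h x y : ℝ) (hφ : 0 < φ) (hh : 0 < h) (hx : h ≤ x) (hy : x + h + φ ≤ y)
    (hyu : y + φ ≤ Real.pi / 2) :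
    Real.sin (x - h) * Real.sin (y + φ - h) * Real.sin y ≤
      Real.sin x * Real.sin (y - 2 * h) * Real.sin (y + φ) := by
  have hpi := Real.pi_pos
  have i1 := W2_id1 (x - h) (y - 2 * h - φ) h
  rw [show x - h + h = x by ring, show y - 2 * h - φ + h = y - h - φ by ring] at i1
  have i2 := W2_id2 (y - h) h φ
  rw [show y - h - h = y - 2 * h by ring, show y - h + h = y by ring,
    show y - h + φ = y + φ - h by ring] at i2
  have s1 : 0 ≤ Real.sin h * Real.sin (y - 2 * h - φ - (x - h)) :=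
    mul_nonneg (Real.sin_nonneg_of_nonneg_of_le_pi (by linarith) (by linarith))
      (Real.sin_nonneg_of_nonneg_of_le_pi (by linarith) (by linarith))
  have s2 : 0 ≤ Real.sin φ * Real.cos (y - h) * (Real.cos φ - Real.cos (2 * h + φ)) := by
    apply mul_nonneg
    · apply mul_nonneg (Real.sin_nonneg_of_nonneg_of_le_pi (by linarith) (by linarith))
      exact Real.cos_nonneg_of_neg_pi_div_two_le_of_le (by linarith) (by linarith)
    · have := Real.cos_le_cos_of_nonneg_of_le_pi (x := φ) (y := 2 * h + φ) (by linarith)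
        (by linarith) (by linarith)
      linarith
  have p1 : 0 ≤ Real.sin (x - h) :=
    Real.sin_nonneg_of_nonneg_of_le_pi (by linarith) (by linarith)
  have p2 : 0 ≤ Real.sin (y - 2 * h) :=
    Real.sin_nonneg_of_nonneg_of_le_pi (by linarith) (by linarith)
  have p3 : 0 ≤ Real.sin (y + φ) :=
    Real.sin_nonneg_of_nonneg_of_le_pi (by linarith) (by linarith)
  have p4 : 0 ≤ Real.sin x :=
    Real.sin_nonneg_of_nonneg_of_le_pi (by linarith) (by linarith)
  have hw : 0 ≤ y - 2 * h - φ := by linarith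
  rcases hw.lt_or_eq with hw | hw
  · have p5 : 0 < Real.sin (y - 2 * h - φ) :=
      Real.sin_pos_of_pos_of_lt_pi hw (by linarith)
    have a1 : 0 ≤ (Real.sin x * Real.sin (y - 2 * h - φ) -
        Real.sin (x - h) * Real.sin (y - h - φ)) * (Real.sin (y - 2 * h) * Real.sin (y + φ)) := by
      rw [i1]
      exact mul_nonneg s1 (mul_nonneg p2 p3)
    have a2 : 0 ≤ Real.sin (x - h) * (Real.sin (y - h - φ) * Real.sin (y - 2 * h) *
        Real.sin (y + φ) - Real.sin (y - 2 * h - φ) * Real.sin y * Real.sin (y + φ - h)) := by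
      rw [i2]
      exact mul_nonneg p1 s2
    have a3 : 0 ≤ Real.sin (y - 2 * h - φ) * (Real.sin x * Real.sin (y - 2 * h) *
        Real.sin (y + φ) - Real.sin (x - h) * Real.sin (y + φ - h) * Real.sin y) := by
      linarith
    have a4 := nonneg_of_mul_nonneg_right a3 p5
    linarith
  · have hxx : x - h = 0 := by linarith
    rw [hxx, Real.sin_zero]
    have := mul_nonneg (mul_nonneg p4 p2) p3
    linarith

theorem EE_nonpos (m t k A : ℕ) (hm : 3 ≤ m) (ht : 1 ≤ t) (hk : 1 ≤ k)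
    (hA : A = k * (m + 1) + m * (t + 1)) : EE m t A (Real.pi / (m * (A + 2))) ≤ 0 := by
  have hpi := Real.pi_pos
  have hA2 : m * (t + 1) + m + 1 ≤ A := by
    rw [hA]
    nlinarith
  have hmR : (3 : ℝ) ≤ m := by exact_mod_cast hm
  have htR : (1 : ℝ) ≤ t := by exact_mod_cast ht
  have hAR : (m : ℝ) * (t + 1) + m + 1 ≤ A := by exact_mod_cast hA2
  have hA0 : (0 : ℝ) ≤ A := Nat.cast_nonneg A
  set φ : ℝ := Real.pi / (m * (A + 2)) with hφ
  have hφ0 : 0 < φ := by
    rw [hφ]
    positivity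
  have hφ1 : (m : ℝ) * (A + 2) * φ = Real.pi := by
    rw [hφ]
    field_simp
  have hh : 0 < (m : ℝ) * φ := by positivity
  have hx : (m : ℝ) * φ ≤ m * (t + 1) * φ := by
    apply mul_le_mul_of_nonneg_right _ hφ0.le
    nlinarith
  have hy : (m : ℝ) * (t + 1) * φ + m * φ + φ ≤ A * φ := by
    have := mul_le_mul_of_nonneg_right hAR hφ0.le
    linarith
  have hyu : (A : ℝ) * φ + φ ≤ Real.pi / 2 := by
    have h1 : (3 : ℝ) * ((A + 2) * φ) ≤ m * ((A + 2) * φ) := by
      apply mul_le_mul_of_nonneg_right hmR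
      positivity
    linarith
  have key := W2r φ (m * φ) (m * (t + 1) * φ) (A * φ) hφ0 hh hx hy hyu
  have e1 : ((m : ℝ) + 1) * A * φ = A * φ - 2 * (m * φ) + Real.pi := by
    rw [← hφ1]
    ring
  have e2 : ((m : ℝ) + 1) * (A + 1) * φ = A * φ + φ - m * φ + Real.pi := by
    rw [← hφ1]
    ring
  have e3 : ((A : ℝ) + 1) * φ = A * φ + φ := by ring
  have e4 : (m : ℝ) * t * φ = m * (t + 1) * φ - m * φ := by ring
  unfold EE
  rw [e1, e2, e3, e4, Real.sin_add_pi, Real.sin_add_pi]
  linarith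

end Pool.Agent.Helper27.TT
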