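import Mathlib
import Pool.Agent.Helper27.TT.C3
import Pool.Agent.Helper27.TT.C4
import Pool.Agent.Helper27.TT.D1
import Pool.Agent.Helper27.TT.E0
import Pool.Agent.Helper27.TT.E1
import Pool.Agent.Helper27.TT.E2
import Pool.Agent.Helper27.TT.E3
import Pool.Agent.Helper27.TT.E4
import Pool.Agent.Helper27.TT.E5
import Pool.Agent.Helper27.TT.W

/-!
# TT-F: the twisted torus knots `T(p, k p ± 1; p - 1, s)`
-/

set_option autoImplicit false

namespace Pool.Agent.Helper27.TT

open Real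

theorem win_of (m t k A N : ℕ) (hm : 3 ≤ m) (ht : 1 ≤ t) (hk : 1 ≤ k)
    (hA : A = k * (m + 1) + m * (t + 1)) (hN : 0 < N)
    (hlo : π / ((m + 1) * A) < π / N) (hhi : π / N ≤ π / (m * (A + 2))) :
    Win (π / N) (m * (π / N)) (m * (t + 1) * (π / N)) (A * (π / N)) ((m + 1) * A * (π / N) - π) ∧
      m * (A * (π / N) + 2 * (π / N)) ≤ π := by
  have hNr : (0 : ℝ) < N := by exact_mod_cast hN
  have hφ : 0 < π / N := div_pos pi_pos hNr
  set φ := π / N with hφd
  have hmr : (3 : ℝ) ≤ m := by exact_mod_cast hm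
  have htr : (1 : ℝ) ≤ t := by exact_mod_cast ht
  have hkr : (1 : ℝ) ≤ k := by exact_mod_cast hk
  have hAr : (A : ℝ) = k * (m + 1) + m * (t + 1) := by rw [hA]; push_cast; ring
  have hA0 : (0 : ℝ) < A := by rw [hAr]; positivity
  have hmu : m * (A * φ + 2 * φ) ≤ π := by
    have h1 : (0 : ℝ) < m * (A + 2) := by positivity
    have h2 : φ * (m * (A + 2)) ≤ π := by
      rwa [le_div_iff₀ h1] at hhi
    nlinarith
  refine ⟨⟨hφ, ?_, ?_, ?_, ?_, ?_, ?_⟩, hmu⟩
  · nlinarith
  · have : (0 : ℝ) ≤ (m * φ) * (t - 1) := by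
      apply mul_nonneg (by positivity) (by linarith)
    nlinarith
  · rw [hAr]
    have : (0 : ℝ) ≤ ((m + 1) * φ) * (k - 1) := by
      apply mul_nonneg (by positivity) (by linarith)
    nlinarith
  · have h1 : (0 : ℝ) < (m + 1) * A := by positivity
    rw [div_lt_iff₀ h1] at hlo
    linarith
  · linarith
  · have h1 : 0 ≤ (A * φ + 2 * φ) := by positivity
    nlinarith

theorem no_zero (m t k A N : ℕ) (hm : 3 ≤ m) (ht : 1 ≤ t) (hk : 1 ≤ k)
    (hA : A = k * (m + 1) + m * (t + 1)) (hN : 0 < N)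
    (hlo : π / ((m + 1) * A) < π / N) (hhi : π / N ≤ π / (m * (A + 2)))
    (h0 : EE m t A (π / N) = 0) (h4 : 4 ∣ N → EE m t A (π / 2 + π / N) = 0)
    (h1 : N % 2 = 1 → EE m t A (π / 2 + π / N / 2) = 0)
    (h2 : N % 4 = 2 → EE m t A (π / 2 + 2 * (π / N)) = 0) : False := by
  obtain ⟨w, hmu⟩ := win_of m t k A N hm ht hk hA hN hlo hhi
  set φ := π / N with hφd
  obtain ⟨h, hh⟩ : ∃ h, h = m * φ := ⟨_, rfl⟩
  obtain ⟨x, hx⟩ : ∃ x, x = m * (t + 1) * φ := ⟨_, rfl⟩
  obtain ⟨y, hy⟩ : ∃ y, y = A * φ := ⟨_, rfl⟩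
  obtain ⟨e, he⟩ : ∃ e, e = (m + 1) * A * φ - π := ⟨_, rfl⟩
  rw [← hh, ← hx, ← hy, ← he] at w
  -- the angles
  have a1 : ∀ c : ℝ, m * (t + 1) * (c * φ) = c * x := fun c => by rw [hx]; ring
  have a2 : ∀ c : ℝ, (m + 1) * A * (c * φ) = c * (e + π) := fun c => by rw [he]; ring
  have a3 : ∀ c : ℝ, (A + 1) * (c * φ) = c * (y + φ) := fun c => by rw [hy]; ring
  have a4 : ∀ c : ℝ, m * t * (c * φ) = c * (x - h) := fun c => by rw [hx, hh]; ring
  have a5 : ∀ c : ℝ, (m + 1) * (A + 1) * (c * φ) = c * (e + h + φ + π) := fun c => by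
    rw [he, hh]; ring
  have a6 : ∀ c : ℝ, A * (c * φ) = c * y := fun c => by rw [hy]; ring
  -- the base equation
  have hb : sin x * sin e * sin (y + φ) = sin (x - h) * sin (e + h + φ) * sin y := by
    unfold EE at h0
    have e1 := a1 1
    have e2 := a2 1
    have e3 := a3 1
    have e4 := a4 1
    have e5 := a5 1
    have e6 := a6 1
    rw [one_mul, one_mul] at e1 e2 e3 e4 e5 e6
    rw [e1, e2, e3, e4, e5, e6, sin_add_pi, sin_add_pi] at h0
    linarith
  rcases Nat.even_or_odd' N with ⟨N', hN' | hN'⟩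
  · rcases Nat.even_or_odd' N' with ⟨N'', hN'' | hN''⟩
    · -- `4 ∣ N`
      have hE := h4 ⟨N'', by omega⟩
      have e1 := a1 1
      have e2 := a2 1
      have e3 := a3 1
      have e4 := a4 1
      have e5 := a5 1
      have e6 := a6 1
      rw [one_mul, one_mul] at e1 e2 e3 e4 e5 e6
      rcases Nat.mod_two_eq_zero_or_one m with hm2 | hm2
      · rcases Nat.mod_two_eq_zero_or_one k with hk2 | hk2
        · have hc := conj_oe m k t A hm2 hk2 hA φ hE
          rw [e1, e2, e3, e4, e5, e6, sin_add_pi, cos_add_pi] at hc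
          exact r4_oe φ h x y e w hb (by linarith)
        · have hc := conj_oo m k t A hm2 hk2 hA φ hE
          rw [e1, e2, e3, e4, e5, e6, sin_add_pi, cos_add_pi] at hc
          exact r4_oo φ h x y e w hb (by linarith)
      · rcases Nat.mod_two_eq_zero_or_one t with ht2 | ht2
        · have hc := conj_eo m k t A hm2 ht2 hA φ hE
          rw [e1, e2, e3, e4, e5, e6, sin_add_pi, sin_add_pi] at hc
          exact r4_eo φ h x y e w hb (by linarith)
        · have hc := conj_es m k t A hm2 ht2 hA φ hE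
          rw [e1, e2, e3, e4, e5, e6, sin_add_pi, sin_add_pi] at hc
          exact r4_es φ h x y e w hb (by linarith)
    · -- `N % 4 = 2`
      have hE := h2 (by omega)
      have e1 := a1 2
      have e2 := a2 2
      have e3 := a3 2
      have e4 := a4 2
      have e5 := a5 2
      have e6 := a6 2
      have s2 : ∀ u, sin (2 * (u + π)) = sin (2 * u) := fun u => by
        rw [mul_add, sin_add_two_pi]
      have c2 : ∀ u, cos (2 * (u + π)) = cos (2 * u) := fun u => by
        rw [mul_add, cos_add_two_pi]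
      have hyp : 0 ≤ y + 2 * φ := by
        have := w.hy; have := w.hx; have := w.hh; have := w.hφ
        linarith
      have hmu' : m * (y + 2 * φ) ≤ π := by rw [hy]; exact hmu
      rcases Nat.mod_two_eq_zero_or_one m with hm2 | hm2
      · have hm4 : (4 : ℝ) ≤ m := by
          have : 4 ≤ m := by omega
          exact_mod_cast this
        have h4' : 4 * (y + 2 * φ) ≤ π := by nlinarith
        rcases Nat.mod_two_eq_zero_or_one k with hk2 | hk2
        · have hc := conj_oe m k t A hm2 hk2 hA (2 * φ) hE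
          rw [e1, e2, e3, e4, e5, e6, s2, c2] at hc
          exact r2_oe φ h x y e w h4' hb hc
        · have hc := conj_oo m k t A hm2 hk2 hA (2 * φ) hE
          rw [e1, e2, e3, e4, e5, e6, s2, c2] at hc
          exact r2_oo φ h x y e w h4' hc
      · rcases (show m = 3 ∨ 5 ≤ m by omega) with hm3 | hm5
        · have h3 : h = 3 * φ := by rw [hh, hm3]; norm_num
          have hy4 : π / 4 < y := by
            have h5 := w.he
            rw [he, hm3] at h5
            rw [hy]
            norm_num at h5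
            linarith
          rcases Nat.mod_two_eq_zero_or_one t with ht2 | ht2
          · have hc := conj_eo m k t A hm2 ht2 hA (2 * φ) hE
            rw [e1, e2, e3, e4, e5, e6, s2, s2] at hc
            exact s_eo φ h x y e w h3 hy4 hb hc
          · have hc := conj_es m k t A hm2 ht2 hA (2 * φ) hE
            rw [e1, e2, e3, e4, e5, e6, s2, s2] at hc
            exact s_es φ h x y e w h3 hy4 hb hc
        · have hm5' : (5 : ℝ) ≤ m := by exact_mod_cast hm5
          have h5' : 5 * (y + 2 * φ) ≤ π := by nlinarith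
          have h4' : 4 * (y + 2 * φ) ≤ π := by linarith
          rcases Nat.mod_two_eq_zero_or_one t with ht2 | ht2
          · have hc := conj_eo m k t A hm2 ht2 hA (2 * φ) hE
            rw [e1, e2, e3, e4, e5, e6, s2, s2] at hc
            exact r2_eo φ h x y e w h5' hb hc
          · have hc := conj_es m k t A hm2 ht2 hA (2 * φ) hE
            rw [e1, e2, e3, e4, e5, e6, s2, s2] at hc
            exact r2_es φ h x y e w h4' hc
  · -- `N` odd
    have hE := h1 (by omega)
    have hhalf : φ / 2 = (1 / 2) * φ := by ring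
    rw [hhalf] at hE
    have e1 := a1 (1 / 2)
    have e2 := a2 (1 / 2)
    have e3 := a3 (1 / 2)
    have e4 := a4 (1 / 2)
    have e5 := a5 (1 / 2)
    have e6 := a6 (1 / 2)
    have s2 : ∀ u, sin (1 / 2 * (u + π)) = cos (u / 2) := fun u => by
      rw [show 1 / 2 * (u + π) = u / 2 + π / 2 by ring, sin_add_pi_div_two]
    have c2 : ∀ u, cos (1 / 2 * (u + π)) = -sin (u / 2) := fun u => by
      rw [show 1 / 2 * (u + π) = u / 2 + π / 2 by ring, cos_add_pi_div_two]
    have hf : ∀ u : ℝ, 1 / 2 * u = u / 2 := fun u => by ring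
    rcases Nat.mod_two_eq_zero_or_one m with hm2 | hm2
    · rcases Nat.mod_two_eq_zero_or_one k with hk2 | hk2
      · have hc := conj_oe m k t A hm2 hk2 hA (1 / 2 * φ) hE
        rw [e1, e2, e3, e4, e5, e6, s2, c2, hf, hf, hf, hf] at hc
        exact ro_oe φ h x y e w (by linarith)
      · have hc := conj_oo m k t A hm2 hk2 hA (1 / 2 * φ) hE
        rw [e1, e2, e3, e4, e5, e6, s2, c2, hf, hf, hf, hf] at hc
        exact ro_oo φ h x y e w (by linarith)
    · rcases Nat.mod_two_eq_zero_or_one t with ht2 | ht2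
      · have hc := conj_eo m k t A hm2 ht2 hA (1 / 2 * φ) hE
        rw [e1, e2, e3, e4, e5, e6, s2, s2, hf, hf, hf, hf] at hc
        exact ro_eo φ h x y e w hc
      · have hc := conj_es m k t A hm2 ht2 hA (1 / 2 * φ) hE
        rw [e1, e2, e3, e4, e5, e6, s2, s2, hf, hf, hf, hf] at hc
        exact ro_es φ h x y e w hc

theorem EE_continuous (m t A : ℕ) : Continuous (EE m t A) := by
  unfold EE
  fun_prop

/-- No product of cyclotomic polynomials has the same zeros as `EE`. -/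
theorem no_cyc (m t k A : ℕ) (hm : 3 ≤ m) (ht : 1 ≤ t) (hk : 1 ≤ k)
    (hA : A = k * (m + 1) + m * (t + 1)) (M : Multiset ℕ) (hM : ∀ N ∈ M, 0 < N)
    (h1 : ∀ φ, cyP M φ = 0 → EE m t A φ = 0)
    (h2 : ∀ φ, 0 < φ → φ ≤ π / (m * (A + 2)) → EE m t A φ = 0 → cyP M φ = 0) : False := by
  have hmr : (3 : ℝ) ≤ m := by exact_mod_cast hm
  have htr : (1 : ℝ) ≤ t := by exact_mod_cast ht
  have hkr : (1 : ℝ) ≤ k := by exact_mod_cast hk
  have hAr : (A : ℝ) = k * (m + 1) + m * (t + 1) := by rw [hA]; push_cast; ring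
  have hA0 : (0 : ℝ) < A := by rw [hAr]; positivity
  have ha : 0 < π / ((m + 1) * A) := by positivity
  have hab : π / ((m + 1) * A) < π / (m * (A + 2)) := by
    apply div_lt_div_of_pos_left pi_pos (by positivity)
    rw [hAr]
    have e1 : (0 : ℝ) ≤ (m + 1) * (k - 1) := mul_nonneg (by linarith) (by linarith)
    have e2 : (0 : ℝ) ≤ m * (t - 1) := mul_nonneg (by linarith) (by linarith)
    nlinarith
  have hb : π / (m * (A + 2)) < π := by
    rw [div_lt_iff₀ (by positivity)]
    have e1 : (1 : ℝ) < m * (A + 2) := by nlinarith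
    nlinarith [pi_pos, mul_pos pi_pos (sub_pos.2 e1)]
  obtain ⟨N, hN, hl, hh, h0, c4, c1, c2⟩ := engine M hM (EE m t A) (EE_continuous m t A)
    (π / ((m + 1) * A)) (π / (m * (A + 2))) ha hab hb h1 h2
    (fun φ p1 p2 => EE_pos m t k A hm ht hk hA φ p1 p2) (EE_nonpos m t k A hm ht hk hA)
  exact no_zero m t k A N hm ht hk hA hN hl hh h0 c4 c1 c2

theorem sin_pos_win (m A n : ℕ) (hm : 3 ≤ m) (φ : ℝ) (h0 : 0 < φ)
    (h1 : φ ≤ π / (m * (A + 2))) (hn : 0 < n) (hn1 : n ≤ A + 1 ∨ n ≤ m) : 0 < sin (n * φ) := by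
  have hmr : (3 : ℝ) ≤ m := by exact_mod_cast hm
  have hnr : (0 : ℝ) < n := by exact_mod_cast hn
  apply sin_pos_of_pos_of_lt_pi (by positivity)
  rw [le_div_iff₀ (by positivity)] at h1
  have hAr : (0 : ℝ) ≤ A := Nat.cast_nonneg A
  rcases hn1 with h2 | h2
  · have h3 : (n : ℝ) ≤ A + 1 := by exact_mod_cast h2
    nlinarith [mul_pos h0 (by positivity : (0 : ℝ) < A + 2)]
  · have h3 : (n : ℝ) ≤ m := by exact_mod_cast h2
    nlinarith [mul_pos h0 (by positivity : (0 : ℝ) < m)]

open Pool.Agent.Helper62.OB in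
theorem no_plus (m k t : ℕ) (hm : 3 ≤ m) (hk : 1 ≤ k) (ht : 1 ≤ t)
    (hc : IsCyclotomicProduct (alexander (tt m (k * (m + 1) + 1) m (t + 1)))) : False := by
  obtain ⟨M, hM, h⟩ := cyc_plus m k m (t + 1) (k * (m + 1) + 1)
    (k * (m + 1) + 1 + m * (t + 1)) (by omega) le_rfl rfl rfl hc
  set A := k * (m + 1) + m * (t + 1) with hA
  have hdA : k * (m + 1) + 1 + m * (t + 1) = A + 1 := by omega
  have hE := EE_plus m k t (k * (m + 1) + 1) (k * (m + 1) + 1 + m * (t + 1)) A (by omega) rfl rfl hA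
  refine no_cyc m t k A hm ht hk hA M hM ?_ ?_
  · intro φ h0
    obtain ⟨c, hc0, h1⟩ := h φ
    rw [h0, zero_mul] at h1
    have h2 := (mul_eq_zero.1 h1.symm).resolve_left hc0
    have h3 := Complex.ofReal_eq_zero.1 h2
    rw [← hE φ, h3, zero_mul]
  · intro φ p0 p1 h0
    obtain ⟨c, hc0, h1⟩ := h φ
    have s1 := sin_pos_win m A m hm φ p0 p1 (by omega) (Or.inr le_rfl)
    have s2 := sin_pos_win m A A hm φ p0 p1 (by rw [hA]; positivity) (Or.inl (by omega))
    have s3 := sin_pos_win m A (A + 1) hm φ p0 p1 (by omega) (Or.inl le_rfl)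
    rw [← hE φ] at h0
    have h2 := (mul_eq_zero.1 h0).resolve_right (mul_pos s1 s2).ne'
    rw [h2, Complex.ofReal_zero, mul_zero, hdA] at h1
    refine (mul_eq_zero.1 h1).resolve_right ?_
    exact_mod_cast s3.ne'

open Pool.Agent.Helper62.OB in
theorem no_minus (m k s q : ℕ) (hm : 3 ≤ m) (hk : 2 ≤ k) (hs : 1 ≤ s) (hq : q + 1 = k * (m + 1))
    (hc : IsCyclotomicProduct (alexander (tt m q m s))) : False := by
  obtain ⟨M, hM, h⟩ := cyc_minus m k m s q (q + m * s) (by omega) (by omega) le_rfl hq rfl hc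
  set A := q + m * s with hA
  have hE := EE_minus m k s q A (by omega) (by omega) hq hA
  have hA' : A = (k - 1) * (m + 1) + m * (s + 1) := by
    obtain ⟨k', rfl⟩ : ∃ k', k = k' + 1 := ⟨k - 1, by omega⟩
    rw [Nat.add_sub_cancel, hA]
    have h1 : (k' + 1) * (m + 1) = k' * (m + 1) + (m + 1) := by ring
    have h2 : m * (s + 1) = m * s + m := by ring
    omega
  have hA0 : 0 < A := by
    rw [hA']
    have : 0 < m * (s + 1) := by positivity
    omega
  refine no_cyc m s (k - 1) A hm hs (by omega) hA' M hM ?_ ?_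
  · intro φ h0
    obtain ⟨c, hc0, h1⟩ := h φ
    rw [h0, zero_mul] at h1
    have h2 := (mul_eq_zero.1 h1.symm).resolve_left hc0
    have h3 := Complex.ofReal_eq_zero.1 h2
    rw [← hE φ, h3, zero_mul]
  · intro φ p0 p1 h0
    obtain ⟨c, hc0, h1⟩ := h φ
    have s1 := sin_pos_win m A m hm φ p0 p1 (by omega) (Or.inr le_rfl)
    have s2 := sin_pos_win m A A hm φ p0 p1 hA0 (Or.inl (by omega))
    have s3 := sin_pos_win m A (A + 1) hm φ p0 p1 (by omega) (Or.inl le_rfl)
    rw [← hE φ] at h0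
    have h2 := (mul_eq_zero.1 h0).resolve_right (mul_pos s1 s3).ne'
    rw [h2, Complex.ofReal_zero, mul_zero] at h1
    refine (mul_eq_zero.1 h1).resolve_right ?_
    exact_mod_cast s2.ne'

open Pool.Agent.Helper62.OB in
/-- The Li-Ni statement for the twisted torus knots `T(m + 1, k (m + 1) ± 1; m, s)`. -/
theorem main (m k s q : ℕ) (hm : 3 ≤ m) (hk : 1 ≤ k) (hs : 1 ≤ s)
    (hq : q = k * (m + 1) + 1 ∨ q + 1 = k * (m + 1))
    (hc : IsCyclotomicProduct (alexander (tt m q m s))) :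
    IsTorusKnot ⟨m, tt m q m s⟩ ∧
      ((q = k * (m + 1) + 1 ∧ s = 1) ∨ (q + 1 = k * (m + 1) ∧ k = 1)) := by
  rcases hq with hq | hq
  · rcases (show s = 1 ∨ 2 ≤ s by omega) with h1 | h1
    · subst h1
      subst hq
      exact ⟨torus_plus m k (by omega), Or.inl ⟨rfl, rfl⟩⟩
    · exfalso
      obtain ⟨t, rfl⟩ : ∃ t, s = t + 1 := ⟨s - 1, by omega⟩
      subst hq
      exact no_plus m k t hm hk (by omega) hc
  · rcases (show k = 1 ∨ 2 ≤ k by omega) with h1 | h1
    · subst h1
      have hqm : q = m := by omega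
      subst hqm
      exact ⟨torus_minus q s (by omega), Or.inr ⟨hq, rfl⟩⟩
    · exact (no_minus m k s q hm h1 hs hq hc).elim

end Pool.Agent.Helper27.TT
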