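import Mathlib
import Pool.Agent.Helper27.TT.D1
import Pool.Agent.Helper62.OB.Iter

/-!
# TT-D2: the torus knots and cables among `T(p, q; 2, 1)` and `T(p, q; p - 2, 1)`

`D = rn m 0 m`, `F = rn m 0 (m - 1) ^ m`, `F' = rn m 0 (m - 2) ^ (m - 1)`.
* `torus_three`: `tt m m (m - 1) 1 = F' D^m = F' (up m m) F` (`pow_up` of `D1`), `F` commutes with `F'`; `up m m = up m (m - 1) σ_{m-1}`, so it is conjugate to
  `F F' (up m (m - 1)) σ_{m-1} = addStrand (m - 1) (rn (m-1) 0 (m-1) ^ m * rn (m-1) 0 (m-2) ^ (m-1) * up (m-1) (m-1)) * sigma (last)`; destabilise.  On `m` strands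
  `rn (m-1) 0 (m-1) ^ m` is central and `up (m-1) (m-1)` is conjugate to `rn (m-1) 0 (m-1)` by an element which commutes with `rn (m-1) 0 (m-2) ^ (m-1)` (`up_conj`), so this is
  conjugate to `tt (m - 1) (m + 1) (m - 1) 1`, which is `torus_plus (m - 1) 1`.
* `cable_four`: `tt 3 (4 k + 1) 2 1 = σ_0² D^(4k+1)`, conjugate to `σ_1 σ_0 D^(4k+1) = oneBridge 3 2 (4 k + 1)` (`D^4` central, `σ_0 D = D σ_1`: `shift`); then as in
  `iter_of_cond` (`Helper62/OB/Iter.lean`, second case): `oneBridge_B` and `cable_iter 3 2 2 (2 k + 1)` with `κ = -1`, `rn_shift`.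
* `cable_five`: `tt 4 4 2 1 = σ_0² D^4 = σ_0² (up 4 4) F` is conjugate to `F σ_0² (up 4 3) σ_3`, destabilise to `rn 3 0 3 ^ 4 * σ_0² σ_0 σ_1 σ_2` on 4 strands; `σ_0³ σ_1 σ_2` is conjugate to
  `σ_0³ σ_2 σ_1` (conjugate by `σ_2`, which commutes with `σ_0`) and to `σ_0² σ_2 σ_1 σ_0 = σ_0² rn 3 0 3`; so this is `tt 3 5 2 1`, `cable_four` with `k = 1`.
* `torus_is_iter`: `torus_iter` and `IsIterTorus.markov`.
-/

set_option autoImplicit false

namespace Pool.Agent.Helper27.TT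

open Pool.Agent.Helper62.OB

theorem d2_addStrand_sg (k i : ℕ) (h : i < k) : addStrand k (sg k i) = sg (k + 1) i := by
  rw [braidalg_sg_lt k i h, braidalg_sg_lt (k + 1) i (by omega), addStrand, braidLift_sigma]
  rfl

theorem d2_addStrand_rn (k a n : ℕ) (h : a + n ≤ k) : addStrand k (rn k a n) = rn (k + 1) a n := by
  induction n with
  | zero => rw [braidalg_rn_zero, braidalg_rn_zero, map_one]
  | succ n ih =>
    rw [braidalg_rn_succ, braidalg_rn_succ, map_mul, ih (by omega), d2_addStrand_sg k _ (by omega)]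

theorem d2_addStrand_up (k n : ℕ) (h : n ≤ k) : addStrand k (up k n) = up (k + 1) n := by
  induction n with
  | zero =>
    change addStrand k 1 = 1
    rw [map_one]
  | succ n ih =>
    change addStrand k (up k n * sg k n) = up (k + 1) n * sg (k + 1) n
    rw [map_mul, ih (by omega), d2_addStrand_sg k _ (by omega)]

theorem d2_comm_addStrand (k : ℕ) (x : BraidGroup k) :
    Commute (rn (k + 1) 0 k ^ (k + 1)) (addStrand k x) := by
  have h := congrArg (addStrand k) (central k x)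
  rw [map_mul, map_mul, map_pow, d2_addStrand_rn k 0 k (by omega)] at h
  exact h

theorem d2_comm_closure (m : ℕ) (g : BraidGroup m)
    (hg : g ∈ Subgroup.closure {x : BraidGroup m | ∃ i, i + 1 < m ∧ x = sg m i}) :
    Commute (rn m 0 (m - 1) ^ m) g := by
  induction hg using Subgroup.closure_induction with
  | mem y hy =>
    obtain ⟨i, hi, rfl⟩ := hy
    obtain ⟨k, rfl⟩ : ∃ k, m = k + 1 := ⟨m - 1, by omega⟩
    rw [Nat.add_sub_cancel]
    rw [← d2_addStrand_sg k i (by omega)]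
    exact d2_comm_addStrand k _
  | one => exact Commute.one_right _
  | mul y z _ _ hy hz => exact hy.mul_right hz
  | inv y _ hy => exact hy.inv_right

theorem d2_sg_last (k : ℕ) : sg (k + 1) k = sigma (Fin.last k) := by
  rw [braidalg_sg_lt (k + 1) k (by omega)]
  rfl

/-- destabilisation of `P * (up (k+1) (k+1)) * F` -/
theorem d2_destab (k : ℕ) (P : BraidGroup k) :
    SameClosure ⟨k + 1, addStrand k P * (up (k + 1) (k + 1) * rn (k + 1) 0 k ^ (k + 1))⟩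
      ⟨k, rn k 0 k ^ (k + 1) * P * up k k⟩ := by
  have h1 := sameClosure_conj (k + 1)
    (addStrand k P * (up (k + 1) (k + 1) * rn (k + 1) 0 k ^ (k + 1))) (rn (k + 1) 0 k ^ (k + 1))
  have h2 : rn (k + 1) 0 k ^ (k + 1) *
      (addStrand k P * (up (k + 1) (k + 1) * rn (k + 1) 0 k ^ (k + 1))) *
      (rn (k + 1) 0 k ^ (k + 1))⁻¹ =
      addStrand k (rn k 0 k ^ (k + 1) * P * up k k) * sigma (Fin.last k) := by
    rw [map_mul, map_mul, map_pow, d2_addStrand_rn k 0 k (by omega), d2_addStrand_up k k le_rfl,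
      ← d2_sg_last]
    have h3 : up (k + 1) (k + 1) = up (k + 1) k * sg (k + 1) k := rfl
    rw [h3]
    group
  rw [h2] at h1
  exact h1.trans _ _ _ (Relation.EqvGen.symm _ _ (Relation.EqvGen.rel _ _
    (MarkovMove.stabPos k (rn k 0 k ^ (k + 1) * P * up k k))))

theorem torus_is_iter (x : Σ m : ℕ, BraidGroup m) (h : IsTorusKnot x) : IsIterTorus x := by
  obtain ⟨n, t, hc, hs⟩ := h
  exact IsIterTorus.markov _ _ (Relation.EqvGen.symm _ _ hs) (torus_iter n t hc)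

theorem torus_three (m : ℕ) (hm : 2 ≤ m) : IsTorusKnot ⟨m, tt m m (m - 1) 1⟩ := by
  obtain ⟨k, rfl⟩ : ∃ k, m = k + 1 := ⟨m - 1, by omega⟩
  have hk : 1 ≤ k := by omega
  rw [Nat.add_sub_cancel]
  have h1 : tt (k + 1) (k + 1) k 1 = addStrand k (rn k 0 (k - 1) ^ k) *
      (up (k + 1) (k + 1) * rn (k + 1) 0 k ^ (k + 1)) := by
    have h2 := pow_up (k + 1) (by omega)
    rw [Nat.add_sub_cancel] at h2
    rw [tt, h2, map_pow, d2_addStrand_rn k 0 (k - 1) (by omega), mul_one]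
  have h3 := d2_destab k (rn k 0 (k - 1) ^ k)
  rw [← h1] at h3
  obtain ⟨g, hg, hgu⟩ := up_conj k k le_rfl
  have h4 := d2_comm_closure k g hg
  have h5 : g * (rn k 0 k ^ (k + 1) * rn k 0 (k - 1) ^ k * up k k) * g⁻¹ =
      tt k (1 * (k + 1) + 1) k 1 := by
    have h6 := central k g
    have h7 := central k (rn k 0 (k - 1) ^ k)
    rw [tt, mul_one]
    calc g * (rn k 0 k ^ (k + 1) * rn k 0 (k - 1) ^ k * up k k) * g⁻¹
        = (g * rn k 0 k ^ (k + 1)) * rn k 0 (k - 1) ^ k * up k k * g⁻¹ := by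
          simp only [mul_assoc]
      _ = rn k 0 k ^ (k + 1) * (g * rn k 0 (k - 1) ^ k) * up k k * g⁻¹ := by
          rw [← h6]; simp only [mul_assoc]
      _ = (rn k 0 k ^ (k + 1) * rn k 0 (k - 1) ^ k) * (g * up k k * g⁻¹) := by
          rw [← h4.eq]; simp only [mul_assoc]
      _ = rn k 0 (k - 1) ^ k * rn k 0 k ^ (1 * (k + 1) + 1) := by
          rw [hgu, h7, mul_assoc, ← pow_succ, one_mul]
  obtain ⟨n, t, hc, hs⟩ := torus_plus k 1 hk
  refine ⟨n, t, hc, ?_⟩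
  refine h3.trans _ _ _ ?_
  have h8 := sameClosure_conj k (rn k 0 k ^ (k + 1) * rn k 0 (k - 1) ^ k * up k k) g
  rw [h5] at h8
  exact h8.trans _ _ _ hs

theorem cable_four (k : ℕ) : IsIterTorus ⟨3, tt 3 (4 * k + 1) 2 1⟩ := by
  have h1 : IsIterTorus ⟨3, oneBridge 3 2 (4 * k + 1)⟩ := by
    have h1 := cable_iter 3 2 2 (2 * k + 1) (by omega) (by omega) (by norm_num)
      (by
        rw [Nat.coprime_comm, Nat.coprime_two_left]
        exact ⟨k, rfl⟩) (-1)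
      ⟨2 * k + 1, -1, by push_cast; ring⟩
    rw [zpow_neg_one, ← pow_mul, show 2 * (2 * k + 1) = 4 * k + 1 + 1 by ring] at h1
    have h2 := rn_shift 3 0 1 2 (by omega)
    rw [zero_add] at h2
    have h3 : rn 3 2 1 = (rn 3 0 3 ^ 2)⁻¹ * rn 3 0 1 * rn 3 0 3 ^ 2 := by
      rw [mul_assoc, h2, inv_mul_cancel_left]
    refine iter_conj (h := (rn 3 0 3 ^ 2)⁻¹) ?_ h1
    rw [oneBridge_B 3 2 (4 * k + 1) (by omega), h3]
    have h4 : rn 3 0 3 ^ 2 * rn 3 0 3 ^ (4 * k + 1 + 1) =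
        rn 3 0 3 ^ (4 * k + 1 + 1) * rn 3 0 3 ^ 2 := by
      rw [← pow_add, ← pow_add, add_comm]
    rw [mul_inv_rev, mul_inv_rev, inv_inv]
    simp only [mul_assoc]
    rw [h4]
  refine iter_conj' (h := sg 3 1) ?_ h1
  have h5 : sg 3 0 * rn 3 0 3 ^ (4 * k + 1) = rn 3 0 3 ^ (4 * k + 1) * sg 3 1 := by
    have h6 : Commute (rn 3 0 3 ^ 4) (sg 3 0) := central 3 (sg 3 0)
    have h7 : sg 3 0 * rn 3 0 3 = rn 3 0 3 * sg 3 1 := shift 3 0 (by omega)
    have h8 : Commute (rn 3 0 3 ^ (4 * k)) (sg 3 0) := by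
      rw [pow_mul]
      exact h6.pow_left k
    rw [pow_succ, ← mul_assoc, ← h8.eq, mul_assoc, h7, mul_assoc]
  have h9 : rn 3 0 2 = sg 3 1 * sg 3 0 := by
    rw [show (2 : ℕ) = 1 + 1 from rfl, braidalg_rn_succ, braidalg_rn_one, zero_add]
  rw [oneBridge, h9, tt]
  change _ = sg 3 1 * (rn 3 0 1 ^ (2 * 1) * rn 3 0 3 ^ (4 * k + 1)) * (sg 3 1)⁻¹
  rw [braidalg_rn_one, mul_one, pow_two, mul_assoc (sg 3 0) (sg 3 0), h5]
  group

theorem cable_five : IsIterTorus ⟨4, tt 4 4 2 1⟩ := by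
  have h1 : tt 4 4 2 1 = addStrand 3 (sg 3 0 ^ 2) * (up (3 + 1) (3 + 1) * rn (3 + 1) 0 3 ^ (3 + 1)) := by
    have h2 := pow_up 4 (by omega)
    rw [tt, h2, map_pow, d2_addStrand_sg 3 0 (by omega)]
    change rn 4 0 1 ^ (2 * 1) * _ = _
    rw [braidalg_rn_one, mul_one]
  have h3 := d2_destab 3 (sg 3 0 ^ 2)
  rw [← h1] at h3
  refine IsIterTorus.markov _ _ (Relation.EqvGen.symm _ _ h3) ?_
  have h4 := cable_four 1
  refine iter_conj' (h := (sg 3 0)⁻¹ * sg 3 2) ?_ h4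
  have h5 : up 3 3 = sg 3 0 * sg 3 1 * sg 3 2 := by
    change 1 * sg 3 0 * sg 3 1 * sg 3 2 = _
    rw [one_mul]
  have h6 : rn 3 0 3 = sg 3 2 * (sg 3 1 * sg 3 0) := by
    rw [show (3 : ℕ) = 1 + 1 + 1 from rfl, braidalg_rn_succ, braidalg_rn_succ, braidalg_rn_one]
  have hc := central 3
  have h7 : Commute (sg 3 2) (sg 3 0) := sg_comm 3 2 0 (by omega)
  rw [tt]
  change rn 3 0 1 ^ (2 * 1) * rn 3 0 3 ^ (4 + 1) = _
  rw [braidalg_rn_one, mul_one, h5]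
  have h8 : (sg 3 0)⁻¹ * sg 3 2 * (rn 3 0 3 ^ (3 + 1) * sg 3 0 ^ 2 * (sg 3 0 * sg 3 1 * sg 3 2)) *
      ((sg 3 0)⁻¹ * sg 3 2)⁻¹ =
      rn 3 0 3 ^ (3 + 1) * ((sg 3 0)⁻¹ * (sg 3 2 * sg 3 0 ^ 3) * sg 3 1 * sg 3 0) := by
    have h9 := hc ((sg 3 0)⁻¹ * sg 3 2)
    rw [mul_assoc (rn 3 0 3 ^ (3 + 1)), ← mul_assoc _ (rn 3 0 3 ^ (3 + 1)), ← h9]
    group
  rw [h8, (h7.pow_right 3).eq]
  have h10 : (sg 3 0)⁻¹ * (sg 3 0 ^ 3 * sg 3 2) * sg 3 1 * sg 3 0 = sg 3 0 ^ 2 * rn 3 0 3 := by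
    rw [h6]
    group
  rw [h10, ← mul_assoc, hc (sg 3 0 ^ 2), mul_assoc, ← pow_succ]

end Pool.Agent.Helper27.TT
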