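import Mathlib
import Pool.Agent.Helper27.TT.Defs
import Pool.Agent.Helper27.TT.C2

/-!
# TT-G0: the trigonometric function of `T(p, q; 2, 1)` and `T(p, q; p - 2, 1)`

`S 1 y φ = cos 0 = 1`, `S 2 y φ = cos (y φ) + cos (-(y φ)) = 2 cos (y φ)`, `sin (y φ) S n y φ = sin (n y φ)` (`sin_S` in `C2`).
-/

set_option autoImplicit false

namespace Pool.Agent.Helper27.TT

open Real

/-- `sin (M φ) sin (a φ) + 2 sin φ cos (b φ) sin (n a φ)` -/
noncomputable def GG (M a b n : ℕ) (φ : ℝ) : ℝ :=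
  sin (M * φ) * sin (a * φ) + 2 * sin φ * cos (b * φ) * sin ((n * a : ℕ) * φ)

theorem GG_continuous (M a b n : ℕ) : Continuous (GG M a b n) := by
  unfold GG
  fun_prop

theorem S_one (y φ : ℝ) : S 1 y φ = 1 := by
  simp [S]

theorem S_two (y φ : ℝ) : S 2 y φ = 2 * cos (y * φ) := by
  have h1 : S 2 y φ = cos (y * φ) + cos (-(y * φ)) := by
    unfold S
    rw [Finset.sum_range_succ, Finset.sum_range_one]
    congr 2
    · push_cast
      ring
    · push_cast
      ring
  rw [h1, cos_neg]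
  ring

/-- twists on two strands (`n = p - 2`) -/
theorem GG_two (M q e n : ℕ) (φ : ℝ) :
    (sin (M * φ) + sin φ * S 1 2 φ * S 2 e φ * S n q φ) * sin (q * φ) = GG M q e n φ := by
  have h := sin_S n (q : ℝ) φ
  unfold GG
  rw [S_one, S_two, Nat.cast_mul, ← h]
  ring

/-- twists on `r = p - 2` strands -/
theorem GG_three (M q e r : ℕ) (φ : ℝ) :
    (sin (M * φ) + sin φ * S 1 r φ * S r e φ * S 2 q φ) * sin (e * φ) = GG M e q r φ := by
  have h := sin_S r (e : ℝ) φ
  unfold GG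
  rw [S_one, S_two, Nat.cast_mul, ← h]
  ring

end Pool.Agent.Helper27.TT
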