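import Mathlib
import Pool.Agent.Helper27.TT.G0

/-!
# TT-G1: general facts about `GG`

* `GG_pos_small`: `M φ ≤ π`: the first term is `≥ 0` (`a < M`), the second is `> 0` (`0 < n a φ < M φ ≤ π`, `b φ < π / 2`).
* `GG_lower`: `δ = M φ - π`, `0 ≤ δ ≤ j φ`; `sin (M φ) = - sin δ ≥ - sin (j φ)`; `n a φ = π + δ - c φ`, `sin (n a φ) = sin (c φ - δ) ≥ sin ((c - j) φ)` as
  `(c - j) φ ≤ c φ - δ ≤ c φ ≤ π / 2`.
* `GG_at`, `GG_conj`: `M φ = N φ + j φ`, `n a φ = N φ - (c - j) φ` and `N φ = l π`: `sin (l π + x) = (-1)^l sin x`.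
* `sin_three`: if `A ≥ π` then `sin A ≤ 0` (`A ≤ 3 π / 2`); else choose `0 ≤ α' ≤ α`, ... with `α' + β' + γ' = A` (e.g. scale), and
  `sin (α' + β' + γ') ≤ sin α' + sin β' + sin γ'` strictly if `A > 0` (`sin (x + y) < sin x + sin y` for `x, y > 0`, `x + y ≤ π`), `sin` is increasing on `[0, π / 2]`.
* `sin_gt`: `sin B < sin A` for `0 ≤ B < A`, `A + B < π`: `sin A - sin B = 2 cos ((A + B)/2) sin ((A - B)/2)`.
-/

set_option autoImplicit false

namespace Pool.Agent.Helper27.TT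

open Real

theorem g1_cast (M a c n : ℕ) (hM : n * a + c = M) (φ : ℝ) :
    ((n * a : ℕ) : ℝ) * φ = M * φ - c * φ := by
  have h : (M : ℝ) = ((n * a : ℕ) : ℝ) + c := by
    rw [← hM]
    push_cast
    ring
  rw [h]
  ring

theorem g1_sub (c j : ℕ) (hj : j ≤ c) (φ : ℝ) :
    ((c - j : ℕ) : ℝ) * φ = c * φ - j * φ := by
  rw [Nat.cast_sub hj]
  ring

theorem GG_pos_small (M a b c n : ℕ) (hM : n * a + c = M) (hn : 1 ≤ n) (ha : 1 ≤ a) (hc : 1 ≤ c)
    (hb : 2 * b < M) (φ : ℝ) (h0 : 0 < φ) (h1 : M * φ ≤ π) : 0 < GG M a b n φ := by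
  have hna : a ≤ n * a := Nat.le_mul_of_pos_left a hn
  have hna1 : 1 ≤ n * a := le_trans ha hna
  have haM : (a : ℝ) ≤ M := by exact_mod_cast (by omega : a ≤ M)
  have hM1 : (1 : ℝ) < M := by exact_mod_cast (by omega : 1 < M)
  have hnaM : ((n * a : ℕ) : ℝ) < M := by exact_mod_cast (by omega : n * a < M)
  have hna0 : (0 : ℝ) < ((n * a : ℕ) : ℝ) := by exact_mod_cast (by omega : 0 < n * a)
  have hbM : 2 * (b : ℝ) < M := by exact_mod_cast hb
  have hb0 : (0 : ℝ) ≤ b := Nat.cast_nonneg b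
  have ha0 : (0 : ℝ) ≤ a := Nat.cast_nonneg a
  have s1 : 0 ≤ sin (M * φ) := sin_nonneg_of_nonneg_of_le_pi (by positivity) h1
  have s2 : 0 ≤ sin (a * φ) := sin_nonneg_of_nonneg_of_le_pi (by positivity)
    ((mul_le_mul_of_nonneg_right haM h0.le).trans h1)
  have s3 : 0 < sin φ := sin_pos_of_pos_of_lt_pi h0
    (lt_of_lt_of_le (by nlinarith : φ < M * φ) h1)
  have s4 : 0 < cos (b * φ) := by
    refine cos_pos_of_mem_Ioo ⟨?_, ?_⟩
    · have : 0 ≤ (b : ℝ) * φ := by positivity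
      linarith [pi_pos]
    · have : 2 * (b : ℝ) * φ < M * φ := mul_lt_mul_of_pos_right hbM h0
      linarith
  have s5 : 0 < sin (((n * a : ℕ) : ℝ) * φ) := sin_pos_of_pos_of_lt_pi (by positivity)
    (lt_of_lt_of_le (mul_lt_mul_of_pos_right hnaM h0) h1)
  unfold GG
  have := mul_nonneg s1 s2
  have := mul_pos (mul_pos (mul_pos two_pos s3) s4) s5
  linarith

theorem GG_lower (M a b c n j : ℕ) (hM : n * a + c = M) (hj : j ≤ c) (φ : ℝ) (h0 : 0 < φ)
    (h1 : π ≤ M * φ) (h2 : M * φ ≤ π + j * φ) (hj2 : j * φ ≤ π / 2) (ha : a * φ ≤ π)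
    (hb : b * φ ≤ π / 2) (hc : c * φ ≤ π / 2) :
    -(sin (j * φ) * sin (a * φ)) + 2 * sin φ * cos (b * φ) * sin ((c - j : ℕ) * φ) ≤
      GG M a b n φ := by
  have ha0 : (0 : ℝ) ≤ a := Nat.cast_nonneg a
  have hb0 : (0 : ℝ) ≤ b := Nat.cast_nonneg b
  have hcj0 : (0 : ℝ) ≤ ((c - j : ℕ) : ℝ) := Nat.cast_nonneg _
  obtain ⟨δ, hδ⟩ : ∃ δ, δ = M * φ - π := ⟨_, rfl⟩
  have hδ0 : 0 ≤ δ := by rw [hδ]; linarith
  have hδj : δ ≤ j * φ := by rw [hδ]; linarith
  have e1 : sin (M * φ) = -sin δ := by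
    have : (M : ℝ) * φ = δ + π := by rw [hδ]; ring
    rw [this, sin_add_pi]
  have e2 : sin (((n * a : ℕ) : ℝ) * φ) = sin (c * φ - δ) := by
    have : ((n * a : ℕ) : ℝ) * φ = π - (c * φ - δ) := by
      rw [g1_cast M a c n hM φ, hδ]; ring
    rw [this, sin_pi_sub]
  have hcj := g1_sub c j hj φ
  have i1 : sin δ ≤ sin (j * φ) :=
    sin_le_sin_of_le_of_le_pi_div_two (by linarith [pi_pos]) hj2 hδj
  have i2 : sin (((c - j : ℕ) : ℝ) * φ) ≤ sin (c * φ - δ) := by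
    have hx : 0 ≤ ((c - j : ℕ) : ℝ) * φ := by positivity
    refine sin_le_sin_of_le_of_le_pi_div_two (by linarith [pi_pos]) (by linarith) ?_
    rw [hcj]; linarith
  have s2 : 0 ≤ sin (a * φ) := sin_nonneg_of_nonneg_of_le_pi (by positivity) ha
  have s3 : 0 ≤ sin φ := by
    refine sin_nonneg_of_nonneg_of_le_pi h0.le ?_
    have hM1 : 1 ≤ M := by
      by_contra h
      have : M = 0 := by omega
      rw [this] at h1
      simp at h1
      linarith [pi_pos]
    have hM2 : (1 : ℝ) ≤ M := by exact_mod_cast hM1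
    rcases Nat.eq_zero_or_pos j with h | h
    · rw [h] at h2
      simp only [Nat.cast_zero, zero_mul, add_zero] at h2
      nlinarith
    · have : (1 : ℝ) ≤ j := by exact_mod_cast h
      nlinarith [pi_pos]
  have s4 : 0 ≤ cos (b * φ) := by
    have hx : 0 ≤ (b : ℝ) * φ := by positivity
    exact cos_nonneg_of_neg_pi_div_two_le_of_le (by linarith [pi_pos]) hb
  unfold GG
  rw [e1, e2]
  have j1 := mul_le_mul_of_nonneg_right i1 s2
  have j2 := mul_le_mul_of_nonneg_left i2 (mul_nonneg (mul_nonneg two_pos.le s3) s4)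
  linarith

theorem GG_at (M a b c n j N : ℕ) (hM : n * a + c = M) (hj : j ≤ c) (hN : N + j = M) (φ : ℝ)
    (h : N * φ = π) :
    GG M a b n φ =
      -(sin (j * φ) * sin (a * φ)) + 2 * sin φ * cos (b * φ) * sin ((c - j : ℕ) * φ) := by
  have hMN : (M : ℝ) * φ = π + j * φ := by
    rw [← hN, ← h]; push_cast; ring
  have e1 : sin (M * φ) = -sin (j * φ) := by
    rw [hMN, add_comm, sin_add_pi]
  have e2 : sin (((n * a : ℕ) : ℝ) * φ) = sin (((c - j : ℕ) : ℝ) * φ) := by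
    have : ((n * a : ℕ) : ℝ) * φ = π - ((c - j : ℕ) : ℝ) * φ := by
      rw [g1_cast M a c n hM φ, hMN, g1_sub c j hj φ]; ring
    rw [this, sin_pi_sub]
  unfold GG
  rw [e1, e2]
  ring

theorem GG_conj (M a b c n j N : ℕ) (hM : n * a + c = M) (hj : j ≤ c) (hN : N + j = M) (φ : ℝ)
    (l : ℤ) (h : N * φ = l * π) (hG : GG M a b n φ = 0) :
    sin (j * φ) * sin (a * φ) = 2 * sin φ * cos (b * φ) * sin ((c - j : ℕ) * φ) := by
  have hMN : (M : ℝ) * φ = j * φ + l * π := by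
    rw [← hN, ← h]; push_cast; ring
  have e1 : sin (M * φ) = (-1) ^ l * sin (j * φ) := by
    rw [hMN, sin_add_int_mul_pi]
  have e2 : sin (((n * a : ℕ) : ℝ) * φ) = -((-1) ^ l * sin (((c - j : ℕ) : ℝ) * φ)) := by
    have : ((n * a : ℕ) : ℝ) * φ = -(((c - j : ℕ) : ℝ) * φ) + l * π := by
      rw [g1_cast M a c n hM φ, hMN, g1_sub c j hj φ]; ring
    rw [this, sin_add_int_mul_pi, sin_neg]
    ring
  unfold GG at hG
  rw [e1, e2] at hG
  have hl : ((-1 : ℝ) ^ l) ≠ 0 := zpow_ne_zero _ (by norm_num)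
  have h3 : (-1 : ℝ) ^ l * (sin (j * φ) * sin (a * φ) -
      2 * sin φ * cos (b * φ) * sin (((c - j : ℕ) : ℝ) * φ)) = 0 := by
    rw [← hG]; ring
  have h4 := (mul_eq_zero.1 h3).resolve_left hl
  linarith

theorem g1_add (x y : ℝ) (hx : 0 < x) (hx1 : x ≤ π / 2) (hy : 0 < y) (hxy : x + y < π) :
    sin (x + y) < sin x + sin y := by
  rw [sin_add]
  have s1 : 0 < sin x := sin_pos_of_pos_of_lt_pi hx (by linarith)
  have s2 : 0 < sin y := sin_pos_of_pos_of_lt_pi hy (by linarith)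
  have c1 : cos y < 1 := by
    have := cos_lt_cos_of_nonneg_of_le_pi (x := 0) (y := y) le_rfl (by linarith) hy
    rwa [cos_zero] at this
  have c2 : cos x ≤ 1 := cos_le_one x
  nlinarith

theorem sin_three (α β γ A : ℝ) (h1 : 0 < α) (h2 : 0 < β) (h3 : 0 < γ) (h4 : α ≤ π / 2)
    (h5 : β ≤ π / 2) (h6 : γ ≤ π / 2) (h7 : 0 ≤ A) (h8 : A ≤ α + β + γ) :
    sin A < sin α + sin β + sin γ := by
  have s1 : 0 < sin α := sin_pos_of_pos_of_lt_pi h1 (by linarith [pi_pos])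
  have s2 : 0 < sin β := sin_pos_of_pos_of_lt_pi h2 (by linarith [pi_pos])
  have s3 : 0 < sin γ := sin_pos_of_pos_of_lt_pi h3 (by linarith [pi_pos])
  rcases le_or_gt π A with hA | hA
  · have h9 : 0 ≤ sin (A - π) := sin_nonneg_of_nonneg_of_le_pi (by linarith)
      (by linarith [pi_pos])
    have h10 : sin A = -sin (A - π) := by rw [sin_sub_pi, neg_neg]
    linarith
  rcases le_or_gt A α with hA1 | hA1
  · have := sin_le_sin_of_le_of_le_pi_div_two (by linarith [pi_pos]) h4 hA1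
    linarith
  have h9 := g1_add α (A - α) h1 h4 (by linarith) (by linarith)
  have e1 : α + (A - α) = A := by ring
  rw [e1] at h9
  have h10 : sin (A - α) ≤ sin β + sin γ := by
    rcases le_or_gt (A - α) β with hB | hB
    · have := sin_le_sin_of_le_of_le_pi_div_two (x := A - α) (y := β) (by linarith [pi_pos]) h5 hB
      linarith
    · have h11 := g1_add β (A - α - β) h2 h5 (by linarith) (by linarith)
      have e2 : β + (A - α - β) = A - α := by ring
      rw [e2] at h11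
      have := sin_le_sin_of_le_of_le_pi_div_two (x := A - α - β) (y := γ) (by linarith [pi_pos]) h6
        (by linarith)
      linarith
  linarith

theorem sin_gt (A B : ℝ) (h1 : 0 ≤ B) (h2 : B < A) (h3 : A + B < π) : sin B < sin A := by
  have h := sin_sub_sin A B
  have s1 : 0 < sin ((A - B) / 2) := sin_pos_of_pos_of_lt_pi (by linarith) (by linarith)
  have s2 : 0 < cos ((A + B) / 2) := cos_pos_of_mem_Ioo ⟨by linarith [pi_pos], by linarith⟩
  have := mul_pos (mul_pos two_pos s1) s2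
  linarith

end Pool.Agent.Helper27.TT
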