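import Mathlib
import Pool.Agent.Helper27.TT.Defs

/-!
# TT-G2: the relation `2 cos φ sin (g φ) = sin (c φ)` has no solution at the conjugate points

* `sq_even`, `sq_odd`: `n = 2 l`: `n (π/2 + ψ) = l π + n ψ`; `n = 2 l + 1`: `l π + π / 2 + n ψ`.
* `big3`: `sin θ ≥ sin 3ψ = 3 sin ψ - 4 sin³ ψ > 2 sin ψ` as `sin ψ < 1 / 2`; `big5`: `sin θ ≥ sin 5φ > 2 sin 2φ` for `0 < φ ≤ 1 / 6`
  (`sin 5φ ≥ 5φ - (5φ)³/6`, `2 sin 2φ ≤ 4φ`, or with `s = sin φ`: `sin 5φ = 5 s - 20 s³ + 16 s⁵`, `2 sin 2φ ≤ 4 s`).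
* `R1_contra`: at `φ' = π/2 + ψ`: `cos φ' = - sin ψ`, so squaring the relation gives `sin² (c φ') ≤ 4 sin² ψ`.
  `4 ∣ N`, `ψ = φ = π / N`: `c` even: `sin² (c φ)`, `3 φ ≤ c φ ≤ π - 3 φ`; `c` odd: `cos² (c φ) = sin² (π / 2 - c φ)`, `π / 2 - c φ = (N - 2 c) φ / 2`.
  `N` odd, `ψ = π / (2 N)`: `c` even: `sin² (c ψ)`, `π = 2 N ψ`; `c` odd: `cos² (c ψ) = sin² ((N - c) ψ)`.
  `N % 4 = 2`, `ψ = 2 φ`: `c` even: `sin² (2 c φ)`, `c` odd: `cos² (2 c φ) = sin² ((N - 4 c) φ / 2)`; use `big5` with `φ`, `2 sin ψ = 2 sin 2φ`.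
-/

set_option autoImplicit false

namespace Pool.Agent.Helper27.TT

open Real

theorem sq_even (n : ℕ) (hn : n % 2 = 0) (ψ : ℝ) :
    sin (n * (π / 2 + ψ)) ^ 2 = sin (n * ψ) ^ 2 ∧ cos (n * (π / 2 + ψ)) ^ 2 = cos (n * ψ) ^ 2 := by
  obtain ⟨l, rfl⟩ : ∃ l, n = 2 * l := ⟨n / 2, by omega⟩
  have h : ((2 * l : ℕ) : ℝ) * (π / 2 + ψ) = ((2 * l : ℕ) : ℝ) * ψ + (l : ℝ) * π := by
    push_cast; ring
  have h1 : ((-1 : ℝ) ^ l) ^ 2 = 1 := by
    rw [← pow_mul, mul_comm, pow_mul]; norm_num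
  rw [h, Real.sin_add_nat_mul_pi, Real.cos_add_nat_mul_pi, mul_pow, mul_pow, h1]
  simp

theorem sq_odd (n : ℕ) (hn : n % 2 = 1) (ψ : ℝ) :
    sin (n * (π / 2 + ψ)) ^ 2 = cos (n * ψ) ^ 2 ∧ cos (n * (π / 2 + ψ)) ^ 2 = sin (n * ψ) ^ 2 := by
  obtain ⟨l, rfl⟩ : ∃ l, n = 2 * l + 1 := ⟨n / 2, by omega⟩
  have h : ((2 * l + 1 : ℕ) : ℝ) * (π / 2 + ψ) =
      (((2 * l + 1 : ℕ) : ℝ) * ψ + π / 2) + (l : ℝ) * π := by
    push_cast; ring
  have h1 : ((-1 : ℝ) ^ l) ^ 2 = 1 := by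
    rw [← pow_mul, mul_comm, pow_mul]; norm_num
  rw [h, Real.sin_add_nat_mul_pi, Real.cos_add_nat_mul_pi, mul_pow, mul_pow, h1,
    Real.sin_add_pi_div_two, Real.cos_add_pi_div_two]
  simp

theorem sin_mid (a θ : ℝ) (h0 : 0 ≤ a) (h2 : a ≤ θ) (h3 : θ ≤ π - a) : sin a ≤ sin θ := by
  have h : sin θ - sin a = 2 * sin ((θ - a) / 2) * cos ((θ + a) / 2) := Real.sin_sub_sin θ a
  have h4 : 0 ≤ sin ((θ - a) / 2) := Real.sin_nonneg_of_nonneg_of_le_pi (by linarith) (by linarith)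
  have h5 : 0 ≤ cos ((θ + a) / 2) :=
    Real.cos_nonneg_of_neg_pi_div_two_le_of_le (by linarith [Real.pi_pos]) (by linarith)
  have h6 : 0 ≤ 2 * sin ((θ - a) / 2) * cos ((θ + a) / 2) := by positivity
  linarith

theorem big3 (ψ θ : ℝ) (h0 : 0 < ψ) (h1 : ψ ≤ 1 / 3) (h2 : 3 * ψ ≤ θ) (h3 : θ ≤ π - 3 * ψ) :
    2 * sin ψ < sin θ := by
  have h4 := sin_mid (3 * ψ) θ (by linarith) h2 h3
  rw [Real.sin_three_mul] at h4
  have h5 : sin ψ < ψ := Real.sin_lt h0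
  have h6 : 0 < sin ψ := Real.sin_pos_of_pos_of_lt_pi h0 (by linarith [Real.pi_gt_three])
  have h7 : sin ψ < 1 / 3 := by linarith
  have h8 : 0 < sin ψ * (1 - 4 * sin ψ ^ 2) := by
    apply mul_pos h6
    nlinarith
  nlinarith

theorem big5 (φ θ : ℝ) (h0 : 0 < φ) (h1 : φ ≤ 1 / 6) (h2 : 5 * φ ≤ θ) (h3 : θ ≤ π - 5 * φ) :
    2 * sin (2 * φ) < sin θ := by
  have h4 := sin_mid (5 * φ) θ (by linarith) h2 h3
  have h5 : sin φ < φ := Real.sin_lt h0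
  have h6 : 0 < sin φ := Real.sin_pos_of_pos_of_lt_pi h0 (by linarith [Real.pi_gt_three])
  have h7 : sin φ < 1 / 6 := by linarith
  have e5 : sin (5 * φ) = 5 * sin φ - 20 * sin φ ^ 3 + 16 * sin φ ^ 5 := by
    have e : 5 * φ = 3 * φ + 2 * φ := by ring
    have hc : cos φ ^ 2 = 1 - sin φ ^ 2 := by
      have := Real.sin_sq_add_cos_sq φ; linarith
    rw [e, Real.sin_add, Real.sin_three_mul, Real.cos_three_mul, Real.sin_two_mul,
      Real.cos_two_mul]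
    have e1 : (4 * cos φ ^ 3 - 3 * cos φ) * (2 * sin φ * cos φ) =
      (4 * cos φ ^ 2 - 3) * (cos φ ^ 2) * (2 * sin φ) := by ring
    rw [e1, hc]
    ring
  have hcos : cos φ ≤ 1 := Real.cos_le_one φ
  have e2 : 2 * sin (2 * φ) = 4 * sin φ * cos φ := by
    rw [Real.sin_two_mul]; ring
  rw [e2]
  rw [e5] at h4
  have h8 : 4 * sin φ * cos φ ≤ 4 * sin φ := by nlinarith
  have h9 : 0 < sin φ * (1 - 20 * sin φ ^ 2) := by
    apply mul_pos h6
    nlinarith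
  have h10 : 0 < sin φ ^ 5 := by positivity
  nlinarith

theorem rel_sq (ψ g c : ℝ)
    (h : 2 * cos (π / 2 + ψ) * sin (g * (π / 2 + ψ)) = sin (c * (π / 2 + ψ))) :
    sin (c * (π / 2 + ψ)) ^ 2 ≤ (2 * sin ψ) ^ 2 := by
  rw [← h]
  have h1 : cos (π / 2 + ψ) = - sin ψ := by rw [add_comm, Real.cos_add_pi_div_two]
  rw [h1]
  have h2 : sin (g * (π / 2 + ψ)) ^ 2 ≤ 1 := Real.sin_sq_le_one _
  have h3 : 0 ≤ sin ψ ^ 2 := sq_nonneg _
  nlinarith

theorem no_sq (ψ θ : ℝ) (h0 : 0 ≤ sin ψ) (h1 : 2 * sin ψ < sin θ)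
    (h : sin θ ^ 2 ≤ (2 * sin ψ) ^ 2) : False := by
  nlinarith

theorem R1_contra (N g c : ℕ) (hN : 20 ≤ N)
    (h4 : 4 ∣ N → 2 * cos (π / 2 + π / N) * sin (g * (π / 2 + π / N)) =
      sin (c * (π / 2 + π / N)))
    (h1 : N % 2 = 1 → 2 * cos (π / 2 + π / N / 2) * sin (g * (π / 2 + π / N / 2)) =
      sin (c * (π / 2 + π / N / 2)))
    (h2 : N % 4 = 2 → 2 * cos (π / 2 + 2 * (π / N)) * sin (g * (π / 2 + 2 * (π / N))) =
      sin (c * (π / 2 + 2 * (π / N))))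
    (c4e : 4 ∣ N → c % 2 = 0 → 3 ≤ c ∧ c + 3 ≤ N)
    (c4o : 4 ∣ N → c % 2 = 1 → c ≤ N ∧ (2 * c + 6 ≤ N ∨ N + 6 ≤ 2 * c))
    (c1e : N % 2 = 1 → c % 2 = 0 → 3 ≤ c ∧ c + 3 ≤ 2 * N)
    (c1o : N % 2 = 1 → c % 2 = 1 → c + 3 ≤ N)
    (c2e : N % 4 = 2 → c % 2 = 0 →
      (5 ≤ 2 * c ∧ 2 * c + 5 ≤ N) ∨ (N + 5 ≤ 2 * c ∧ 2 * c + 5 ≤ 2 * N))
    (c2o : N % 4 = 2 → c % 2 = 1 → (4 * c + 10 ≤ N) ∨ (N + 10 ≤ 4 * c ∧ 4 * c + 10 ≤ 3 * N)) :
    False := by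
  have hNr : (20 : ℝ) ≤ N := by exact_mod_cast hN
  have hN0 : (0 : ℝ) < N := by linarith
  obtain ⟨φ, hφ⟩ : ∃ φ : ℝ, φ = π / N := ⟨_, rfl⟩
  have hNφ : (N : ℝ) * φ = π := by rw [hφ]; field_simp
  rw [← hφ] at h4 h1 h2
  have hφ0 : 0 < φ := by rw [hφ]; positivity
  have hφ1 : φ ≤ 1 / 6 := by
    have := Real.pi_lt_d2
    nlinarith
  have hφs : 20 * φ ≤ π := by nlinarith
  have hs1 : 0 ≤ sin φ := Real.sin_nonneg_of_nonneg_of_le_pi hφ0.le (by linarith)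
  have hs2 : 0 ≤ sin (φ / 2) := Real.sin_nonneg_of_nonneg_of_le_pi (by linarith) (by linarith)
  have hs3 : 0 ≤ sin (2 * φ) := Real.sin_nonneg_of_nonneg_of_le_pi (by linarith) (by linarith)
  -- comparison of natural inequalities with angles
  have cmp : ∀ a b : ℕ, a ≤ b → (a : ℝ) * φ ≤ (b : ℝ) * φ := by
    intro a b hab
    have : (a : ℝ) ≤ b := by exact_mod_cast hab
    nlinarith
  have hcase : 4 ∣ N ∨ N % 2 = 1 ∨ N % 4 = 2 := by omega
  have hc2 : c % 2 = 0 ∨ c % 2 = 1 := by omega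
  rcases hcase with hd | hd | hd
  · have hr := rel_sq φ g c (h4 hd)
    rcases hc2 with hc | hc
    · obtain ⟨a1, a2⟩ := c4e hd hc
      rw [(sq_even c hc φ).1] at hr
      have b1 := cmp _ _ a1
      have b2 := cmp _ _ a2
      push_cast at b1 b2
      exact no_sq φ (c * φ) hs1 (big3 φ (c * φ) hφ0 (by linarith) (by linarith) (by linarith)) hr
    · obtain ⟨a0, a1⟩ := c4o hd hc
      rw [(sq_odd c hc φ).1] at hr
      have b0 := cmp _ _ a0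
      rcases a1 with a1 | a1
      · have b1 := cmp _ _ a1
        push_cast at b0 b1
        have e : cos (c * φ) = sin (π / 2 - c * φ) := (Real.sin_pi_div_two_sub _).symm
        rw [e] at hr
        have hc0 : 0 ≤ (c : ℝ) * φ := by positivity
        exact no_sq φ _ hs1 (big3 φ _ hφ0 (by linarith) (by linarith) (by linarith)) hr
      · have b1 := cmp _ _ a1
        push_cast at b0 b1
        have e : cos (c * φ) = - sin (c * φ - π / 2) := by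
          rw [Real.sin_sub_pi_div_two]; ring
        rw [e, neg_sq] at hr
        exact no_sq φ _ hs1 (big3 φ _ hφ0 (by linarith) (by linarith) (by linarith)) hr
  · have hr := rel_sq (φ / 2) g c (h1 hd)
    rcases hc2 with hc | hc
    · obtain ⟨a1, a2⟩ := c1e hd hc
      rw [(sq_even c hc (φ / 2)).1] at hr
      have b1 := cmp _ _ a1
      have b2 := cmp _ _ a2
      push_cast at b1 b2
      exact no_sq (φ / 2) (c * (φ / 2)) hs2
        (big3 (φ / 2) (c * (φ / 2)) (by linarith) (by linarith) (by linarith) (by linarith)) hr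
    · have a1 := c1o hd hc
      rw [(sq_odd c hc (φ / 2)).1] at hr
      have b1 := cmp _ _ a1
      push_cast at b1
      have e : cos (c * (φ / 2)) = sin (π / 2 - c * (φ / 2)) := (Real.sin_pi_div_two_sub _).symm
      rw [e] at hr
      have hc0 : 0 ≤ (c : ℝ) * (φ / 2) := by positivity
      exact no_sq (φ / 2) _ hs2
        (big3 (φ / 2) _ (by linarith) (by linarith) (by linarith) (by linarith)) hr
  · have hr := rel_sq (2 * φ) g c (h2 hd)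
    rcases hc2 with hc | hc
    · rw [(sq_even c hc (2 * φ)).1] at hr
      rcases c2e hd hc with ⟨a1, a2⟩ | ⟨a1, a2⟩
      · have b1 := cmp _ _ a1
        have b2 := cmp _ _ a2
        push_cast at b1 b2
        exact no_sq (2 * φ) (c * (2 * φ)) hs3
          (big5 φ (c * (2 * φ)) hφ0 hφ1 (by linarith) (by linarith)) hr
      · have b1 := cmp _ _ a1
        have b2 := cmp _ _ a2
        push_cast at b1 b2
        have e : sin (c * (2 * φ)) = - sin (c * (2 * φ) - π) := by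
          rw [Real.sin_sub_pi]; ring
        rw [e, neg_sq] at hr
        exact no_sq (2 * φ) _ hs3 (big5 φ _ hφ0 hφ1 (by linarith) (by linarith)) hr
    · rw [(sq_odd c hc (2 * φ)).1] at hr
      rcases c2o hd hc with a1 | ⟨a1, a2⟩
      · have b1 := cmp _ _ a1
        push_cast at b1
        have e : cos (c * (2 * φ)) = sin (π / 2 - c * (2 * φ)) := (Real.sin_pi_div_two_sub _).symm
        rw [e] at hr
        have hc0 : 0 ≤ (c : ℝ) * (2 * φ) := by positivity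
        exact no_sq (2 * φ) _ hs3 (big5 φ _ hφ0 hφ1 (by linarith) (by linarith)) hr
      · have b1 := cmp _ _ a1
        have b2 := cmp _ _ a2
        push_cast at b1 b2
        have e : cos (c * (2 * φ)) = - sin (c * (2 * φ) - π / 2) := by
          rw [Real.sin_sub_pi_div_two]; ring
        rw [e, neg_sq] at hr
        exact no_sq (2 * φ) _ hs3 (big5 φ _ hφ0 hφ1 (by linarith) (by linarith)) hr

end Pool.Agent.Helper27.TT
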