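import Mathlib
import Pool.Agent.Helper27.TT.G1
import Pool.Agent.Helper27.TT.G2

/-!
# TT-G3: the family `T(p, k p + 1; p - 2, 1)`, `p = u + 2 ≥ 5`

`q = k (u + 2) + 1`, `M = (u + 2) q + u²`, `a = q + u - 1`, `b = q`, `n = u`, `c = 2 q + u`: `n a + c = M`.
* `p3_pos`: if `M φ ≤ π`: `GG_pos_small`.  Else `M φ ≤ π + 2 φ` and `GG_lower` (`j = 2`):
  `GG ≥ sin φ (- 2 cos φ sin (a φ) + 2 cos (q φ) sin ((c - 2) φ)) = sin φ (sin ((3 q + u - 2) φ) - sin ((q + u) φ)) > 0` by `sin_gt`: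
  product to sum, `2 cos φ sin (a φ) = sin ((q + u) φ) + sin ((q + u - 2) φ)`, `2 cos (q φ) sin ((2 q + u - 2) φ) = sin ((3 q + u - 2) φ) + sin ((q + u - 2) φ)`, and
  `(3 q + u - 2) + (q + u) < M - 2` as `u ≥ 3`, `q ≥ 6` (`M - 2 - (4 q + 2 u - 2) = (u - 2) q + u² - 2 u`).
* `p3_neg`: `GG_at` (`j = 4`, `N = M - 4`): `GG = sin φ (- (sin 4φ / sin φ) sin (a φ) + 2 cos (q φ) sin ((c - 4) φ))`, `sin 4φ = 2 sin φ (cos φ + cos 3φ)`; this is
  `sin φ (sin ((3 q + u - 4) φ) - sin ((q + u) φ) - sin ((q + u - 2) φ) - sin ((q + u + 2) φ)) < 0` by `sin_three`.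
* `p3_rel`: `GG_conj` (`j = 3`): `sin 3φ sin (a φ) = 2 sin φ cos (q φ) sin ((c - 3) φ)`, divide by `sin φ`: `sin 3φ = sin φ (1 + 2 cos 2φ)`,
  `(1 + 2 cos 2φ) sin (a φ) = sin (a φ) + sin ((a + 2) φ) + sin ((a - 2) φ)`, `2 cos (q φ) sin ((c - 3) φ) = sin ((3 q + u - 3) φ) + sin ((q + u - 3) φ)`, `a - 2 = q + u - 3`.
* `p3_contra`: `R1_contra` with `g = q + u`, `c = 3 q + u - 3`, `N = M - 3 = (u + 2) q + u² - 3`: if `N` is even then `u` is odd and `q` even, `c` even;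
  `N - 2 c = (u - 4) q + u² - 2 u + 3` (for `u = 3` it is `6 - q`, `q % 5 = 1`; `q = 6` has `4 ∣ N = 36`; `q ≥ 16` otherwise);
  `N - c = (u - 1) (q + u) > 0`.  (`nlinarith`/`omega` after `u = u' + 3`; the case `u = 3` separately.)
-/

set_option autoImplicit false

namespace Pool.Agent.Helper27.TT

open Real

/-- the numbers: `w = u - 3` -/
theorem g3_num (u k q M : ℕ) (hu : 3 ≤ u) (hk : 1 ≤ k) (hq : q = k * (u + 2) + 1)
    (hM : M = (u + 2) * q + u ^ 2) :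
    6 ≤ q ∧ u + 3 ≤ q ∧ u * (q + u - 1) + (2 * q + u) = M ∧ 4 * q + 2 * u + 3 ≤ M := by
  obtain ⟨w, rfl⟩ := Nat.exists_eq_add_of_le hu
  have h1 : 3 + w + 2 ≤ k * (3 + w + 2) := Nat.le_mul_of_pos_left _ hk
  have hq6 : 6 ≤ q := by omega
  refine ⟨hq6, by omega, ?_, ?_⟩
  · obtain ⟨r, rfl⟩ : ∃ r, q = r + 1 := ⟨q - 1, by omega⟩
    have e : r + 1 + (3 + w) - 1 = r + (3 + w) := by omega
    rw [e, hM]
    ring
  · rw [hM]
    have h2 : 0 ≤ w * q := Nat.zero_le _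
    nlinarith [Nat.zero_le (w * w)]

theorem p3_pos (u k q M : ℕ) (hu : 3 ≤ u) (hk : 1 ≤ k) (hq : q = k * (u + 2) + 1)
    (hM : M = (u + 2) * q + u ^ 2) (φ : ℝ) (h0 : 0 < φ) (h1 : φ ≤ π / ((M - 2 : ℕ) : ℝ)) :
    0 < GG M (q + u - 1) q u φ := by
  obtain ⟨n1, n2, n3, n4⟩ := g3_num u k q M hu hk hq hM
  clear hq hM
  have hM2 : ((M - 2 : ℕ) : ℝ) = (M : ℝ) - 2 := by
    rw [Nat.cast_sub (by omega)]; norm_num
  have m0 : (0 : ℝ) < (M : ℝ) - 2 := by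
    have : (2 : ℝ) < M := by exact_mod_cast (by omega : 2 < M)
    linarith
  rw [hM2, le_div_iff₀ m0] at h1
  have h2 : (M : ℝ) * φ ≤ π + 2 * φ := by linarith
  rcases le_or_gt ((M : ℝ) * φ) π with h | h
  · exact GG_pos_small M (q + u - 1) q (2 * q + u) u n3 (by omega) (by omega) (by omega)
      (by omega) φ h0 h
  have r1 : (6 : ℝ) ≤ q := by exact_mod_cast n1
  have r2 : (3 : ℝ) ≤ u := by exact_mod_cast hu
  have r4 : 4 * (q : ℝ) + 2 * u + 3 ≤ M := by exact_mod_cast n4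
  have key : (4 * (q : ℝ) + 2 * u + 1) * φ ≤ π := by
    have : (4 * (q : ℝ) + 2 * u + 1) * φ ≤ (M - 2) * φ :=
      mul_le_mul_of_nonneg_right (by linarith) h0.le
    linarith
  have qφ : 0 ≤ ((q : ℝ) - 6) * φ := mul_nonneg (by linarith) h0.le
  have uφ : 0 ≤ ((u : ℝ) - 3) * φ := mul_nonneg (by linarith) h0.le
  have ca : ((q + u - 1 : ℕ) : ℝ) = (q : ℝ) + u - 1 := by
    rw [Nat.cast_sub (by omega)]; push_cast; ring
  have cc : ((2 * q + u - 2 : ℕ) : ℝ) = 2 * (q : ℝ) + u - 2 := by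
    rw [Nat.cast_sub (by omega)]; push_cast; ring
  have low := GG_lower M (q + u - 1) q (2 * q + u) u 2 n3 (by omega) φ h0 h.le
    (by push_cast; linarith) (by push_cast; linarith) (by rw [ca]; linarith)
    (by linarith) (by push_cast; linarith)
  refine lt_of_lt_of_le ?_ low
  rw [ca, cc]
  have s0 : 0 < sin φ := sin_pos_of_pos_of_lt_pi h0 (by linarith)
  have gt := sin_gt ((3 * (q : ℝ) + u - 2) * φ) (((q : ℝ) + u) * φ) (by linarith)
    (by linarith) (by linarith)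
  have e1 : 2 * cos φ * sin (((q : ℝ) + u - 1) * φ) =
      sin (((q : ℝ) + u) * φ) + sin (((q : ℝ) + u - 2) * φ) := by
    have a1 : ((q : ℝ) + u) * φ = ((q : ℝ) + u - 1) * φ + φ := by ring
    have a2 : ((q : ℝ) + u - 2) * φ = ((q : ℝ) + u - 1) * φ - φ := by ring
    rw [a1, a2, sin_add, sin_sub]; ring
  have e2 : 2 * cos ((q : ℝ) * φ) * sin ((2 * (q : ℝ) + u - 2) * φ) =
      sin ((3 * (q : ℝ) + u - 2) * φ) + sin (((q : ℝ) + u - 2) * φ) := by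
    have a1 : (3 * (q : ℝ) + u - 2) * φ = (2 * (q : ℝ) + u - 2) * φ + (q : ℝ) * φ := by ring
    have a2 : ((q : ℝ) + u - 2) * φ = (2 * (q : ℝ) + u - 2) * φ - (q : ℝ) * φ := by ring
    rw [a1, a2, sin_add, sin_sub]; ring
  have e3 : -(sin (((2 : ℕ) : ℝ) * φ) * sin (((q : ℝ) + u - 1) * φ)) +
      2 * sin φ * cos ((q : ℝ) * φ) * sin ((2 * (q : ℝ) + u - 2) * φ) =
      sin φ * (sin ((3 * (q : ℝ) + u - 2) * φ) - sin (((q : ℝ) + u) * φ)) := by
    have a : sin (((2 : ℕ) : ℝ) * φ) = 2 * sin φ * cos φ := by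
      push_cast; exact sin_two_mul φ
    rw [a]
    linear_combination sin φ * e2 - sin φ * e1
  rw [e3]
  exact mul_pos s0 (by linarith)

theorem p3_neg (u k q M : ℕ) (hu : 3 ≤ u) (hk : 1 ≤ k) (hq : q = k * (u + 2) + 1)
    (hM : M = (u + 2) * q + u ^ 2) : GG M (q + u - 1) q u (π / ((M - 4 : ℕ) : ℝ)) < 0 := by
  obtain ⟨n1, n2, n3, n4⟩ := g3_num u k q M hu hk hq hM
  clear hq hM
  have hM4 : ((M - 4 : ℕ) : ℝ) = (M : ℝ) - 4 := by
    rw [Nat.cast_sub (by omega)]; norm_num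
  have r1 : (6 : ℝ) ≤ q := by exact_mod_cast n1
  have r2 : (3 : ℝ) ≤ u := by exact_mod_cast hu
  have r4 : 4 * (q : ℝ) + 2 * u + 3 ≤ M := by exact_mod_cast n4
  have m0 : (0 : ℝ) < (M : ℝ) - 4 := by linarith
  obtain ⟨φ, hφ⟩ : ∃ φ, φ = π / ((M - 4 : ℕ) : ℝ) := ⟨_, rfl⟩
  rw [← hφ]
  have hN : ((M - 4 : ℕ) : ℝ) * φ = π := by
    rw [hφ, hM4]; field_simp
  have h0 : 0 < φ := by rw [hφ, hM4]; exact div_pos pi_pos m0
  have key : (4 * (q : ℝ) + 2 * u - 1) * φ ≤ π := by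
    have : (4 * (q : ℝ) + 2 * u - 1) * φ ≤ (M - 4) * φ :=
      mul_le_mul_of_nonneg_right (by linarith) h0.le
    rw [hM4] at hN
    linarith
  have qφ : 0 ≤ ((q : ℝ) - 6) * φ := mul_nonneg (by linarith) h0.le
  have uφ : 0 ≤ ((u : ℝ) - 3) * φ := mul_nonneg (by linarith) h0.le
  have ca : ((q + u - 1 : ℕ) : ℝ) = (q : ℝ) + u - 1 := by
    rw [Nat.cast_sub (by omega)]; push_cast; ring
  have cc : ((2 * q + u - 4 : ℕ) : ℝ) = 2 * (q : ℝ) + u - 4 := by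
    rw [Nat.cast_sub (by omega)]; push_cast; ring
  rw [GG_at M (q + u - 1) q (2 * q + u) u 4 (M - 4) n3 (by omega) (by omega) φ hN, ca, cc]
  have s0 : 0 < sin φ := sin_pos_of_pos_of_lt_pi h0 (by linarith)
  have three := sin_three (((q : ℝ) + u) * φ) (((q : ℝ) + u - 2) * φ) (((q : ℝ) + u + 2) * φ)
    ((3 * (q : ℝ) + u - 4) * φ) (by linarith) (by linarith) (by linarith) (by linarith)
    (by linarith) (by linarith) (by linarith) (by linarith)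
  have e1 : 2 * cos φ * sin (((q : ℝ) + u - 1) * φ) =
      sin (((q : ℝ) + u) * φ) + sin (((q : ℝ) + u - 2) * φ) := by
    have a1 : ((q : ℝ) + u) * φ = ((q : ℝ) + u - 1) * φ + φ := by ring
    have a2 : ((q : ℝ) + u - 2) * φ = ((q : ℝ) + u - 1) * φ - φ := by ring
    rw [a1, a2, sin_add, sin_sub]; ring
  have e1' : 2 * cos (3 * φ) * sin (((q : ℝ) + u - 1) * φ) =
      sin (((q : ℝ) + u + 2) * φ) + sin (((q : ℝ) + u - 4) * φ) := by
    have a1 : ((q : ℝ) + u + 2) * φ = ((q : ℝ) + u - 1) * φ + 3 * φ := by ring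
    have a2 : ((q : ℝ) + u - 4) * φ = ((q : ℝ) + u - 1) * φ - 3 * φ := by ring
    rw [a1, a2, sin_add, sin_sub]; ring
  have e2 : 2 * cos ((q : ℝ) * φ) * sin ((2 * (q : ℝ) + u - 4) * φ) =
      sin ((3 * (q : ℝ) + u - 4) * φ) + sin (((q : ℝ) + u - 4) * φ) := by
    have a1 : (3 * (q : ℝ) + u - 4) * φ = (2 * (q : ℝ) + u - 4) * φ + (q : ℝ) * φ := by ring
    have a2 : ((q : ℝ) + u - 4) * φ = (2 * (q : ℝ) + u - 4) * φ - (q : ℝ) * φ := by ring
    rw [a1, a2, sin_add, sin_sub]; ring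
  have a4 : sin (((4 : ℕ) : ℝ) * φ) = 2 * sin φ * (cos φ + cos (3 * φ)) := by
    have b1 : (((4 : ℕ) : ℝ) * φ) = 3 * φ + φ := by push_cast; ring
    have b2 : sin (2 * φ) = sin (3 * φ - φ) := by ring_nf
    rw [b1, sin_add]
    rw [sin_two_mul, sin_sub] at b2
    linear_combination -b2
  have e3 : -(sin (((4 : ℕ) : ℝ) * φ) * sin (((q : ℝ) + u - 1) * φ)) +
      2 * sin φ * cos ((q : ℝ) * φ) * sin ((2 * (q : ℝ) + u - 4) * φ) =
      sin φ * (sin ((3 * (q : ℝ) + u - 4) * φ) - sin (((q : ℝ) + u) * φ) -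
        sin (((q : ℝ) + u - 2) * φ) - sin (((q : ℝ) + u + 2) * φ)) := by
    rw [a4]
    linear_combination sin φ * e2 - sin φ * e1 - sin φ * e1'
  rw [e3]
  exact mul_neg_of_pos_of_neg s0 (by linarith)

theorem p3_rel (u k q M : ℕ) (hu : 3 ≤ u) (hk : 1 ≤ k) (hq : q = k * (u + 2) + 1)
    (hM : M = (u + 2) * q + u ^ 2) (φ : ℝ) (hs : sin φ ≠ 0) (l : ℤ)
    (h : ((M - 3 : ℕ) : ℝ) * φ = l * π) (hG : GG M (q + u - 1) q u φ = 0) :
    2 * cos φ * sin ((q + u : ℕ) * φ) = sin ((3 * q + u - 3 : ℕ) * φ) := by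
  obtain ⟨n1, n2, n3, n4⟩ := g3_num u k q M hu hk hq hM
  clear hq hM
  have ca : ((q + u - 1 : ℕ) : ℝ) = (q : ℝ) + u - 1 := by
    rw [Nat.cast_sub (by omega)]; push_cast; ring
  have cc : ((2 * q + u - 3 : ℕ) : ℝ) = 2 * (q : ℝ) + u - 3 := by
    rw [Nat.cast_sub (by omega)]; push_cast; ring
  have cd : ((3 * q + u - 3 : ℕ) : ℝ) = 3 * (q : ℝ) + u - 3 := by
    rw [Nat.cast_sub (by omega)]; push_cast; ring
  have ce : ((q + u : ℕ) : ℝ) = (q : ℝ) + u := by push_cast; ring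
  have conj := GG_conj M (q + u - 1) q (2 * q + u) u 3 (M - 3) n3 (by omega) (by omega) φ l h hG
  rw [ca, cc] at conj
  rw [cd, ce]
  have e1 : 2 * cos (2 * φ) * sin (((q : ℝ) + u - 1) * φ) =
      sin (((q : ℝ) + u + 1) * φ) + sin (((q : ℝ) + u - 3) * φ) := by
    have a1 : ((q : ℝ) + u + 1) * φ = ((q : ℝ) + u - 1) * φ + 2 * φ := by ring
    have a2 : ((q : ℝ) + u - 3) * φ = ((q : ℝ) + u - 1) * φ - 2 * φ := by ring
    rw [a1, a2, sin_add, sin_sub]; ring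
  have e2 : 2 * cos ((q : ℝ) * φ) * sin ((2 * (q : ℝ) + u - 3) * φ) =
      sin ((3 * (q : ℝ) + u - 3) * φ) + sin (((q : ℝ) + u - 3) * φ) := by
    have a1 : (3 * (q : ℝ) + u - 3) * φ = (2 * (q : ℝ) + u - 3) * φ + (q : ℝ) * φ := by ring
    have a2 : ((q : ℝ) + u - 3) * φ = (2 * (q : ℝ) + u - 3) * φ - (q : ℝ) * φ := by ring
    rw [a1, a2, sin_add, sin_sub]; ring
  have e4 : 2 * cos φ * sin (((q : ℝ) + u) * φ) =
      sin (((q : ℝ) + u + 1) * φ) + sin (((q : ℝ) + u - 1) * φ) := by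
    have a1 : ((q : ℝ) + u + 1) * φ = ((q : ℝ) + u) * φ + φ := by ring
    have a2 : ((q : ℝ) + u - 1) * φ = ((q : ℝ) + u) * φ - φ := by ring
    rw [a1, a2, sin_add, sin_sub]; ring
  have a3 : sin (((3 : ℕ) : ℝ) * φ) = sin φ * (1 + 2 * cos (2 * φ)) := by
    have b1 : (((3 : ℕ) : ℝ) * φ) = 2 * φ + φ := by push_cast; ring
    have b2 : sin φ = sin (2 * φ - φ) := by ring_nf
    rw [b1, sin_add]
    rw [sin_sub] at b2
    linear_combination -b2
  rw [a3] at conj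
  have h5 : sin φ * (2 * cos φ * sin (((q : ℝ) + u) * φ) - sin ((3 * (q : ℝ) + u - 3) * φ)) = 0 := by
    linear_combination conj - sin φ * e1 + sin φ * e2 + sin φ * e4
  have h6 := (mul_eq_zero.1 h5).resolve_left hs
  linarith

theorem p3_contra (u k q M N : ℕ) (hu : 3 ≤ u) (hk : 1 ≤ k) (hq : q = k * (u + 2) + 1)
    (hM : M = (u + 2) * q + u ^ 2) (hN : N + 3 = M)
    (h4 : 4 ∣ N → GG M (q + u - 1) q u (π / 2 + π / N) = 0)
    (h1 : N % 2 = 1 → GG M (q + u - 1) q u (π / 2 + π / N / 2) = 0)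
    (h2 : N % 4 = 2 → GG M (q + u - 1) q u (π / 2 + 2 * (π / N)) = 0) : False := by
  obtain ⟨n1, n2, n3, n4⟩ := g3_num u k q M hu hk hq hM
  have hN20 : 20 ≤ N := by omega
  have hNM : M - 3 = N := by omega
  have rN : (20 : ℝ) ≤ N := by exact_mod_cast hN20
  have rN0 : (N : ℝ) ≠ 0 := by linarith
  -- the base angle
  have hb : 0 < π / N := div_pos pi_pos (by linarith)
  have hb1 : π / N ≤ π / 20 := div_le_div_of_nonneg_left pi_pos.le (by norm_num) rN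
  have hbN : (N : ℝ) * (π / N) = π := by field_simp
  have sn : ∀ ψ : ℝ, 0 ≤ ψ → ψ ≤ π / 10 → sin (π / 2 + ψ) ≠ 0 := by
    intro ψ h5 h6
    rw [add_comm, sin_add_pi_div_two]
    exact (cos_pos_of_mem_Ioo ⟨by linarith [pi_pos], by linarith [pi_pos]⟩).ne'
  have rel : ∀ (ψ : ℝ) (l : ℤ), 0 ≤ ψ → ψ ≤ π / 10 → (N : ℝ) * (π / 2 + ψ) = l * π →
      GG M (q + u - 1) q u (π / 2 + ψ) = 0 →
      2 * cos (π / 2 + ψ) * sin ((q + u : ℕ) * (π / 2 + ψ)) =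
        sin ((3 * q + u - 3 : ℕ) * (π / 2 + ψ)) := by
    intro ψ l h5 h6 h7 h8
    exact p3_rel u k q M hu hk hq hM (π / 2 + ψ) (sn ψ h5 h6) l (by rw [hNM]; exact h7) h8
  -- parity
  have par : N % 2 = 0 → (3 * q + u - 3) % 2 = 0 ∧ q % 2 = 0 := by
    intro h5
    have hu2 : u % 2 = 0 ∨ u % 2 = 1 := by omega
    rcases hu2 with h6 | h6
    · exfalso
      obtain ⟨v, rfl⟩ : ∃ v, u = 2 * v := ⟨u / 2, by omega⟩
      have e : M = 2 * ((v + 1) * q + 2 * v ^ 2) := by rw [hM]; ring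
      omega
    · obtain ⟨v, rfl⟩ : ∃ v, u = 2 * v + 1 := ⟨u / 2, by omega⟩
      have e : M = 2 * ((v + 1) * q + 2 * v ^ 2 + 2 * v) + q + 1 := by rw [hM]; ring
      omega
  obtain ⟨w, hw⟩ := Nat.exists_eq_add_of_le hu
  have hMw : M = 5 * q + w * q + w ^ 2 + 6 * w + 9 := by
    rw [hM, hw]; ring
  have hwq : w * 6 ≤ w * q := Nat.mul_le_mul_left w n1
  have hcN : 3 * q + u - 3 + 3 ≤ N := by
    have : 0 ≤ w ^ 2 := Nat.zero_le _
    omega
  refine R1_contra N (q + u) (3 * q + u - 3) hN20 ?_ ?_ ?_ ?_ ?_ ?_ ?_ ?_ ?_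
  · intro h5
    obtain ⟨m, hm⟩ := h5
    refine rel (π / N) (2 * m + 1) hb.le (by linarith [pi_pos]) ?_ (h4 ⟨m, hm⟩)
    rw [mul_add, hbN]
    have : (N : ℝ) = 4 * m := by rw [hm]; push_cast; ring
    rw [this]; push_cast; ring
  · intro h5
    obtain ⟨m, hm⟩ : ∃ m, N = 2 * m + 1 := ⟨N / 2, by omega⟩
    refine rel (π / N / 2) (m + 1) (by linarith) (by linarith [pi_pos]) ?_ (h1 h5)
    have e : (N : ℝ) * (π / 2 + π / N / 2) = N * (π / 2) + N * (π / N) / 2 := by ring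
    rw [e, hbN]
    have : (N : ℝ) = 2 * m + 1 := by rw [hm]; push_cast; ring
    rw [this]; push_cast; ring
  · intro h5
    obtain ⟨m, hm⟩ : ∃ m, N = 2 * m := ⟨N / 2, by omega⟩
    refine rel (2 * (π / N)) (m + 2) (by linarith) (by linarith [pi_pos]) ?_ (h2 h5)
    have e : (N : ℝ) * (π / 2 + 2 * (π / N)) = N * (π / 2) + 2 * (N * (π / N)) := by ring
    rw [e, hbN]
    have : (N : ℝ) = 2 * m := by rw [hm]; push_cast; ring
    rw [this]; push_cast; ring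
  · intro _ _
    exact ⟨by omega, hcN⟩
  · intro h5 h6
    have := (par (by omega)).1
    omega
  · intro _ _
    exact ⟨by omega, by omega⟩
  · intro _ _
    exact hcN
  · intro h5 _
    have hq2 := (par (by omega)).2
    rcases Nat.eq_zero_or_pos w with h6 | h6
    · right
      rw [h6] at hMw hw
      have hu3 : u = 3 := by omega
      rw [hu3] at hq
      have hM5 : M = 5 * q + 9 := by rw [hMw]; ring
      have h10 : q ≠ 6 := by
        intro h7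
        omega
      have h11 : 16 ≤ q := by
        omega
      constructor <;> omega
    · left
      have h7 : q ≤ w * q := Nat.le_mul_of_pos_left q h6
      have h8 : w ≤ w ^ 2 := by nlinarith
      constructor <;> omega
  · intro h5 h6
    have := (par (by omega)).1
    omega

end Pool.Agent.Helper27.TT
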