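import Mathlib
import Pool.Agent.Helper27.TT.G1
import Pool.Agent.Helper27.TT.G2

/-!
# TT-G4: the family `T(p, k p - 1; 2, 1)`, `p = u + 2 ≥ 5`, `(p, k) ≠ (5, 1)`

`q + 1 = k (u + 2)`, `M = (u + 2) q + 4`, `a = q`, `b = q + 3`, `n = u`, `c = 2 q + 4`: `n a + c = M`.
* `m2_pos`: if `M φ ≤ π`: `GG_pos_small`.  Else `GG_lower` (`j = 2`): `GG ≥ sin φ (- 2 cos φ sin (q φ) + 2 cos ((q + 3) φ) sin ((2 q + 2) φ))
  = sin φ (sin ((3 q + 5) φ) - sin ((q + 1) φ)) > 0` by `sin_gt` (`4 q + 6 < M - 2`; `q ≥ 5`, and `q ≥ 9` if `u = 3`).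
* `m2_neg`: `GG_at` (`j = 4`): `GG = sin φ (sin ((3 q + 3) φ) - sin ((q + 1) φ) - sin ((q - 1) φ) - sin ((q + 3) φ)) < 0` by `sin_three`.
* `m2_rel`: `GG_conj` (`j = 3`), divide by `sin φ`: `sin (q φ) + sin ((q + 2) φ) + sin ((q - 2) φ) = sin ((3 q + 4) φ) + sin ((q - 2) φ)`.
* `m2_contra`: `R1_contra` with `g = q + 1`, `c = 3 q + 4`, `N = M - 3 = (u + 2) q + 1`: if `N` is even then `u`, `q` are odd, `c` is odd, `k` is even:
  `N - 2 c = (u - 4) q - 7`: `u = 3`: `- q - 7`, `q ≥ 9`; `u = 5`: `q - 7`, `q = 7 k - 1 ≥ 13`; `u ≥ 7`: `≥ 3 q - 7`.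
  `N - 4 c = (u - 10) q - 15`: `u ≤ 9`: `≤ - q - 15`; `u = 11`: `q - 15`, `q = 13 k - 1 ≥ 25`; `u ≥ 13`: `≥ 3 q - 15`.  `4 c + 10 ≤ 3 N`: `3 (u + 2) q - 12 q ≥ 3 q ≥ 23`.
  `N` odd: `c` even: `3 ≤ c ≤ 2 N - 3`; `c` odd (`q` odd, so `u` even, `u ≥ 4`): `N - c = (u - 1) q - 3 ≥ 3`.
-/

set_option autoImplicit false

namespace Pool.Agent.Helper27.TT

open Real

/-- product to sum, in the form used below -/
theorem m2_prod_sum (x y : ℝ) : 2 * cos x * sin y = sin (y + x) + sin (y - x) := by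
  rw [sin_add, sin_sub]
  ring

theorem m2_q (u k q : ℕ) (hu : 3 ≤ u) (hk : 1 ≤ k) (hq : q + 1 = k * (u + 2)) :
    u + 1 ≤ q ∧ 4 ≤ q := by
  have h1 : 1 * (u + 2) ≤ k * (u + 2) := Nat.mul_le_mul_right _ hk
  omega

theorem m2_q2 (u k q : ℕ) (hu : 3 ≤ u) (hk : 1 ≤ k) (hq : q + 1 = k * (u + 2))
    (hne : 4 ≤ u ∨ 2 ≤ k) : 5 ≤ q ∧ (u = 3 → 9 ≤ q) := by
  have h1 : 1 * (u + 2) ≤ k * (u + 2) := Nat.mul_le_mul_right _ hk
  constructor
  · rcases hne with h | h
    · omega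
    · have h2 : 2 * (u + 2) ≤ k * (u + 2) := Nat.mul_le_mul_right _ h
      omega
  · intro h3
    subst h3
    omega

theorem m2_pos (u k q M : ℕ) (hu : 3 ≤ u) (hk : 1 ≤ k) (hq : q + 1 = k * (u + 2))
    (hne : 4 ≤ u ∨ 2 ≤ k) (hM : M = (u + 2) * q + 4) (φ : ℝ) (h0 : 0 < φ)
    (h1 : φ ≤ π / ((M - 2 : ℕ) : ℝ)) : 0 < GG M q (q + 3) u φ := by
  have hpi := Real.pi_pos
  obtain ⟨hq5, hq9⟩ := m2_q2 u k q hu hk hq hne
  have hc : u * q + (2 * q + 4) = M := by rw [hM]; ring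
  have huq : 3 * q ≤ u * q := Nat.mul_le_mul_right _ hu
  have huq2 : 2 * q + 6 ≤ u * q := by
    rcases Nat.lt_or_ge u 4 with h | h
    · have : u = 3 := by omega
      have := hq9 this
      omega
    · have : 4 * q ≤ u * q := Nat.mul_le_mul_right _ h
      omega
  by_cases hcase : (M : ℝ) * φ ≤ π
  · exact GG_pos_small M q (q + 3) (2 * q + 4) u hc (by omega) (by omega) (by omega) (by omega) φ
      h0 hcase
  · push Not at hcase
    have hM2 : 0 < M - 2 := by omega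
    have hM2r : (0 : ℝ) < ((M - 2 : ℕ) : ℝ) := by exact_mod_cast hM2
    have h2 : ((M - 2 : ℕ) : ℝ) * φ ≤ π := by
      rw [le_div_iff₀ hM2r] at h1
      linarith
    have hcast : ((M - 2 : ℕ) : ℝ) = (M : ℝ) - 2 := by
      rw [Nat.cast_sub (by omega)]
      norm_num
    have bound : ∀ x y : ℕ, x ≤ y * (M - 2) → (x : ℝ) * φ ≤ y * π := by
      intro x y hxy
      have h3 : (x : ℝ) ≤ (y : ℝ) * ((M - 2 : ℕ) : ℝ) := by exact_mod_cast hxy
      calc (x : ℝ) * φ ≤ ((y : ℝ) * ((M - 2 : ℕ) : ℝ)) * φ :=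
            mul_le_mul_of_nonneg_right h3 h0.le
        _ = (y : ℝ) * (((M - 2 : ℕ) : ℝ) * φ) := by ring
        _ ≤ (y : ℝ) * π := mul_le_mul_of_nonneg_left h2 (Nat.cast_nonneg y)
    have hlow := GG_lower M q (q + 3) (2 * q + 4) u 2 hc (by omega) φ h0 hcase.le
      (by
        rw [hcast] at h2
        push_cast
        linarith)
      (by
        have := bound 4 1 (by omega)
        push_cast at this ⊢
        linarith)
      (by
        have := bound q 1 (by omega)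
        push_cast at this ⊢
        linarith)
      (by
        have := bound (2 * (q + 3)) 1 (by omega)
        push_cast at this ⊢
        linarith)
      (by
        have := bound (2 * (2 * q + 4)) 1 (by omega)
        push_cast at this ⊢
        linarith)
    have hgt := sin_gt ((3 * q + 5 : ℕ) * φ) ((q + 1 : ℕ) * φ) (by positivity)
      (by
        apply mul_lt_mul_of_pos_right _ h0
        have : q + 1 < 3 * q + 5 := by omega
        exact_mod_cast this)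
      (by
        have h5 : ((4 * q + 6 : ℕ) : ℝ) < ((M - 2 : ℕ) : ℝ) := by
          have : 4 * q + 6 < M - 2 := by omega
          exact_mod_cast this
        have h6 : ((4 * q + 6 : ℕ) : ℝ) * φ < ((M - 2 : ℕ) : ℝ) * φ :=
          mul_lt_mul_of_pos_right h5 h0
        push_cast at h6 h2 ⊢
        linarith)
    have hsin : 0 < sin φ := by
      apply sin_pos_of_pos_of_lt_pi h0
      have := bound 4 1 (by omega)
      push_cast at this
      linarith
    have hcc : 2 * q + 4 - 2 = 2 * q + 2 := by omega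
    rw [hcc] at hlow
    have e1 : sin (((2 : ℕ) : ℝ) * φ) = 2 * sin φ * cos φ := by
      rw [Nat.cast_ofNat, sin_two_mul]
    have e2 : 2 * cos φ * sin ((q : ℝ) * φ) =
        sin (((q + 1 : ℕ) : ℝ) * φ) + sin (((q : ℝ) - 1) * φ) := by
      rw [m2_prod_sum]
      congr 2
      · push_cast; ring
      · ring
    have e3 : 2 * cos (((q + 3 : ℕ) : ℝ) * φ) * sin (((2 * q + 2 : ℕ) : ℝ) * φ) =
        sin (((3 * q + 5 : ℕ) : ℝ) * φ) + sin (((q : ℝ) - 1) * φ) := by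
      rw [m2_prod_sum]
      congr 2
      · push_cast; ring
      · push_cast; ring
    have e4 : -(sin (((2 : ℕ) : ℝ) * φ) * sin ((q : ℝ) * φ)) +
        2 * sin φ * cos (((q + 3 : ℕ) : ℝ) * φ) * sin (((2 * q + 2 : ℕ) : ℝ) * φ) =
        sin φ * (sin (((3 * q + 5 : ℕ) : ℝ) * φ) - sin (((q + 1 : ℕ) : ℝ) * φ)) := by
      rw [e1]
      linear_combination (-(sin φ)) * e2 + sin φ * e3
    rw [e4] at hlow
    exact lt_of_lt_of_le (mul_pos hsin (sub_pos.2 hgt)) hlow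

theorem m2_neg (u k q M : ℕ) (hu : 3 ≤ u) (hk : 1 ≤ k) (hq : q + 1 = k * (u + 2))
    (hM : M = (u + 2) * q + 4) : GG M q (q + 3) u (π / ((M - 4 : ℕ) : ℝ)) < 0 := by
  have hpi := Real.pi_pos
  obtain ⟨hq1, hq4⟩ := m2_q u k q hu hk hq
  have hc : u * q + (2 * q + 4) = M := by rw [hM]; ring
  have huq : 3 * q ≤ u * q := Nat.mul_le_mul_right _ hu
  have hM4 : 0 < M - 4 := by omega
  have hM4r : (0 : ℝ) < ((M - 4 : ℕ) : ℝ) := by exact_mod_cast hM4
  set φ : ℝ := π / ((M - 4 : ℕ) : ℝ) with hφ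
  have h0 : 0 < φ := by positivity
  have h2 : ((M - 4 : ℕ) : ℝ) * φ = π := by
    rw [hφ]
    field_simp
  have bound : ∀ x y : ℕ, x ≤ y * (M - 4) → (x : ℝ) * φ ≤ y * π := by
    intro x y hxy
    have h3 : (x : ℝ) ≤ (y : ℝ) * ((M - 4 : ℕ) : ℝ) := by exact_mod_cast hxy
    calc (x : ℝ) * φ ≤ ((y : ℝ) * ((M - 4 : ℕ) : ℝ)) * φ :=
          mul_le_mul_of_nonneg_right h3 h0.le
      _ = (y : ℝ) * (((M - 4 : ℕ) : ℝ) * φ) := by ring
      _ = (y : ℝ) * π := by rw [h2]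
  rw [GG_at M q (q + 3) (2 * q + 4) u 4 (M - 4) hc (by omega) (by omega) φ h2]
  have hcc : 2 * q + 4 - 4 = 2 * q := by omega
  rw [hcc]
  have h3 := sin_three (((q : ℝ) - 1) * φ) (((q + 1 : ℕ) : ℝ) * φ) (((q + 3 : ℕ) : ℝ) * φ)
    (((3 * q + 3 : ℕ) : ℝ) * φ)
    (by
      have : (1 : ℝ) < (q : ℝ) := by
        have : 1 < q := by omega
        exact_mod_cast this
      exact mul_pos (by linarith) h0)
    (by positivity) (by positivity)
    (by
      have := bound (2 * q) 1 (by omega)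
      push_cast at this
      nlinarith)
    (by
      have := bound (2 * (q + 1)) 1 (by omega)
      push_cast at this ⊢
      linarith)
    (by
      have := bound (2 * (q + 3)) 1 (by omega)
      push_cast at this ⊢
      linarith)
    (by positivity)
    (by
      push_cast
      apply le_of_eq
      ring)
  have hsin : 0 < sin φ := by
    apply sin_pos_of_pos_of_lt_pi h0
    have := bound 4 1 (by omega)
    push_cast at this
    linarith
  have e1 : sin (((4 : ℕ) : ℝ) * φ) = 2 * sin φ * (cos φ + cos (3 * φ)) := by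
    have h4 : (((4 : ℕ) : ℝ) * φ) = 3 * φ + φ := by push_cast; ring
    have h5 : 2 * cos φ * sin (3 * φ) = sin (3 * φ + φ) + sin (3 * φ - φ) := m2_prod_sum φ (3 * φ)
    have h6 : 2 * cos (3 * φ) * sin φ = sin (φ + 3 * φ) + sin (φ - 3 * φ) := m2_prod_sum (3 * φ) φ
    have h7 : sin (φ - 3 * φ) = -sin (3 * φ - φ) := by rw [← sin_neg]; congr 1; ring
    have h8 : sin (3 * φ) = sin φ + 2 * sin φ * cos (2 * φ) := by
      have h9 : 2 * cos (2 * φ) * sin φ = sin (φ + 2 * φ) + sin (φ - 2 * φ) :=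
        m2_prod_sum (2 * φ) φ
      have h10 : sin (φ - 2 * φ) = -sin φ := by rw [← sin_neg]; congr 1; ring
      have h11 : φ + 2 * φ = 3 * φ := by ring
      rw [h10, h11] at h9
      linarith
    rw [h4]
    have h12 : φ + 3 * φ = 3 * φ + φ := by ring
    rw [h7, h12] at h6
    have h13 : 3 * φ - φ = 2 * φ := by ring
    rw [h13] at h6
    rw [sin_two_mul] at h6
    linarith
  have e2 : 2 * cos φ * sin ((q : ℝ) * φ) =
      sin (((q + 1 : ℕ) : ℝ) * φ) + sin (((q : ℝ) - 1) * φ) := by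
    rw [m2_prod_sum]
    congr 2
    · push_cast; ring
    · ring
  have e3 : 2 * cos (3 * φ) * sin ((q : ℝ) * φ) =
      sin (((q + 3 : ℕ) : ℝ) * φ) + sin (((q : ℝ) - 3) * φ) := by
    rw [m2_prod_sum]
    congr 2
    · push_cast; ring
    · ring
  have e4 : 2 * cos (((q + 3 : ℕ) : ℝ) * φ) * sin (((2 * q : ℕ) : ℝ) * φ) =
      sin (((3 * q + 3 : ℕ) : ℝ) * φ) + sin (((q : ℝ) - 3) * φ) := by
    rw [m2_prod_sum]
    congr 2
    · push_cast; ring
    · push_cast; ring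
  have e5 : -(sin (((4 : ℕ) : ℝ) * φ) * sin ((q : ℝ) * φ)) +
      2 * sin φ * cos (((q + 3 : ℕ) : ℝ) * φ) * sin (((2 * q : ℕ) : ℝ) * φ) =
      sin φ * (sin (((3 * q + 3 : ℕ) : ℝ) * φ) - (sin (((q : ℝ) - 1) * φ) +
        sin (((q + 1 : ℕ) : ℝ) * φ) + sin (((q + 3 : ℕ) : ℝ) * φ))) := by
    rw [e1]
    linear_combination (-(sin φ)) * e2 - sin φ * e3 + sin φ * e4
  rw [e5]
  exact mul_neg_of_pos_of_neg hsin (sub_neg.2 h3)

theorem m2_rel (u k q M : ℕ) (hu : 3 ≤ u) (hk : 1 ≤ k) (hq : q + 1 = k * (u + 2))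
    (hM : M = (u + 2) * q + 4) (φ : ℝ) (hs : sin φ ≠ 0) (l : ℤ)
    (h : ((M - 3 : ℕ) : ℝ) * φ = l * π) (hG : GG M q (q + 3) u φ = 0) :
    2 * cos φ * sin ((q + 1 : ℕ) * φ) = sin ((3 * q + 4 : ℕ) * φ) := by
  obtain ⟨hq1, hq4⟩ := m2_q u k q hu hk hq
  have hc : u * q + (2 * q + 4) = M := by rw [hM]; ring
  have huq : 3 * q ≤ u * q := Nat.mul_le_mul_right _ hu
  have hrel := GG_conj M q (q + 3) (2 * q + 4) u 3 (M - 3) hc (by omega) (by omega) φ l h hG
  have hcc : 2 * q + 4 - 3 = 2 * q + 1 := by omega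
  rw [hcc] at hrel
  have h8 : sin (((3 : ℕ) : ℝ) * φ) = sin φ * (1 + 2 * cos (2 * φ)) := by
    have h9 : 2 * cos (2 * φ) * sin φ = sin (φ + 2 * φ) + sin (φ - 2 * φ) :=
      m2_prod_sum (2 * φ) φ
    have h10 : sin (φ - 2 * φ) = -sin φ := by rw [← sin_neg]; congr 1; ring
    have h11 : φ + 2 * φ = ((3 : ℕ) : ℝ) * φ := by push_cast; ring
    rw [h10, h11] at h9
    linarith
  rw [h8] at hrel
  have hrel2 : (1 + 2 * cos (2 * φ)) * sin ((q : ℝ) * φ) =
      2 * cos (((q + 3 : ℕ) : ℝ) * φ) * sin (((2 * q + 1 : ℕ) : ℝ) * φ) := by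
    apply mul_left_cancel₀ hs
    linarith
  have e1 : 2 * cos (2 * φ) * sin ((q : ℝ) * φ) =
      sin (((q : ℝ) + 2) * φ) + sin (((q : ℝ) - 2) * φ) := by
    rw [m2_prod_sum]
    congr 2
    · ring
    · ring
  have e2 : 2 * cos (((q + 3 : ℕ) : ℝ) * φ) * sin (((2 * q + 1 : ℕ) : ℝ) * φ) =
      sin (((3 * q + 4 : ℕ) : ℝ) * φ) + sin (((q : ℝ) - 2) * φ) := by
    rw [m2_prod_sum]
    congr 2
    · push_cast; ring
    · push_cast; ring
  have e3 : 2 * cos φ * sin (((q + 1 : ℕ) : ℝ) * φ) =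
      sin (((q : ℝ) + 2) * φ) + sin ((q : ℝ) * φ) := by
    rw [m2_prod_sum]
    congr 2
    · push_cast; ring
    · push_cast; ring
  rw [e3]
  linarith

theorem m2_contra (u k q M N : ℕ) (hu : 3 ≤ u) (hk : 1 ≤ k) (hq : q + 1 = k * (u + 2))
    (hne : 4 ≤ u ∨ 2 ≤ k) (hM : M = (u + 2) * q + 4) (hN : N + 3 = M)
    (h4 : 4 ∣ N → GG M q (q + 3) u (π / 2 + π / N) = 0)
    (h1 : N % 2 = 1 → GG M q (q + 3) u (π / 2 + π / N / 2) = 0)
    (h2 : N % 4 = 2 → GG M q (q + 3) u (π / 2 + 2 * (π / N)) = 0) : False := by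
  have hpi := Real.pi_pos
  obtain ⟨hq1, hq4⟩ := m2_q u k q hu hk hq
  obtain ⟨hq5, hq9⟩ := m2_q2 u k q hu hk hq hne
  have huq : 3 * q ≤ u * q := Nat.mul_le_mul_right _ hu
  have hNe : N = u * q + 2 * q + 1 := by
    have : (u + 2) * q = u * q + 2 * q := by ring
    omega
  have hN20 : 20 ≤ N := by omega
  have hNr : (0 : ℝ) < N := by
    have : 0 < N := by omega
    exact_mod_cast this
  have hN20r : (20 : ℝ) ≤ N := by exact_mod_cast hN20
  have hM3 : M - 3 = N := by omega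
  have hpiN : π / N ≤ π / 20 := by
    apply div_le_div_of_nonneg_left hpi.le (by norm_num) hN20r
  have hpiN0 : 0 < π / N := by positivity
  have hNpi : (N : ℝ) * (π / N) = π := by field_simp
  -- parity
  have hpar : N % 2 = 0 → u % 2 = 1 ∧ q % 2 = 1 := by
    intro h
    have h3 : (u * q) % 2 = 1 := by omega
    have h5 : Odd (u * q) := Nat.odd_iff.2 h3
    rw [Nat.odd_mul] at h5
    exact ⟨Nat.odd_iff.1 h5.1, Nat.odd_iff.1 h5.2⟩
  have hkeven : q % 2 = 1 → u % 2 = 1 → 2 ≤ k := by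
    intro hq2 hu2
    by_contra hcon
    have hk1 : k = 1 := by omega
    subst hk1
    omega
  refine R1_contra N (q + 1) (3 * q + 4) hN20 ?_ ?_ ?_ ?_ ?_ ?_ ?_ ?_ ?_
  · intro hd
    refine m2_rel u k q M hu hk hq hM _ ?_ ((N / 2 + 1 : ℕ) : ℤ) ?_ (h4 hd)
    · apply (sin_pos_of_pos_of_lt_pi (by positivity) (by linarith)).ne'
    · rw [hM3]
      obtain ⟨e, he⟩ := hd
      have hhalf : N / 2 = 2 * e := by omega
      rw [hhalf, mul_add, hNpi]
      have : (N : ℝ) = 4 * e := by exact_mod_cast he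
      rw [this]
      push_cast
      ring
  · intro hd
    refine m2_rel u k q M hu hk hq hM _ ?_ (((N + 1) / 2 : ℕ) : ℤ) ?_ (h1 hd)
    · apply (sin_pos_of_pos_of_lt_pi (by positivity) (by linarith)).ne'
    · rw [hM3]
      obtain ⟨e, he⟩ : ∃ e, N = 2 * e + 1 := ⟨N / 2, by omega⟩
      have hhalf : (N + 1) / 2 = e + 1 := by omega
      have h6 : (N : ℝ) * (π / N / 2) = π / 2 := by
        rw [← mul_div_assoc, hNpi]
      rw [hhalf, mul_add, h6]
      have : (N : ℝ) = 2 * e + 1 := by exact_mod_cast he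
      rw [this]
      push_cast
      ring
  · intro hd
    refine m2_rel u k q M hu hk hq hM _ ?_ ((N / 2 + 2 : ℕ) : ℤ) ?_ (h2 hd)
    · apply (sin_pos_of_pos_of_lt_pi (by positivity) (by linarith)).ne'
    · rw [hM3]
      obtain ⟨e, he⟩ : ∃ e, N = 2 * e := ⟨N / 2, by omega⟩
      have hhalf : N / 2 = e := by omega
      have h6 : (N : ℝ) * (2 * (π / N)) = 2 * π := by
        rw [← mul_assoc, mul_comm (N : ℝ) 2, mul_assoc, hNpi]
      rw [hhalf, mul_add, h6]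
      have : (N : ℝ) = 2 * e := by exact_mod_cast he
      rw [this]
      push_cast
      ring
  · intro hd hc2
    obtain ⟨hu2, hq2⟩ := hpar (by omega)
    omega
  · intro hd _
    obtain ⟨hu2, hq2⟩ := hpar (by omega)
    have hk2 := hkeven hq2 hu2
    have hqk : 2 * (u + 2) ≤ k * (u + 2) := Nat.mul_le_mul_right _ hk2
    refine ⟨by omega, ?_⟩
    rcases Nat.lt_or_ge u 5 with hu5 | hu5
    · right
      have hu3 : u = 3 := by omega
      subst hu3
      omega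
    · left
      rcases Nat.lt_or_ge u 7 with hu7 | hu7
      · have hu5' : u = 5 := by omega
        subst hu5'
        omega
      · have : 7 * q ≤ u * q := Nat.mul_le_mul_right _ hu7
        omega
  · intro _ _
    omega
  · intro _ _
    omega
  · intro hd hc2
    obtain ⟨hu2, hq2⟩ := hpar (by omega)
    omega
  · intro hd _
    obtain ⟨hu2, hq2⟩ := hpar (by omega)
    have hk2 := hkeven hq2 hu2
    have hqk : 2 * (u + 2) ≤ k * (u + 2) := Nat.mul_le_mul_right _ hk2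
    rcases Nat.lt_or_ge u 11 with hu11 | hu11
    · right
      have : u * q ≤ 9 * q := Nat.mul_le_mul_right _ (by omega)
      rcases Nat.lt_or_ge u 5 with hu5 | hu5
      · have hu3 : u = 3 := by omega
        subst hu3
        omega
      · have : 5 * q ≤ u * q := Nat.mul_le_mul_right _ hu5
        omega
    · left
      rcases Nat.lt_or_ge u 13 with hu13 | hu13
      · have hu11' : u = 11 := by omega
        subst hu11'
        omega
      · have : 13 * q ≤ u * q := Nat.mul_le_mul_right _ hu13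
        omega

end Pool.Agent.Helper27.TT
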