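import Mathlib
import Pool.Agent.Helper27.TT.G1
import Pool.Agent.Helper27.TT.G2

/-!
# TT-G5: the family `T(4, 4 k - 1; 2, 1)`, `k ≥ 2`

`T(4, 4 k - 1; 2, 1)`: `M = 4 q + 4`, `GG M q (q + 3) 2 φ = sin (q φ) (sin ((4 q + 4) φ) + sin ((2 q + 4) φ) - sin ((2 q + 2) φ) + sin 4φ - sin 2φ)`
`= sin (q φ) (sin ((4 q + 4) φ) + 2 sin φ (cos ((2 q + 3) φ) + cos 3φ))`.
* `f4_pos`: for `(4 q + 4) φ ≤ π` all is clear; else `(4 q + 4) φ ≤ π + φ`, `sin ((4 q + 4) φ) ≥ - sin φ`, `(2 q + 3) φ ≤ π / 2 + 3 φ / 2`, so the bracket is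
  `≥ sin φ (2 cos 3φ - 1 - 2 sin (3φ/2)) > 0` as `φ ≤ π / 31` (`q ≥ 7`).
* `f4_neg`: `φ = π / (4 q + 2)`: `sin ((4 q + 4) φ) = - sin 2φ`, `(2 q + 3) φ = π / 2 + 2φ`: bracket `= 2 sin φ (- cos φ - sin 2φ + cos 3φ) < 0`.
-/

set_option autoImplicit false

namespace Pool.Agent.Helper27.TT

open Real

theorem f4_eq (q : ℕ) (φ : ℝ) :
    GG (4 * q + 4) q (q + 3) 2 φ = sin (q * φ) * (sin ((4 * q + 4) * φ) +
      2 * sin φ * (cos ((2 * q + 3) * φ) + cos (3 * φ))) := by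
  have e1 : sin (((2 * q : ℕ) : ℝ) * φ) = 2 * sin (q * φ) * cos (q * φ) := by
    have : ((2 * q : ℕ) : ℝ) * φ = 2 * (q * φ) := by push_cast; ring
    rw [this, sin_two_mul]
  have e2 : cos ((2 * q + 3) * φ) + cos (3 * φ) =
      2 * cos (((q + 3 : ℕ) : ℝ) * φ) * cos (q * φ) := by
    have h1 : (2 * (q : ℝ) + 3) * φ = ((q + 3 : ℕ) : ℝ) * φ + q * φ := by push_cast; ring
    have h2 : 3 * φ = ((q + 3 : ℕ) : ℝ) * φ - q * φ := by push_cast; ring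
    rw [h1, h2, cos_add, cos_sub]
    ring
  have e3 : ((4 * q + 4 : ℕ) : ℝ) * φ = (4 * q + 4) * φ := by push_cast; ring
  unfold GG
  rw [e1, e2, e3]
  ring

theorem f4_pos (q : ℕ) (hq : 7 ≤ q) (φ : ℝ) (h0 : 0 < φ) (h1 : φ ≤ π / ((4 * q + 3 : ℕ) : ℝ)) :
    0 < GG (4 * q + 4) q (q + 3) 2 φ := by
  have hpi := Real.pi_pos
  have hpi4 := Real.pi_lt_d2
  have hq7 : (7 : ℝ) ≤ q := by exact_mod_cast hq
  have hN : (0 : ℝ) < ((4 * q + 3 : ℕ) : ℝ) := by positivity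
  have h2 : (4 * (q : ℝ) + 3) * φ ≤ π := by
    rw [le_div_iff₀ hN] at h1
    push_cast at h1
    linarith
  have h31 : 31 * φ ≤ π := by nlinarith
  have hφ : φ ≤ 0.102 := by
    norm_num at hpi4 ⊢
    linarith
  have s1 : 0 < sin φ := sin_pos_of_pos_of_lt_pi h0 (by linarith)
  have s2 : 0 < sin ((q : ℝ) * φ) := sin_pos_of_pos_of_lt_pi (by positivity) (by nlinarith)
  have s3 : -sin φ ≤ sin ((4 * q + 4) * φ) := by
    rcases le_or_gt ((4 * (q : ℝ) + 4) * φ) π with h | h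
    · have := sin_nonneg_of_nonneg_of_le_pi (x := (4 * (q : ℝ) + 4) * φ) (by positivity) h
      linarith
    · have e : sin ((4 * (q : ℝ) + 4) * φ) = -sin ((4 * q + 4) * φ - π) := by
        rw [sin_sub_pi, neg_neg]
      have := sin_le_sin_of_le_of_le_pi_div_two (x := (4 * (q : ℝ) + 4) * φ - π) (y := φ)
        (by linarith) (by linarith) (by linarith)
      linarith
  have s4 : -(3 * φ / 2) ≤ cos ((2 * q + 3) * φ) := by
    have e : cos (π / 2 + 3 * φ / 2) = -sin (3 * φ / 2) := by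
      rw [add_comm, cos_add_pi_div_two]
    have i1 : cos (π / 2 + 3 * φ / 2) ≤ cos ((2 * (q : ℝ) + 3) * φ) :=
      cos_le_cos_of_nonneg_of_le_pi (by positivity) (by linarith) (by linarith)
    have i2 : sin (3 * φ / 2) ≤ 3 * φ / 2 := sin_le (by positivity)
    linarith
  have s5 : 1 - (3 * φ) ^ 2 / 2 ≤ cos (3 * φ) := one_sub_sq_div_two_le_cos
  rw [f4_eq]
  apply mul_pos s2
  have s6 : 1 / 2 < cos ((2 * q + 3) * φ) + cos (3 * φ) := by
    norm_num at hφ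
    nlinarith
  have s7 := mul_pos s1 (sub_pos.2 s6)
  nlinarith

theorem f4_neg (q : ℕ) (hq : 7 ≤ q) : GG (4 * q + 4) q (q + 3) 2 (π / ((4 * q + 2 : ℕ) : ℝ)) < 0 := by
  have hpi := Real.pi_pos
  have hq7 : (7 : ℝ) ≤ q := by exact_mod_cast hq
  obtain ⟨φ, hφ⟩ : ∃ φ, φ = π / ((4 * q + 2 : ℕ) : ℝ) := ⟨_, rfl⟩
  rw [← hφ]
  have hN : (0 : ℝ) < ((4 * q + 2 : ℕ) : ℝ) := by positivity
  have h0 : 0 < φ := by rw [hφ]; positivity
  have h2 : (4 * (q : ℝ) + 2) * φ = π := by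
    rw [eq_div_iff (ne_of_gt hN)] at hφ
    push_cast at hφ
    linarith
  have h30 : 30 * φ ≤ π := by nlinarith
  have s1 : 0 < sin φ := sin_pos_of_pos_of_lt_pi h0 (by linarith)
  have s2 : 0 < sin ((q : ℝ) * φ) := sin_pos_of_pos_of_lt_pi (by positivity) (by nlinarith)
  have s3 : sin ((4 * q + 4) * φ) = -(2 * sin φ * cos φ) := by
    have : (4 * (q : ℝ) + 4) * φ = 2 * φ + π := by linarith
    rw [this, sin_add_pi, sin_two_mul]
  have s4 : cos ((2 * q + 3) * φ) = -sin (2 * φ) := by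
    have : (2 * (q : ℝ) + 3) * φ = 2 * φ + π / 2 := by linarith
    rw [this, cos_add_pi_div_two]
  have s5 : 0 < sin (2 * φ) := sin_pos_of_pos_of_lt_pi (by linarith) (by linarith)
  have s6 : cos (3 * φ) < cos φ :=
    cos_lt_cos_of_nonneg_of_le_pi h0.le (by linarith) (by linarith)
  rw [f4_eq, s3, s4]
  have s7 : -(2 * sin φ * cos φ) + 2 * sin φ * (-sin (2 * φ) + cos (3 * φ)) =
      -(2 * sin φ * (cos φ - cos (3 * φ) + sin (2 * φ))) := by ring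
  rw [s7]
  have s8 : 0 < 2 * sin φ * (cos φ - cos (3 * φ) + sin (2 * φ)) :=
    mul_pos (mul_pos two_pos s1) (by linarith)
  have := mul_pos s2 s8
  linarith

end Pool.Agent.Helper27.TT
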