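import Mathlib
import Pool.Agent.Helper27.TT.G1
import Pool.Agent.Helper27.TT.G2

/-!
# TT-G6: the family `T(p, k p - 1; p - 2, 1)`, `p = u + 2 ≥ 5`, `k ≥ 2`: signs and the two relations

`q + 1 = k (u + 2)`, `M = (u + 2) q + u²`, `a = q + u + 1`, `b = q`, `n = u`, `c = 2 q - u`: `n a + c = M`; `q ≥ 2 u + 3`.
* `m3_pos`: if `M φ ≤ π`: `GG_pos_small`.  Else `GG_lower` (`j = 1`): `GG ≥ sin φ (- sin (a φ) + 2 cos (q φ) sin ((2 q - u - 1) φ))
  = sin φ (sin ((3 q - u - 1) φ) + sin ((q - u - 1) φ) - sin ((q + u + 1) φ)) > 0`: `sin_gt` with `A = 3 q - u - 1`, `B = q + u + 1`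
  (`A + B = 4 q < M - 1`), and `sin ((q - u - 1) φ) > 0`.
* `m3_neg`: `GG_at` (`j = 4`): `GG = sin φ (sin ((3 q - u - 4) φ) + sin ((q - u - 4) φ) - sin ((q + u + 2) φ) - sin ((q + u) φ) - sin ((q + u + 4) φ) - sin ((q + u - 2) φ)) < 0`:
  `sin ((q - u - 4) φ) < sin ((q + u - 2) φ)`, and `sin_three` (`3 q - u - 4 ≤ 3 q + 3 u + 6`).
  (Here `c - 4 - b = q - u - 4` may be `-1` if `u = 3`, `q = 2 u + 3`?  No: `q ≥ 2 u + 3`, `q - u - 4 ≥ u - 1 > 0`.)
* `m3_neg3`: `u = 3`, `j = 3`: `GG = sin φ (sin ((3 q - 6) φ) + sin ((q - 6) φ) - sin ((q + 4) φ) - sin ((q + 6) φ) - sin ((q + 2) φ)) < 0`, `φ = π / (5 q + 6)`: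
  `sin ((q - 6) φ) < sin ((q + 2) φ)`, `sin ((q + 4) φ) + sin ((q + 6) φ) = 2 sin ((q + 5) φ) cos φ ≥ 2 * 0.58 * 0.99 > 1` (`(q + 5) φ ≥ π / 5`, `φ ≤ π / 51`).
* `m3_rel2`: `GG_conj` (`j = 2`) divided by `2 sin φ`.  `m3_rel3`: `GG_conj` (`j = 3`) divided by `sin φ`.
-/

set_option autoImplicit false

namespace Pool.Agent.Helper27.TT

open Real

/-- arithmetic of the parameters -/
theorem m3_qge (u k q : ℕ) (hk : 2 ≤ k) (hq : q + 1 = k * (u + 2)) : 2 * u + 3 ≤ q := by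
  have h := Nat.mul_le_mul_right (u + 2) hk
  omega

theorem m3_Mge (u q M : ℕ) (hu : 3 ≤ u) (hM : M = (u + 2) * q + u ^ 2) :
    5 * q + 3 * u ≤ M := by
  rw [hM]
  have h1 : 5 * q ≤ (u + 2) * q := Nat.mul_le_mul_right q (by omega)
  have h2 : 3 * u ≤ u ^ 2 := by
    rw [sq]
    exact Nat.mul_le_mul_right u hu
  omega

theorem m3_ceq (u q M : ℕ) (hq : 2 * u + 3 ≤ q) (hM : M = (u + 2) * q + u ^ 2) :
    u * (q + u + 1) + (2 * q - u) = M := by
  have h : u ≤ 2 * q := by omega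
  zify [h] at hM ⊢
  rw [hM]
  ring

theorem m3_two_cos_sin (x y : ℝ) : 2 * cos x * sin y = sin (y + x) + sin (y - x) := by
  rw [sin_add, sin_sub]
  ring

theorem m3_sin3 (x : ℝ) : sin (3 * x) = sin x * (1 + 2 * cos (2 * x)) := by
  rw [sin_three_mul, cos_two_mul, cos_sq']
  ring

theorem m3_sin4 (x : ℝ) : sin (4 * x) = sin x * (2 * cos x + 2 * cos (3 * x)) := by
  have h1 : sin (4 * x) = sin (2 * (2 * x)) := by ring_nf
  rw [h1, sin_two_mul, sin_two_mul, cos_three_mul, cos_two_mul]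
  ring

theorem m3_pos (u k q M : ℕ) (hu : 3 ≤ u) (hk : 2 ≤ k) (hq : q + 1 = k * (u + 2))
    (hM : M = (u + 2) * q + u ^ 2) (φ : ℝ) (h0 : 0 < φ)
    (h1 : φ ≤ π / ((M - 1 : ℕ) : ℝ)) : 0 < GG M (q + u + 1) q u φ := by
  have hqu := m3_qge u k q hk hq
  have hMM := m3_Mge u q M hu hM
  have hc := m3_ceq u q M hqu hM
  have hM1 : (0 : ℝ) < ((M - 1 : ℕ) : ℝ) := by
    have : 0 < M - 1 := by omega
    exact_mod_cast this
  have h2 : ((M - 1 : ℕ) : ℝ) * φ ≤ π := by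
    rw [le_div_iff₀ hM1] at h1
    linarith
  have hMr : ((M - 1 : ℕ) : ℝ) = (M : ℝ) - 1 := by
    rw [Nat.cast_sub (by omega)]
    simp
  rw [hMr] at h2
  have hMMr : 5 * (q : ℝ) + 3 * u ≤ M := by exact_mod_cast hMM
  have hqur : 2 * (u : ℝ) + 3 ≤ q := by exact_mod_cast hqu
  have hur : (3 : ℝ) ≤ u := by exact_mod_cast hu
  -- scaling
  have hsc : ∀ x : ℝ, x ≤ (M : ℝ) - 1 → x * φ ≤ π := fun x hx =>
    (mul_le_mul_of_nonneg_right hx h0.le).trans h2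
  have hsc2 : ∀ x : ℝ, 2 * x ≤ (M : ℝ) - 1 → x * φ ≤ π / 2 := fun x hx => by
    have := hsc (2 * x) hx
    linarith
  by_cases hs : (M : ℝ) * φ ≤ π
  · exact GG_pos_small M (q + u + 1) q (2 * q - u) u hc (by omega) (by omega) (by omega)
      (by omega) φ h0 hs
  · push Not at hs
    have hcr : ((2 * q - u : ℕ) : ℝ) = 2 * q - u := by
      rw [Nat.cast_sub (by omega)]
      push_cast
      ring
    have hc1r : ((2 * q - u - 1 : ℕ) : ℝ) = 2 * q - u - 1 := by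
      rw [Nat.cast_sub (by omega), hcr]
      simp
    have har : ((q + u + 1 : ℕ) : ℝ) = q + u + 1 := by push_cast; ring
    have hlow := GG_lower M (q + u + 1) q (2 * q - u) u 1 hc (by omega) φ h0 hs.le
      (by push_cast; linarith) (by
        have := hsc2 1 (by linarith)
        push_cast
        linarith) (by
        rw [har]
        exact hsc _ (by linarith))
      (hsc2 _ (by linarith)) (by
        rw [hcr]
        exact hsc2 _ (by linarith))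
    rw [hc1r, har] at hlow
    have hsin : 0 < sin φ := sin_pos_of_pos_of_lt_pi h0 (by
      have := hsc 2 (by linarith)
      linarith)
    have e1 : -(sin ((1 : ℕ) * φ) * sin (((q : ℝ) + u + 1) * φ)) +
        2 * sin φ * cos (q * φ) * sin ((2 * (q : ℝ) - u - 1) * φ) =
        sin φ * ((sin ((3 * (q : ℝ) - u - 1) * φ) - sin (((q : ℝ) + u + 1) * φ)) +
          sin (((q : ℝ) - u - 1) * φ)) := by
      have e2 := m3_two_cos_sin ((q : ℝ) * φ) ((2 * (q : ℝ) - u - 1) * φ)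
      have e3 : (2 * (q : ℝ) - u - 1) * φ + q * φ = (3 * (q : ℝ) - u - 1) * φ := by ring
      have e4 : (2 * (q : ℝ) - u - 1) * φ - q * φ = ((q : ℝ) - u - 1) * φ := by ring
      rw [e3, e4] at e2
      push_cast
      rw [one_mul]
      linear_combination (sin φ) * e2
    rw [e1] at hlow
    refine lt_of_lt_of_le (mul_pos hsin ?_) hlow
    have h3 : sin (((q : ℝ) + u + 1) * φ) < sin ((3 * (q : ℝ) - u - 1) * φ) := by
      apply sin_gt
      · apply mul_nonneg _ h0.le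
        linarith
      · apply mul_lt_mul_of_pos_right _ h0
        linarith
      · have : ((M : ℝ) - 1) * φ > (4 * (q : ℝ)) * φ := mul_lt_mul_of_pos_right (by linarith) h0
        linarith
    have h4 : 0 < sin (((q : ℝ) - u - 1) * φ) := by
      apply sin_pos_of_pos_of_lt_pi
      · apply mul_pos _ h0
        linarith
      · refine lt_of_lt_of_le ?_ h2
        apply mul_lt_mul_of_pos_right _ h0
        linarith
    linarith

theorem m3_neg (u k q M : ℕ) (hu : 3 ≤ u) (hk : 2 ≤ k) (hq : q + 1 = k * (u + 2))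
    (hM : M = (u + 2) * q + u ^ 2) : GG M (q + u + 1) q u (π / ((M - 4 : ℕ) : ℝ)) < 0 := by
  have hqu := m3_qge u k q hk hq
  have hMM := m3_Mge u q M hu hM
  have hc := m3_ceq u q M hqu hM
  have hMr : ((M - 4 : ℕ) : ℝ) = (M : ℝ) - 4 := by
    rw [Nat.cast_sub (by omega)]
    simp
  have hMMr : 5 * (q : ℝ) + 3 * u ≤ M := by exact_mod_cast hMM
  have hqur : 2 * (u : ℝ) + 3 ≤ q := by exact_mod_cast hqu
  have hur : (3 : ℝ) ≤ u := by exact_mod_cast hu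
  have hM4 : (0 : ℝ) < ((M - 4 : ℕ) : ℝ) := by
    rw [hMr]
    linarith
  have hN : ((M - 4 : ℕ) : ℝ) * (π / ((M - 4 : ℕ) : ℝ)) = π := by
    field_simp
  have h0 : 0 < π / ((M - 4 : ℕ) : ℝ) := div_pos pi_pos hM4
  have hat := GG_at M (q + u + 1) q (2 * q - u) u 4 (M - 4) hc (by omega) (by omega) _ hN
  rw [hat]
  generalize hφ : π / ((M - 4 : ℕ) : ℝ) = φ at *
  rw [hMr] at hN
  have hsc : ∀ x : ℝ, x ≤ (M : ℝ) - 4 → x * φ ≤ π := fun x hx =>
    (mul_le_mul_of_nonneg_right hx h0.le).trans hN.le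
  have hsc2 : ∀ x : ℝ, 2 * x ≤ (M : ℝ) - 4 → x * φ ≤ π / 2 := fun x hx => by
    have := hsc (2 * x) hx
    linarith
  have hsc3 : ∀ x : ℝ, x < (M : ℝ) - 4 → x * φ < π := fun x hx =>
    (mul_lt_mul_of_pos_right hx h0).trans_le hN.le
  have hcr : ((2 * q - u : ℕ) : ℝ) = 2 * q - u := by
    rw [Nat.cast_sub (by omega)]
    push_cast
    ring
  have hc1r : ((2 * q - u - 4 : ℕ) : ℝ) = 2 * q - u - 4 := by
    rw [Nat.cast_sub (by omega), hcr]
    simp
  have har : ((q + u + 1 : ℕ) : ℝ) = q + u + 1 := by push_cast; ring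
  rw [hc1r, har]
  have hsin : 0 < sin φ := sin_pos_of_pos_of_lt_pi h0 (by
    have := hsc 2 (by linarith)
    linarith)
  have e1 : -(sin ((4 : ℕ) * φ) * sin (((q : ℝ) + u + 1) * φ)) +
      2 * sin φ * cos (q * φ) * sin ((2 * (q : ℝ) - u - 4) * φ) =
      -(sin φ * ((sin (((q : ℝ) + u + 4) * φ) + sin (((q : ℝ) + u + 2) * φ) +
        sin (((q : ℝ) + u) * φ) - sin ((3 * (q : ℝ) - u - 4) * φ)) +
        (sin (((q : ℝ) + u - 2) * φ) - sin (((q : ℝ) - u - 4) * φ)))) := by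
    have e2 := m3_two_cos_sin ((q : ℝ) * φ) ((2 * (q : ℝ) - u - 4) * φ)
    have e3 : (2 * (q : ℝ) - u - 4) * φ + q * φ = (3 * (q : ℝ) - u - 4) * φ := by ring
    have e4 : (2 * (q : ℝ) - u - 4) * φ - q * φ = ((q : ℝ) - u - 4) * φ := by ring
    rw [e3, e4] at e2
    have f2 := m3_two_cos_sin φ (((q : ℝ) + u + 1) * φ)
    have f3 : ((q : ℝ) + u + 1) * φ + φ = ((q : ℝ) + u + 2) * φ := by ring
    have f4 : ((q : ℝ) + u + 1) * φ - φ = ((q : ℝ) + u) * φ := by ring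
    rw [f3, f4] at f2
    have g2 := m3_two_cos_sin (3 * φ) (((q : ℝ) + u + 1) * φ)
    have g3 : ((q : ℝ) + u + 1) * φ + 3 * φ = ((q : ℝ) + u + 4) * φ := by ring
    have g4 : ((q : ℝ) + u + 1) * φ - 3 * φ = ((q : ℝ) + u - 2) * φ := by ring
    rw [g3, g4] at g2
    push_cast
    rw [m3_sin4]
    linear_combination (sin φ) * e2 - (sin φ) * f2 - (sin φ) * g2
  rw [e1, neg_lt_zero]
  apply mul_pos hsin
  have h3 : sin (((q : ℝ) - u - 4) * φ) < sin (((q : ℝ) + u - 2) * φ) := by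
    apply sin_gt
    · apply mul_nonneg _ h0.le
      linarith
    · apply mul_lt_mul_of_pos_right _ h0
      linarith
    · have := hsc3 (2 * (q : ℝ) - 6) (by linarith)
      linarith
  have h4 := sin_three (((q : ℝ) + u + 4) * φ) (((q : ℝ) + u + 2) * φ) (((q : ℝ) + u) * φ)
    ((3 * (q : ℝ) - u - 4) * φ) (mul_pos (by linarith) h0) (mul_pos (by linarith) h0)
    (mul_pos (by linarith) h0) (hsc2 _ (by linarith)) (hsc2 _ (by linarith))
    (hsc2 _ (by linarith)) (mul_nonneg (by linarith) h0.le) (by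
      have : (3 * (q : ℝ) - u - 4) * φ ≤ (3 * (q : ℝ) + 3 * u + 6) * φ :=
        mul_le_mul_of_nonneg_right (by linarith) h0.le
      linarith)
  linarith

theorem m3_neg3 (k q M : ℕ) (hk : 2 ≤ k) (hq : q + 1 = k * 5)
    (hM : M = 5 * q + 9) : GG M (q + 3 + 1) q 3 (π / ((M - 3 : ℕ) : ℝ)) < 0 := by
  have hqu : 9 ≤ q := by omega
  have hc : 3 * (q + 3 + 1) + (2 * q - 3) = M := by omega
  have hMr : ((M - 3 : ℕ) : ℝ) = 5 * (q : ℝ) + 6 := by
    rw [Nat.cast_sub (by omega), hM]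
    push_cast
    ring
  have hqur : (9 : ℝ) ≤ q := by exact_mod_cast hqu
  have hM4 : (0 : ℝ) < ((M - 3 : ℕ) : ℝ) := by
    rw [hMr]
    linarith
  have hN : ((M - 3 : ℕ) : ℝ) * (π / ((M - 3 : ℕ) : ℝ)) = π := by
    field_simp
  have h0 : 0 < π / ((M - 3 : ℕ) : ℝ) := div_pos pi_pos hM4
  have hat := GG_at M (q + 3 + 1) q (2 * q - 3) 3 3 (M - 3) hc (by omega) (by omega) _ hN
  rw [hat]
  generalize hφ : π / ((M - 3 : ℕ) : ℝ) = φ at *
  rw [hMr] at hN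
  have hsc : ∀ x : ℝ, x ≤ 5 * (q : ℝ) + 6 → x * φ ≤ π := fun x hx =>
    (mul_le_mul_of_nonneg_right hx h0.le).trans hN.le
  have hsc2 : ∀ x : ℝ, 2 * x ≤ 5 * (q : ℝ) + 6 → x * φ ≤ π / 2 := fun x hx => by
    have := hsc (2 * x) hx
    linarith
  have hsc3 : ∀ x : ℝ, x < 5 * (q : ℝ) + 6 → x * φ < π := fun x hx =>
    (mul_lt_mul_of_pos_right hx h0).trans_le hN.le
  have hc1r : ((2 * q - 3 - 3 : ℕ) : ℝ) = 2 * q - 6 := by
    have : 2 * q - 3 - 3 = 2 * q - 6 := by omega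
    rw [this, Nat.cast_sub (by omega)]
    push_cast
    ring
  have har : ((q + 3 + 1 : ℕ) : ℝ) = q + 4 := by push_cast; ring
  rw [hc1r, har]
  have hsin : 0 < sin φ := sin_pos_of_pos_of_lt_pi h0 (by
    have := hsc 2 (by linarith)
    linarith)
  have e1 : -(sin ((3 : ℕ) * φ) * sin (((q : ℝ) + 4) * φ)) +
      2 * sin φ * cos (q * φ) * sin ((2 * (q : ℝ) - 6) * φ) =
      -(sin φ * ((sin (((q : ℝ) + 4) * φ) + sin (((q : ℝ) + 6) * φ)
        - sin ((3 * (q : ℝ) - 6) * φ)) +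
        (sin (((q : ℝ) + 2) * φ) - sin (((q : ℝ) - 6) * φ)))) := by
    have e2 := m3_two_cos_sin ((q : ℝ) * φ) ((2 * (q : ℝ) - 6) * φ)
    have e3 : (2 * (q : ℝ) - 6) * φ + q * φ = (3 * (q : ℝ) - 6) * φ := by ring
    have e4 : (2 * (q : ℝ) - 6) * φ - q * φ = ((q : ℝ) - 6) * φ := by ring
    rw [e3, e4] at e2
    have f2 := m3_two_cos_sin (2 * φ) (((q : ℝ) + 4) * φ)
    have f3 : ((q : ℝ) + 4) * φ + 2 * φ = ((q : ℝ) + 6) * φ := by ring
    have f4 : ((q : ℝ) + 4) * φ - 2 * φ = ((q : ℝ) + 2) * φ := by ring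
    rw [f3, f4] at f2
    push_cast
    rw [m3_sin3]
    linear_combination (sin φ) * e2 - (sin φ) * f2
  rw [e1, neg_lt_zero]
  apply mul_pos hsin
  have h3 : sin (((q : ℝ) - 6) * φ) < sin (((q : ℝ) + 2) * φ) := by
    apply sin_gt
    · apply mul_nonneg _ h0.le
      linarith
    · apply mul_lt_mul_of_pos_right _ h0
      linarith
    · have := hsc3 (2 * (q : ℝ) - 4) (by linarith)
      linarith
  have h6 : ∀ x : ℝ, 5 * (q : ℝ) + 6 < 6 * x → 2 * x ≤ 5 * (q : ℝ) + 6 →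
      1 / 2 < sin (x * φ) := by
    intro x hx1 hx2
    rw [← sin_pi_div_six]
    apply sin_lt_sin_of_lt_of_le_pi_div_two
    · have := pi_pos
      linarith
    · exact hsc2 x hx2
    · have : (5 * (q : ℝ) + 6) * φ < (6 * x) * φ := mul_lt_mul_of_pos_right hx1 h0
      linarith
  have h4 := h6 ((q : ℝ) + 4) (by linarith) (by linarith)
  have h5 := h6 ((q : ℝ) + 6) (by linarith) (by linarith)
  have h7 := sin_le_one ((3 * (q : ℝ) - 6) * φ)
  linarith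

theorem m3_rel2 (u k q M : ℕ) (hu : 3 ≤ u) (hk : 2 ≤ k) (hq : q + 1 = k * (u + 2))
    (hM : M = (u + 2) * q + u ^ 2) (φ : ℝ) (hs : sin φ ≠ 0) (l : ℤ)
    (h : ((M - 2 : ℕ) : ℝ) * φ = l * π) (hG : GG M (q + u + 1) q u φ = 0) :
    cos φ * sin ((q + u + 1 : ℕ) * φ) = cos (q * φ) * sin ((2 * q - u - 2 : ℕ) * φ) := by
  have hqu := m3_qge u k q hk hq
  have hMM := m3_Mge u q M hu hM
  have hc := m3_ceq u q M hqu hM
  have h1 := GG_conj M (q + u + 1) q (2 * q - u) u 2 (M - 2) hc (by omega) (by omega) φ l h hG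
  have h2 : sin ((2 : ℕ) * φ) = 2 * sin φ * cos φ := by
    push_cast
    rw [sin_two_mul]
  rw [h2] at h1
  have h3 : 2 * sin φ ≠ 0 := mul_ne_zero two_ne_zero hs
  apply mul_left_cancel₀ h3
  linear_combination h1

theorem m3_rel3 (u k q M : ℕ) (hu : 3 ≤ u) (hk : 2 ≤ k) (hq : q + 1 = k * (u + 2))
    (hM : M = (u + 2) * q + u ^ 2) (φ : ℝ) (hs : sin φ ≠ 0) (l : ℤ)
    (h : ((M - 3 : ℕ) : ℝ) * φ = l * π) (hG : GG M (q + u + 1) q u φ = 0) :
    (1 + 2 * cos (2 * φ)) * sin ((q + u + 1 : ℕ) * φ) =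
      2 * cos (q * φ) * sin ((2 * q - u - 3 : ℕ) * φ) := by
  have hqu := m3_qge u k q hk hq
  have hMM := m3_Mge u q M hu hM
  have hc := m3_ceq u q M hqu hM
  have h1 := GG_conj M (q + u + 1) q (2 * q - u) u 3 (M - 3) hc (by omega) (by omega) φ l h hG
  have h2 : sin ((3 : ℕ) * φ) = sin φ * (1 + 2 * cos (2 * φ)) := by
    push_cast
    exact m3_sin3 φ
  rw [h2] at h1
  apply mul_left_cancel₀ hs
  linear_combination h1

end Pool.Agent.Helper27.TT
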