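import Mathlib
import Pool.Agent.Helper27.TT.G6

/-!
# TT-G7: the family `T(p, k p - 1; p - 2, 1)`: the case `N = M - 2`

`N = (u + 2) q + u² - 2`, `φ = π / N`, `a = q + u + 1`, `g = 2 q - u - 2`; relation (`m3_rel2`) `cos φ' sin (a φ') = cos (q φ') sin (g φ')` at `φ' = φ` and at the conjugate
points `φ' = π / 2 + ψ` (squared: `sq_even`, `sq_odd` of `G2`; `cos φ' = - sin ψ`).  `2 q / N < 2 / (u + 2)`, `g < 2 q`, `q ≥ 2 u + 3`.
* `N` odd: `u` odd, `q` even, `a` even, `g` odd, `ψ = φ / 2`: `sin² ψ sin² (a ψ) = cos² (q ψ) cos² (g ψ)`; `q ψ < π / 10`, `g ψ < π / 5`: right side `> 1 / 2 > sin² ψ`.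
* `N` even, `u` even (`q` odd; `a`, `g` even):
  `4 ∣ N`: `sin φ sin (a φ) = sin (q φ) sin (g φ)`; with the base relation: `sin (g φ) (sin φ cos (q φ) - cos φ sin (q φ)) = 0`, so `sin ((q - 1) φ) = 0`, impossible.
  `N % 4 = 2`: `sin² 2φ sin² 2aφ = sin² 2qφ sin² 2gφ`; double angles and the base relation squared: `sin² φ cos² (a φ) = sin² (q φ) cos² (g φ)`; `g φ < π / 3`, so
  `cos² (g φ) > 1 / 4`, and `sin (q φ) > 2 sin φ` (`big3`: `3 φ ≤ q φ ≤ π - 3 φ`): right side `> sin² φ`.
* `N` even, `u` odd, `q` odd (`a`, `g` odd): `sin² ψ cos² (a ψ) = sin² (q ψ) cos² (g ψ)`: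
  `4 ∣ N`: `g φ < 2 π / 5`: `cos (g φ) > 0.3`; `sin (q φ) ≥ sin (9 φ) > 4 sin φ` (`q ≥ 9`, `q φ < π / 5`, `φ ≤ π / 52`).
  `N % 4 = 2`: `|cos (2 g φ)| = |sin ((N - 4 g) φ / 2)|`, `N - 4 g = (u - 6) q + u² + 4 u + 6`.
   `u = 3`: `N = 5 q + 7`, `q % 4 = 3`, `q % 5 = 4`, so `q ≥ 19`: `N - 4 g = 27 - 3 q`, `(3 q - 27) / (2 N) ∈ [0.147, 0.3]`, `2 q / N ∈ [0.37, 0.4]`: product of the sines `> 0.3`.
   `u = 5`: `N = 7 q + 23`, `q % 4 = 1`, `q % 7 = 6`, so `q = 13` or `q ≥ 41`: `N - 4 g = 51 - q`, `|51 - q| ≥ 10`, `|51 - q| φ / 2 ≥ 5 φ` and `≤ π / 2`: `big5` gives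
   `|cos (2 g φ)| > 2 sin 2φ`, and `sin (2 q φ) > 1 / 2` (`2 q / N ∈ [26/114, 2/7]`).
   `u ≥ 7`: `2 g φ < 4 π / 9`: `cos (2 g φ) > 1 / 6`, `sin (2 q φ) > 6 sin 2φ` (`2 q ≥ 34`, `2 q φ < 2 π / 9`).
-/

set_option autoImplicit false

namespace Pool.Agent.Helper27.TT

open Real

theorem g7_sq_contra (A B C D : ℝ) (hA : 0 ≤ A) (h : A < B * C) (hD : D ^ 2 ≤ 1)
    (hE : A ^ 2 * D ^ 2 = B ^ 2 * C ^ 2) : False := by
  have h1 : A ^ 2 < (B * C) ^ 2 := by
    have : 0 < B * C := lt_of_le_of_lt hA h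
    nlinarith
  have h2 : A ^ 2 * D ^ 2 ≤ A ^ 2 := by
    have := mul_le_mul_of_nonneg_left hD (sq_nonneg A)
    linarith
  have h3 : (B * C) ^ 2 = B ^ 2 * C ^ 2 := by ring
  linarith

theorem g7_sin9 (φ : ℝ) (h0 : 0 < φ) (h1 : φ ≤ 1 / 6) : 5 * sin φ < sin (9 * φ) := by
  have h2 : sin φ < φ := sin_lt h0
  have h3 := sin_gt_sub_cube (x := 9 * φ) (by linarith)
  have h5 : φ ^ 2 ≤ 1 / 36 := by nlinarith
  have h7 : (9 * φ) ^ 3 / 6 ≤ 4 * φ := by
    have e : (9 * φ) ^ 3 / 6 = 243 / 2 * (φ ^ 2 * φ) := by ring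
    rw [e]
    have h8 : φ ^ 2 * φ ≤ 1 / 36 * φ := mul_le_mul_of_nonneg_right h5 h0.le
    linarith
  linarith

theorem g7_rel (u k q M N : ℕ) (hu : 3 ≤ u) (hk : 2 ≤ k) (hq : q + 1 = k * (u + 2))
    (hM : M = (u + 2) * q + u ^ 2) (hN : N + 2 = M) (ψ : ℝ) (l : ℤ) (h0 : 0 < ψ)
    (h1 : ψ < π / 2) (hl : (N : ℝ) * (π / 2 + ψ) = l * π)
    (hG : GG M (q + u + 1) q u (π / 2 + ψ) = 0) :
    sin ψ ^ 2 * sin ((q + u + 1 : ℕ) * (π / 2 + ψ)) ^ 2 =
      cos (q * (π / 2 + ψ)) ^ 2 * sin ((2 * q - u - 2 : ℕ) * (π / 2 + ψ)) ^ 2 := by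
  have hN' : M - 2 = N := by omega
  have hc : cos ψ ≠ 0 := (cos_pos_of_mem_Ioo ⟨by linarith [pi_pos], h1⟩).ne'
  have hs : sin (π / 2 + ψ) ≠ 0 := by
    rw [add_comm, sin_add_pi_div_two]
    exact hc
  have h := m3_rel2 u k q M hu hk hq hM (π / 2 + ψ) hs l (by rw [hN']; exact hl) hG
  have hcos : cos (π / 2 + ψ) = - sin ψ := by
    rw [add_comm, cos_add_pi_div_two]
  rw [hcos] at h
  calc sin ψ ^ 2 * sin ((q + u + 1 : ℕ) * (π / 2 + ψ)) ^ 2
      = (- sin ψ * sin ((q + u + 1 : ℕ) * (π / 2 + ψ))) ^ 2 := by ring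
    _ = _ := by rw [h]; ring

theorem g7_cos_sq (N g : ℕ) (φ : ℝ) (hN : (N : ℝ) * φ = π) :
    cos (g * (2 * φ)) ^ 2 = sin (|(N : ℝ) - 4 * g| * φ / 2) ^ 2 := by
  have h1 : cos (g * (2 * φ)) = sin (((N : ℝ) - 4 * g) * φ / 2) := by
    rw [← sin_pi_div_two_sub]
    congr 1
    rw [← hN]
    ring
  rw [h1]
  rcases le_total 0 ((N : ℝ) - 4 * g) with h | h
  · rw [abs_of_nonneg h]
  · rw [abs_of_nonpos h]
    have : - ((N : ℝ) - 4 * g) * φ / 2 = - (((N : ℝ) - 4 * g) * φ / 2) := by ring
    rw [this, sin_neg]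
    ring

theorem g7_q (u k q : ℕ) (hk : 2 ≤ k) (hq : q + 1 = k * (u + 2)) : 2 * u + 3 ≤ q := by
  have : 2 * (u + 2) ≤ k * (u + 2) := Nat.mul_le_mul_right _ hk
  omega

/-- Both sines bounded below linearly. -/
theorem g7_lin (N q g : ℕ) (φ : ℝ) (h0 : 0 < φ) (hN : (N : ℝ) * φ = π) (hNpos : 0 < (N : ℝ))
    (hq : 4 * (q : ℝ) ≤ N) (hD : |(N : ℝ) - 4 * g| ≤ N)
    (hbig : 63 / 20 * (N : ℝ) ≤ 2 * q * |(N : ℝ) - 4 * g|) :
    sin (2 * φ) < sin (q * (2 * φ)) * sin (|(N : ℝ) - 4 * g| * φ / 2) := by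
  set D : ℝ := |(N : ℝ) - 4 * g| with hDdef
  have hD0 : 0 ≤ D := abs_nonneg _
  have hpi := pi_pos
  have hpi2 := pi_lt_d2
  have hq0 : (0 : ℝ) ≤ q := Nat.cast_nonneg q
  have hφ : φ = π / N := by
    field_simp
    linarith
  have e1 : 2 / π * (q * (2 * φ)) = 4 * q / N := by
    rw [hφ]
    field_simp
    ring
  have e2 : 2 / π * (D * φ / 2) = D / N := by
    rw [hφ]
    field_simp
  have h1 : 4 * q / N ≤ sin (q * (2 * φ)) := by
    rw [← e1]
    apply mul_le_sin (by positivity)
    have : (4 * (q : ℝ)) * φ ≤ N * φ := mul_le_mul_of_nonneg_right hq h0.le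
    linarith
  have h2 : D / N ≤ sin (D * φ / 2) := by
    rw [← e2]
    apply mul_le_sin (by positivity)
    have : D * φ ≤ N * φ := mul_le_mul_of_nonneg_right hD h0.le
    linarith
  have h3 : 4 * q / N * (D / N) ≤ sin (q * (2 * φ)) * sin (D * φ / 2) :=
    mul_le_mul h1 h2 (by positivity) (le_trans (by positivity) h1)
  have h4 : sin (2 * φ) < 2 * φ := sin_lt (by linarith)
  have h5 : 2 * φ ≤ 4 * q / N * (D / N) := by
    rw [hφ, div_mul_div_comm, ← mul_div_assoc, div_le_div_iff₀ hNpos (by positivity)]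
    nlinarith
  linarith

theorem m3_contra2 (u k q M N : ℕ) (hu : 3 ≤ u) (hk : 2 ≤ k) (hq : q + 1 = k * (u + 2))
    (hM : M = (u + 2) * q + u ^ 2) (hN : N + 2 = M) (h0 : GG M (q + u + 1) q u (π / N) = 0)
    (h4 : 4 ∣ N → GG M (q + u + 1) q u (π / 2 + π / N) = 0)
    (h1 : N % 2 = 1 → GG M (q + u + 1) q u (π / 2 + π / N / 2) = 0)
    (h2 : N % 4 = 2 → GG M (q + u + 1) q u (π / 2 + 2 * (π / N)) = 0) : False := by
  have hqu : 2 * u + 3 ≤ q := g7_q u k q hk hq
  have hpi := pi_pos
  have hpi3 := pi_gt_three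
  have hpi2 := pi_lt_d2
  set φ : ℝ := π / N with hφ
  obtain ⟨g, hg⟩ : ∃ g : ℕ, g = 2 * q - u - 2 := ⟨_, rfl⟩
  have hgq : g + u + 2 = 2 * q := by omega
  have hNq : N + 2 = (u + 2) * q + u ^ 2 := by omega
  have hNq5 : 5 * q + 7 ≤ N := by
    have e1 : 5 * q ≤ (u + 2) * q := Nat.mul_le_mul_right _ (by omega)
    have e2 : 3 ^ 2 ≤ u ^ 2 := Nat.pow_le_pow_left hu 2
    omega
  have hN52 : 52 ≤ N := by omega
  have hNr : (52 : ℝ) ≤ N := by exact_mod_cast hN52
  have hNpos : (0 : ℝ) < N := by linarith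
  have hNφ : (N : ℝ) * φ = π := by
    rw [hφ]
    field_simp
  have hφ0 : 0 < φ := by positivity
  have hφ1 : φ ≤ 1 / 16 := by
    have i1 : 52 * φ ≤ N * φ := mul_le_mul_of_nonneg_right hNr hφ0.le
    linarith
  have hqr : (9 : ℝ) ≤ q := by
    have : 9 ≤ q := by omega
    exact_mod_cast this
  have hgr : (g : ℝ) + u + 2 = 2 * q := by exact_mod_cast hgq
  have hur : (3 : ℝ) ≤ u := by exact_mod_cast hu
  have hg0 : (0 : ℝ) ≤ g := Nat.cast_nonneg g
  have hNq5r : 5 * (q : ℝ) + 7 ≤ N := by exact_mod_cast hNq5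
  have hNqr : (N : ℝ) + 2 = (u + 2) * q + u ^ 2 := by exact_mod_cast hNq
  have hqφ : (q : ℝ) * φ < π / 5 := by
    have i1 : (5 * (q : ℝ) + 7) * φ ≤ N * φ := mul_le_mul_of_nonneg_right hNq5r hφ0.le
    linarith
  have hgφ : (g : ℝ) * φ < 2 * (q * φ) := by
    have i1 : (g : ℝ) * φ < (2 * q) * φ := mul_lt_mul_of_pos_right (by linarith) hφ0
    linarith
  -- parities
  have hpar : N % 2 = (u * q + u) % 2 := by
    have e1 : (N + 2) % 2 = ((u + 2) * q + u ^ 2) % 2 := by rw [hNq]
    rcases Nat.mod_two_eq_zero_or_one u with h | h <;>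
      rcases Nat.mod_two_eq_zero_or_one q with h' | h' <;>
      simp [Nat.add_mod, Nat.mul_mod, Nat.pow_mod, h, h'] at e1 ⊢ <;> omega
  rcases Nat.mod_two_eq_zero_or_one N with hNe | hNo
  swap
  · -- `N` odd
    have hu1 : u % 2 = 1 ∧ q % 2 = 0 := by
      rcases Nat.mod_two_eq_zero_or_one u with h | h <;>
        rcases Nat.mod_two_eq_zero_or_one q with h' | h' <;>
        simp [Nat.add_mod, Nat.mul_mod, h, h', hNo] at hpar ⊢
    have hl : (N : ℝ) * (π / 2 + φ / 2) = (((N + 1) / 2 : ℕ) : ℤ) * π := by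
      have e : 2 * ((N + 1) / 2) = N + 1 := by omega
      have e' : (2 : ℝ) * ((((N + 1) / 2 : ℕ) : ℤ) : ℝ) = N + 1 := by
        have : ((((N + 1) / 2 : ℕ) : ℤ) : ℝ) = (((N + 1) / 2 : ℕ) : ℝ) := by norm_cast
        rw [this]
        exact_mod_cast e
      linear_combination (1 / 2) * hNφ - π / 2 * e'
    have hE := g7_rel u k q M N hu hk hq hM hN (φ / 2) _ (by linarith) (by linarith) hl (h1 hNo)
    rw [← hg, (sq_even (q + u + 1) (by omega) (φ / 2)).1, (sq_even q hu1.2 (φ / 2)).2,
      (sq_odd g (by omega) (φ / 2)).1] at hE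
    apply g7_sq_contra (sin (φ / 2)) (cos (q * (φ / 2))) (cos (g * (φ / 2)))
      (sin ((q + u + 1 : ℕ) * (φ / 2)))
    · exact (sin_pos_of_pos_of_lt_pi (by linarith) (by linarith)).le
    · have e1 : sin (φ / 2) < φ / 2 := sin_lt (by linarith)
      have e2 : 1 - (q * (φ / 2)) ^ 2 / 2 ≤ cos (q * (φ / 2)) := one_sub_sq_div_two_le_cos
      have e3 : 1 - (g * (φ / 2)) ^ 2 / 2 ≤ cos (g * (φ / 2)) := one_sub_sq_div_two_le_cos
      have e4 : (q : ℝ) * (φ / 2) ≤ 32 / 100 := by linarith
      have e5 : (g : ℝ) * (φ / 2) ≤ 64 / 100 := by linarith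
      have e6 : (0 : ℝ) ≤ q * (φ / 2) := by positivity
      have e7 : (0 : ℝ) ≤ g * (φ / 2) := by positivity
      have e8 : 9 / 10 ≤ cos (q * (φ / 2)) := by nlinarith
      have e9 : 3 / 4 ≤ cos (g * (φ / 2)) := by nlinarith
      have e10 : (9 / 10 : ℝ) * (3 / 4) ≤ cos (q * (φ / 2)) * cos (g * (φ / 2)) :=
        mul_le_mul e8 e9 (by norm_num) (by linarith)
      linarith
    · have := sin_sq_le_one ((q + u + 1 : ℕ) * (φ / 2))
      exact this
    · exact hE
  · -- `N` even
    have hq1 : q % 2 = 1 := by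
      rcases Nat.mod_two_eq_zero_or_one u with h | h
      · have : (q + 1) % 2 = 0 := by
          rw [hq, Nat.mul_mod]
          have : (u + 2) % 2 = 0 := by omega
          rw [this]
          simp
        omega
      · rcases Nat.mod_two_eq_zero_or_one q with h' | h'
        · simp [Nat.add_mod, Nat.mul_mod, h, h', hNe] at hpar
        · exact h'
    have hconj4 : 4 ∣ N → sin φ ^ 2 * sin ((q + u + 1 : ℕ) * (π / 2 + φ)) ^ 2 =
        cos (q * (π / 2 + φ)) ^ 2 * sin (g * (π / 2 + φ)) ^ 2 := by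
      intro h
      have hl : (N : ℝ) * (π / 2 + φ) = ((N / 2 + 1 : ℕ) : ℤ) * π := by
        have e : 2 * (N / 2 + 1) = N + 2 := by omega
        have e' : (2 : ℝ) * (((N / 2 + 1 : ℕ) : ℤ) : ℝ) = N + 2 := by
          have : (((N / 2 + 1 : ℕ) : ℤ) : ℝ) = ((N / 2 + 1 : ℕ) : ℝ) := by norm_cast
          rw [this]
          exact_mod_cast e
        linear_combination hNφ - π / 2 * e'
      have hE := g7_rel u k q M N hu hk hq hM hN φ _ hφ0 (by linarith) hl (h4 h)
      rw [← hg] at hE
      exact hE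
    have hconj2 : N % 4 = 2 → sin (2 * φ) ^ 2 * sin ((q + u + 1 : ℕ) * (π / 2 + 2 * φ)) ^ 2 =
        cos (q * (π / 2 + 2 * φ)) ^ 2 * sin (g * (π / 2 + 2 * φ)) ^ 2 := by
      intro h
      have hl : (N : ℝ) * (π / 2 + 2 * φ) = ((N / 2 + 2 : ℕ) : ℤ) * π := by
        have e : 2 * (N / 2 + 2) = N + 4 := by omega
        have e' : (2 : ℝ) * (((N / 2 + 2 : ℕ) : ℤ) : ℝ) = N + 4 := by
          have : (((N / 2 + 2 : ℕ) : ℤ) : ℝ) = ((N / 2 + 2 : ℕ) : ℝ) := by norm_cast
          rw [this]
          exact_mod_cast e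
        linear_combination 2 * hNφ - π / 2 * e'
      have hE := g7_rel u k q M N hu hk hq hM hN (2 * φ) _ (by linarith) (by linarith) hl (h2 h)
      rw [← hg] at hE
      exact hE
    have h42 : 4 ∣ N ∨ N % 4 = 2 := by omega
    rcases Nat.mod_two_eq_zero_or_one u with hu0 | hu1
    · -- `u` even
      have hbase : cos φ * sin ((q + u + 1 : ℕ) * φ) = cos (q * φ) * sin (g * φ) := by
        have hs : sin φ ≠ 0 := (sin_pos_of_pos_of_lt_pi hφ0 (by linarith)).ne'
        have hN' : M - 2 = N := by omega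
        have := m3_rel2 u k q M hu hk hq hM φ hs 1 (by rw [hN', hNφ]; simp) h0
        rw [← hg] at this
        exact this
      have hu4 : 4 ≤ u := by omega
      have hur4 : (4 : ℝ) ≤ u := by exact_mod_cast hu4
      have hN6 : 6 * (q : ℝ) + 14 ≤ N := by
        have i1 : 0 ≤ ((u : ℝ) - 4) * q := mul_nonneg (by linarith) (by linarith)
        have i2 : (16 : ℝ) ≤ (u : ℝ) ^ 2 := by nlinarith
        linarith
      have haN : ((q + u + 1 : ℕ) : ℝ) * φ < π := by
        push_cast
        have i1 : (u : ℝ) ≤ q := by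
          have : u ≤ q := by omega
          exact_mod_cast this
        have : ((q : ℝ) + u + 1) < N := by linarith
        calc ((q : ℝ) + u + 1) * φ < N * φ := mul_lt_mul_of_pos_right this hφ0
          _ = π := hNφ
      have ha0 : 0 < ((q + u + 1 : ℕ) : ℝ) * φ := by positivity
      have hgφ3 : (g : ℝ) * φ < π / 3 := by
        have i1 : (6 * (q : ℝ) + 14) * φ ≤ N * φ := mul_le_mul_of_nonneg_right hN6 hφ0.le
        linarith
      have hg1 : (1 : ℝ) ≤ g := by
        have : 1 ≤ g := by omega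
        exact_mod_cast this
      have hgφ0 : 0 < (g : ℝ) * φ := by positivity
      have hsg : 0 < sin (g * φ) := sin_pos_of_pos_of_lt_pi hgφ0 (by linarith)
      have hsa : 0 < sin ((q + u + 1 : ℕ) * φ) := sin_pos_of_pos_of_lt_pi ha0 haN
      have hqφ0 : 0 < (q : ℝ) * φ := by positivity
      have hsq : 0 < sin (q * φ) := sin_pos_of_pos_of_lt_pi hqφ0 (by linarith)
      have hs : 0 < sin φ := sin_pos_of_pos_of_lt_pi hφ0 (by linarith)
      rcases h42 with h | h
      · have hE := hconj4 h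
        rw [(sq_even (q + u + 1) (by omega) φ).1, (sq_odd q hq1 φ).2,
          (sq_even g (by omega) φ).1] at hE
        have hE2 : (sin φ * sin ((q + u + 1 : ℕ) * φ)) ^ 2 = (sin (q * φ) * sin (g * φ)) ^ 2 := by
          linear_combination hE
        have hE3 : sin φ * sin ((q + u + 1 : ℕ) * φ) = sin (q * φ) * sin (g * φ) := by
          rcases sq_eq_sq_iff_eq_or_eq_neg.mp hE2 with h' | h'
          · exact h'
          · exfalso
            have e1 := mul_pos hs hsa
            have e2 := mul_pos hsq hsg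
            linarith
        have hd : sin ((q - 1) * φ) = sin (q * φ) * cos φ - cos (q * φ) * sin φ := by
          rw [← sin_sub]
          congr 1
          ring
        have hd0 : 0 < sin (((q : ℝ) - 1) * φ) := by
          apply sin_pos_of_pos_of_lt_pi
          · apply mul_pos _ hφ0
            linarith
          · linarith
        have hz : sin (g * φ) * sin (((q : ℝ) - 1) * φ) = 0 := by
          rw [hd]
          linear_combination sin φ * hbase - cos φ * hE3
        have := mul_pos hsg hd0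
        linarith
      · have hE := hconj2 h
        rw [(sq_even (q + u + 1) (by omega) (2 * φ)).1, (sq_odd q hq1 (2 * φ)).2,
          (sq_even g (by omega) (2 * φ)).1] at hE
        have d1 : sin (2 * φ) = 2 * sin φ * cos φ := sin_two_mul φ
        have d2 : sin ((q + u + 1 : ℕ) * (2 * φ)) =
            2 * sin ((q + u + 1 : ℕ) * φ) * cos ((q + u + 1 : ℕ) * φ) := by
          rw [← sin_two_mul]
          congr 1
          ring
        have d3 : sin (q * (2 * φ)) = 2 * sin (q * φ) * cos (q * φ) := by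
          rw [← sin_two_mul]
          congr 1
          ring
        have d4 : sin (g * (2 * φ)) = 2 * sin (g * φ) * cos (g * φ) := by
          rw [← sin_two_mul]
          congr 1
          ring
        rw [d1, d2, d3, d4] at hE
        have hc : 0 < cos φ := cos_pos_of_mem_Ioo ⟨by linarith, by linarith⟩
        have hP : 0 < (cos φ * sin ((q + u + 1 : ℕ) * φ)) ^ 2 := by positivity
        have hE2 : (cos φ * sin ((q + u + 1 : ℕ) * φ)) ^ 2 *
            (sin φ ^ 2 * cos ((q + u + 1 : ℕ) * φ) ^ 2 - sin (q * φ) ^ 2 * cos (g * φ) ^ 2) = 0 := by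
          have e : (cos φ * sin ((q + u + 1 : ℕ) * φ)) ^ 2 * (sin (q * φ) ^ 2 * cos (g * φ) ^ 2) =
              (cos (q * φ) * sin (g * φ)) ^ 2 * (sin (q * φ) ^ 2 * cos (g * φ) ^ 2) := by
            rw [hbase]
          linear_combination (1 / 16) * hE - e
        have hE3 : sin φ ^ 2 * cos ((q + u + 1 : ℕ) * φ) ^ 2 =
            sin (q * φ) ^ 2 * cos (g * φ) ^ 2 := by
          rcases mul_eq_zero.mp hE2 with h' | h'
          · linarith
          · linarith
        apply g7_sq_contra (sin φ) (sin (q * φ)) (cos (g * φ)) (cos ((q + u + 1 : ℕ) * φ)) hs.le _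
          (cos_sq_le_one _) hE3
        have i9 : 9 * φ ≤ q * φ := mul_le_mul_of_nonneg_right hqr hφ0.le
        have e1 : 2 * sin φ < sin (q * φ) :=
          big3 φ (q * φ) hφ0 (by linarith) (by linarith) (by linarith)
        have e2 : 1 / 2 ≤ cos (g * φ) := by
          rw [← cos_pi_div_three]
          exact cos_le_cos_of_nonneg_of_le_pi hgφ0.le (by linarith) hgφ3.le
        have e3 := mul_le_mul_of_nonneg_left e2 hsq.le
        linarith
    · -- `u` odd
      rcases h42 with h | h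
      · have hE := hconj4 h
        rw [(sq_odd (q + u + 1) (by omega) φ).1, (sq_odd q hq1 φ).2,
          (sq_odd g (by omega) φ).1] at hE
        have hs : 0 < sin φ := sin_pos_of_pos_of_lt_pi hφ0 (by linarith)
        apply g7_sq_contra (sin φ) (sin (q * φ)) (cos (g * φ)) (cos ((q + u + 1 : ℕ) * φ)) hs.le _
          (cos_sq_le_one _) hE
        have e1 : 5 * sin φ < sin (q * φ) := by
          refine lt_of_lt_of_le (g7_sin9 φ hφ0 (by linarith)) ?_
          exact sin_le_sin_of_le_of_le_pi_div_two (by linarith) (by linarith)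
            (mul_le_mul_of_nonneg_right hqr hφ0.le)
        have e2 : 1 / 5 ≤ cos (g * φ) := by
          have h5 := one_sub_mul_le_cos (x := g * φ) (by positivity) (by linarith)
          have h6 : 2 / π * (g * φ) = 2 * g / N := by
            rw [hφ]
            field_simp
          have h7 : 2 * (g : ℝ) / N ≤ 4 / 5 := by
            rw [div_le_div_iff₀ hNpos (by norm_num)]
            linarith
          rw [h6] at h5
          linarith
        have e3 : sin (q * φ) * (1 / 5) ≤ sin (q * φ) * cos (g * φ) :=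
          mul_le_mul_of_nonneg_left e2 (by linarith)
        linarith
      · have hE := hconj2 h
        rw [(sq_odd (q + u + 1) (by omega) (2 * φ)).1, (sq_odd q hq1 (2 * φ)).2,
          (sq_odd g (by omega) (2 * φ)).1, g7_cos_sq N g φ hNφ] at hE
        have hs : 0 < sin (2 * φ) := sin_pos_of_pos_of_lt_pi (by linarith) (by linarith)
        apply g7_sq_contra (sin (2 * φ)) (sin (q * (2 * φ))) (sin (|(N : ℝ) - 4 * g| * φ / 2))
          (cos ((q + u + 1 : ℕ) * (2 * φ))) hs.le _ (cos_sq_le_one _) hE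
        have h4q : 4 * (q : ℝ) ≤ N := by linarith
        have hDle : |(N : ℝ) - 4 * g| ≤ N := by
          rw [abs_le]
          constructor <;> linarith
        have hD : (N : ℝ) - 4 * g = (u - 6) * q + u ^ 2 + 4 * u + 6 := by
          linear_combination hNqr - 4 * hgr
        have hcases : u = 3 ∨ u = 5 ∨ 7 ≤ u := by omega
        rcases hcases with h3 | h5 | h7
        · subst h3
          have hq19 : 19 ≤ q := by
            have e1 : q % 4 = 3 := by omega
            have e2 : q % 5 = 4 := by omega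
            omega
          have hq19r : (19 : ℝ) ≤ q := by exact_mod_cast hq19
          have hD3 : (N : ℝ) - 4 * g = 27 - 3 * q := by
            rw [hD]
            push_cast
            ring
          have hN3 : (N : ℝ) = 5 * q + 7 := by
            have : (N : ℝ) + 2 = 5 * q + 9 := by
              rw [hNqr]
              push_cast
              ring
            linarith
          apply g7_lin N q g φ hφ0 hNφ hNpos h4q hDle
          rw [hD3, abs_of_nonpos (by linarith), hN3]
          nlinarith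
        · subst h5
          have hN5 : (N : ℝ) = 7 * q + 23 := by
            have : (N : ℝ) + 2 = 7 * q + 25 := by
              rw [hNqr]
              push_cast
              ring
            linarith
          have hD5 : (N : ℝ) - 4 * g = 51 - q := by
            rw [hD]
            push_cast
            ring
          have hqc : q = 13 ∨ 41 ≤ q := by
            have e1 : q % 4 = 1 := by omega
            have e2 : q % 7 = 6 := by omega
            omega
          rcases hqc with h13 | h41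
          · apply g7_lin N q g φ hφ0 hNφ hNpos h4q hDle
            have h13r : (q : ℝ) = 13 := by exact_mod_cast h13
            rw [hD5, hN5, h13r]
            norm_num [abs_of_pos]
          · have h41r : (41 : ℝ) ≤ q := by exact_mod_cast h41
            have hD10 : (10 : ℝ) ≤ |(N : ℝ) - 4 * g| := by
              rw [hD5]
              have e1 : q ≤ 41 ∨ 69 ≤ q := by
                have e1 : q % 4 = 1 := by omega
                have e2 : q % 7 = 6 := by omega
                omega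
              rcases e1 with e1 | e1
              · have : (q : ℝ) ≤ 41 := by exact_mod_cast e1
                exact le_trans (by linarith) (le_abs_self _)
              · have : (69 : ℝ) ≤ q := by exact_mod_cast e1
                exact le_trans (by linarith) (neg_le_abs _)
            have e1 : 2 * sin (2 * φ) < sin (|(N : ℝ) - 4 * g| * φ / 2) := by
              apply big5 φ _ hφ0 (by linarith)
              · have := mul_le_mul_of_nonneg_right hD10 hφ0.le
                linarith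
              · have : |(N : ℝ) - 4 * g| * φ ≤ N * φ := mul_le_mul_of_nonneg_right hDle hφ0.le
                linarith
            have e2 : 1 / 2 ≤ sin (q * (2 * φ)) := by
              have e3 := mul_le_sin (x := q * (2 * φ)) (by positivity) (by linarith)
              have e4 : 2 / π * (q * (2 * φ)) = 4 * q / N := by
                rw [hφ]
                field_simp
                ring
              have e5 : 1 / 2 ≤ 4 * (q : ℝ) / N := by
                rw [div_le_div_iff₀ (by norm_num) hNpos, hN5]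
                linarith
              linarith
            have e6 : 1 / 2 * sin (|(N : ℝ) - 4 * g| * φ / 2) ≤
                sin (q * (2 * φ)) * sin (|(N : ℝ) - 4 * g| * φ / 2) :=
              mul_le_mul_of_nonneg_right e2 (by linarith)
            linarith
        · have h7r : (7 : ℝ) ≤ u := by exact_mod_cast h7
          have hq17 : (17 : ℝ) ≤ q := by
            have : 17 ≤ q := by omega
            exact_mod_cast this
          apply g7_lin N q g φ hφ0 hNφ hNpos h4q hDle
          have hD0 : (N : ℝ) ≤ 9 * ((N : ℝ) - 4 * g) := by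
            rw [hD]
            have i1 : 0 ≤ ((u : ℝ) - 7) * q := mul_nonneg (by linarith) (by linarith)
            have i2 : 0 ≤ (u : ℝ) ^ 2 := sq_nonneg _
            linarith
          have hDa : (N : ℝ) / 9 ≤ |(N : ℝ) - 4 * g| := le_trans (by linarith) (le_abs_self _)
          have i3 : 2 * 17 * ((N : ℝ) / 9) ≤ 2 * q * |(N : ℝ) - 4 * g| :=
            mul_le_mul (by linarith) hDa (by linarith) (by linarith)
          linarith

end Pool.Agent.Helper27.TT
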