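import Mathlib
import Pool.Agent.Helper27.TT.G6

/-!
# TT-G8: the family `T(p, k p - 1; p - 2, 1)`: the case `N = M - 3`, `u ≥ 4`

`N = (u + 2) q + u² - 3`, `φ = π / N`, `a = q + u + 1`, `g = 2 q - u - 3`; relation (`m3_rel3`) `(1 + 2 cos 2φ') sin (a φ') = 2 cos (q φ') sin (g φ')` at `φ' = φ` and at the
conjugate points `φ' = π / 2 + ψ` (squared; `1 + 2 cos 2φ' = 1 - 2 cos 2ψ`).  `N ≥ 79`, `a / N < 1 / 3`.
* `N` odd, `u` even, `q` odd (`a` even, `g` odd), `ψ = φ / 2`: `(2 cos φ - 1) sin (a ψ) = 2 sin (q ψ) cos (g ψ)` (all positive).  The base relation is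
  `(2 cos φ - 1) (2 cos φ + 1) 2 sin (a ψ) cos (a ψ) = 2 cos (2 q ψ) 2 sin (g ψ) cos (g ψ)` (`1 + 2 cos 2φ = 4 cos² φ - 1`); divide:
  `(2 cos φ + 1) cos (a ψ) sin (q ψ) = cos (2 q ψ) sin (g ψ) ≤ sin (2 q ψ) ≤ 2 sin (q ψ)`, but `(2 cos φ + 1) cos (a ψ) > 2.9 * 0.86 > 2` (`a ψ ≤ π / 6`).
* `N` odd, `u` odd (`u ≥ 5`), `q` odd (`a` odd, `g` even): `(2 cos φ - 1)² cos² (a ψ) = 4 sin² (q ψ) sin² (g ψ)`: left `> 0.7`, right `< 4 * 0.06 * 0.2` (`q ψ < π / 14`, `g ψ < π / 7`).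
* `N` even: `u` odd, `q` even (`a`, `g` even).  `4 ∣ N`: `(2 cos 2φ - 1)² sin² (a φ) = 4 cos² (q φ) sin² (g φ) = (1 + 2 cos 2φ)² sin² (a φ)`, impossible.
  `N % 4 = 2`: `(2 cos 4φ - 1)² sin² (2 a φ) = 4 cos² (2 q φ) sin² (2 g φ)`; with the base relation squared:
  `(2 cos 4φ - 1)² cos² (a φ) cos² (q φ) = (1 + 2 cos 2φ)² cos² (2 q φ) cos² (g φ)`; left `≤ 1`; right `> 8.8 * 0.38 * 0.38 > 1` (`2 q φ, g φ < 2 π / 7`, `cos (2π/7) > 0.62`).
-/

set_option autoImplicit false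

namespace Pool.Agent.Helper27.TT

open Real

/-- the squared relation at a conjugate point -/
theorem m3_sq3 (u k q M N : ℕ) (hu : 4 ≤ u) (hk : 2 ≤ k) (hq : q + 1 = k * (u + 2))
    (hM : M = (u + 2) * q + u ^ 2) (hN : N + 3 = M) (ψ : ℝ) (hψ : cos ψ ≠ 0) (l : ℕ)
    (h : (N : ℝ) * (π / 2 + ψ) = l * π) (hG : GG M (q + u + 1) q u (π / 2 + ψ) = 0) :
    (2 * cos (2 * ψ) - 1) ^ 2 * sin ((q + u + 1 : ℕ) * (π / 2 + ψ)) ^ 2 =
      4 * cos (q * (π / 2 + ψ)) ^ 2 * sin ((2 * q - u - 3 : ℕ) * (π / 2 + ψ)) ^ 2 := by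
  have hM3 : M - 3 = N := by omega
  have hs : sin (π / 2 + ψ) ≠ 0 := by
    rw [add_comm, sin_add_pi_div_two]
    exact hψ
  have h1 := m3_rel3 u k q M (by omega) hk hq hM (π / 2 + ψ) hs (l : ℤ)
    (by rw [hM3, h]; simp) hG
  have h2 : cos (2 * (π / 2 + ψ)) = -cos (2 * ψ) := by
    have : 2 * (π / 2 + ψ) = 2 * ψ + π := by ring
    rw [this, cos_add_pi]
  rw [h2] at h1
  have h3 := congrArg (fun x => x ^ 2) h1
  simp only [mul_pow] at h3
  linear_combination h3

theorem m3_cos_lb (x b : ℝ) (h0 : 0 ≤ x) (h1 : x ≤ b) : 1 - b ^ 2 / 2 ≤ cos x := by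
  have h2 := one_sub_sq_div_two_le_cos (x := x)
  have h3 : x ^ 2 ≤ b ^ 2 := by nlinarith
  linarith

theorem m3_contra3 (u k q M N : ℕ) (hu : 4 ≤ u) (hk : 2 ≤ k) (hq : q + 1 = k * (u + 2))
    (hM : M = (u + 2) * q + u ^ 2) (hN : N + 3 = M) (h0 : GG M (q + u + 1) q u (π / N) = 0)
    (h4 : 4 ∣ N → GG M (q + u + 1) q u (π / 2 + π / N) = 0)
    (h1 : N % 2 = 1 → GG M (q + u + 1) q u (π / 2 + π / N / 2) = 0)
    (h2 : N % 4 = 2 → GG M (q + u + 1) q u (π / 2 + 2 * (π / N)) = 0) : False := by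
  have hqu := m3_qge u k q hk hq
  have hN6 : 6 * q + 13 ≤ N := by
    have e1 : 6 * q ≤ (u + 2) * q := Nat.mul_le_mul_right q (by omega)
    have e2 : 16 ≤ u ^ 2 := by nlinarith
    omega
  have hM3 : M - 3 = N := by omega
  have hNr6 : 6 * (q : ℝ) + 13 ≤ N := by exact_mod_cast hN6
  have hqur : 2 * (u : ℝ) + 3 ≤ q := by exact_mod_cast hqu
  have hur : (4 : ℝ) ≤ u := by exact_mod_cast hu
  have hN0 : (0 : ℝ) < N := by linarith
  have hNφ : (N : ℝ) * (π / N) = π := by field_simp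
  have hφ0 : 0 < π / (N : ℝ) := div_pos pi_pos hN0
  have hpi1 : π < 3.15 := pi_lt_d2
  generalize hφ : π / (N : ℝ) = φ at *
  have hsc : ∀ x : ℝ, x ≤ N → x * φ ≤ π := fun x hx =>
    (mul_le_mul_of_nonneg_right hx hφ0.le).trans hNφ.le
  have hφ1 : φ < 0.04 := by
    have := hsc 79 (by linarith)
    linarith
  have hsin : 0 < sin φ := sin_pos_of_pos_of_lt_pi hφ0 (by linarith [pi_gt_three])
  have base := m3_rel3 u k q M (by omega) hk hq hM φ hsin.ne' 1
    (by rw [hM3, hNφ]; simp) h0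
  have har : ((q + u + 1 : ℕ) : ℝ) = q + u + 1 := by push_cast; ring
  have hgr : ((2 * q - u - 3 : ℕ) : ℝ) = 2 * q - u - 3 := by
    rw [Nat.cast_sub (by omega), Nat.cast_sub (by omega)]
    push_cast
    ring
  have hpos : ∀ x : ℝ, 0 < x → x < N → 0 < sin (x * φ) := fun x h0 h1 =>
    sin_pos_of_pos_of_lt_pi (mul_pos h0 hφ0)
      ((mul_lt_mul_of_pos_right h1 hφ0).trans_le hNφ.le)
  have ha0 : 0 < sin (((q + u + 1 : ℕ) : ℝ) * φ) := by
    rw [har]
    exact hpos _ (by linarith) (by linarith)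
  have hg0 : 0 < sin (((2 * q - u - 3 : ℕ) : ℝ) * φ) := by
    rw [hgr]
    exact hpos _ (by linarith) (by linarith)
  have hcos2 := m3_cos_lb (2 * φ) 0.08 (by linarith) (by linarith)
  have hcos1 := m3_cos_lb φ 0.04 (by linarith) (by linarith)
  rcases Nat.mod_two_eq_zero_or_one u with hu2 | hu2
  · -- `u` even: `N` odd, `q` odd
    obtain ⟨v, hv⟩ : ∃ v, u = 2 * v := ⟨u / 2, by omega⟩
    have hq2 : q % 2 = 1 := by
      have : q + 1 = 2 * (k * (v + 1)) := by
        rw [hq, hv]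
        ring
      omega
    have hN2 : N % 2 = 1 := by
      have : N + 3 = 2 * ((v + 1) * q + 2 * v ^ 2) := by
        rw [hN, hM, hv]
        ring
      omega
    obtain ⟨m, hm⟩ : ∃ m, N = 2 * m + 1 := ⟨N / 2, by omega⟩
    have hmr : (N : ℝ) = 2 * m + 1 := by exact_mod_cast hm
    have h5 := m3_sq3 u k q M N hu hk hq hM hN (φ / 2)
      (by
        have := m3_cos_lb (φ / 2) 0.02 (by linarith) (by linarith)
        intro h
        rw [h] at this
        norm_num at this) (m + 1)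
      (by
        push_cast
        rw [hmr] at hNφ ⊢
        linear_combination (1 / 2) * hNφ) (h1 hN2)
    rw [(sq_even (q + u + 1) (by omega) (φ / 2)).1, (sq_odd q hq2 (φ / 2)).2,
      (sq_odd (2 * q - u - 3) (by omega) (φ / 2)).1] at h5
    have e2 : 2 * (φ / 2) = φ := by ring
    rw [e2] at h5
    have ea : ((q + u + 1 : ℕ) : ℝ) * φ = 2 * (((q + u + 1 : ℕ) : ℝ) * (φ / 2)) := by ring
    have eg : ((2 * q - u - 3 : ℕ) : ℝ) * φ = 2 * (((2 * q - u - 3 : ℕ) : ℝ) * (φ / 2)) := by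
      ring
    have eq' : (q : ℝ) * φ = 2 * ((q : ℝ) * (φ / 2)) := by ring
    have hA0 : 0 < ((q + u + 1 : ℕ) : ℝ) * (φ / 2) := by rw [har]; positivity
    have hA1 : ((q + u + 1 : ℕ) : ℝ) * (φ / 2) ≤ 0.525 := by
      rw [har]
      have := hsc (3 * ((q : ℝ) + u + 1)) (by linarith)
      linarith
    have hQ0 : 0 < (q : ℝ) * (φ / 2) := mul_pos (by linarith) (by linarith)
    have hQ1 : (q : ℝ) * (φ / 2) ≤ π / 12 := by
      have := hsc (6 * (q : ℝ)) (by linarith)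
      linarith
    have hG0 : 0 < ((2 * q - u - 3 : ℕ) : ℝ) * (φ / 2) := by
      rw [hgr]
      exact mul_pos (by linarith) (by linarith)
    have hG1 : ((2 * q - u - 3 : ℕ) : ℝ) * (φ / 2) ≤ 2 * ((q : ℝ) * (φ / 2)) := by
      rw [hgr]
      have : (2 * (q : ℝ) - u - 3) * (φ / 2) ≤ (2 * q) * (φ / 2) :=
        mul_le_mul_of_nonneg_right (by linarith) (by linarith)
      linarith
    rw [ea, eg, eq', sin_two_mul, sin_two_mul (((2 * q - u - 3 : ℕ) : ℝ) * (φ / 2)),
      cos_two_mul] at base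
    have hcosA := m3_cos_lb _ 0.525 hA0.le hA1
    have hsA : 0 < sin (((q + u + 1 : ℕ) : ℝ) * (φ / 2)) :=
      sin_pos_of_pos_of_lt_pi hA0 (by linarith [pi_gt_three])
    have hsQ : 0 < sin ((q : ℝ) * (φ / 2)) :=
      sin_pos_of_pos_of_lt_pi hQ0 (by linarith [pi_gt_three])
    have hsG : 0 < sin (((2 * q - u - 3 : ℕ) : ℝ) * (φ / 2)) :=
      sin_pos_of_pos_of_lt_pi hG0 (by linarith [pi_gt_three])
    have hcG : 0 < cos (((2 * q - u - 3 : ℕ) : ℝ) * (φ / 2)) :=
      cos_pos_of_mem_Ioo ⟨by linarith [pi_gt_three], by linarith [pi_gt_three]⟩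
    have hGQ : sin (((2 * q - u - 3 : ℕ) : ℝ) * (φ / 2)) ≤ sin (2 * ((q : ℝ) * (φ / 2))) :=
      sin_le_sin_of_le_of_le_pi_div_two (by linarith [pi_gt_three]) (by linarith) hG1
    rw [sin_two_mul ((q : ℝ) * (φ / 2))] at hGQ
    have hcQ2 := cos_le_one (2 * ((q : ℝ) * (φ / 2)))
    have hcQ := cos_le_one ((q : ℝ) * (φ / 2))
    generalize sin (((q + u + 1 : ℕ) : ℝ) * (φ / 2)) = sA at *
    generalize cos (((q + u + 1 : ℕ) : ℝ) * (φ / 2)) = cA at *
    generalize sin (((2 * q - u - 3 : ℕ) : ℝ) * (φ / 2)) = sG at *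
    generalize cos (((2 * q - u - 3 : ℕ) : ℝ) * (φ / 2)) = cG at *
    generalize cos (2 * ((q : ℝ) * (φ / 2))) = cQ2 at *
    generalize sin ((q : ℝ) * (φ / 2)) = sQ at *
    generalize cos ((q : ℝ) * (φ / 2)) = cQ at *
    generalize cos φ = c at *
    -- the square root
    have h6 : (2 * c - 1) * sA = 2 * (sQ * cG) := by
      have p1 : 0 < (2 * c - 1) * sA := mul_pos (by linarith) hsA
      have p2 : 0 < 2 * (sQ * cG) := by positivity
      have p3 : ((2 * c - 1) * sA) ^ 2 = (2 * (sQ * cG)) ^ 2 := by linear_combination h5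
      exact (pow_left_inj₀ p1.le p2.le two_ne_zero).1 p3
    have h7 : (2 * c + 1) * cA * sQ = cQ2 * sG := by
      apply mul_left_cancel₀ (mul_pos (by norm_num : (0 : ℝ) < 4) hcG).ne'
      linear_combination base - 2 * (2 * c + 1) * cA * h6
    have h8 : cQ2 * sG ≤ 2 * sQ := by
      calc cQ2 * sG ≤ 1 * sG := mul_le_mul_of_nonneg_right hcQ2 hsG.le
        _ ≤ 2 * sQ * cQ := by linarith
        _ ≤ 2 * sQ * 1 := mul_le_mul_of_nonneg_left hcQ (by positivity)
        _ = 2 * sQ := by ring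
    have h9 : (2 * c + 1) * cA ≤ 2 := by
      rw [← h7] at h8
      exact le_of_mul_le_mul_right h8 hsQ
    have h10 : (2.9 : ℝ) * 0.86 ≤ (2 * c + 1) * cA :=
      mul_le_mul (by linarith) (by linarith) (by norm_num) (by linarith)
    linarith
  · -- `u` odd, `u ≥ 5`
    have hu5 : 5 ≤ u := by omega
    have hN7 : 7 * q + 22 ≤ N := by
      have e1 : 7 * q ≤ (u + 2) * q := Nat.mul_le_mul_right q (by omega)
      have e2 : 25 ≤ u ^ 2 := by nlinarith
      omega
    have hNr7 : 7 * (q : ℝ) + 22 ≤ N := by exact_mod_cast hN7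
    obtain ⟨v, hv⟩ : ∃ v, u = 2 * v + 1 := ⟨u / 2, by omega⟩
    have hNq : N % 2 = q % 2 := by
      have : N + 3 = 2 * ((v + 1) * q + 2 * v ^ 2 + 2 * v) + q + 1 := by
        rw [hN, hM, hv]
        ring
      omega
    rcases Nat.mod_two_eq_zero_or_one N with hN2 | hN2
    · -- `N` even
      have hq2 : q % 2 = 0 := by omega
      have base2 := congrArg (fun x => x ^ 2) base
      simp only [mul_pow] at base2
      by_cases hN4 : 4 ∣ N
      · obtain ⟨m, hm⟩ := hN4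
        have hmr : (N : ℝ) = 4 * m := by exact_mod_cast hm
        have h5 := m3_sq3 u k q M N hu hk hq hM hN φ
          (by
            intro h
            rw [h] at hcos1
            norm_num at hcos1) (2 * m + 1)
          (by
            push_cast
            rw [hmr] at hNφ ⊢
            linear_combination hNφ) (h4 ⟨m, hm⟩)
        rw [(sq_even (q + u + 1) (by omega) φ).1, (sq_even q hq2 φ).2,
          (sq_even (2 * q - u - 3) (by omega) φ).1] at h5
        have h6 : 8 * cos (2 * φ) * sin (((q + u + 1 : ℕ) : ℝ) * φ) ^ 2 = 0 := by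
          linear_combination base2 - h5
        have h7 : 0 < 8 * cos (2 * φ) * sin (((q + u + 1 : ℕ) : ℝ) * φ) ^ 2 := by
          apply mul_pos _ (pow_pos ha0 2)
          linarith
        linarith
      · have hN42 : N % 4 = 2 := by omega
        obtain ⟨m, hm⟩ : ∃ m, N = 4 * m + 2 := ⟨N / 4, by omega⟩
        have hmr : (N : ℝ) = 4 * m + 2 := by exact_mod_cast hm
        have h5 := m3_sq3 u k q M N hu hk hq hM hN (2 * φ)
          (by
            intro h
            rw [h] at hcos2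
            norm_num at hcos2) (2 * m + 3)
          (by
            push_cast
            rw [hmr] at hNφ ⊢
            linear_combination 2 * hNφ) (h2 hN42)
        rw [(sq_even (q + u + 1) (by omega) (2 * φ)).1, (sq_even q hq2 (2 * φ)).2,
          (sq_even (2 * q - u - 3) (by omega) (2 * φ)).1] at h5
        have ea : ((q + u + 1 : ℕ) : ℝ) * (2 * φ) = 2 * (((q + u + 1 : ℕ) : ℝ) * φ) := by ring
        have eg : ((2 * q - u - 3 : ℕ) : ℝ) * (2 * φ) =
            2 * (((2 * q - u - 3 : ℕ) : ℝ) * φ) := by ring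
        rw [ea, eg, sin_two_mul, sin_two_mul (((2 * q - u - 3 : ℕ) : ℝ) * φ)] at h5
        have hQ0 : 0 < (q : ℝ) * (2 * φ) := mul_pos (by linarith) (by linarith)
        have hQ1 : (q : ℝ) * (2 * φ) ≤ 0.9 := by
          have := hsc (7 * (q : ℝ)) (by linarith)
          have e3 : 7 * ((q : ℝ) * (2 * φ)) = 2 * (7 * (q : ℝ) * φ) := by ring
          linarith
        have hG0 : 0 < ((2 * q - u - 3 : ℕ) : ℝ) * φ := by
          rw [hgr]
          exact mul_pos (by linarith) hφ0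
        have hG1 : ((2 * q - u - 3 : ℕ) : ℝ) * φ ≤ 0.9 := by
          rw [hgr]
          have : (2 * (q : ℝ) - u - 3) * φ ≤ (2 * q) * φ :=
            mul_le_mul_of_nonneg_right (by linarith) hφ0.le
          have e3 : (2 * (q : ℝ)) * φ = q * (2 * φ) := by ring
          linarith
        have hcQ := m3_cos_lb _ 0.9 hQ0.le hQ1
        have hcG := m3_cos_lb _ 0.9 hG0.le hG1
        have hcA := cos_sq_le_one (((q + u + 1 : ℕ) : ℝ) * φ)
        have hcq := cos_sq_le_one ((q : ℝ) * φ)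
        have hc4 := m3_cos_lb (2 * (2 * φ)) 0.16 (by linarith) (by linarith)
        have hc4' := cos_le_one (2 * (2 * φ))
        generalize sin (((q + u + 1 : ℕ) : ℝ) * φ) = sA at *
        generalize cos (((q + u + 1 : ℕ) : ℝ) * φ) = cA at *
        generalize sin (((2 * q - u - 3 : ℕ) : ℝ) * φ) = sG at *
        generalize cos (((2 * q - u - 3 : ℕ) : ℝ) * φ) = cG at *
        generalize cos ((q : ℝ) * (2 * φ)) = cQ at *
        generalize cos ((q : ℝ) * φ) = cq at *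
        generalize cos (2 * (2 * φ)) = c4 at *
        generalize cos (2 * φ) = c2 at *
        have h6 : (2 * c4 - 1) ^ 2 * cA ^ 2 * cq ^ 2 = (1 + 2 * c2) ^ 2 * cQ ^ 2 * cG ^ 2 := by
          apply mul_left_cancel₀ (mul_pos (by norm_num : (0 : ℝ) < 4) (pow_pos ha0 2)).ne'
          linear_combination cq ^ 2 * h5 - 4 * cQ ^ 2 * cG ^ 2 * base2
        have h7 : (2 * c4 - 1) ^ 2 * cA ^ 2 * cq ^ 2 ≤ 1 := by
          have p1 : (2 * c4 - 1) ^ 2 ≤ 1 := by nlinarith
          calc (2 * c4 - 1) ^ 2 * cA ^ 2 * cq ^ 2 ≤ (1 * 1) * 1 := by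
                apply mul_le_mul _ hcq (sq_nonneg _) (by norm_num)
                exact mul_le_mul p1 hcA (sq_nonneg _) (by norm_num)
            _ = 1 := by norm_num
        have h8 : (1 : ℝ) < (1 + 2 * c2) ^ 2 * cQ ^ 2 * cG ^ 2 := by
          have p1 : (2.99 : ℝ) ^ 2 ≤ (1 + 2 * c2) ^ 2 :=
            pow_le_pow_left₀ (by norm_num) (by linarith) 2
          have p2 : (1 - 0.9 ^ 2 / 2 : ℝ) ^ 2 ≤ cQ ^ 2 :=
            pow_le_pow_left₀ (by norm_num) (by linarith) 2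
          have p3 : (1 - 0.9 ^ 2 / 2 : ℝ) ^ 2 ≤ cG ^ 2 :=
            pow_le_pow_left₀ (by norm_num) (by linarith) 2
          calc (1 : ℝ) < 2.99 ^ 2 * (1 - 0.9 ^ 2 / 2) ^ 2 * (1 - 0.9 ^ 2 / 2) ^ 2 := by norm_num
            _ ≤ (1 + 2 * c2) ^ 2 * cQ ^ 2 * cG ^ 2 := by
                apply mul_le_mul _ p3 (by norm_num) (by positivity)
                exact mul_le_mul p1 p2 (by norm_num) (by positivity)
        linarith
    · -- `N` odd, `q` odd
      have hq2 : q % 2 = 1 := by omega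
      obtain ⟨m, hm⟩ : ∃ m, N = 2 * m + 1 := ⟨N / 2, by omega⟩
      have hmr : (N : ℝ) = 2 * m + 1 := by exact_mod_cast hm
      have h5 := m3_sq3 u k q M N hu hk hq hM hN (φ / 2)
        (by
          have := m3_cos_lb (φ / 2) 0.02 (by linarith) (by linarith)
          intro h
          rw [h] at this
          norm_num at this) (m + 1)
        (by
          push_cast
          rw [hmr] at hNφ ⊢
          linear_combination (1 / 2) * hNφ) (h1 hN2)
      rw [(sq_odd (q + u + 1) (by omega) (φ / 2)).1, (sq_odd q hq2 (φ / 2)).2,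
        (sq_even (2 * q - u - 3) (by omega) (φ / 2)).1] at h5
      have e2 : 2 * (φ / 2) = φ := by ring
      rw [e2] at h5
      have hA0 : 0 < ((q + u + 1 : ℕ) : ℝ) * (φ / 2) := by rw [har]; positivity
      have hA1 : ((q + u + 1 : ℕ) : ℝ) * (φ / 2) ≤ 0.525 := by
        rw [har]
        have := hsc (3 * ((q : ℝ) + u + 1)) (by linarith)
        linarith
      have hQ0 : 0 < (q : ℝ) * (φ / 2) := mul_pos (by linarith) (by linarith)
      have hQ1 : (q : ℝ) * (φ / 2) ≤ 0.225 := by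
        have := hsc (7 * (q : ℝ)) (by linarith)
        linarith
      have hG0 : 0 < ((2 * q - u - 3 : ℕ) : ℝ) * (φ / 2) := by
        rw [hgr]
        exact mul_pos (by linarith) (by linarith)
      have hG1 : ((2 * q - u - 3 : ℕ) : ℝ) * (φ / 2) ≤ 0.45 := by
        rw [hgr]
        have : (2 * (q : ℝ) - u - 3) * (φ / 2) ≤ (2 * q) * (φ / 2) :=
          mul_le_mul_of_nonneg_right (by linarith) (by linarith)
        linarith
      have hcosA := m3_cos_lb _ 0.525 hA0.le hA1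
      have s1 : sin ((q : ℝ) * (φ / 2)) ^ 2 ≤ 0.225 ^ 2 := by
        apply pow_le_pow_left₀ (sin_nonneg_of_nonneg_of_le_pi hQ0.le
          (by linarith [pi_gt_three]))
        exact (sin_le hQ0.le).trans hQ1
      have s2 : sin (((2 * q - u - 3 : ℕ) : ℝ) * (φ / 2)) ^ 2 ≤ 0.45 ^ 2 := by
        apply pow_le_pow_left₀ (sin_nonneg_of_nonneg_of_le_pi hG0.le
          (by linarith [pi_gt_three]))
        exact (sin_le hG0.le).trans hG1
      have s3 : 4 * sin ((q : ℝ) * (φ / 2)) ^ 2 *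
          sin (((2 * q - u - 3 : ℕ) : ℝ) * (φ / 2)) ^ 2 ≤ 4 * 0.225 ^ 2 * 0.45 ^ 2 :=
        mul_le_mul (by linarith) s2 (sq_nonneg _) (by norm_num)
      have s4 : (0.99 : ℝ) ^ 2 * 0.86 ^ 2 ≤
          (2 * cos φ - 1) ^ 2 * cos (((q + u + 1 : ℕ) : ℝ) * (φ / 2)) ^ 2 := by
        apply mul_le_mul (pow_le_pow_left₀ (by norm_num) (by linarith) 2)
          (pow_le_pow_left₀ (by norm_num) (by linarith) 2) (by norm_num) (sq_nonneg _)
      rw [h5] at s4
      have s5 := s4.trans s3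
      norm_num at s5

end Pool.Agent.Helper27.TT
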