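import Mathlib
import Pool.Agent.Helper27.TT.G1
import Pool.Agent.Helper27.TT.G2

/-!
# TT-G9: the family `T(p, k p + 1; 2, 1)`, `p = u + 2 ≥ 5`

`T(p, k p + 1; 2, 1)`: `q = k (u + 2) + 1`, `M = (u + 2) q + 4`, `a = q`, `b = q + 1`, `n = u`, `c = 2 q + 4`.
* `p2_pos`: `GG_lower` (`j = 2`): `≥ sin φ (sin ((3 q + 3) φ) - sin ((q - 1) φ)) > 0`, `4 q + 2 < M - 2`.
* `p2_neg`: `GG_at` (`j = 4`): `sin φ (sin ((3 q + 1) φ) - sin ((q + 1) φ) - sin ((q + 3) φ) - sin ((q - 3) φ)) < 0`.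
* `p2_rel`: `GG_conj` (`j = 3`): `sin (q φ) + sin ((q + 2) φ) + sin ((q - 2) φ) = sin ((3 q + 2) φ) + sin (q φ)`.
* `p2_contra`: `N = (u + 2) q + 1`, relation `2 cos 2φ' sin (q φ') = sin ((3 q + 2) φ')` at `φ' = φ = π / N` and at the conjugate points `φ' = π / 2 + ψ` (squared, `sq_even`, `sq_odd`
  from `G2`; `cos 2φ' = - cos 2ψ`):
  `N` odd, `q` odd (so `u` even): `cos² ((3 q + 2) ψ) = 4 cos² (q ψ) cos² 2ψ` with `ψ = φ / 2`, `q ψ < π / 12`: the right side is `> 1`.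
  `N` odd, `q` even: `sin ((3 q + 2) ψ) = 2 sin (q ψ) cos 2ψ` (all positive), base relation with `φ = 2 ψ` divided by it: `cos ((3 q + 2) ψ) cos 2ψ = cos (q ψ) cos 4ψ`, i.e.
  `cos ((3 q + 4) ψ) + cos (3 q ψ) = cos ((q + 4) ψ) + cos ((q - 4) ψ)`, but `cos` is decreasing on `[0, π]`.
  `4 ∣ N` (`q`, `u` odd): `cos² ((3 q + 2) φ) = 4 cos² (q φ) cos² 2φ`, `q φ < π / 5`: right side `> 1`.
  `N % 4 = 2` (`q`, `u` odd): `cos² (2 (3 q + 2) φ) = 4 cos² (2 q φ) cos² 4φ`; `u ≥ 5`: `2 q φ < 2 π / 7`: right side `> 1`;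
  `u = 3`: `N = 5 q + 1`, `q % 4 = 1`, `q % 5 = 1`, `q ≥ 21`: `2 (3 q + 2) φ ∈ (6π/5, 1.2265 π)`: left side `> 0.57`; `2 q φ ≥ 0.396 π`: right side `< 0.42`.
-/

set_option autoImplicit false

namespace Pool.Agent.Helper27.TT

open Real

theorem g9_q (u k q : ℕ) (hu : 3 ≤ u) (hk : 1 ≤ k) (hq : q = k * (u + 2) + 1) : 6 ≤ q := by
  have : 1 * (u + 2) ≤ k * (u + 2) := Nat.mul_le_mul_right _ hk
  omega

theorem g9_M (u q M : ℕ) (hu : 3 ≤ u) (hM : M = (u + 2) * q + 4) : 5 * q + 4 ≤ M := by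
  have : 5 * q ≤ (u + 2) * q := Nat.mul_le_mul_right _ (by omega)
  omega

theorem p2_pos (u k q M : ℕ) (hu : 3 ≤ u) (hk : 1 ≤ k) (hq : q = k * (u + 2) + 1)
    (hM : M = (u + 2) * q + 4) (φ : ℝ) (h0 : 0 < φ)
    (h1 : φ ≤ π / ((M - 2 : ℕ) : ℝ)) : 0 < GG M q (q + 1) u φ := by
  have hq6 := g9_q u k q hu hk hq
  have hM5 := g9_M u q M hu hM
  have hMc : u * q + (2 * q + 4) = M := by rw [hM]; ring
  have hM2 : (0 : ℝ) < ((M - 2 : ℕ) : ℝ) := by exact_mod_cast (by omega : 0 < M - 2)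
  have h2 : ((M - 2 : ℕ) : ℝ) * φ ≤ π := by
    rw [le_div_iff₀ hM2] at h1; linarith
  have hc2 : ((M - 2 : ℕ) : ℝ) = M - 2 := by
    rw [Nat.cast_sub (by omega)]; norm_num
  have hq6r : (6 : ℝ) ≤ q := by exact_mod_cast hq6
  have hM5r : 5 * (q : ℝ) + 4 ≤ M := by exact_mod_cast hM5
  have h3 : (5 * (q : ℝ) + 2) * φ ≤ π := by
    have : (5 * (q : ℝ) + 2) * φ ≤ ((M - 2 : ℕ) : ℝ) * φ :=
      mul_le_mul_of_nonneg_right (by rw [hc2]; linarith) h0.le
    linarith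
  rcases le_or_gt (M * φ) π with h | h
  · exact GG_pos_small M q (q + 1) (2 * q + 4) u hMc (by omega) (by omega) (by omega) (by omega)
      φ h0 h
  · have hL := GG_lower M q (q + 1) (2 * q + 4) u 2 hMc (by omega) φ h0 h.le
      (by rw [hc2] at h2; push_cast; linarith) (by push_cast; nlinarith [pi_pos])
      (by nlinarith) (by push_cast; nlinarith) (by push_cast; nlinarith)
    refine lt_of_lt_of_le ?_ hL
    have s3 : 0 < sin φ := sin_pos_of_pos_of_lt_pi h0 (by nlinarith)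
    have e0 : (2 * q + 4 - 2 : ℕ) = 2 * q + 2 := by omega
    have g := sin_gt ((3 * (q : ℝ) + 3) * φ) (((q : ℝ) - 1) * φ)
      (mul_nonneg (by linarith) h0.le) (mul_lt_mul_of_pos_right (by linarith) h0)
      (by nlinarith)
    have e1 : ((2 * q + 4 - 2 : ℕ) : ℝ) * φ = (2 * q + 2) * φ := by rw [e0]; push_cast; ring
    have e2 : ((2 : ℕ) : ℝ) * φ = 2 * φ := by norm_num
    have e3 : ((q + 1 : ℕ) : ℝ) * φ = (q + 1) * φ := by push_cast; ring
    have p1 : 2 * cos ((q + 1) * φ) * sin ((2 * q + 2) * φ) =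
        sin ((3 * q + 3) * φ) + sin ((q + 1) * φ) := by
      have a1 : (3 * (q : ℝ) + 3) * φ = (2 * q + 2) * φ + (q + 1) * φ := by ring
      have a2 : ((q : ℝ) + 1) * φ = (2 * q + 2) * φ - (q + 1) * φ := by ring
      have a3 := sin_add ((2 * (q : ℝ) + 2) * φ) ((q + 1) * φ)
      have a4 := sin_sub ((2 * (q : ℝ) + 2) * φ) ((q + 1) * φ)
      rw [← a1] at a3
      rw [← a2] at a4
      linarith
    have p2 : 2 * cos φ * sin (q * φ) = sin ((q + 1) * φ) + sin ((q - 1) * φ) := by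
      have a1 : ((q : ℝ) + 1) * φ = q * φ + φ := by ring
      have a2 : ((q : ℝ) - 1) * φ = q * φ - φ := by ring
      rw [a1, a2, sin_add, sin_sub]
      ring
    rw [e1, e2, e3, sin_two_mul]
    have p3 : -(2 * sin φ * cos φ * sin (q * φ)) +
        2 * sin φ * cos ((q + 1) * φ) * sin ((2 * q + 2) * φ) =
        sin φ * (sin ((3 * q + 3) * φ) - sin ((q - 1) * φ)) := by
      linear_combination sin φ * p1 - sin φ * p2
    rw [p3]
    exact mul_pos s3 (by linarith)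

theorem p2_neg (u k q M : ℕ) (hu : 3 ≤ u) (hk : 1 ≤ k) (hq : q = k * (u + 2) + 1)
    (hM : M = (u + 2) * q + 4) : GG M q (q + 1) u (π / ((M - 4 : ℕ) : ℝ)) < 0 := by
  have hq6 := g9_q u k q hu hk hq
  have hM5 := g9_M u q M hu hM
  have hMc : u * q + (2 * q + 4) = M := by rw [hM]; ring
  have hN0 : (0 : ℝ) < ((M - 4 : ℕ) : ℝ) := by exact_mod_cast (by omega : 0 < M - 4)
  have hq6r : (6 : ℝ) ≤ q := by exact_mod_cast hq6
  have hc4 : 5 * (q : ℝ) ≤ ((M - 4 : ℕ) : ℝ) := by exact_mod_cast (by omega : 5 * q ≤ M - 4)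
  obtain ⟨φ, hφ⟩ : ∃ φ, φ = π / ((M - 4 : ℕ) : ℝ) := ⟨_, rfl⟩
  have h0 : 0 < φ := by rw [hφ]; positivity
  have hNφ : ((M - 4 : ℕ) : ℝ) * φ = π := by rw [hφ]; field_simp
  have h3 : 5 * (q : ℝ) * φ ≤ π := by
    rw [← hNφ]; exact mul_le_mul_of_nonneg_right hc4 h0.le
  rw [← hφ, GG_at M q (q + 1) (2 * q + 4) u 4 (M - 4) hMc (by omega) (by omega) φ hNφ]
  have s3 : 0 < sin φ := sin_pos_of_pos_of_lt_pi h0 (by nlinarith)
  have g := sin_three ((q + 1) * φ) ((q + 3) * φ) ((q - 3) * φ) ((3 * q + 1) * φ)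
    (by positivity) (by positivity) (mul_pos (by linarith) h0) (by nlinarith) (by nlinarith)
    (by nlinarith) (by positivity) (by linarith)
  have e0 : (2 * q + 4 - 4 : ℕ) = 2 * q := by omega
  have e1 : ((2 * q + 4 - 4 : ℕ) : ℝ) * φ = 2 * q * φ := by rw [e0]; push_cast; ring
  have e2 : ((4 : ℕ) : ℝ) * φ = 2 * (2 * φ) := by push_cast; ring
  have e3 : ((q + 1 : ℕ) : ℝ) * φ = (q + 1) * φ := by push_cast; ring
  have p1 : 2 * cos ((q + 1) * φ) * sin (2 * q * φ) =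
      sin ((3 * q + 1) * φ) + sin ((q - 1) * φ) := by
    have a1 : (3 * (q : ℝ) + 1) * φ = 2 * q * φ + (q + 1) * φ := by ring
    have a2 : ((q : ℝ) - 1) * φ = 2 * q * φ - (q + 1) * φ := by ring
    rw [a1, a2, sin_add, sin_sub]
    ring
  have p2 : 2 * cos φ * sin (q * φ) = sin ((q + 1) * φ) + sin ((q - 1) * φ) := by
    have a1 : ((q : ℝ) + 1) * φ = q * φ + φ := by ring
    have a2 : ((q : ℝ) - 1) * φ = q * φ - φ := by ring
    rw [a1, a2, sin_add, sin_sub]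
    ring
  have p3 : 2 * cos (3 * φ) * sin (q * φ) = sin ((q + 3) * φ) + sin ((q - 3) * φ) := by
    have a1 : ((q : ℝ) + 3) * φ = q * φ + 3 * φ := by ring
    have a2 : ((q : ℝ) - 3) * φ = q * φ - 3 * φ := by ring
    rw [a1, a2, sin_add, sin_sub]
    ring
  have p4 : 2 * cos φ * cos (2 * φ) = cos (3 * φ) + cos φ := by
    have a1 : 3 * φ = 2 * φ + φ := by ring
    have a2 : cos φ = cos (2 * φ - φ) := by congr 1; ring
    have a3 := cos_add (2 * φ) φ
    have a4 := cos_sub (2 * φ) φ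
    rw [← a1] at a3
    rw [← a2] at a4
    linarith
  rw [e1, e2, e3, sin_two_mul (2 * φ), sin_two_mul φ]
  have p5 : -(2 * (2 * sin φ * cos φ) * cos (2 * φ) * sin (q * φ)) +
      2 * sin φ * cos ((q + 1) * φ) * sin (2 * q * φ) =
      sin φ * (sin ((3 * q + 1) * φ) - sin ((q + 1) * φ) - sin ((q + 3) * φ) -
        sin ((q - 3) * φ)) := by
    linear_combination sin φ * p1 - sin φ * p2 - sin φ * p3 - 2 * sin φ * sin (q * φ) * p4
  rw [p5]
  exact mul_neg_of_pos_of_neg s3 (by linarith)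

theorem p2_rel (u k q M : ℕ) (hu : 3 ≤ u) (hk : 1 ≤ k) (hq : q = k * (u + 2) + 1)
    (hM : M = (u + 2) * q + 4) (φ : ℝ) (hs : sin φ ≠ 0) (l : ℤ)
    (h : ((M - 3 : ℕ) : ℝ) * φ = l * π) (hG : GG M q (q + 1) u φ = 0) :
    2 * cos (2 * φ) * sin (q * φ) = sin ((3 * q + 2 : ℕ) * φ) := by
  have hq6 := g9_q u k q hu hk hq
  have hM5 := g9_M u q M hu hM
  have hMc : u * q + (2 * q + 4) = M := by rw [hM]; ring
  have g := GG_conj M q (q + 1) (2 * q + 4) u 3 (M - 3) hMc (by omega) (by omega) φ l h hG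
  have e0 : (2 * q + 4 - 3 : ℕ) = 2 * q + 1 := by omega
  have e1 : ((2 * q + 4 - 3 : ℕ) : ℝ) * φ = (2 * q + 1) * φ := by rw [e0]; push_cast; ring
  have e2 : ((3 : ℕ) : ℝ) * φ = 3 * φ := by push_cast; ring
  have e3 : ((q + 1 : ℕ) : ℝ) * φ = (q + 1) * φ := by push_cast; ring
  have e4 : ((3 * q + 2 : ℕ) : ℝ) * φ = (3 * q + 2) * φ := by push_cast; ring
  rw [e1, e2, e3, sin_three_mul] at g
  rw [e4]
  have p1 : 2 * cos ((q + 1) * φ) * sin ((2 * q + 1) * φ) =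
      sin ((3 * q + 2) * φ) + sin (q * φ) := by
    have a1 : (3 * (q : ℝ) + 2) * φ = (2 * q + 1) * φ + (q + 1) * φ := by ring
    have a2 : (q : ℝ) * φ = (2 * q + 1) * φ - (q + 1) * φ := by ring
    have a3 := sin_add ((2 * (q : ℝ) + 1) * φ) ((q + 1) * φ)
    have a4 := sin_sub ((2 * (q : ℝ) + 1) * φ) ((q + 1) * φ)
    rw [← a1] at a3
    rw [← a2] at a4
    linarith
  have p2 : cos (2 * φ) = 1 - 2 * sin φ ^ 2 := by
    rw [cos_two_mul, cos_sq']; ring
  have p3 : sin φ * (2 * cos (2 * φ) * sin (q * φ)) = sin φ * sin ((3 * q + 2) * φ) := by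
    rw [p2]
    linear_combination g + sin φ * p1
  exact mul_left_cancel₀ hs p3

/-- the squared relation at a conjugate point -/
theorem g9_sq (u k q M : ℕ) (hu : 3 ≤ u) (hk : 1 ≤ k) (hq : q = k * (u + 2) + 1)
    (hM : M = (u + 2) * q + 4) (ψ : ℝ) (hs : 0 < cos ψ) (l : ℤ)
    (h : ((M - 3 : ℕ) : ℝ) * (π / 2 + ψ) = l * π) (hG : GG M q (q + 1) u (π / 2 + ψ) = 0) :
    (q % 2 = 1 → cos ((3 * q + 2 : ℕ) * ψ) ^ 2 = 4 * cos (2 * ψ) ^ 2 * cos (q * ψ) ^ 2) ∧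
    (q % 2 = 0 → sin ((3 * q + 2 : ℕ) * ψ) ^ 2 = 4 * cos (2 * ψ) ^ 2 * sin (q * ψ) ^ 2) := by
  have hs1 : sin (π / 2 + ψ) ≠ 0 := by
    rw [add_comm, sin_add_pi_div_two]; exact hs.ne'
  have hR := p2_rel u k q M hu hk hq hM (π / 2 + ψ) hs1 l h hG
  have e1 : cos (2 * (π / 2 + ψ)) = -cos (2 * ψ) := by
    have : 2 * (π / 2 + ψ) = 2 * ψ + π := by ring
    rw [this, cos_add_pi]
  rw [e1] at hR
  have hR2 : sin ((3 * q + 2 : ℕ) * (π / 2 + ψ)) ^ 2 =
      4 * cos (2 * ψ) ^ 2 * sin (q * (π / 2 + ψ)) ^ 2 := by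
    rw [← hR]; ring
  constructor
  · intro ho
    rw [(sq_odd (3 * q + 2) (by omega) ψ).1, (sq_odd q ho ψ).1] at hR2
    exact hR2
  · intro he
    rw [(sq_even (3 * q + 2) (by omega) ψ).1, (sq_even q he ψ).1] at hR2
    exact hR2

theorem g9_big (x y t c1 c2 : ℝ) (h : t ≤ 1) (hx : 1 - x ^ 2 / 2 ≥ c1) (hy : 1 - y ^ 2 / 2 ≥ c2)
    (h1 : 0 < c1) (h2 : 0 < c2) (hc : 1 / 2 < c1 * c2)
    (he : t = 4 * cos x ^ 2 * cos y ^ 2) : False := by
  have k1 : c1 ≤ cos x := le_trans hx (one_sub_sq_div_two_le_cos)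
  have k2 : c2 ≤ cos y := le_trans hy (one_sub_sq_div_two_le_cos)
  have k3 : c1 * c2 ≤ cos x * cos y := mul_le_mul k1 k2 h2.le (by linarith)
  nlinarith

theorem p2_contra (u k q M N : ℕ) (hu : 3 ≤ u) (hk : 1 ≤ k) (hq : q = k * (u + 2) + 1)
    (hM : M = (u + 2) * q + 4) (hN : N + 3 = M) (h0 : GG M q (q + 1) u (π / N) = 0)
    (h4 : 4 ∣ N → GG M q (q + 1) u (π / 2 + π / N) = 0)
    (h1 : N % 2 = 1 → GG M q (q + 1) u (π / 2 + π / N / 2) = 0)
    (h2 : N % 4 = 2 → GG M q (q + 1) u (π / 2 + 2 * (π / N)) = 0) : False := by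
  have hq6 := g9_q u k q hu hk hq
  have hM5 := g9_M u q M hu hM
  have hNM : M - 3 = N := by omega
  have hN5 : 5 * q + 1 ≤ N := by omega
  have hNe : N = (u + 2) * q + 1 := by omega
  have hN31 : 31 ≤ N := by omega
  have hq6r : (6 : ℝ) ≤ q := by exact_mod_cast hq6
  have hN5r : 5 * (q : ℝ) + 1 ≤ N := by exact_mod_cast hN5
  have hN31r : (31 : ℝ) ≤ N := by exact_mod_cast hN31
  have hN0 : (0 : ℝ) < N := by linarith
  have hpi1 := pi_gt_d2
  have hpi2 := pi_lt_d2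
  obtain ⟨φ, hφ⟩ : ∃ φ, φ = π / N := ⟨_, rfl⟩
  rw [← hφ] at h0 h4 h1 h2
  have hNφ : (N : ℝ) * φ = π := by rw [hφ]; field_simp
  have hφ0 : 0 < φ := by rw [hφ]; positivity
  have hφ1 : 31 * φ ≤ π := by rw [← hNφ]; exact mul_le_mul_of_nonneg_right hN31r hφ0.le
  have hφ2 : φ ≤ 0.1017 := by linarith
  have hqφ : 5 * (q * φ) < π := by
    have : 5 * (q * φ) < (5 * (q : ℝ) + 1) * φ := by linarith
    have : (5 * (q : ℝ) + 1) * φ ≤ N * φ := mul_le_mul_of_nonneg_right hN5r hφ0.le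
    linarith
  have hqφ0 : 0 < q * φ := by positivity
  rcases Nat.even_or_odd N with hev | hod
  · -- `N` even
    obtain ⟨m, hm⟩ := hev
    have hoo : q % 2 = 1 ∧ u % 2 = 1 := by
      rcases Nat.mod_two_eq_zero_or_one q with hq2 | hq2
      · exfalso
        obtain ⟨t, ht⟩ : 2 ∣ (u + 2) * q := Dvd.dvd.mul_left (Nat.dvd_of_mod_eq_zero hq2) _
        omega
      · refine ⟨hq2, ?_⟩
        rcases Nat.mod_two_eq_zero_or_one u with hu2 | hu2
        · exfalso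
          obtain ⟨t, ht⟩ : 2 ∣ (u + 2) * q :=
            Dvd.dvd.mul_right (Nat.dvd_of_mod_eq_zero (by omega)) _
          omega
        · exact hu2
    by_cases h4N : 4 ∣ N
    · have hc : 0 < cos φ := cos_pos_of_mem_Ioo ⟨by linarith [pi_pos], by linarith⟩
      have hl : ((M - 3 : ℕ) : ℝ) * (π / 2 + φ) = ((m + 1 : ℤ) : ℝ) * π := by
        rw [hNM, mul_add, hNφ, hm]; push_cast; ring
      have g := (g9_sq u k q M hu hk hq hM φ hc (m + 1) hl (h4 h4N)).1 hoo.1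
      refine g9_big (2 * φ) (q * φ) _ 0.97 0.79 (cos_sq_le_one _) ?_ ?_ (by norm_num)
        (by norm_num) (by norm_num) g
      · nlinarith
      · nlinarith
    · have hN2 : N % 4 = 2 := by omega
      have hc : 0 < cos (2 * φ) := cos_pos_of_mem_Ioo ⟨by linarith [pi_pos], by linarith⟩
      have hl : ((M - 3 : ℕ) : ℝ) * (π / 2 + 2 * φ) = ((m + 2 : ℤ) : ℝ) * π := by
        have : (N : ℝ) * (2 * φ) = 2 * π := by rw [← hNφ]; ring
        rw [hNM, mul_add, this, hm]; push_cast; ring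
      have g := (g9_sq u k q M hu hk hq hM (2 * φ) hc (m + 2) hl (h2 hN2)).1 hoo.1
      rcases Nat.lt_or_ge u 5 with hu5 | hu5
      · -- `u = 3`
        have hu3 : u = 3 := by omega
        subst hu3
        have hq21 : 21 ≤ q := by omega
        have hNq : N = 5 * q + 1 := by omega
        have hq21r : (21 : ℝ) ≤ q := by exact_mod_cast hq21
        have hNqr : (N : ℝ) = 5 * q + 1 := by rw [hNq]; push_cast; ring
        have hqe : 5 * (q * φ) + φ = π := by rw [← hNφ, hNqr]; ring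
        have hφ3 : 106 * φ ≤ π := by
          rw [← hqe]; nlinarith
        have e1 : ((3 * q + 2 : ℕ) : ℝ) * (2 * φ) = (π / 5 + 14 / 5 * φ) + π := by
          push_cast; linarith
        rw [e1, cos_add_pi, neg_sq] at g
        have k1 : 0.745 ≤ cos (π / 5 + 14 / 5 * φ) := by
          refine le_trans ?_ (one_sub_sq_div_two_le_cos)
          nlinarith
        have e2 : (q : ℝ) * (2 * φ) = π / 2 - (π / 10 + 2 / 5 * φ) := by linarith
        rw [e2, cos_pi_div_two_sub] at g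
        have k2 : sin (π / 10 + 2 / 5 * φ) ≤ π / 10 + 2 / 5 * φ := sin_le (by positivity)
        have k3 : 0 ≤ sin (π / 10 + 2 / 5 * φ) :=
          sin_nonneg_of_nonneg_of_le_pi (by positivity) (by linarith)
        have k4 : cos (2 * (2 * φ)) ^ 2 ≤ 1 := cos_sq_le_one _
        have k5 : sin (π / 10 + 2 / 5 * φ) ^ 2 ≤ 0.33 ^ 2 :=
          pow_le_pow_left₀ k3 (by linarith) 2
        nlinarith [sq_nonneg (sin (π / 10 + 2 / 5 * φ))]
      · have hN7 : 7 * q + 1 ≤ N := by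
          have : 7 * q ≤ (u + 2) * q := Nat.mul_le_mul_right _ (by omega)
          omega
        have hN7r : 7 * (q : ℝ) + 1 ≤ N := by exact_mod_cast hN7
        have hq8 : 8 ≤ q := by
          have : 1 * (u + 2) ≤ k * (u + 2) := Nat.mul_le_mul_right _ hk
          omega
        have hq8r : (8 : ℝ) ≤ q := by exact_mod_cast hq8
        have hqφ7 : 7 * (q * φ) + φ ≤ π := by
          have : (7 * (q : ℝ) + 1) * φ ≤ N * φ := mul_le_mul_of_nonneg_right hN7r hφ0.le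
          linarith
        have hφ57 : 57 * φ ≤ π := by nlinarith
        refine g9_big (2 * (2 * φ)) (q * (2 * φ)) _ 0.97 0.59 (cos_sq_le_one _) ?_ ?_
          (by norm_num) (by norm_num) (by norm_num) g
        · nlinarith
        · nlinarith
  · -- `N` odd
    obtain ⟨m, hm⟩ := hod
    have hN1 : N % 2 = 1 := by omega
    have hc : 0 < cos (φ / 2) := cos_pos_of_mem_Ioo ⟨by linarith [pi_pos], by linarith⟩
    have hl : ((M - 3 : ℕ) : ℝ) * (π / 2 + φ / 2) = ((m + 1 : ℤ) : ℝ) * π := by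
      have : (N : ℝ) * (φ / 2) = π / 2 := by rw [← hNφ]; ring
      rw [hNM, mul_add, this, hm]; push_cast; ring
    have g := g9_sq u k q M hu hk hq hM (φ / 2) hc (m + 1) hl (h1 hN1)
    rcases Nat.mod_two_eq_zero_or_one q with hq2 | hq2
    · have g1 := g.2 hq2
      obtain ⟨ψ, hψ⟩ : ∃ ψ, ψ = φ / 2 := ⟨_, rfl⟩
      rw [← hψ] at g1
      have hφψ : φ = 2 * ψ := by rw [hψ]; ring
      have hψ0 : 0 < ψ := by rw [hψ]; linarith
      have e4 : ((3 * q + 2 : ℕ) : ℝ) * ψ = (3 * q + 2) * ψ := by push_cast; ring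
      rw [e4] at g1
      have hb : (10 * (q : ℝ) + 2) * ψ ≤ π := by
        have : (5 * (q : ℝ) + 1) * φ ≤ N * φ := mul_le_mul_of_nonneg_right hN5r hφ0.le
        rw [hNφ, hφψ] at this
        linarith
      have s1 : 0 < sin ((3 * q + 2) * ψ) := sin_pos_of_pos_of_lt_pi (by positivity)
        (by nlinarith)
      have s2 : 0 < sin (q * ψ) := sin_pos_of_pos_of_lt_pi (by positivity) (by nlinarith)
      have c2 : 0 < cos (2 * ψ) := cos_pos_of_mem_Ioo ⟨by linarith [pi_pos], by nlinarith⟩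
      have g2 : sin ((3 * q + 2) * ψ) = 2 * cos (2 * ψ) * sin (q * ψ) := by
        have h5 : sin ((3 * q + 2) * ψ) ^ 2 = (2 * cos (2 * ψ) * sin (q * ψ)) ^ 2 := by
          rw [g1]; ring
        exact (pow_left_inj₀ s1.le (by positivity) two_ne_zero).1 h5
      have hs : sin φ ≠ 0 := (sin_pos_of_pos_of_lt_pi hφ0 (by linarith)).ne'
      have g3 := p2_rel u k q M hu hk hq hM φ hs 1 (by rw [hNM, hNφ]; push_cast; ring) h0
      have e5 : ((3 * q + 2 : ℕ) : ℝ) * φ = 2 * ((3 * q + 2) * ψ) := by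
        rw [hφψ]; push_cast; ring
      have e6 : (q : ℝ) * φ = 2 * (q * ψ) := by rw [hφψ]; ring
      have e7 : 2 * φ = 4 * ψ := by rw [hφψ]; ring
      rw [e5, e6, e7, sin_two_mul, sin_two_mul, g2] at g3
      have g4 : cos (4 * ψ) * cos (q * ψ) = cos (2 * ψ) * cos ((3 * q + 2) * ψ) := by
        have h6 : (4 * sin (q * ψ)) * (cos (4 * ψ) * cos (q * ψ)) =
            (4 * sin (q * ψ)) * (cos (2 * ψ) * cos ((3 * q + 2) * ψ)) := by
          linear_combination g3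
        exact mul_left_cancel₀ (by positivity) h6
      have g5 : cos ((q + 4) * ψ) + cos ((q - 4) * ψ) =
          cos ((3 * q + 4) * ψ) + cos (3 * q * ψ) := by
        have a1 : ((q : ℝ) + 4) * ψ = q * ψ + 4 * ψ := by ring
        have a2 : ((q : ℝ) - 4) * ψ = q * ψ - 4 * ψ := by ring
        have a3 : (3 * (q : ℝ) + 4) * ψ = (3 * q + 2) * ψ + 2 * ψ := by ring
        have a4 : 3 * (q : ℝ) * ψ = (3 * q + 2) * ψ - 2 * ψ := by ring
        rw [a1, a2, a3, a4, cos_add, cos_sub, cos_add, cos_sub]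
        linear_combination 2 * g4
      have g6 : cos ((3 * q + 4) * ψ) < cos ((q + 4) * ψ) :=
        cos_lt_cos_of_nonneg_of_le_pi (by positivity) (by nlinarith)
          (mul_lt_mul_of_pos_right (by linarith) hψ0)
      have g7 : cos (3 * q * ψ) < cos ((q - 4) * ψ) :=
        cos_lt_cos_of_nonneg_of_le_pi (mul_nonneg (by linarith) hψ0.le) (by nlinarith)
          (mul_lt_mul_of_pos_right (by linarith) hψ0)
      linarith
    · have g1 := g.1 hq2
      refine g9_big (2 * (φ / 2)) (q * (φ / 2)) _ 0.97 0.9 (cos_sq_le_one _) ?_ ?_ (by norm_num)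
        (by norm_num) (by norm_num) g1
      · nlinarith
      · nlinarith

end Pool.Agent.Helper27.TT
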