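import Mathlib
import Pool.Agent.Helper27.TT.F
import Pool.Agent.Helper27.TT.G0
import Pool.Agent.Helper27.TT.G3
import Pool.Agent.Helper27.TT.G4
import Pool.Agent.Helper27.TT.G5
import Pool.Agent.Helper27.TT.G7
import Pool.Agent.Helper27.TT.G8
import Pool.Agent.Helper27.TT.G9
import Pool.Agent.Helper27.TT.D2

/-!
# TT-H: the twisted torus knots `T(p, k p ± 1; r, 1)`, `r = 2` and `r = p - 2`
-/

set_option autoImplicit false

namespace Pool.Agent.Helper27.TT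

open Real

theorem gg_final (Mu : Multiset ℕ) (hMu : ∀ N ∈ Mu, 0 < N) (d t : ℕ) (F G : ℝ → ℝ)
    (hF : ∀ φ : ℝ, ∃ c : ℂ, c ≠ 0 ∧ cyP Mu φ * (sin (d * φ) : ℝ) = c * ((F φ : ℝ) : ℂ))
    (hG : ∀ φ, F φ * sin (t * φ) = G φ) (hc : Continuous G) (L1 L2 : ℕ) (h2 : 2 ≤ L2)
    (h12 : L2 < L1) (hpos : ∀ φ, 0 < φ → φ ≤ π / (L1 : ℝ) → 0 < G φ) (hneg : G (π / (L2 : ℝ)) < 0)
    (hd : 1 ≤ d) (hd2 : d < L2) (ht : 1 ≤ t) (ht2 : t < L2) :
    ∃ N : ℕ, L2 < N ∧ N < L1 ∧ G (π / N) = 0 ∧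
      (4 ∣ N → G (π / 2 + π / N) = 0) ∧
      (N % 2 = 1 → G (π / 2 + π / N / 2) = 0) ∧
      (N % 4 = 2 → G (π / 2 + 2 * (π / N)) = 0) := by
  have hL2 : (2 : ℝ) ≤ L2 := by exact_mod_cast h2
  have hL12 : (L2 : ℝ) < L1 := by exact_mod_cast h12
  have hs : ∀ n : ℕ, 1 ≤ n → n < L2 → ∀ φ, 0 < φ → φ ≤ π / (L2 : ℝ) → 0 < sin (n * φ) := by
    intro n hn hn2 φ p0 p1
    have e1 : (1 : ℝ) ≤ n := by exact_mod_cast hn
    have e2 : (n : ℝ) < L2 := by exact_mod_cast hn2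
    rw [le_div_iff₀ (by linarith)] at p1
    apply sin_pos_of_pos_of_lt_pi (by positivity)
    nlinarith
  obtain ⟨N, hN, hl, hh, h0, c4, c1, c2⟩ := engine Mu hMu G hc (π / (L1 : ℝ)) (π / (L2 : ℝ))
    (div_pos pi_pos (by linarith)) (div_lt_div_of_pos_left pi_pos (by linarith) hL12)
    (by
      rw [div_lt_iff₀ (by linarith)]
      nlinarith [pi_pos])
    (by
      intro φ p0
      obtain ⟨c, hc0, p1⟩ := hF φ
      rw [p0, zero_mul] at p1
      have p2 := (mul_eq_zero.1 p1.symm).resolve_left hc0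
      have p3 := Complex.ofReal_eq_zero.1 p2
      rw [← hG φ, p3, zero_mul])
    (by
      intro φ p0 p1 p2
      obtain ⟨c, hc0, p3⟩ := hF φ
      rw [← hG φ] at p2
      have p4 := (mul_eq_zero.1 p2).resolve_right (hs t ht ht2 φ p0 p1).ne'
      rw [p4, Complex.ofReal_zero, mul_zero] at p3
      refine (mul_eq_zero.1 p3).resolve_right ?_
      exact_mod_cast (hs d hd hd2 φ p0 p1).ne')
    hpos hneg.le
  have hNr : (0 : ℝ) < N := by exact_mod_cast hN
  refine ⟨N, ?_, ?_, h0, c4, c1, c2⟩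
  · have e1 : (L2 : ℝ) ≤ N := by
      by_contra hcon
      push Not at hcon
      have := div_lt_div_of_pos_left pi_pos hNr hcon
      linarith
    have e2 : L2 ≤ N := by exact_mod_cast e1
    rcases e2.lt_or_eq with e3 | e3
    · exact e3
    · exfalso
      rw [e3] at hneg
      linarith
  · by_contra hcon
    push Not at hcon
    have e1 : (L1 : ℝ) ≤ N := by exact_mod_cast hcon
    have := div_le_div_of_nonneg_left pi_pos.le (by linarith : (0 : ℝ) < L1) e1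
    linarith

open Pool.Agent.Helper62.OB in
/-- `T(p, k p + 1; p - 2, 1)`, `p = u + 2 ≥ 5` -/
theorem no_p3 (u k q : ℕ) (hu : 3 ≤ u) (hk : 1 ≤ k) (hq : q = k * (u + 2) + 1)
    (hc : IsCyclotomicProduct (alexander (tt (u + 1) q u 1))) : False := by
  obtain ⟨Mu, hMu, h⟩ := cyc_plus (u + 1) k u 1 q (q + u * 1) (by omega) (by omega) (by rw [hq])
    rfl hc
  have h2 : u + 1 + 1 - u = 2 := by omega
  obtain ⟨M, hM⟩ : ∃ M, M = (u + 2) * q + u ^ 2 := ⟨_, rfl⟩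
  have hM' : u * (q + u * 1) + (u + 1 + 1 - u) * q = M := by rw [h2, hM]; ring
  have hd : q + u * 1 - 1 = q + u - 1 := by omega
  have hq6 : 6 ≤ q := by
    rw [hq]
    have : 1 * (u + 2) ≤ k * (u + 2) := Nat.mul_le_mul_right _ hk
    omega
  have hMq : 5 * q + 9 ≤ M := by
    rw [hM]
    nlinarith
  obtain ⟨N, hl, hh, -, c4, c1, c2⟩ := gg_final Mu hMu (q + u * 1) (q + u - 1) _
    (GG M (q + u - 1) q u) h (by
      intro φ
      have := GG_three M q (q + u - 1) u φ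
      rw [hM', h2, hd]
      exact_mod_cast this) (GG_continuous _ _ _ _) (M - 2) (M - 4) (by omega) (by omega)
    (fun φ p0 p1 => p3_pos u k q M hu hk hq hM φ p0 p1) (p3_neg u k q M hu hk hq hM)
    (by omega) (by rw [hM]; nlinarith [Nat.sub_add_cancel (show 4 ≤ (u + 2) * q + u ^ 2 by nlinarith)])
    (by omega) (by rw [hM]; nlinarith [Nat.sub_add_cancel (show 4 ≤ (u + 2) * q + u ^ 2 by nlinarith), Nat.sub_le (q + u) 1])
  exact p3_contra u k q M N hu hk hq hM (by omega) c4 c1 c2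

open Pool.Agent.Helper62.OB in
/-- `T(p, k p - 1; p - 2, 1)`, `p = u + 2 ≥ 5`, `k ≥ 2` -/
theorem no_m3 (u k q : ℕ) (hu : 3 ≤ u) (hk : 2 ≤ k) (hq : q + 1 = k * (u + 2))
    (hc : IsCyclotomicProduct (alexander (tt (u + 1) q u 1))) : False := by
  obtain ⟨Mu, hMu, h⟩ := cyc_minus (u + 1) k u 1 q (q + u * 1) (by omega) (by omega) (by omega)
    (by rw [hq]) rfl hc
  have h2 : u + 1 + 1 - u = 2 := by omega
  obtain ⟨M, hM⟩ : ∃ M, M = (u + 2) * q + u ^ 2 := ⟨_, rfl⟩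
  have hM' : u * (q + u * 1) + (u + 1 + 1 - u) * q = M := by rw [h2, hM]; ring
  have hd : q + u * 1 + 1 = q + u + 1 := by omega
  have hq6 : 9 ≤ q := by
    have : 2 * (u + 2) ≤ k * (u + 2) := Nat.mul_le_mul_right _ hk
    omega
  have hMu' : q + u + 1 < M - 4 := by
    have : q + u + 1 + 4 < (u + 2) * q + u ^ 2 := by nlinarith
    omega
  obtain ⟨N, hl, hh, h0, c4, c1, c2⟩ := gg_final Mu hMu (q + u * 1) (q + u + 1) _
    (GG M (q + u + 1) q u) h (by
      intro φ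
      have := GG_three M q (q + u + 1) u φ
      rw [hM', h2, hd]
      exact_mod_cast this) (GG_continuous _ _ _ _) (M - 1) (M - 4) (by omega) (by omega)
    (fun φ p0 p1 => m3_pos u k q M hu hk hq hM φ p0 p1) (m3_neg u k q M hu hk hq hM)
    (by omega) (by omega) (by omega) hMu'
  rcases (show N + 2 = M ∨ N + 3 = M by omega) with hN | hN
  · exact m3_contra2 u k q M N hu hk hq hM hN h0 c4 c1 c2
  · rcases (show u = 3 ∨ 4 ≤ u by omega) with hu3 | hu4
    · subst hu3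
      have := m3_neg3 k q M hk (by rw [hq]) (by rw [hM]; ring)
      have hN' : M - 3 = N := by omega
      rw [hN', h0] at this
      exact lt_irrefl _ this
    · exact m3_contra3 u k q M N hu4 hk hq hM hN h0 c4 c1 c2

open Pool.Agent.Helper62.OB in
/-- `T(p, k p - 1; 2, 1)`, `p = u + 2 ≥ 5`, `(p, k) ≠ (5, 1)` -/
theorem no_m2 (u k q : ℕ) (hu : 3 ≤ u) (hk : 1 ≤ k) (hne : 4 ≤ u ∨ 2 ≤ k)
    (hq : q + 1 = k * (u + 2))
    (hc : IsCyclotomicProduct (alexander (tt (u + 1) q 2 1))) : False := by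
  obtain ⟨Mu, hMu, h⟩ := cyc_minus (u + 1) k 2 1 q (q + 2 * 1) (by omega) (by omega) (by omega)
    (by rw [hq]) rfl hc
  have h2 : u + 1 + 1 - 2 = u := by omega
  obtain ⟨M, hM⟩ : ∃ M, M = (u + 2) * q + 4 := ⟨_, rfl⟩
  have hM' : 2 * (q + 2 * 1) + (u + 1 + 1 - 2) * q = M := by rw [h2, hM]; ring
  have hd : q + 2 * 1 + 1 = q + 3 := by omega
  have hq6 : 5 ≤ q := by
    rcases hne with h1 | h1
    · have : 1 * (u + 2) ≤ k * (u + 2) := Nat.mul_le_mul_right _ hk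
      omega
    · have : 2 * (u + 2) ≤ k * (u + 2) := Nat.mul_le_mul_right _ h1
      omega
  have hMu' : q + 3 < M - 4 := by
    have : q + 3 + 4 < (u + 2) * q + 4 := by nlinarith
    omega
  obtain ⟨N, hl, hh, -, c4, c1, c2⟩ := gg_final Mu hMu (q + 2 * 1) q _
    (GG M q (q + 3) u) h (by
      intro φ
      have := GG_two M q (q + 3) u φ
      rw [hM', h2, hd]
      exact_mod_cast this) (GG_continuous _ _ _ _) (M - 2) (M - 4) (by omega) (by omega)
    (fun φ p0 p1 => m2_pos u k q M hu hk hq hne hM φ p0 p1) (m2_neg u k q M hu hk hq hM)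
    (by omega) (by omega) (by omega) (by omega)
  exact m2_contra u k q M N hu hk hq hne hM (by omega) c4 c1 c2

open Pool.Agent.Helper62.OB in
/-- `T(p, k p + 1; 2, 1)`, `p = u + 2 ≥ 5` -/
theorem no_p2 (u k q : ℕ) (hu : 3 ≤ u) (hk : 1 ≤ k) (hq : q = k * (u + 2) + 1)
    (hc : IsCyclotomicProduct (alexander (tt (u + 1) q 2 1))) : False := by
  obtain ⟨Mu, hMu, h⟩ := cyc_plus (u + 1) k 2 1 q (q + 2 * 1) (by omega) (by omega) (by rw [hq])
    rfl hc
  have h2 : u + 1 + 1 - 2 = u := by omega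
  obtain ⟨M, hM⟩ : ∃ M, M = (u + 2) * q + 4 := ⟨_, rfl⟩
  have hM' : 2 * (q + 2 * 1) + (u + 1 + 1 - 2) * q = M := by rw [h2, hM]; ring
  have hd : q + 2 * 1 - 1 = q + 1 := by omega
  have hq6 : 6 ≤ q := by
    rw [hq]
    have : 1 * (u + 2) ≤ k * (u + 2) := Nat.mul_le_mul_right _ hk
    omega
  have hMu' : q + 3 < M - 4 := by
    have : q + 3 + 4 < (u + 2) * q + 4 := by nlinarith
    omega
  obtain ⟨N, hl, hh, h0, c4, c1, c2⟩ := gg_final Mu hMu (q + 2 * 1) q _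
    (GG M q (q + 1) u) h (by
      intro φ
      have := GG_two M q (q + 1) u φ
      rw [hM', h2, hd]
      exact_mod_cast this) (GG_continuous _ _ _ _) (M - 2) (M - 4) (by omega) (by omega)
    (fun φ p0 p1 => p2_pos u k q M hu hk hq hM φ p0 p1) (p2_neg u k q M hu hk hq hM)
    (by omega) (by omega) (by omega) (by omega)
  exact p2_contra u k q M N hu hk hq hM (by omega) h0 c4 c1 c2

open Pool.Agent.Helper62.OB in
/-- `T(4, 4 k - 1; 2, 1)`, `k ≥ 2` -/
theorem no_four (k q : ℕ) (hk : 2 ≤ k) (hq : q + 1 = k * 4)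
    (hc : IsCyclotomicProduct (alexander (tt 3 q 2 1))) : False := by
  obtain ⟨Mu, hMu, h⟩ := cyc_minus 3 k 2 1 q (q + 2 * 1) (by omega) (by omega) (by omega)
    (by rw [hq]) rfl hc
  have h2 : 3 + 1 - 2 = 2 := by omega
  have hM' : 2 * (q + 2 * 1) + (3 + 1 - 2) * q = 4 * q + 4 := by rw [h2]; ring
  have hd : q + 2 * 1 + 1 = q + 3 := by omega
  have hq7 : 7 ≤ q := by omega
  obtain ⟨N, hl, hh, -, -, -, -⟩ := gg_final Mu hMu (q + 2 * 1) q _
    (GG (4 * q + 4) q (q + 3) 2) h (by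
      intro φ
      have := GG_two (4 * q + 4) q (q + 3) 2 φ
      rw [hM', h2, hd]
      exact_mod_cast this) (GG_continuous _ _ _ _) (4 * q + 3) (4 * q + 2) (by omega) (by omega)
    (fun φ p0 p1 => f4_pos q hq7 φ p0 p1) (f4_neg q hq7)
    (by omega) (by omega) (by omega) (by omega)
  omega

open Pool.Agent.Helper62.OB in
/-- The Li-Ni statement for the twisted torus knots `T(p, k p ± 1; r, s)` with `r = p - 1`, or `s = 1`
and `r = 2` or `r = p - 2` (`p ≥ 4`). -/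
theorem main2 (p k r s q : ℕ) (hp : 4 ≤ p) (hk : 1 ≤ k) (hs : 1 ≤ s)
    (hq : q = k * p + 1 ∨ q + 1 = k * p) (hr : r = p - 1 ∨ (s = 1 ∧ (r = 2 ∨ r = p - 2)))
    (hc : IsCyclotomicProduct (alexander (tt (p - 1) q r s))) :
    (IsTorusKnot ⟨p - 1, tt (p - 1) q r s⟩ ∧
      ((r = p - 1 ∧ s = 1 ∧ q = k * p + 1) ∨ (r = p - 1 ∧ q = p - 1) ∨
        (r = p - 2 ∧ s = 1 ∧ q = p - 1))) ∨
      (IsIterTorus ⟨p - 1, tt (p - 1) q r s⟩ ∧
        r = 2 ∧ s = 1 ∧ ((p = 4 ∧ q = 4 * k + 1) ∨ (p = 5 ∧ q = 4))) := by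
  obtain ⟨u, rfl⟩ : ∃ u, p = u + 2 := ⟨p - 2, by omega⟩
  have hm : u + 2 - 1 = u + 1 := by omega
  have hr' : u + 2 - 2 = u := by omega
  rw [hm, hr'] at *
  have main_two : ∀ hc' : IsCyclotomicProduct (alexander (tt (u + 1) q 2 1)),
      (IsTorusKnot ⟨u + 1, tt (u + 1) q 2 1⟩ ∧ 2 = u ∧ q = u + 1) ∨
      (IsIterTorus ⟨u + 1, tt (u + 1) q 2 1⟩ ∧
        ((u + 2 = 4 ∧ q = 4 * k + 1) ∨ (u + 2 = 5 ∧ q = 4))) := by
    intro hc'
    rcases (show u = 2 ∨ 3 ≤ u by omega) with hu | hu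
    · subst hu
      rcases hq with hq | hq
      · right
        have hq4 : q = 4 * k + 1 := by omega
        subst hq4
        exact ⟨cable_four k, Or.inl ⟨rfl, rfl⟩⟩
      · rcases (show k = 1 ∨ 2 ≤ k by omega) with h1 | h1
        · left
          have hq3 : q = 3 := by omega
          subst hq3
          exact ⟨torus_three 3 (by omega), rfl, rfl⟩
        · exact (no_four k q h1 hq hc').elim
    · rcases hq with hq | hq
      · exact (no_p2 u k q hu hk hq hc').elim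
      · rcases (show (u = 3 ∧ k = 1) ∨ (4 ≤ u ∨ 2 ≤ k) by omega) with h1 | h1
        · obtain ⟨rfl, rfl⟩ := h1
          have hq4 : q = 4 := by omega
          subst hq4
          exact Or.inr ⟨cable_five, Or.inr ⟨rfl, rfl⟩⟩
        · exact (no_m2 u k q hu hk h1 hq hc').elim
  rcases hr with hr | ⟨hs1, hr | hr⟩
  · left
    subst hr
    obtain ⟨h1, h2⟩ := main (u + 1) k s q (by omega) hk hs hq hc
    refine ⟨h1, ?_⟩
    rcases h2 with h2 | h2
    · exact Or.inl ⟨rfl, h2.2, h2.1⟩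
    · refine Or.inr (Or.inl ⟨rfl, ?_⟩)
      have h3 := h2.1
      rw [h2.2] at h3
      omega
  · subst hs1
    subst hr
    rcases main_two hc with ⟨h1, h2, h3⟩ | ⟨h1, h2⟩
    · exact Or.inl ⟨h1, Or.inr (Or.inr ⟨h2, rfl, h3⟩)⟩
    · exact Or.inr ⟨h1, rfl, rfl, h2⟩
  · subst hs1
    subst hr
    rcases (show r = 2 ∨ 3 ≤ r by omega) with hu | hu
    · subst hu
      rcases main_two hc with ⟨h1, h2, h3⟩ | ⟨h1, h2⟩
      · exact Or.inl ⟨h1, Or.inr (Or.inr ⟨rfl, rfl, h3⟩)⟩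
      · exact Or.inr ⟨h1, rfl, rfl, h2⟩
    · rcases hq with hq | hq
      · exact (no_p3 r k q hu hk hq hc).elim
      · rcases (show k = 1 ∨ 2 ≤ k by omega) with h1 | h1
        · subst h1
          have hqm : q = r + 1 := by omega
          subst hqm
          have := torus_three (r + 1) (by omega)
          rw [Nat.add_sub_cancel] at this
          exact Or.inl ⟨this, Or.inr (Or.inr ⟨rfl, rfl, rfl⟩)⟩
        · exact (no_m3 r k q hu h1 hq hc).elim

end Pool.Agent.Helper27.TT
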